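import Mathlib

/-!
# Families of symmetric bilinear forms (helper39, MP_716236_co, part H)

* `open_lemma`: definiteness on the orthogonal complement is an open condition;
* `closed_lemma`: semidefiniteness on the orthogonal complement passes to the limit;
* `null_of_semidef`: semidefinite and a null vector gives a vector of the radical;
* `exists_rep`: solving `G y = l`.
-/

namespace Pool.Agent.KF.S

open Filter Topology

section open_

variable {V U : Type*} [AddCommGroup V] [Module ℝ V] [Module.Finite ℝ V]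
  [AddCommGroup U] [Module ℝ U]

/-- Joint continuity of a family of bilinear forms in coordinates. -/
theorem tendsto_bilin_coord {n : ℕ} (β : ℝ → Fin n → Fin n → ℝ) (β₀ : Fin n → Fin n → ℝ)
    (l : Filter ℝ) (h : ∀ i j, Tendsto (fun c => β c i j) l (𝓝 (β₀ i j))) (x₀ : Fin n → ℝ) :
    Tendsto (fun p : ℝ × (Fin n → ℝ) => ∑ i, ∑ j, p.2 i * p.2 j * β p.1 i j) (l ×ˢ 𝓝 x₀)
      (𝓝 (∑ i, ∑ j, x₀ i * x₀ j * β₀ i j)) := by
  refine tendsto_finsetSum _ fun i _ => tendsto_finsetSum _ fun j _ => ?_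
  have h1 : Tendsto (fun p : ℝ × (Fin n → ℝ) => p.2 i) (l ×ˢ 𝓝 x₀) (𝓝 (x₀ i)) :=
    ((continuous_apply i).tendsto x₀).comp tendsto_snd
  have h2 : Tendsto (fun p : ℝ × (Fin n → ℝ) => p.2 j) (l ×ˢ 𝓝 x₀) (𝓝 (x₀ j)) :=
    ((continuous_apply j).tendsto x₀).comp tendsto_snd
  exact (h1.mul h2).mul ((h i j).comp tendsto_fst)

theorem tendsto_lin_coord {n : ℕ} (β : ℝ → Fin n → ℝ) (β₀ : Fin n → ℝ)
    (l : Filter ℝ) (h : ∀ i, Tendsto (fun c => β c i) l (𝓝 (β₀ i))) (x₀ : Fin n → ℝ) :
    Tendsto (fun p : ℝ × (Fin n → ℝ) => ∑ i, p.2 i * β p.1 i) (l ×ˢ 𝓝 x₀)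
      (𝓝 (∑ i, x₀ i * β₀ i)) := by
  refine tendsto_finsetSum _ fun i _ => ?_
  have h1 : Tendsto (fun p : ℝ × (Fin n → ℝ) => p.2 i) (l ×ˢ 𝓝 x₀) (𝓝 (x₀ i)) :=
    ((continuous_apply i).tendsto x₀).comp tendsto_snd
  exact h1.mul ((h i).comp tendsto_fst)

/-- Definiteness on the orthogonal complement (modulo a constant radical `K`) is open. -/
theorem open_lemma (B : ℝ → V →ₗ[ℝ] V →ₗ[ℝ] ℝ) (L : ℝ → V →ₗ[ℝ] U →ₗ[ℝ] ℝ)
    (B₀ : V →ₗ[ℝ] V →ₗ[ℝ] ℝ) (L₀ : V →ₗ[ℝ] U →ₗ[ℝ] ℝ) (l : Filter ℝ)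
    (hB : ∀ x y, Tendsto (fun c => B c x y) l (𝓝 (B₀ x y)))
    (hL : ∀ x y, Tendsto (fun c => L c x y) l (𝓝 (L₀ x y)))
    (K : Submodule ℝ V)
    (hK : ∀ᶠ c in l, ∀ k ∈ K, (∀ x, B c k x = 0) ∧ (∀ x, B c x k = 0) ∧ ∀ u, L c k u = 0)
    (h : ∀ x, x ∉ K → (∀ y, L₀ x y = 0) → 0 < B₀ x x) :
    ∀ᶠ c in l, ∀ x, x ∉ K → (∀ y, L c x y = 0) → 0 < B c x x := by
  classical
  obtain ⟨V', hV'⟩ := K.exists_isCompl
  let b := Module.finBasis ℝ V'
  set n := Module.finrank ℝ V'
  -- the vector with coordinates `t`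
  let vec : (Fin n → ℝ) → V := fun t => ∑ i, t i • (b i : V)
  have hvec_mem : ∀ t, vec t ∈ V' := fun t =>
    V'.sum_mem fun i _ => V'.smul_mem _ (b i).2
  have hvec_zero : ∀ t, vec t ∈ K → t = 0 := by
    intro t ht
    have h0 : vec t = 0 := by
      have : vec t ∈ K ⊓ V' := ⟨ht, hvec_mem t⟩
      rw [hV'.inf_eq_bot] at this
      simpa using this
    have h1 : ∑ i, t i • b i = 0 := by
      apply Subtype.ext
      simpa [vec] using h0
    have h2 := Fintype.linearIndependent_iff.1 b.linearIndependent t h1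
    funext i
    exact h2 i
  have hBvec : ∀ (B' : V →ₗ[ℝ] V →ₗ[ℝ] ℝ) t, B' (vec t) (vec t) =
      ∑ i, ∑ j, t i * t j * B' (b i) (b j) := by
    intro B' t
    simp only [vec, map_sum, map_smul, LinearMap.sum_apply, LinearMap.smul_apply, smul_eq_mul,
      Finset.mul_sum]
    rw [Finset.sum_comm]
    refine Finset.sum_congr rfl fun i _ => Finset.sum_congr rfl fun j _ => by ring
  have hLvec : ∀ (L' : V →ₗ[ℝ] U →ₗ[ℝ] ℝ) t u, L' (vec t) u = ∑ i, t i * L' (b i) u := by
    intro L' t u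
    simp [vec, map_sum, LinearMap.sum_apply]
  -- the compact set
  let S : Set (Fin n → ℝ) := Metric.sphere 0 1
  have hS : IsCompact S := isCompact_sphere 0 1
  have key : ∀ t ∈ S, ∀ᶠ p : ℝ × (Fin n → ℝ) in l ×ˢ 𝓝 t,
      ((∀ y, L p.1 (vec p.2) y = 0) → 0 < B p.1 (vec p.2) (vec p.2)) := by
    intro t ht
    have ht0 : t ≠ 0 := by
      rintro rfl
      simp [S] at ht
    have hnK : vec t ∉ K := fun hh => ht0 (hvec_zero t hh)
    by_cases hy : ∀ y, L₀ (vec t) y = 0
    · have hpos := h _ hnK hy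
      have hT := tendsto_bilin_coord (fun c i j => B c (b i) (b j)) (fun i j => B₀ (b i) (b j)) l
        (fun i j => hB _ _) t
      rw [← hBvec B₀ t] at hT
      filter_upwards [hT.eventually (lt_mem_nhds hpos)] with p hp _
      rw [hBvec]
      exact hp
    · push Not at hy
      obtain ⟨y, hy⟩ := hy
      have hT := tendsto_lin_coord (fun c i => L c (b i) y) (fun i => L₀ (b i) y) l
        (fun i => hL _ _) t
      rw [← hLvec L₀ t y] at hT
      filter_upwards [hT.eventually_ne hy] with p hp hp2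
      exfalso
      apply hp
      rw [← hLvec]
      exact hp2 y
  have key2 : ∀ᶠ c in l, ∀ t ∈ S, (∀ y, L c (vec t) y = 0) → 0 < B c (vec t) (vec t) := by
    have := hS.prod_nhdsSet_eq_biSup l
    have h3 : ∀ᶠ p : ℝ × (Fin n → ℝ) in l ×ˢ 𝓝ˢ S,
        ((∀ y, L p.1 (vec p.2) y = 0) → 0 < B p.1 (vec p.2) (vec p.2)) := by
      rw [this]
      simp only [eventually_iSup]
      exact key
    exact h3.curry.mono fun _ h ↦ h.self_of_nhdsSet
  filter_upwards [key2, hK] with c hc hKc x hx hxy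
  -- decompose x = k + v'
  obtain ⟨k, hk, v, hv, rfl⟩ : ∃ k ∈ K, ∃ v ∈ V', k + v = x := by
    have : x ∈ K ⊔ V' := by rw [hV'.sup_eq_top]; trivial
    exact Submodule.mem_sup.1 this
  obtain ⟨t, ht⟩ : ∃ t, vec t = v := by
    refine ⟨fun i => b.repr ⟨v, hv⟩ i, ?_⟩
    have h2 : ((∑ i, b.repr ⟨v, hv⟩ i • b i : V') : V) = v := by
      rw [b.sum_repr]
    refine Eq.trans ?_ h2
    simp only [vec, AddSubmonoidClass.coe_finsetSum, SetLike.val_smul]
  have ht0 : t ≠ 0 := by
    rintro rfl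
    apply hx
    have : v = 0 := by rw [← ht]; simp [vec]
    rw [this]; simpa using hk
  have hnorm : 0 < ‖t‖ := norm_pos_iff.2 ht0
  have hsc : ∀ r : ℝ, vec (r • t) = r • vec t := by
    intro r
    simp [vec, Finset.smul_sum, smul_smul]
  have hmem : ‖t‖⁻¹ • t ∈ S := by
    simp [S, norm_smul, hnorm.ne']
  have hL' : ∀ y, L c (vec (‖t‖⁻¹ • t)) y = 0 := by
    intro y
    rw [hsc, map_smul, LinearMap.smul_apply, ht]
    have := hxy y
    rw [map_add, LinearMap.add_apply, (hKc k hk).2.2 y, zero_add] at this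
    rw [this, smul_zero]
  have hfin := hc _ hmem hL'
  rw [hsc, ht] at hfin
  simp only [map_smul, LinearMap.smul_apply, smul_eq_mul] at hfin
  have hBB : B c (k + v) (k + v) = B c v v := by
    simp only [map_add, LinearMap.add_apply]
    rw [(hKc k hk).1 k, (hKc k hk).1 v, (hKc k hk).2.1 v]
    ring
  rw [hBB]
  by_contra hneg
  push Not at hneg
  have : ‖t‖⁻¹ * (‖t‖⁻¹ * B c v v) ≤ 0 := by
    have h1 : 0 < ‖t‖⁻¹ := inv_pos.2 hnorm
    nlinarith [mul_pos h1 h1]
  linarith

end open_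

section closed_

variable {V U : Type*} [AddCommGroup V] [Module ℝ V]
  [AddCommGroup U] [Module ℝ U] [Module.Finite ℝ U]

/-- Solving `G y = l` for a symmetric form `G` with radical `K'`, for `l` vanishing on `K'`;
coordinate version: a finite basis of a complement and an invertible matrix. -/
theorem exists_coord (K' : Submodule ℝ U) :
    ∃ (n : ℕ) (e : Fin n → U), (∀ t : Fin n → ℝ, ∑ i, t i • e i ∈ K' → t = 0) ∧
      ∀ y : U, ∃ k ∈ K', ∃ t : Fin n → ℝ, y = k + ∑ i, t i • e i := by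
  classical
  obtain ⟨U', hU'⟩ := K'.exists_isCompl
  let b := Module.finBasis ℝ U'
  refine ⟨Module.finrank ℝ U', fun i => (b i : U), ?_, ?_⟩
  · intro t ht
    have h0 : ∑ i, t i • (b i : U) = 0 := by
      have : ∑ i, t i • (b i : U) ∈ K' ⊓ U' :=
        ⟨ht, U'.sum_mem fun i _ => U'.smul_mem _ (b i).2⟩
      rw [hU'.inf_eq_bot] at this
      simpa using this
    have h1 : ∑ i, t i • b i = 0 := by
      apply Subtype.ext
      simpa using h0
    have h2 := Fintype.linearIndependent_iff.1 b.linearIndependent t h1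
    funext i
    exact h2 i
  · intro y
    obtain ⟨k, hk, v, hv, rfl⟩ : ∃ k ∈ K', ∃ v ∈ U', k + v = y := by
      have : y ∈ K' ⊔ U' := by rw [hU'.sup_eq_top]; trivial
      exact Submodule.mem_sup.1 this
    refine ⟨k, hk, fun i => b.repr ⟨v, hv⟩ i, ?_⟩
    have h2 : ((∑ i, b.repr ⟨v, hv⟩ i • b i : U') : U) = v := by
      rw [b.sum_repr]
    congr 1
    refine h2.symm.trans ?_
    simp only [AddSubmonoidClass.coe_finsetSum, SetLike.val_smul]

omit [Module.Finite ℝ U] in
/-- The Gram matrix on a complement of the radical is invertible. -/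
theorem gram_det_ne_zero (G : U → U → ℝ)
    (hadd : ∀ x y z, G (x + y) z = G x z + G y z) (hsmul : ∀ (r : ℝ) x z, G (r • x) z = r * G x z)
    (hsymm : ∀ x y, G x y = G y x)
    (K' : Submodule ℝ U) (hK' : ∀ k ∈ K', ∀ y, G k y = 0)
    (hnd : ∀ y, (∀ y', G y y' = 0) → y ∈ K')
    {n : ℕ} (e : Fin n → U) (he : ∀ t : Fin n → ℝ, ∑ i, t i • e i ∈ K' → t = 0)
    (hspan : ∀ y : U, ∃ k ∈ K', ∃ t : Fin n → ℝ, y = k + ∑ i, t i • e i) :
    (Matrix.of fun i j => G (e i) (e j)).det ≠ 0 := by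
  classical
  intro hdet
  obtain ⟨t, ht0, ht⟩ := Matrix.exists_vecMul_eq_zero_iff.2 hdet
  apply ht0
  apply he
  apply hnd
  have hsum : ∀ (s : Finset (Fin n)) z, G (∑ i ∈ s, t i • e i) z = ∑ i ∈ s, t i * G (e i) z := by
    intro s z
    induction s using Finset.induction_on with
    | empty =>
      simp only [Finset.sum_empty]
      have := hsmul 0 0 z
      simpa using this
    | insert a s ha ih => rw [Finset.sum_insert ha, Finset.sum_insert ha, hadd, hsmul, ih]
  have hsum2 : ∀ (s : Finset (Fin n)) (τ : Fin n → ℝ) z,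
      G z (∑ i ∈ s, τ i • e i) = ∑ i ∈ s, τ i * G z (e i) := by
    intro s τ z
    induction s using Finset.induction_on with
    | empty =>
      simp only [Finset.sum_empty]
      have := hsmul 0 0 z
      rw [hsymm]
      simpa using this
    | insert a s ha ih =>
      rw [Finset.sum_insert ha, Finset.sum_insert ha, hsymm, hadd, hsmul, hsymm _ z, hsymm _ z, ih]
  intro y
  obtain ⟨k, hk, τ, rfl⟩ := hspan y
  rw [hsymm, hadd, hK' k hk, zero_add, hsymm, hsum2]
  refine Finset.sum_eq_zero fun j _ => ?_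
  rw [hsum]
  have := congrFun ht j
  simp only [Matrix.vecMul, dotProduct, Matrix.of_apply, Pi.zero_apply] at this
  rw [this, mul_zero]

/-- Semidefiniteness on the orthogonal complement passes to the limit. -/
theorem closed_lemma (B : ℝ → V →ₗ[ℝ] V →ₗ[ℝ] ℝ) (W : ℝ → U →ₗ[ℝ] V)
    (B₀ : V →ₗ[ℝ] V →ₗ[ℝ] ℝ) (W₀ : U →ₗ[ℝ] V) (l : Filter ℝ) [l.NeBot]
    (hsymm : ∀ᶠ c in l, ∀ x y, B c x y = B c y x) (hsymm0 : ∀ x y, B₀ x y = B₀ y x)
    (hB : ∀ x y, Tendsto (fun c => B c x y) l (𝓝 (B₀ x y)))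
    (hL : ∀ x y, Tendsto (fun c => B c x (W c y)) l (𝓝 (B₀ x (W₀ y))))
    (hG : ∀ y y', Tendsto (fun c => B c (W c y) (W c y')) l (𝓝 (B₀ (W₀ y) (W₀ y'))))
    (K' : Submodule ℝ U)
    (hK' : ∀ᶠ c in l, ∀ k ∈ K', ∀ x, B c x (W c k) = 0)
    (hnd : ∀ y, (∀ y', B₀ (W₀ y) (W₀ y') = 0) → y ∈ K')
    (hpos : ∀ᶠ c in l, ∀ x, (∀ y, B c x (W c y) = 0) → 0 ≤ B c x x) :
    ∀ x, (∀ y, B₀ x (W₀ y) = 0) → 0 ≤ B₀ x x := by
  classical
  obtain ⟨n, e, he, hspan⟩ := exists_coord K'
  have hK'0 : ∀ k ∈ K', ∀ x, B₀ x (W₀ k) = 0 := by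
    intro k hk x
    refine tendsto_nhds_unique (hL x k) ?_
    refine tendsto_const_nhds.congr' ?_
    filter_upwards [hK'] with c hc
    exact (hc k hk x).symm
  set M₀ : Matrix (Fin n) (Fin n) ℝ := Matrix.of fun i j => B₀ (W₀ (e i)) (W₀ (e j)) with hM₀
  have hdet : M₀.det ≠ 0 :=
    gram_det_ne_zero (fun y y' => B₀ (W₀ y) (W₀ y')) (by intro x y z; simp) (by intro r x z; simp)
      (fun x y => hsymm0 _ _) K' (fun k hk y => by rw [hsymm0]; exact hK'0 k hk _) hnd e he hspan
  set M : ℝ → Matrix (Fin n) (Fin n) ℝ := fun c => Matrix.of fun i j =>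
    B c (W c (e i)) (W c (e j)) with hM
  have hMt : Tendsto M l (𝓝 M₀) := by
    refine tendsto_pi_nhds.2 fun i => tendsto_pi_nhds.2 fun j => ?_
    exact hG (e i) (e j)
  have hdt : Tendsto (fun c => (M c).det) l (𝓝 M₀.det) :=
    ((continuous_id.matrix_det).tendsto M₀).comp hMt
  have hadj : Tendsto (fun c => (M c).adjugate) l (𝓝 M₀.adjugate) :=
    ((continuous_id.matrix_adjugate).tendsto M₀).comp hMt
  have hdne : ∀ᶠ c in l, (M c).det ≠ 0 := hdt.eventually_ne hdet
  intro x hx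
  let lc : ℝ → Fin n → ℝ := fun c j => B c x (W c (e j))
  let t : ℝ → Fin n → ℝ := fun c i => (M c).det⁻¹ * ∑ j, (M c).adjugate i j * lc c j
  have hlc : ∀ j, Tendsto (fun c => lc c j) l (𝓝 0) := by
    intro j
    have := hL x (e j)
    rw [hx (e j)] at this
    exact this
  have ht : ∀ i, Tendsto (fun c => t c i) l (𝓝 0) := by
    intro i
    have h1 : Tendsto (fun c => ∑ j, (M c).adjugate i j * lc c j) l
        (𝓝 (∑ j, M₀.adjugate i j * 0)) := by
      refine tendsto_finsetSum _ fun j _ => ?_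
      have h2 : Tendsto (fun c => (M c).adjugate i j) l (𝓝 (M₀.adjugate i j)) :=
        tendsto_pi_nhds.1 (tendsto_pi_nhds.1 hadj i) j
      exact h2.mul (hlc j)
    have h3 := (hdt.inv₀ hdet).mul h1
    simpa using h3
  have hmain : ∀ᶠ c in l, 0 ≤ B c x x - ∑ i, t c i * lc c i := by
    filter_upwards [hsymm, hK', hpos, hdne] with c hs hk hp hd
    have hsol : ∀ j, ∑ i, t c i * M c i j = lc c j := by
      intro j
      have h1 : ∀ i, M c i j = M c j i := fun i => hs _ _
      have h2 : (M c).mulVec (t c) = lc c := by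
        have h3 : t c = (M c)⁻¹.mulVec (lc c) := by
          funext i
          simp only [t, Matrix.inv_def, Ring.inverse_eq_inv', Matrix.mulVec, dotProduct,
            Matrix.smul_apply, smul_eq_mul, Finset.mul_sum]
          refine Finset.sum_congr rfl fun j _ => by ring
        rw [h3, Matrix.mulVec_mulVec, Matrix.mul_nonsing_inv _ (Ne.isUnit hd), Matrix.one_mulVec]
      have h4 := congrFun h2 j
      simp only [Matrix.mulVec, dotProduct] at h4
      rw [← h4]
      refine Finset.sum_congr rfl fun i _ => ?_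
      rw [h1 i]; ring
    set xc : V := x - ∑ i, t c i • W c (e i) with hxc
    have horth : ∀ j, B c xc (W c (e j)) = 0 := by
      intro j
      rw [hxc, map_sub, LinearMap.sub_apply, map_sum, LinearMap.sum_apply]
      simp only [map_smul, LinearMap.smul_apply, smul_eq_mul]
      have := hsol j
      simp only [M, Matrix.of_apply] at this
      rw [this]
      simp [lc]
    have horth2 : ∀ y, B c xc (W c y) = 0 := by
      intro y
      obtain ⟨k, hkk, τ, rfl⟩ := hspan y
      rw [map_add, map_add, hk k hkk, zero_add, map_sum, map_sum]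
      refine Finset.sum_eq_zero fun j _ => ?_
      rw [map_smul, map_smul, horth j, smul_zero]
    have h5 := hp xc horth2
    have h6 : B c xc xc = B c x x - ∑ i, t c i * lc c i := by
      have h7 : B c xc xc = B c xc x := by
        conv_lhs => rw [hxc]
        rw [← hxc, map_sub, map_sum]
        have : ∑ i, B c xc (t c i • W c (e i)) = 0 :=
          Finset.sum_eq_zero fun i _ => by rw [map_smul, horth i, smul_zero]
        rw [this, sub_zero]
      rw [h7, hxc, map_sub, LinearMap.sub_apply, map_sum, LinearMap.sum_apply]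
      congr 1
      refine Finset.sum_congr rfl fun i _ => ?_
      rw [map_smul, LinearMap.smul_apply, smul_eq_mul, hs]
    rw [← h6]
    exact h5
  have hlim : Tendsto (fun c => B c x x - ∑ i, t c i * lc c i) l (𝓝 (B₀ x x - ∑ i : Fin n, 0 * 0)) :=
    (hB x x).sub (tendsto_finsetSum _ fun i _ => (ht i).mul (hlc i))
  have := ge_of_tendsto hlim hmain
  simpa using this

/-- Solving `G y = l`. -/
theorem exists_rep (G : U →ₗ[ℝ] U →ₗ[ℝ] ℝ) (hsymm : ∀ x y, G x y = G y x)
    (K' : Submodule ℝ U) (hK' : ∀ k ∈ K', ∀ y, G k y = 0)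
    (hnd : ∀ y, (∀ y', G y y' = 0) → y ∈ K') (f : U →ₗ[ℝ] ℝ) (hf : ∀ k ∈ K', f k = 0) :
    ∃ y, ∀ y', G y y' = f y' := by
  classical
  obtain ⟨n, e, he, hspan⟩ := exists_coord K'
  set M : Matrix (Fin n) (Fin n) ℝ := Matrix.of fun i j => G (e i) (e j) with hM
  have hdet : M.det ≠ 0 :=
    gram_det_ne_zero (fun y y' => G y y') (by intro x y z; simp) (by intro r x z; simp)
      hsymm K' hK' hnd e he hspan
  let lc : Fin n → ℝ := fun j => f (e j)
  let t : Fin n → ℝ := M⁻¹.mulVec lc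
  have hsol : ∀ j, ∑ i, t i * M i j = lc j := by
    intro j
    have h2 : M.mulVec t = lc := by
      simp only [t]
      rw [Matrix.mulVec_mulVec, Matrix.mul_nonsing_inv _ (Ne.isUnit hdet), Matrix.one_mulVec]
    have h4 := congrFun h2 j
    simp only [Matrix.mulVec, dotProduct] at h4
    rw [← h4]
    refine Finset.sum_congr rfl fun i _ => ?_
    have : M i j = M j i := hsymm _ _
    rw [this]; ring
  refine ⟨∑ i, t i • e i, fun y' => ?_⟩
  obtain ⟨k, hk, τ, rfl⟩ := hspan y'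
  have hG : ∀ z, G (∑ i, t i • e i) z = ∑ i, t i * G (e i) z := by
    intro z
    simp [map_sum, LinearMap.sum_apply]
  rw [map_add (G (∑ i, t i • e i)), hsymm _ k, hK' k hk, zero_add, map_add f, hf k hk, zero_add,
    map_sum (G (∑ i, t i • e i)), map_sum f]
  refine Finset.sum_congr rfl fun j _ => ?_
  rw [map_smul (G (∑ i, t i • e i)), map_smul f, hG]
  congr 1
  have := hsol j
  simp only [M, Matrix.of_apply, lc] at this
  rw [← this]

/-- A null vector of a form which is semidefinite on the orthogonal complement of the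
(nondegenerate) image of `W` lies in the radical. -/
theorem null_of_semidef (B : V →ₗ[ℝ] V →ₗ[ℝ] ℝ) (W : U →ₗ[ℝ] V)
    (hsymm : ∀ x y, B x y = B y x)
    (K' : Submodule ℝ U) (hK' : ∀ k ∈ K', ∀ x, B x (W k) = 0)
    (hnd : ∀ y, (∀ y', B (W y) (W y') = 0) → y ∈ K')
    (hpos : ∀ x, (∀ y, B x (W y) = 0) → 0 ≤ B x x)
    (x : V) (hx : ∀ y, B x (W y) = 0) (h0 : B x x = 0) (v : V) : B x v = 0 := by
  obtain ⟨y, hy⟩ := exists_rep (U := U) (B.compl₁₂ W W) (fun a b => hsymm _ _) K'
    (fun k hk y => by simp only [LinearMap.compl₁₂_apply]; rw [hsymm]; exact hK' k hk _)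
    (fun y hy => hnd y fun y' => by simpa using hy y')
    ((B v).comp W) (fun k hk => hK' k hk v)
  simp only [LinearMap.compl₁₂_apply, LinearMap.comp_apply] at hy
  set p := v - W y with hp
  have hpP : ∀ y', B p (W y') = 0 := by
    intro y'
    rw [hp, map_sub, LinearMap.sub_apply, hy, sub_self]
  have hxp : B x p = 0 := by
    by_contra hne
    have key : ∀ t : ℝ, 0 ≤ 2 * t * B x p + t ^ 2 * B p p := by
      intro t
      have h1 := hpos (x + t • p) (fun y' => by
        rw [map_add, LinearMap.add_apply, hx, map_smul, LinearMap.smul_apply, hpP]; simp)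
      have h2 : B (x + t • p) (x + t • p) = 2 * t * B x p + t ^ 2 * B p p := by
        simp only [map_add, map_smul, LinearMap.add_apply, LinearMap.smul_apply, smul_eq_mul, h0,
          hsymm p x]
        ring
      rwa [h2] at h1
    have hp0 : 0 ≤ B p p := hpos p hpP
    -- choose t = - B x p / (B p p + 1)
    have h3 := key (-(B x p) / (B p p + 1))
    have hden : 0 < B p p + 1 := by linarith
    have h4 : 2 * (-(B x p) / (B p p + 1)) * B x p + (-(B x p) / (B p p + 1)) ^ 2 * B p p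
        = -(B x p) ^ 2 * (B p p + 2) / (B p p + 1) ^ 2 := by
      field_simp
      ring
    rw [h4] at h3
    have h5 : 0 < (B x p) ^ 2 := by positivity
    have h6 : -(B x p) ^ 2 * (B p p + 2) / (B p p + 1) ^ 2 < 0 := by
      apply div_neg_of_neg_of_pos
      · nlinarith
      · positivity
    linarith
  have : v = p + W y := by rw [hp]; abel
  rw [this, map_add, hxp, hx, add_zero]

end closed_

end Pool.Agent.KF.S
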