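import Pool.Agent.KF.S.Stmts
import Pool.Agent.KF.S.AlgFam

/-!
# SHR module AL (helper39)
-/

namespace Pool.Agent.KF.S

open Filter Topology Set
open Pool.Agent.KF.S (open_lemma closed_lemma null_of_semidef)

namespace AL_

section

variable {U U' : Type} [AddCommGroup U] [Module ℝ U] [FiniteDimensional ℝ U]
    [AddCommGroup U'] [Module ℝ U'] [FiniteDimensional ℝ U']

/-- Definite modulo `K` on the orthogonal complement. -/
def Good (K : Submodule ℝ U) (B : ℝ → U →ₗ[ℝ] U →ₗ[ℝ] ℝ) (L : ℝ → U' →ₗ[ℝ] U) (t : ℝ) : Prop :=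
  ∀ p, (∀ q, B t p (L t q) = 0) → 0 ≤ B t p p ∧ (B t p p = 0 → p ∈ K)

theorem core (K : Submodule ℝ U) (K' : Submodule ℝ U') (a b : ℝ)
    (B : ℝ → U →ₗ[ℝ] U →ₗ[ℝ] ℝ) (B' : ℝ → U' →ₗ[ℝ] U' →ₗ[ℝ] ℝ) (L : ℝ → U' →ₗ[ℝ] U)
    (hB : ∀ p q, ContinuousOn (fun t => B t p q) (Icc a b))
    (hL : ∀ p q, ContinuousOn (fun t => B t p (L t q)) (Icc a b))
    (hB' : ∀ p q, ContinuousOn (fun t => B' t p q) (Icc a b))
    (hsymm : ∀ t ∈ Icc a b, ∀ p q, B t p q = B t q p)
    (hBL : ∀ t ∈ Icc a b, ∀ p q, B' t p q = B t (L t p) (L t q))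
    (hK : ∀ t ∈ Icc a b, ∀ p, (∀ q, B t p q = 0) ↔ p ∈ K)
    (hK' : ∀ t ∈ Icc a b, ∀ p, (∀ q, B' t p q = 0) ↔ p ∈ K')
    (hLK : ∀ t ∈ Icc a b, ∀ p ∈ K', L t p ∈ K)
    (ha : Good K B L a) : ∀ t ∈ Icc a b, Good K B L t := by
  have hK2 : ∀ t ∈ Icc a b, ∀ k ∈ K, ∀ x, B t x k = 0 := fun t ht k hk x => by
    rw [hsymm t ht]; exact (hK t ht k).2 hk x
  have hcl : IsClosed ({t | Good K B L t} ∩ Icc a b) := by
    refine isClosed_of_closure_subset fun c hc => ?_
    have hcI : c ∈ Icc a b := by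
      have : closure ({t | Good K B L t} ∩ Icc a b) ⊆ Icc a b :=
        closure_minimal inter_subset_right isClosed_Icc
      exact this hc
    refine ⟨?_, hcI⟩
    have : (𝓝[{t | Good K B L t} ∩ Icc a b] c).NeBot := mem_closure_iff_nhdsWithin_neBot.1 hc
    set l := 𝓝[{t | Good K B L t} ∩ Icc a b] c with hl
    have hle : l ≤ 𝓝[Icc a b] c := nhdsWithin_mono _ inter_subset_right
    have hmem : ∀ᶠ t in l, t ∈ {t | Good K B L t} ∩ Icc a b := self_mem_nhdsWithin
    have hsemi : ∀ x, (∀ y, B c x (L c y) = 0) → 0 ≤ B c x x := by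
      refine closed_lemma B L (B c) (L c) l ?_ (hsymm c hcI) ?_ ?_ ?_ K' ?_ ?_ ?_
      · filter_upwards [hmem] with t ht using hsymm t ht.2
      · exact fun x y => ((hB x y) c hcI).mono_left hle
      · exact fun x y => ((hL x y) c hcI).mono_left hle
      · intro y y'
        have h1 : Tendsto (fun t => B' t y y') l (𝓝 (B' c y y')) :=
          ((hB' y y') c hcI).mono_left hle
        rw [hBL c hcI] at h1
        refine h1.congr' ?_
        filter_upwards [hmem] with t ht using hBL t ht.2 y y'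
      · filter_upwards [hmem] with t ht k hk x
        exact hK2 t ht.2 _ (hLK t ht.2 k hk) x
      · intro y hy
        refine (hK' c hcI y).1 fun q => ?_
        rw [hBL c hcI]
        exact hy q
      · filter_upwards [hmem] with t ht x hx using (ht.1 x hx).1
    intro p hp
    refine ⟨hsemi p hp, fun h0 => (hK c hcI p).1 fun v => ?_⟩
    exact null_of_semidef (B c) (L c) (hsymm c hcI) K'
      (fun k hk x => hK2 c hcI _ (hLK c hcI k hk) x)
      (fun y hy => (hK' c hcI y).1 fun q => by rw [hBL c hcI]; exact hy q)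
      hsemi p hp h0 v
  refine hcl.Icc_subset_of_forall_mem_nhdsWithin ha ?_
  rintro t ⟨ht, htI⟩
  have htI' : t ∈ Icc a b := ⟨htI.1, htI.2.le⟩
  have hmem : ∀ᶠ c in 𝓝[>] t, c ∈ Icc a b := by
    filter_upwards [Ioc_mem_nhdsGT htI.2] with c hc
    exact ⟨htI.1.trans hc.1.le, hc.2⟩
  have hle : 𝓝[>] t ≤ 𝓝[Icc a b] t := by
    rw [nhdsWithin, nhdsWithin]
    refine le_inf inf_le_left ?_
    exact le_principal_iff.2 hmem
  have key := open_lemma (U := U') B (fun t => (B t).compl₂ (L t)) (B t) ((B t).compl₂ (L t))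
    (𝓝[>] t) (fun x y => ((hB x y) t htI').mono_left hle)
    (fun x y => by
      simp only [LinearMap.compl₂_apply]
      exact ((hL x y) t htI').mono_left hle) K
    (by
      filter_upwards [hmem] with c hc k hk
      refine ⟨fun x => (hK c hc k).2 hk x, fun x => hK2 c hc k hk x, fun u => ?_⟩
      simp only [LinearMap.compl₂_apply]
      exact (hK c hc k).2 hk _)
    (by
      intro x hx hy
      simp only [LinearMap.compl₂_apply] at hy
      have h1 := ht x hy
      exact lt_of_le_of_ne h1.1 fun h => hx (h1.2 h.symm))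
  filter_upwards [key, hmem] with c hc hcI p hp
  by_cases hpK : p ∈ K
  · exact ⟨le_of_eq ((hK c hcI p).2 hpK p).symm, fun _ => hpK⟩
  · have := hc p hpK (fun y => by simpa only [LinearMap.compl₂_apply] using hp y)
    exact ⟨this.le, fun h => absurd h this.ne'⟩

end

end AL_

theorem t_AL : Stmt_AL := by
  intro U U' _ _ _ _ _ _ K K' T B B' L hT hB hL hB' hsymm hBL hK hK' hLK t₀ ht₀ h0 t ht
  -- the path from `t₀` to `t`
  let φ : ℝ → ℝ := fun s => t₀ + s * (t - t₀)
  have hφc : Continuous φ := by fun_prop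
  have hφT : ∀ s ∈ Icc (0:ℝ) 1, φ s ∈ T := by
    intro s hs
    have h1 : uIcc t₀ t ⊆ T := hT.uIcc_subset ht₀ ht
    apply h1
    rcases le_total t₀ t with h | h
    · rw [uIcc_of_le h]
      constructor
      · have : 0 ≤ s * (t - t₀) := mul_nonneg hs.1 (by linarith)
        simp only [φ]; linarith
      · have : s * (t - t₀) ≤ 1 * (t - t₀) := mul_le_mul_of_nonneg_right hs.2 (by linarith)
        simp only [φ]; linarith
    · rw [uIcc_of_ge h]
      constructor
      · have : s * (t₀ - t) ≤ 1 * (t₀ - t) := mul_le_mul_of_nonneg_right hs.2 (by linarith)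
        simp only [φ]; nlinarith
      · have : 0 ≤ s * (t₀ - t) := mul_nonneg hs.1 (by linarith)
        simp only [φ]; nlinarith
  have hmaps : MapsTo φ (Icc (0:ℝ) 1) T := hφT
  have hφ0 : φ 0 = t₀ := by simp [φ]
  have hφ1 : φ 1 = t := by simp [φ]
  have := AL_.core K K' 0 1 (fun s => B (φ s)) (fun s => B' (φ s)) (fun s => L (φ s))
    (fun p q => (hB p q).comp hφc.continuousOn hmaps)
    (fun p q => (hL p q).comp hφc.continuousOn hmaps)
    (fun p q => (hB' p q).comp hφc.continuousOn hmaps)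
    (fun s hs => hsymm _ (hφT s hs)) (fun s hs => hBL _ (hφT s hs))
    (fun s hs => hK _ (hφT s hs)) (fun s hs => hK' _ (hφT s hs))
    (fun s hs => hLK _ (hφT s hs))
    (by simp only [AL_.Good, hφ0]; exact h0) 1 ⟨zero_le_one, le_rfl⟩
  simp only [AL_.Good, hφ1] at this
  exact this

end Pool.Agent.KF.S
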