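import Pool.Agent.KF.S.Basic

/-!
# BD: boundedness of the representing element
-/

namespace Pool.Agent.KF.S

open MvPolynomial Matrix

theorem t_BD (hGRAM : Stmt_GRAM) : Stmt_BD := by
  intro J _ D i r w x hw hx hHL f hf
  obtain ⟨n, e, he, hsp, hdet⟩ := hGRAM J D i r w x hw hx
  let G : ℝ → Matrix (Fin n) (Fin n) ℝ := fun t =>
    Matrix.of fun b b' : Fin n => D (e b * (w + C t * x) ^ r * e b')
  have hG : Continuous G := continuous_matrix fun b b' => cont_pow D w x r (e b) (e b')
  have h0 : (G 0).det ≠ 0 := by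
    refine (hdet 0).1 ?_
    rw [map_zero, zero_mul, add_zero]
    exact hHL
  let φ : Fin n → ℝ := fun b => f (e b)
  let A : ℝ → ℝ := fun t => (φ ᵥ* (G t).adjugate) ⬝ᵥ φ
  have hA : Continuous A := by
    refine Continuous.dotProduct ?_ continuous_const
    exact Continuous.matrix_vecMul continuous_const hG.matrix_adjugate
  have hc : ContinuousAt (fun t => A t / (G t).det) 0 :=
    hA.continuousAt.div hG.matrix_det.continuousAt h0
  have hd : ∀ᶠ t in nhds (0 : ℝ), (G t).det ≠ 0 :=
    hG.matrix_det.continuousAt.eventually_ne h0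
  have hb : ∀ᶠ t in nhds (0 : ℝ), |A t / (G t).det| < |A 0 / (G 0).det| + 1 :=
    hc.abs.eventually_lt continuousAt_const (lt_add_one _)
  obtain ⟨ε, hε, H⟩ := Metric.eventually_nhds_iff.1 (hd.and hb)
  refine ⟨ε, |A 0 / (G 0).det| + 1, hε, fun t ht z hz hzf => ?_⟩
  obtain ⟨h1, h2⟩ := H (by rwa [Real.dist_eq, sub_zero])
  obtain ⟨c, k, hk, hkD, hzc⟩ := hsp z hz
  have hwt : ((w + C t * x) ^ r).IsHomogeneous r := by
    have h3 : (C t * x).IsHomogeneous 1 := by
      have := (isHomogeneous_C J t).mul hx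
      rwa [zero_add] at this
    have h4 := (hw.add h3).pow r
    rwa [one_mul] at h4
  have hfk : f k = 0 := hf k hk hkD
  have hCf : ∀ (a : ℝ) (p : MvPolynomial J ℝ), f (C a * p) = a * f p := fun a p => by
    rw [← smul_eq_C_mul, map_smul, smul_eq_mul]
  have hfz : f z = c ⬝ᵥ φ := by
    rw [hzc, map_add, hfk, add_zero, map_sum]
    exact Finset.sum_congr rfl fun b _ => hCf _ _
  have hcG : c ᵥ* G t = φ := by
    funext b'
    have h3 := hzf (e b') (he b')
    rw [hzc] at h3
    have h4 : (∑ b, C (c b) * e b + k) * (w + C t * x) ^ r * e b' =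
        ∑ b, c b • (e b * (w + C t * x) ^ r * e b') + k * ((w + C t * x) ^ r * e b') := by
      rw [add_mul, add_mul, Finset.sum_mul, Finset.sum_mul]
      congr 1
      · refine Finset.sum_congr rfl fun b _ => ?_
        rw [smul_eq_C_mul]
        ring
      · ring
    rw [h4, map_add, map_sum, hkD _ (by
      have := hwt.mul (he b')
      rwa [add_comm r i] at this), add_zero] at h3
    rw [show φ b' = f (e b') from rfl, ← h3]
    change ∑ b, c b * (G t) b b' = _
    refine Finset.sum_congr rfl fun b _ => ?_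
    rw [map_smul, smul_eq_mul]
    rfl
  have hkey : (G t).det * f z = A t := by
    have h3 : c ᵥ* (G t * (G t).adjugate) = φ ᵥ* (G t).adjugate := by
      rw [← Matrix.vecMul_vecMul, hcG]
    rw [Matrix.mul_adjugate, Matrix.vecMul_smul, Matrix.vecMul_one] at h3
    change _ = (φ ᵥ* (G t).adjugate) ⬝ᵥ φ
    rw [← h3, smul_dotProduct, smul_eq_mul, hfz]
  have h5 : f z = A t / (G t).det := by
    rw [eq_div_iff h1, mul_comm]
    exact hkey
  rw [h5]
  exact h2.le

end Pool.Agent.KF.S
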