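import Pool.Agent.KF.S.Basic

/-!
# CFAC: facet Hodge-Riemann relations of the cut system
-/

namespace Pool.Agent.KF.S

open MvPolynomial

theorem t_CFAC (hFAC : Stmt_FAC) (hDEGAT : Stmt_DEGAT) (hDLIN : Stmt_DLIN) : Stmt_CFAC := by
  intro n hn V M _ _ _ _ a h z D hS hr hG hD c o hc
  refine hFAC n hn V (Option M) (cutA a z) (cutH h c) (Dc a h (n + 1) z D c) o hr ?_ ?_ ?_
  · intro y hy
    exact hS.bdd y fun j => hy (some j)
  · intro y m q _ _
    exact hDLIN V M a h (n + 1) z D c hS hr y q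
  · exact hDEGAT V M a h (n + 1) z D hS hr hG hD c o hc

end Pool.Agent.KF.S
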