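import Pool.Agent.KF.S.Basic

/-!
# CHL: hard Lefschetz of the cut system at a noncritical level
-/

namespace Pool.Agent.KF.S

open MvPolynomial

namespace CHL_

theorem om_sub_om {J : Type} [Fintype J] (f g : J → ℝ) :
    (om f : MvPolynomial J ℝ) - om (fun j => f j - g j) = om g := by
  unfold om
  rw [← Finset.sum_sub_distrib]
  refine Finset.sum_congr rfl fun j _ => ?_
  rw [← sub_mul, ← C_sub, sub_sub_cancel]

end CHL_

theorem t_CHL (hHLT : Stmt_HLT) (hCFAC : Stmt_CFAC) (hDLIN : Stmt_DLIN) (hVERT : Stmt_VERT) :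
    Stmt_CHL := by
  intro n hn V M _ _ _ _ a h z D hS hfin hG hD c hc hB
  obtain ⟨B, hBv, hBc⟩ := hB
  obtain ⟨xi, hxi⟩ := hS.int
  have hBv' : IsVert a h (Module.finrank ℝ V) B := by rw [hfin]; exact hBv
  have hfeas := (hVERT V M a h hS B hBv').feas
  -- a point near the vertex
  set p := pt a h B with hp
  set δ : ℝ := c - z p with hδ
  set A : ℝ := z xi - z p with hA
  have hδ0 : 0 < δ := by rw [hδ]; linarith
  have hden : 0 < δ + |A| + 1 := by positivity
  set t : ℝ := δ / (δ + |A| + 1) with ht
  have ht0 : 0 < t := div_pos hδ0 hden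
  have ht1 : t ≤ 1 := by
    rw [ht, div_le_one hden]
    linarith [abs_nonneg A]
  have htA : t * A < δ := by
    have h1 : t * A ≤ t * |A| := mul_le_mul_of_nonneg_left (le_abs_self A) ht0.le
    have h2 : t * |A| < δ := by
      rw [ht, div_mul_eq_mul_div, div_lt_iff₀ hden]
      have : δ * |A| < δ * (δ + |A| + 1) := by
        apply mul_lt_mul_of_pos_left _ hδ0
        linarith
      exact this
    linarith
  set x0 : V := p + t • (xi - p) with hx0
  have hval : ∀ f : Module.Dual ℝ V, f x0 = (1 - t) * f p + t * f xi := by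
    intro f
    rw [hx0, map_add, map_smul, map_sub, smul_eq_mul]
    ring
  have hpos : ∀ l : Option M, 0 < cutH h c l - cutA a z l x0 := by
    intro l
    cases l with
    | none =>
      change 0 < c - z x0
      rw [hval]
      have : (1 - t) * z p + t * z xi = z p + t * A := by rw [hA]; ring
      rw [this]
      linarith
    | some j =>
      change 0 < h j - a j x0
      rw [hval]
      have h1 : (1 - t) * a j p ≤ (1 - t) * h j :=
        mul_le_mul_of_nonneg_left (hfeas j) (by linarith)
      have h2 : t * a j xi < t * h j := mul_lt_mul_of_pos_left (hxi j) ht0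
      nlinarith
  refine hHLT (Option M) (Dc a h (n + 1) z D c) n (om (cutH h c))
    (fun l => cutH h c l - cutA a z l x0) (om_hom _) hpos ?_ ?_
  · intro q _
    rw [CHL_.om_sub_om]
    exact hDLIN V M a h (n + 1) z D c hS hfin x0 q
  · intro l
    exact hCFAC n hn V M a h z D hS hfin hG hD c l fun B' hB' _ => hc B' hB'

end Pool.Agent.KF.S
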