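import Pool.Agent.KF.S.Basic

/-!
# CUTF: faces of a cut system
-/

namespace Pool.Agent.KF.S

namespace CUTF_

lemma exists_t {p q c : ℝ} (h1 : p ≤ c) (h2 : c ≤ q) :
    ∃ t : ℝ, 0 ≤ t ∧ t ≤ 1 ∧ (1 - t) * p + t * q = c := by
  by_cases h : p = q
  · exact ⟨0, le_refl _, zero_le_one, by subst h; linarith⟩
  · have h3 : 0 < q - p := by
      have := lt_of_le_of_ne (h1.trans h2) h
      linarith
    refine ⟨(c - p) / (q - p), div_nonneg (by linarith) h3.le, ?_, ?_⟩
    · rw [div_le_one h3]
      linarith
    · field_simp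
      ring

end CUTF_

/-- CUTF: faces of a cut system. -/
theorem t_CUTF (hVERT : Stmt_VERT) (hMINV : Stmt_MINV) : Stmt_CUTF := by
  intro V M _ _ _ _ a h hS z c s
  constructor
  · constructor
    · rintro ⟨x, hx, ht⟩
      obtain ⟨B, hB, h1, h2⟩ := hMINV V M a h hS z x fun j => hx (some j)
      refine ⟨B, hB, fun j hj => h1 j ?_, h2.trans (hx none)⟩
      exact ht (some j) (Finset.mem_map.2 ⟨j, hj, rfl⟩)
    · rintro ⟨B, hB, h1, h2⟩
      have hF := hVERT V M a h hS B hB
      refine ⟨pt a h B, ?_, ?_⟩
      · rintro (_ | j)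
        · exact h2
        · exact hF.feas j
      · intro j hj
        obtain ⟨i, hi, rfl⟩ := Finset.mem_map.1 hj
        exact hF.tight i (h1 hi)
  · constructor
    · rintro ⟨x, hx, ht⟩
      have hs : ∀ j ∈ s, a j x = h j := fun j hj =>
        ht (some j) (Finset.some_mem_insertNone.2 hj)
      have hz : z x = c := ht none (Finset.none_mem_insertNone)
      constructor
      · obtain ⟨B, hB, h1, h2⟩ := hMINV V M a h hS z x fun j => hx (some j)
        exact ⟨B, hB, fun j hj => h1 j (hs j hj), h2.trans hz.le⟩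
      · obtain ⟨B, hB, h1, h2⟩ := hMINV V M a h hS (-z) x fun j => hx (some j)
        refine ⟨B, hB, fun j hj => h1 j (hs j hj), ?_⟩
        rw [LinearMap.neg_apply, LinearMap.neg_apply, neg_le_neg_iff] at h2
        exact hz.ge.trans h2
    · rintro ⟨⟨B, hB, h1, h2⟩, B', hB', h1', h2'⟩
      have hF := hVERT V M a h hS B hB
      have hF' := hVERT V M a h hS B' hB'
      obtain ⟨t, t0, t1, ht⟩ := CUTF_.exists_t h2 h2'
      have hval : ∀ f : Module.Dual ℝ V, f ((1 - t) • pt a h B + t • pt a h B') =
          (1 - t) * f (pt a h B) + t * f (pt a h B') := fun f => by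
        rw [map_add, map_smul, map_smul, smul_eq_mul, smul_eq_mul]
      have hcomb : ∀ r : ℝ, (1 - t) * r + t * r = r := fun r => by ring
      refine ⟨(1 - t) • pt a h B + t • pt a h B', ?_, ?_⟩
      · rintro (_ | j)
        · change z _ ≤ c
          rw [hval, ht]
        · change a j _ ≤ h j
          rw [hval, ← hcomb (h j)]
          exact add_le_add (mul_le_mul_of_nonneg_left (hF.feas j) (by linarith))
            (mul_le_mul_of_nonneg_left (hF'.feas j) t0)
      · rintro (_ | j) hj
        · change z _ = c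
          rw [hval, ht]
        · have hjs : j ∈ s := Finset.some_mem_insertNone.1 hj
          change a j _ = h j
          rw [hval, hF.tight j (h1 hjs), hF'.tight j (h1' hjs), hcomb]

end Pool.Agent.KF.S
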