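import Pool.Agent.KF.S.Basic

/-!
# DEGAT: the cut system along the facets at which the level is not critical
(PAPER.md, paragraph DEGAT)
-/

namespace Pool.Agent.KF.S

open MvPolynomial

namespace DEGAT_

/-- Splitting off a squarefree monomial. -/
lemma mono_split {J : Type} (m : J →₀ ℕ) (t : Finset J) (ht : t ⊆ m.support) :
    ∃ (n : ℕ) (q : MvPolynomial J ℝ), n + t.card = m.degree ∧ q.IsHomogeneous n ∧
      (monomial m (1 : ℝ)) = mon t * q := by
  classical
  set e : J →₀ ℕ := ∑ j ∈ t, Finsupp.single j 1 with he
  have happ : ∀ i, e i = if i ∈ t then 1 else 0 := by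
    intro i
    rw [he, Finsupp.finsetSum_apply]
    simp [Finsupp.single_apply]
  have hle : e ≤ m := by
    intro i
    rw [happ]
    split_ifs with hi
    · exact Nat.one_le_iff_ne_zero.2 (Finsupp.mem_support_iff.1 (ht hi))
    · exact Nat.zero_le _
  have hdeg : e.degree = t.card := by
    rw [he, map_sum]
    simp
  have hadd : e + (m - e) = m := add_tsub_cancel_of_le hle
  refine ⟨(m - e).degree, monomial (m - e) 1, ?_, isHomogeneous_monomial _ rfl, ?_⟩
  · rw [← hdeg, ← map_add, add_comm, hadd]
  · rw [mon_eq_monomial, monomial_mul, one_mul, ← he, hadd]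

/-- A set of indices of the cut system. -/
lemma opt_cases {M : Type} (t : Finset (Option M)) :
    (∃ s : Finset M, t = s.map Function.Embedding.some) ∨
      ∃ s : Finset M, t = Finset.insertNone s := by
  classical
  by_cases h : none ∈ t
  · right
    refine ⟨Finset.eraseNone t, ?_⟩
    rw [Finset.insertNone_eraseNone, Finset.insert_eq_of_mem h]
  · left
    refine ⟨Finset.eraseNone t, ?_⟩
    rw [Finset.map_some_eraseNone, Finset.erase_eq_of_notMem h]

lemma cut_ind {V M : Type} [AddCommGroup V] [Module ℝ V] (a : M → Module.Dual ℝ V) (h : M → ℝ)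
    (z : Module.Dual ℝ V) (c : ℝ) (hS : Simple a h) (x : V)
    (hx : Feas (cutA a z) (cutH h c) x)
    (key : z x = c → z ∉ Submodule.span ℝ (a '' {j | a j x = h j})) :
    LinearIndependent ℝ
      (fun j : {j : Option M // cutA a z j x = cutH h c j} => cutA a z j.1) := by
  have h1 : LinearIndepOn ℝ a {j | a j x = h j} := hS.ind x fun j => hx (some j)
  have h2 : LinearIndepOn ℝ (cutA a z) (some '' {j | a j x = h j}) :=
    LinearIndepOn.image_of_comp some (cutA a z) h1
  have h3 : (cutA a z) '' (some '' {j | a j x = h j}) = a '' {j | a j x = h j} := by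
    rw [Set.image_image]
    rfl
  have goal : LinearIndepOn ℝ (cutA a z) {j | cutA a z j x = cutH h c j} := by
    by_cases hz : z x = c
    · have h4 := h2.insert (x := none) (by rw [h3]; exact key hz)
      have h5 : {j : Option M | cutA a z j x = cutH h c j} =
          insert none (some '' {j | a j x = h j}) := by
        ext j
        cases j with
        | none => simp [cutA, cutH, hz]
        | some j => simp [cutA, cutH]
      rw [h5]
      exact h4
    · have h5 : {j : Option M | cutA a z j x = cutH h c j} = some '' {j | a j x = h j} := by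
        ext j
        cases j with
        | none => simp [cutA, cutH, hz]
        | some j => simp [cutA, cutH]
      rw [h5]
      exact h2
  exact goal

end DEGAT_

theorem t_DEGAT (hVERT : Stmt_VERT) (hMINV : Stmt_MINV) (hCUTF : Stmt_CUTF)
    (hSR0 : Stmt_SR0) (hSR1 : Stmt_SR1) (hDPOS : Stmt_DPOS) : Stmt_DEGAT := by
  intro V M _ _ _ _ a h N z D hS hN hG hD c o hc
  subst hN
  refine ⟨?_, ?_, ?_⟩
  · -- independence
    intro x hx hox
    refine DEGAT_.cut_ind a h z c hS x hx fun hz hmem => ?_
    obtain ⟨B, hB, hxB, -⟩ := hMINV V M a h hS z x fun j => hx (some j)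
    have hV := hVERT V M a h hS B hB
    have h1 : z (pt a h B) = z x := by
      refine Submodule.span_induction
        (p := fun w _ => (w : Module.Dual ℝ V) (pt a h B) = w x) ?_ ?_ ?_ ?_ hmem
      · rintro _ ⟨j, hj, rfl⟩
        rw [hV.tight j (hxB j hj)]
        exact hj.symm
      · rfl
      · intro v w _ _ h2 h3
        rw [LinearMap.add_apply, LinearMap.add_apply, h2, h3]
      · intro r v _ h2
        rw [LinearMap.smul_apply, LinearMap.smul_apply, h2]
    refine hc B hB (fun j hj => ?_) (h1.trans hz)
    subst hj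
    exact hxB j hox
  · -- Stanley-Reisner relations
    intro m hm hom hF
    obtain ⟨s, hs⟩ | ⟨s, hs⟩ := DEGAT_.opt_cases m.support
    · rw [hs, (hCUTF V M a h hS z c s).1] at hF
      obtain ⟨n, q, -, -, hq⟩ := DEGAT_.mono_split m (s.map Function.Embedding.some)
        (by rw [hs])
      rw [hq]
      refine hSR0 V M a h _ z D hS rfl hG hD c s (fun B hB hsB => ?_) q
      by_contra hcon
      exact hF ⟨B, hB, hsB, (not_le.1 hcon).le⟩
    · rw [hs, (hCUTF V M a h hS z c s).2, not_and_or] at hF
      obtain hF | hF := hF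
      · obtain ⟨n, q, -, -, hq⟩ := DEGAT_.mono_split m (s.map Function.Embedding.some)
          (by
            rw [hs]
            intro j hj
            rw [Finset.mem_map] at hj
            obtain ⟨i, hi, rfl⟩ := hj
            exact Finset.some_mem_insertNone.2 hi)
        rw [hq]
        refine hSR0 V M a h _ z D hS rfl hG hD c s (fun B hB hsB => ?_) q
        by_contra hcon
        exact hF ⟨B, hB, hsB, (not_le.1 hcon).le⟩
      · obtain ⟨n, q, hn, hqh, hq⟩ := DEGAT_.mono_split m (Finset.insertNone s) (by rw [hs])
        rw [hq]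
        refine hSR1 V M a h _ z D hS rfl hG hD c s (fun B hB hsB => ?_) n q ?_ hqh
        · by_contra hcon
          exact hF ⟨B, hB, hsB, not_lt.1 hcon⟩
        · rw [Finset.card_insertNone, hm] at hn
          omega
  · -- positivity
    intro t hot ht
    obtain ⟨hF, hcard⟩ := ht
    obtain ⟨s, rfl⟩ | ⟨s, rfl⟩ := DEGAT_.opt_cases t
    · rw [(hCUTF V M a h hS z c s).1] at hF
      obtain ⟨B, hB, hsB, hle⟩ := hF
      rw [Finset.card_map] at hcard
      have hsB' : s = B := Finset.eq_of_subset_of_card_le hsB (by rw [hB.2, hcard])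
      subst hsB'
      refine (hDPOS V M a h _ z D hS rfl hG hD c).1 s hB (lt_of_le_of_ne hle ?_)
      refine hc s hB fun j hj => ?_
      subst hj
      rw [Finset.mem_map] at hot
      obtain ⟨i, hi, hij⟩ := hot
      rw [← Option.some_injective _ hij]
      exact hi
    · rw [(hCUTF V M a h hS z c s).2] at hF
      obtain ⟨⟨B, hB, hsB, hle⟩, hF2⟩ := hF
      rw [Finset.card_insertNone] at hcard
      refine (hDPOS V M a h _ z D hS rfl hG hD c).2 s hcard ⟨B, hB, hsB, lt_of_le_of_ne hle ?_⟩
        hF2
      refine hc B hB fun j hj => ?_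
      subst hj
      exact hsB (Finset.some_mem_insertNone.1 hot)

end Pool.Agent.KF.S
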