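import Pool.Agent.KF.S.Basic

/-!
# DETW: the determinant weights (PAPER.md, DETW)
-/

namespace Pool.Agent.KF.S

open MvPolynomial

namespace DETW_

variable {V M : Type} [AddCommGroup V] [Module ℝ V]

/-- The volume can be computed with any enumeration. -/
lemma vol_eq {N : ℕ} (b : Module.Basis (Fin N) ℝ V) (a : M → Module.Dual ℝ V) (s : Finset M)
    (e : Fin N ≃ {j : M // j ∈ s}) :
    vol b a s = |Matrix.det (Matrix.of fun i k : Fin N => a (e i).1 (b k))| := by
  have H : s.card = N := by
    have := Fintype.card_congr e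
    simpa using this.symm
  rw [vol, dif_pos H]
  set σ : Equiv.Perm (Fin N) := e.trans (s.equivFin.trans (finCongr H)) with hσ
  have h1 : (Matrix.of fun i k : Fin N => a (e i).1 (b k)) = (Matrix.of fun i k : Fin N =>
      a (s.equivFin.symm (Fin.cast H.symm i)).1 (b k)).submatrix σ id := by
    ext i k
    simp [hσ]
  rw [h1, Matrix.det_permute, abs_mul]
  rcases Int.units_eq_one_or (Equiv.Perm.sign σ) with h | h <;> simp [h]

lemma vol_fun {N : ℕ} (b : Module.Basis (Fin N) ℝ V) (a : M → Module.Dual ℝ V) (s : Finset M)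
    (f : Fin N → M) (hf : Function.Injective f) (hs : ∀ i, f i ∈ s) (hc : s.card = N) :
    vol b a s = |Matrix.det (Matrix.of fun i k : Fin N => a (f i) (b k))| := by
  have hb : Function.Bijective (fun i : Fin N => (⟨f i, hs i⟩ : {j : M // j ∈ s})) := by
    rw [Fintype.bijective_iff_injective_and_card]
    refine ⟨fun i j hij => hf (congrArg Subtype.val hij), ?_⟩
    simp [hc]
  exact vol_eq b a s (Equiv.ofBijective _ hb)

/-- The matrix of functionals applied to coordinates. -/
lemma mulVec_eq {N : ℕ} (b : Module.Basis (Fin N) ℝ V) (z : Fin N → Module.Dual ℝ V)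
    (v : Fin N → ℝ) (i : Fin N) :
    (Matrix.of fun i k : Fin N => z i (b k)).mulVec v i = z i (∑ k, v k • b k) := by
  rw [map_sum]
  simp only [Matrix.mulVec, dotProduct, Matrix.of_apply, map_smul, smul_eq_mul]
  exact Finset.sum_congr rfl fun k _ => mul_comm _ _

lemma vol_pos {N : ℕ} (b : Module.Basis (Fin N) ℝ V) (a : M → Module.Dual ℝ V) (s : Finset M)
    (hc : s.card = N) (hi : ∀ y : V, (∀ j ∈ s, a j y = 0) → y = 0) : 0 < vol b a s := by
  have e : Fin N ≃ {j : M // j ∈ s} := (finCongr hc.symm).trans s.equivFin.symm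
  rw [vol_eq b a s e, abs_pos]
  intro h0
  obtain ⟨v, hv, hv0⟩ := Matrix.exists_mulVec_eq_zero_iff.2 h0
  apply hv
  have h1 : ∑ k, v k • b k = 0 := by
    apply hi
    intro j hj
    have h2 := congrFun hv0 (e.symm ⟨j, hj⟩)
    rw [mulVec_eq b (fun i => a (e i).1) v] at h2
    simpa using h2
  have h3 := (Fintype.linearIndependent_iff.1 b.linearIndependent) v h1
  exact funext h3

/-- The exchange of one functional. -/
lemma vol_insert [DecidableEq M] {n : ℕ} (b : Module.Basis (Fin (n + 1)) ℝ V)
    (a : M → Module.Dual ℝ V) (g : Finset M) (hg : g.card = n) (l l' : M) (hl : l ∉ g)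
    (hl' : l' ∉ g) (m : ℝ) (c : M → ℝ) (hr : a l' = m • a l + ∑ j ∈ g, c j • a j) :
    vol b a (insert l' g) = |m| * vol b a (insert l g) := by
  set eg : Fin n ≃ {j : M // j ∈ g} := (finCongr hg.symm).trans g.equivFin.symm with heg
  have key : ∀ k : M, k ∉ g → vol b a (insert k g) =
      |Matrix.det (Matrix.of fun i t : Fin (n + 1) =>
        a ((Fin.cons k (fun i => (eg i).1) : Fin (n + 1) → M) i) (b t))| := by
    intro k hk
    refine vol_fun b a (insert k g) _ ?_ ?_ ?_
    · rw [Fin.cons_injective_iff]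
      refine ⟨?_, fun i j hij => eg.injective (Subtype.ext hij)⟩
      rintro ⟨i, hi⟩
      exact hk (hi ▸ (eg i).2)
    · intro i
      refine Fin.cases ?_ (fun i => ?_) i
      · simp
      · simp only [Fin.cons_succ]
        exact Finset.mem_insert_of_mem (eg i).2
    · rw [Finset.card_insert_of_notMem hk, hg]
  rw [key l' hl', key l hl, ← abs_mul]
  congr 1
  set A : Matrix (Fin (n + 1)) (Fin (n + 1)) ℝ := Matrix.of fun i t : Fin (n + 1) =>
    a ((Fin.cons l (fun i => (eg i).1) : Fin (n + 1) → M) i) (b t) with hA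
  have h1 : (Matrix.of fun i t : Fin (n + 1) =>
      a ((Fin.cons l' (fun i => (eg i).1) : Fin (n + 1) → M) i) (b t)) =
      A.updateRow 0 (∑ k, (Fin.cons m (fun i => c (eg i).1) : Fin (n + 1) → ℝ) k • A k) := by
    ext i t
    refine Fin.cases ?_ (fun i => ?_) i
    · rw [Matrix.updateRow_self, Finset.sum_apply, Fin.sum_univ_succ]
      simp only [Matrix.of_apply, Fin.cons_zero, Fin.cons_succ, Pi.smul_apply, hA, smul_eq_mul]
      rw [hr, LinearMap.add_apply, LinearMap.smul_apply, LinearMap.sum_apply, smul_eq_mul]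
      congr 1
      rw [← Finset.sum_coe_sort g, ← Equiv.sum_comp eg]
      rfl
    · rw [Matrix.updateRow_ne (Fin.succ_ne_zero i)]
      simp [hA]
  rw [h1, Matrix.det_updateRow_sum, Fin.cons_zero, smul_eq_mul]

lemma isFace_mono {a : M → Module.Dual ℝ V} {h : M → ℝ} {s t : Finset M} (hst : s ⊆ t)
    (ht : IsFace a h t) : IsFace a h s := by
  obtain ⟨x, hx, hx2⟩ := ht
  exact ⟨x, hx, fun j hj => hx2 j (hst hj)⟩

end DETW_

/-- DETW: the determinant weights. -/
theorem t_DETW (hVERT : Stmt_VERT) (hEDGE : Stmt_EDGE) : Stmt_DETW := by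
  classical
  intro V M _ _ _ _ a h N b hS
  have hN : Module.finrank ℝ V = N := by
    rw [Module.finrank_eq_card_basis b, Fintype.card_fin]
  constructor
  · intro B hB
    have hF := hVERT V M a h hS B (by rw [hN]; exact hB)
    exact DETW_.vol_pos b a B hB.2 hF.inj
  · intro g hg y hy
    by_cases hgf : IsFace a h g
    · obtain ⟨l, l', hne, hl, hl', hk, m, c, hm, hr⟩ := hEDGE V M a h hS g hgf (by rw [hN]; exact hg)
      have hfil : (Finset.univ.filter (fun k => k ∉ g ∧ IsFace a h (insert k g))) = {l, l'} := by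
        ext k
        simp only [Finset.mem_filter, Finset.mem_univ, true_and, Finset.mem_insert,
          Finset.mem_singleton]
        constructor
        · rintro ⟨h1, h2⟩
          exact (hk k h1).1 h2
        · rintro (rfl | rfl)
          · exact ⟨hl, (hk _ hl).2 (Or.inl rfl)⟩
          · exact ⟨hl', (hk _ hl').2 (Or.inr rfl)⟩
      rw [hfil, Finset.sum_pair hne]
      have hy' : a l' y = m * a l y := by
        rw [hr, LinearMap.add_apply, LinearMap.smul_apply, LinearMap.sum_apply, smul_eq_mul]
        rw [Finset.sum_eq_zero, add_zero]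
        intro j hj
        rw [LinearMap.smul_apply, hy j hj, smul_zero]
      subst hg
      have hv := DETW_.vol_insert b a g rfl l l' hl hl' m c hr
      have hm0 : m ≠ 0 := hm.ne
      dsimp only
      rw [hv, hy', abs_of_neg hm, mul_inv]
      have h1 : (-m)⁻¹ * m = -1 := by
        rw [inv_neg, neg_mul, inv_mul_cancel₀ hm0]
      calc (vol b a (insert l g))⁻¹ * a l y +
            (-m)⁻¹ * (vol b a (insert l g))⁻¹ * (m * a l y)
          = (vol b a (insert l g))⁻¹ * a l y * (1 + (-m)⁻¹ * m) := by ring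
        _ = 0 := by rw [h1]; ring
    · rw [Finset.sum_eq_zero]
      intro k hk
      exact absurd (DETW_.isFace_mono (Finset.subset_insert k g) (Finset.mem_filter.1 hk).2.2) hgf

end Pool.Agent.KF.S
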