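import Pool.Agent.KF.S.START

/-!
# SHR module DLIN: the cut functional kills the linear forms
-/

namespace Pool.Agent.KF.S

open MvPolynomial

theorem t_DLIN (hVERT : Stmt_VERT) : Stmt_DLIN := by
  classical
  intro V M _ _ _ _ a h N z D c hS hN y q
  subst hN
  unfold Dc
  rw [LinearMap.sum_apply]
  refine Finset.sum_eq_zero fun B hB => ?_
  have hB' : IsVert a h (Module.finrank ℝ V) B := by
    unfold verts at hB
    rw [Finset.mem_filter, Finset.mem_filter] at hB
    exact hB.1.2
  have F := hVERT V M a h hS B hB'
  have h1 : aeval (lam a z B) (lin (cutA a z) y : MvPolynomial (Option M) ℝ) = (0 : ℝ) := by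
    unfold lin
    rw [map_sum, Fintype.sum_option]
    have e : ∀ i : M, aeval (lam a z B) (C (cutA a z (some i) y) * X (some i) :
        MvPolynomial (Option M) ℝ) = co a (-z) B i * a i y := by
      intro i
      rw [map_mul, aeval_X, aeval_C]
      show a i y * co a (-z) B i = _
      ring
    have e0 : aeval (lam a z B) (C (cutA a z none y) * X none :
        MvPolynomial (Option M) ℝ) = z y := by
      rw [map_mul, aeval_X, aeval_C]
      show z y * 1 = _
      ring
    rw [e0, Finset.sum_congr rfl fun i _ => e i]
    have h2 : ∑ i, co a (-z) B i * a i y = (-z) y := by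
      rw [← START_.sum_at F (-z) y]
      refine (Finset.sum_subset (Finset.subset_univ B) fun i _ hi => ?_).symm
      rw [F.co_supp (-z) i hi, zero_mul]
    rw [h2, LinearMap.neg_apply, add_neg_cancel]
  rw [LinearMap.smul_apply]
  show _ • aeval (lam a z B) (lin (cutA a z) y * q) = 0
  rw [map_mul, h1, zero_mul, smul_zero]

end Pool.Agent.KF.S
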