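import Pool.Agent.KF.S.Basic

/-!
# DPOS: positivity of the cut functional at the vertices of the cut polytope
-/

set_option autoImplicit false

namespace Pool.Agent.KF.S

open MvPolynomial

namespace DPOS_

variable {V : Type} [AddCommGroup V] [Module ℝ V] {M : Type}

lemma mem_verts [Fintype M] {a : M → Module.Dual ℝ V} {h : M → ℝ} {N : ℕ} {B : Finset M} :
    B ∈ verts a h N ↔ IsVert a h N B := by
  unfold verts
  simp

lemma co_neg {a : M → Module.Dual ℝ V} {h : M → ℝ} {B : Finset M} (vf : VertFacts a h B)
    (z : Module.Dual ℝ V) (j : M) : co a (-z) B j = - co a z B j := by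
  have h1 := vf.co_uniq (-z) (fun j => - co a z B j)
    (by
      intro j hj
      rw [vf.co_supp z j hj, neg_zero])
    (by
      rw [← vf.co_sum z, ← Finset.sum_neg_distrib]
      apply Finset.sum_congr rfl
      intro j _
      rw [vf.co_sum z]
      ext y
      simp only [LinearMap.smul_apply, LinearMap.neg_apply, smul_eq_mul, neg_mul])
  rw [← h1]

lemma Dc_apply [Fintype M] (a : M → Module.Dual ℝ V) (h : M → ℝ) (N : ℕ)
    (z : Module.Dual ℝ V) (D : MvPolynomial M ℝ →ₗ[ℝ] ℝ) (c : ℝ)
    (q : MvPolynomial (Option M) ℝ) (B : Finset M) (hB : IsVert a h N B)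
    (hBc : z (pt a h B) < c)
    (hz : ∀ B', IsVert a h N B' → z (pt a h B') < c → B' ≠ B → aeval (lam a z B') q = 0) :
    Dc a h N z D c q = (D (mon B) / ∏ j ∈ B, co a (-z) B j) * aeval (lam a z B) q := by
  unfold Dc
  rw [LinearMap.sum_apply]
  rw [Finset.sum_eq_single B]
  · rfl
  · intro B' hB' hne
    rw [Finset.mem_filter, mem_verts] at hB'
    rw [LinearMap.smul_apply, AlgHom.toLinearMap_apply, hz B' hB'.1 hB'.2 hne, smul_zero]
  · intro hn
    exfalso
    apply hn
    rw [Finset.mem_filter, mem_verts]
    exact ⟨hB, hBc⟩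

lemma aeval_map [Fintype M] (a : M → Module.Dual ℝ V) (z : Module.Dual ℝ V) (B s : Finset M) :
    aeval (lam a z B) (mon (s.map Function.Embedding.some)) = ∏ j ∈ s, co a (-z) B j := by
  unfold mon
  rw [Finset.prod_map, map_prod]
  apply Finset.prod_congr rfl
  intro j _
  rw [aeval_X]
  rfl

lemma aeval_insertNone [Fintype M] (a : M → Module.Dual ℝ V) (z : Module.Dual ℝ V)
    (B s : Finset M) :
    aeval (lam a z B) (mon (Finset.insertNone s)) = ∏ j ∈ s, co a (-z) B j := by
  unfold mon
  rw [Finset.prod_insertNone, map_mul, map_prod, aeval_X]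
  have h1 : lam a z B none = 1 := rfl
  rw [h1, one_mul]
  apply Finset.prod_congr rfl
  intro j _
  rw [aeval_X]
  rfl

end DPOS_

open DPOS_ in
theorem t_DPOS (hVERT : Stmt_VERT) (hEDGE : Stmt_EDGE) : Stmt_DPOS := by
  classical
  intro V M _ _ _ _ a h N z D hS hN hG hD c
  subst hN
  have hvf : ∀ B, IsVert a h (Module.finrank ℝ V) B → VertFacts a h B :=
    fun B hB => hVERT V M a h hS B hB
  have hne : ∀ B, IsVert a h (Module.finrank ℝ V) B → ∀ j ∈ B, co a (-z) B j ≠ 0 := by
    intro B hB j hj
    rw [co_neg (hvf B hB), neg_ne_zero]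
    exact hG.ne B hB j hj
  constructor
  · intro B hB hBc
    rw [Dc_apply a h _ z D c _ B hB hBc]
    · rw [aeval_map, div_mul_cancel₀]
      · exact hD.pos B hB
      · exact Finset.prod_ne_zero_iff.2 (hne B hB)
    · intro B' hB' _ hBB
      rw [aeval_map]
      have : ∃ j ∈ B, j ∉ B' := by
        by_contra hcon
        push Not at hcon
        have hsub : B ⊆ B' := hcon
        have := Finset.eq_of_subset_of_card_le hsub (by rw [hB.2, hB'.2])
        exact hBB this.symm
      obtain ⟨j, hj, hj'⟩ := this
      exact Finset.prod_eq_zero hj ((hvf B' hB').co_supp (-z) j hj')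
  · intro s hs hlow hhigh
    obtain ⟨B, hB, hsB, hBc⟩ := hlow
    obtain ⟨B', hB', hsB', hBc'⟩ := hhigh
    have hBB' : B ≠ B' := by
      rintro rfl
      exact absurd hBc (not_lt.2 hBc')
    -- the face `s`
    have hsF : IsFace a h s := by
      obtain ⟨x, hx, hx'⟩ := hB.1
      exact ⟨x, hx, fun j hj => hx' j (hsB hj)⟩
    obtain ⟨l, l', _, hls, hls', hedge, _⟩ := hEDGE V M a h hS s hsF hs
    -- vertices containing `s`
    have hcont : ∀ B'', IsVert a h (Module.finrank ℝ V) B'' → s ⊆ B'' →
        ∃ k, k ∉ s ∧ B'' = insert k s ∧ (k = l ∨ k = l') := by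
      intro B'' hB'' hs''
      have hcard : (B'' \ s).card = 1 := by
        have := Finset.card_sdiff_add_card_eq_card hs''
        rw [hB''.2] at this
        omega
      obtain ⟨k, hk⟩ := Finset.card_eq_one.1 hcard
      have hkm : k ∈ B'' \ s := by rw [hk]; exact Finset.mem_singleton_self k
      rw [Finset.mem_sdiff] at hkm
      have heq : B'' = insert k s := by
        rw [← Finset.sdiff_union_of_subset hs'', hk]
        rfl
      refine ⟨k, hkm.2, heq, (hedge k hkm.2).1 ?_⟩
      rw [← heq]
      exact hB''.1
    obtain ⟨k, hks, rfl, hk⟩ := hcont B hB hsB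
    obtain ⟨k', hks', rfl, hk'⟩ := hcont B' hB' hsB'
    have hkk : k ≠ k' := fun e => hBB' (by rw [e])
    have honly : ∀ B'', IsVert a h (Module.finrank ℝ V) B'' → z (pt a h B'') < c →
        B'' ≠ insert k s → aeval (lam a z B'') (mon (Finset.insertNone s)) = 0 := by
      intro B'' hB'' hc'' hne''
      rw [aeval_insertNone]
      by_cases hs'' : s ⊆ B''
      · exfalso
        obtain ⟨k'', _, rfl, hk''⟩ := hcont B'' hB'' hs''
        have h1 : k'' ≠ k := fun e => hne'' (by rw [e])
        have h2 : k'' = k' := by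
          rcases hk with rfl | rfl <;> rcases hk' with rfl | rfl <;>
            rcases hk'' with rfl | rfl <;> first | rfl | exact absurd rfl h1 | exact absurd rfl hkk
        rw [h2] at hc''
        exact absurd hc'' (not_lt.2 hBc')
      · rw [Finset.not_subset] at hs''
        obtain ⟨j, hj, hj'⟩ := hs''
        exact Finset.prod_eq_zero hj ((hvf B'' hB'').co_supp (-z) j hj')
    rw [Dc_apply a h _ z D c _ (insert k s) hB hBc honly, aeval_insertNone,
      Finset.prod_insert hks]
    have hP : ∏ j ∈ s, co a (-z) (insert k s) j ≠ 0 :=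
      Finset.prod_ne_zero_iff.2 fun j hj => hne _ hB j (Finset.mem_insert_of_mem hj)
    have hQ : co a (-z) (insert k s) k ≠ 0 := hne _ hB k (Finset.mem_insert_self k s)
    have hpos : 0 < co a (-z) (insert k s) k := by
      rw [co_neg (hvf _ hB)]
      have vB := hvf _ hB
      have vB' := hvf _ hB'
      have hlt : z (pt a h (insert k s)) < z (pt a h (insert k' s)) := lt_of_lt_of_le hBc hBc'
      have hzs : ∀ x : V, z x = ∑ j ∈ insert k s, co a z (insert k s) j * a j x := by
        intro x
        conv_lhs => rw [← vB.co_sum z]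
        rw [LinearMap.sum_apply]
        rfl
      have h1 : z (pt a h (insert k' s)) - z (pt a h (insert k s)) =
          co a z (insert k s) k * (a k (pt a h (insert k' s)) - h k) := by
        rw [hzs (pt a h (insert k' s)), hzs (pt a h (insert k s)), Finset.sum_insert hks,
          Finset.sum_insert hks]
        have e1 : ∑ x ∈ s, co a z (insert k s) x * a x (pt a h (insert k' s)) =
            ∑ x ∈ s, co a z (insert k s) x * a x (pt a h (insert k s)) := by
          apply Finset.sum_congr rfl
          intro j hj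
          rw [vB.tight j (Finset.mem_insert_of_mem hj), vB'.tight j (Finset.mem_insert_of_mem hj)]
        rw [e1, vB.tight k (Finset.mem_insert_self k s)]
        ring
      have h2 : a k (pt a h (insert k' s)) ≤ h k := vB'.feas k
      have h3 : 0 < co a z (insert k s) k * (a k (pt a h (insert k' s)) - h k) := by
        rw [← h1]; linarith
      by_contra hcon
      push Not at hcon
      have h4 : 0 ≤ co a z (insert k s) k := by linarith
      have h5 : co a z (insert k s) k * (a k (pt a h (insert k' s)) - h k) ≤ 0 :=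
        mul_nonpos_of_nonneg_of_nonpos h4 (by linarith)
      linarith
    have hfin : D (mon (insert k s)) / (co a (-z) (insert k s) k *
        ∏ j ∈ s, co a (-z) (insert k s) j) * ∏ j ∈ s, co a (-z) (insert k s) j =
        D (mon (insert k s)) / co a (-z) (insert k s) k := by
      field_simp
    rw [hfin]
    exact div_pos (hD.pos _ hB) hpos

end Pool.Agent.KF.S
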