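import Pool.Agent.KF.S.Basic

/-!
# DTOP: above all vertices the cut functional is the functional
-/

namespace Pool.Agent.KF.S

open MvPolynomial

namespace DTOP_

variable {V : Type} [AddCommGroup V] [Module ℝ V] {M : Type}

lemma lam_some (a : M → Module.Dual ℝ V) (z : Module.Dual ℝ V) (B : Finset M) :
    (lam a z B) ∘ some = co a (-z) B := rfl

lemma aeval_lam (a : M → Module.Dual ℝ V) (z : Module.Dual ℝ V) (B : Finset M)
    (p : MvPolynomial M ℝ) :
    (aeval (lam a z B) (rename some p) : ℝ) = aeval (co a (-z) B) p := by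
  rw [aeval_rename, lam_some]

/-- `Dc` above all vertices. -/
lemma Dc_top [Fintype M] (a : M → Module.Dual ℝ V) (h : M → ℝ) (N : ℕ) (z : Module.Dual ℝ V)
    (D : MvPolynomial M ℝ →ₗ[ℝ] ℝ) (c : ℝ) (hc : ∀ B, IsVert a h N B → z (pt a h B) < c)
    (p : MvPolynomial (Option M) ℝ) :
    Dc a h N z D c p = ∑ B ∈ verts a h N,
      (D (mon B) / ∏ j ∈ B, co a (-z) B j) * aeval (lam a z B) p := by
  classical
  unfold Dc
  rw [Finset.filter_true_of_mem, LinearMap.sum_apply]
  · rfl
  · intro B hB
    exact hc B (Finset.mem_filter.1 hB).2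

/-- `phi` at the empty face. -/
lemma phi_empty [Fintype M] (a : M → Module.Dual ℝ V) (h : M → ℝ) (N : ℕ)
    (z : Module.Dual ℝ V) (u : Finset M → ℝ) (q : MvPolynomial M ℝ) :
    phi a h N z u ∅ q = ∑ B ∈ verts a h N,
      u B * aeval (co a z B) q / ∏ j ∈ B, co a z B j := by
  classical
  unfold phi
  rw [Finset.filter_true_of_mem]
  · refine Finset.sum_congr rfl fun B _ => ?_
    rw [Finset.filter_true_of_mem]
    exact fun j _ => Finset.notMem_empty j
  · exact fun B _ => Finset.empty_subset B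

end DTOP_

open DTOP_ in
/-- DTOP: above all vertices the cut functional is the functional. -/
theorem t_DTOP (hGNEG : Stmt_GNEG) (hFP2 : Stmt_FP2) : Stmt_DTOP := by
  intro V M _ _ _ _ a h N z D hS hN hG hD c hc p hp
  have h1 := hFP2 V M a h N (-z) D hS hN (hGNEG V M a h N z hS hN hG).1 hD ∅ N p hp
    (by rw [Finset.card_empty, add_zero])
  have e : mon (∅ : Finset M) = (1 : MvPolynomial M ℝ) := Finset.prod_empty
  rw [e, one_mul, phi_empty] at h1
  rw [← h1, Dc_top a h N z D c hc]
  refine Finset.sum_congr rfl fun B _ => ?_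
  rw [aeval_lam]
  ring

end Pool.Agent.KF.S
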