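import Pool.Agent.KF.S.Basic

/-!
# Edges of a simple polytope
-/

namespace Pool.Agent.KF.S

open MvPolynomial

theorem t_EDGE (hIND : Stmt_IND) (hVERT : Stmt_VERT) (hMINV : Stmt_MINV) : Stmt_EDGE := by
  intro V M _ _ _ _ _ a h hS s hs hcard
  obtain ⟨x0, hx0, hx0s⟩ := hs
  obtain ⟨B, hB, hsub0, -⟩ := hMINV V M a h hS 0 x0 hx0
  have hsB : s ⊆ B := fun j hj => hsub0 j (hx0s j hj)
  have hBcard : B.card = s.card + 1 := by rw [hB.2, hcard]
  -- the additional element
  obtain ⟨l, hl, hBl⟩ : ∃ l, l ∉ s ∧ insert l s = B := by
    have h1 : (B \ s).card = 1 := by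
      rw [Finset.card_sdiff_of_subset hsB]; omega
    obtain ⟨l, hl⟩ := Finset.card_eq_one.mp h1
    have hlm : l ∈ B \ s := by rw [hl]; exact Finset.mem_singleton_self l
    refine ⟨l, (Finset.mem_sdiff.mp hlm).2, ?_⟩
    ext j
    constructor
    · intro hj
      rcases Finset.mem_insert.mp hj with rfl | hj
      · exact (Finset.mem_sdiff.mp hlm).1
      · exact hsB hj
    · intro hj
      by_cases hjs : j ∈ s
      · exact Finset.mem_insert_of_mem hjs
      · have : j ∈ B \ s := Finset.mem_sdiff.mpr ⟨hj, hjs⟩
        rw [hl, Finset.mem_singleton] at this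
        rw [this]; exact Finset.mem_insert_self _ _
  have hV := hVERT V M a h hS B hB
  have hlB : l ∈ B := by rw [← hBl]; exact Finset.mem_insert_self _ _
  obtain ⟨y, hy⟩ := hV.surj (fun j => if j = l then -1 else 0)
  have hyl : a l y = -1 := by have := hy l hlB; simpa using this
  have hys : ∀ j ∈ s, a j y = 0 := by
    intro j hj
    have h1 := hy j (hsB hj)
    have h2 : j ≠ l := fun e => hl (e ▸ hj)
    simpa [h2] using h1
  set p0 := pt a h B with hp0
  -- a positive functional
  have hpos : ∃ j, 0 < a j y := by
    by_contra hcon
    push Not at hcon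
    have := hS.bdd y hcon
    rw [this, map_zero] at hyl
    norm_num at hyl
  classical
  set P : Finset M := Finset.univ.filter (fun j => 0 < a j y) with hP
  have hPne : P.Nonempty := by
    obtain ⟨j, hj⟩ := hpos
    exact ⟨j, Finset.mem_filter.mpr ⟨Finset.mem_univ _, hj⟩⟩
  obtain ⟨l', hl'P, hmin⟩ := Finset.exists_min_image P
    (fun j => (h j - a j p0) / a j y) hPne
  have hl'y : 0 < a l' y := (Finset.mem_filter.mp hl'P).2
  have hl's : l' ∉ s := fun hj => by rw [hys l' hj] at hl'y; exact lt_irrefl _ hl'y
  have hll' : l ≠ l' := fun e => by rw [← e, hyl] at hl'y; linarith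
  have hl'B : l' ∉ B := by
    rw [← hBl, Finset.mem_insert]
    rintro (e | e)
    · exact hll' e.symm
    · exact hl's e
  set t0 : ℝ := (h l' - a l' p0) / a l' y with ht0
  have ht0pos : 0 < t0 := div_pos (by have := hV.slack l' hl'B; linarith) hl'y
  have ht0eq : a l' p0 + t0 * a l' y = h l' := by
    rw [ht0, div_mul_cancel₀ _ hl'y.ne']; ring
  -- the second vertex point
  set x1 : V := p0 + t0 • y with hx1
  have hval : ∀ (t : ℝ) (j : M), a j (p0 + t • y) = a j p0 + t * a j y := by
    intro t j; rw [map_add, map_smul, smul_eq_mul]
  have hx1f : Feas a h x1 := by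
    intro j
    rw [hx1, hval]
    by_cases hj : 0 < a j y
    · have h1 := hmin j (Finset.mem_filter.mpr ⟨Finset.mem_univ _, hj⟩)
      have h2 : t0 * a j y ≤ h j - a j p0 := by
        rw [ht0]
        calc (h l' - a l' p0) / a l' y * a j y ≤ (h j - a j p0) / a j y * a j y :=
              mul_le_mul_of_nonneg_right h1 hj.le
          _ = h j - a j p0 := div_mul_cancel₀ _ hj.ne'
      linarith
    · have h1 := hV.feas j
      have h2 : t0 * a j y ≤ 0 := mul_nonpos_of_nonneg_of_nonpos ht0pos.le (not_lt.mp hj)
      linarith
  have hx1s : ∀ j ∈ s, a j x1 = h j := by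
    intro j hj
    rw [hx1, hval, hys j hj, mul_zero, add_zero]
    exact hV.tight j (hsB hj)
  have hx1l : a l' x1 = h l' := by rw [hx1, hval, ht0eq]
  have hface' : IsFace a h (insert l' s) := by
    refine ⟨x1, hx1f, ?_⟩
    intro j hj
    rcases Finset.mem_insert.mp hj with rfl | hj
    · exact hx1l
    · exact hx1s j hj
  refine ⟨l, l', hll', hl, hl's, ?_, ?_⟩
  · intro k hk
    constructor
    · rintro ⟨x, hxf, hxt⟩
      have hxs : ∀ j ∈ s, a j x = h j := fun j hj => hxt j (Finset.mem_insert_of_mem hj)
      have hxk : a k x = h k := hxt k (Finset.mem_insert_self _ _)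
      set t : ℝ := h l - a l x with ht
      have ht_nonneg : 0 ≤ t := by have := hxf l; linarith
      have hxeq : x = p0 + t • y := by
        have h1 : x - p0 - t • y = 0 := by
          apply hV.inj
          intro j hj
          rw [map_sub, map_sub, map_smul, smul_eq_mul]
          rw [← hBl] at hj
          rcases Finset.mem_insert.mp hj with e | hj
          · rw [e, hyl, hV.tight l hlB, ht]; ring
          · rw [hys j hj, hxs j hj, hV.tight j (hsB hj)]; ring
        have h2 : x = (x - p0 - t • y) + (p0 + t • y) := by abel
        rw [h1, zero_add] at h2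
        exact h2
      have ht_le : t ≤ t0 := by
        have h1 := hxf l'
        rw [hxeq, hval, ← ht0eq] at h1
        have h2 : t * a l' y ≤ t0 * a l' y := by linarith
        exact le_of_mul_le_mul_right h2 hl'y
      have hkt : a k p0 + t * a k y = h k := by rw [← hval, ← hxeq]; exact hxk
      by_cases htz : t = 0
      · left
        rw [htz, zero_mul, add_zero] at hkt
        by_contra hkl
        have hkB : k ∉ B := by
          rw [← hBl, Finset.mem_insert]
          rintro (e | e)
          · exact hkl e
          · exact hk e
        have := hV.slack k hkB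
        exact absurd hkt this.ne
      · have htpos : 0 < t := lt_of_le_of_ne ht_nonneg (Ne.symm htz)
        by_cases htt : t = t0
        · right
          by_contra hkl
          have hf3 : IsFace a h (insert k (insert l' s)) := by
            refine ⟨x1, hx1f, ?_⟩
            intro j hj
            rcases Finset.mem_insert.mp hj with e | hj
            · rw [e, hx1, hval, ← htt]; exact hkt
            · rcases Finset.mem_insert.mp hj with e | hj
              · rw [e]; exact hx1l
              · exact hx1s j hj
          have hc := (hIND V M a h hS _ hf3).2.1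
          rw [Finset.card_insert_of_notMem, Finset.card_insert_of_notMem hl's] at hc
          · omega
          · rw [Finset.mem_insert]
            rintro (e | e)
            · exact hkl e
            · exact hk e
        · exfalso
          have htlt : t < t0 := lt_of_le_of_ne ht_le htt
          have h1 := hV.feas k
          have h2 := hx1f k
          rw [hx1, hval] at h2
          have h3 : 0 ≤ t * a k y := by linarith
          have h4 : 0 ≤ a k y := by
            by_contra hneg
            push Not at hneg
            have := mul_neg_of_pos_of_neg htpos hneg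
            linarith
          have h5 : (t0 - t) * a k y ≤ 0 := by
            have : (t0 - t) * a k y = t0 * a k y - t * a k y := by ring
            rw [this]; linarith
          have h6 : a k y ≤ 0 := by
            by_contra hpos'
            push Not at hpos'
            have := mul_pos (sub_pos.mpr htlt) hpos'
            linarith
          have h7 : a k y = 0 := le_antisymm h6 h4
          rw [h7, mul_zero, add_zero] at hkt
          have hkB : k ∈ B := by
            by_contra hkB
            exact absurd hkt (hV.slack k hkB).ne
          rw [← hBl, Finset.mem_insert] at hkB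
          rcases hkB with e | e
          · rw [e, hyl] at h7; norm_num at h7
          · exact hk e
    · rintro (e | e)
      · rw [e, hBl]; exact hB.1
      · rw [e]; exact hface'
  · refine ⟨co a (a l') B l, co a (a l') B, ?_, ?_⟩
    · have h1 := hV.co_sum (a l')
      have h2 := congrArg (fun f : Module.Dual ℝ V => f y) h1
      simp only [LinearMap.sum_apply, LinearMap.smul_apply, smul_eq_mul] at h2
      rw [← hBl, Finset.sum_insert hl, hyl] at h2
      rw [Finset.sum_eq_zero (fun j hj => by rw [hys j hj, mul_zero])] at h2
      rw [← hBl]
      linarith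
    · have h1 := hV.co_sum (a l')
      rw [← h1]
      conv_lhs => rw [← hBl, Finset.sum_insert hl]
      rw [h1, hBl]

end Pool.Agent.KF.S
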