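import Pool.Agent.KF.S.Basic

/-!
# EX: existence of degree functionals
-/

namespace Pool.Agent.KF.S

open MvPolynomial

namespace EX_

variable {V : Type} [AddCommGroup V] [Module ℝ V] {M : Type} [Fintype M]

open Classical in
/-- The localization sum at the empty face, in degree `N`. -/
noncomputable def DD (a : M → Module.Dual ℝ V) (h : M → ℝ) (N : ℕ) (z : Module.Dual ℝ V)
    (u : Finset M → ℝ) : MvPolynomial M ℝ →ₗ[ℝ] ℝ :=
  (∑ B ∈ verts a h N, (u B / ∏ j ∈ B, co a z B j) • (aeval (co a z B)).toLinearMap) ∘ₗ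
    homogeneousComponent N

lemma DD_apply (a : M → Module.Dual ℝ V) (h : M → ℝ) (N : ℕ) (z : Module.Dual ℝ V)
    (u : Finset M → ℝ) {p : MvPolynomial M ℝ} (hp : p.IsHomogeneous N) :
    DD a h N z u p =
      ∑ B ∈ verts a h N, (u B / ∏ j ∈ B, co a z B j) * aeval (co a z B) p := by
  have h1 : homogeneousComponent N p = p := by
    rw [homogeneousComponent_of_mem ((mem_homogeneousSubmodule _ _).2 hp), if_pos rfl]
  unfold DD
  rw [LinearMap.comp_apply, h1, LinearMap.sum_apply]
  rfl

lemma phi_empty (a : M → Module.Dual ℝ V) (h : M → ℝ) (N : ℕ) (z : Module.Dual ℝ V)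
    (u : Finset M → ℝ) (p : MvPolynomial M ℝ) :
    phi a h N z u ∅ p =
      ∑ B ∈ verts a h N, (u B / ∏ j ∈ B, co a z B j) * aeval (co a z B) p := by
  classical
  unfold phi
  have h1 : (verts a h N).filter (fun B => ∅ ⊆ B) = verts a h N :=
    Finset.filter_true_of_mem fun B _ => Finset.empty_subset B
  rw [h1]
  refine Finset.sum_congr rfl fun B _ => ?_
  have h2 : B.filter (fun j => j ∉ (∅ : Finset M)) = B :=
    Finset.filter_true_of_mem fun j _ => Finset.notMem_empty j
  rw [h2, mul_div_right_comm]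

lemma mem_verts {a : M → Module.Dual ℝ V} {h : M → ℝ} {N : ℕ} {B : Finset M} :
    B ∈ verts a h N ↔ IsVert a h N B := by
  classical
  unfold verts
  simp

omit [Fintype M] in
lemma isFace_mono {a : M → Module.Dual ℝ V} {h : M → ℝ} {s t : Finset M} (hst : s ⊆ t)
    (ht : IsFace a h t) : IsFace a h s := by
  obtain ⟨x, hx, hxt⟩ := ht
  exact ⟨x, hx, fun j hj => hxt j (hst hj)⟩

lemma aeval_lin {a : M → Module.Dual ℝ V} {h : M → ℝ} {B : Finset M} (hB : VertFacts a h B)
    (z : Module.Dual ℝ V) (y : V) : aeval (co a z B) (lin a y) = z y := by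
  classical
  unfold lin
  rw [map_sum]
  have h1 : ∀ j : M, aeval (co a z B) (C (a j y) * X j : MvPolynomial M ℝ) =
      co a z B j * a j y := by
    intro j
    rw [map_mul, aeval_X, algHom_C, Algebra.algebraMap_self, RingHom.id_apply, mul_comm]
  rw [Finset.sum_congr rfl fun j _ => h1 j]
  have h2 : ∑ j, co a z B j * a j y = ∑ j ∈ B, co a z B j * a j y := by
    symm
    refine Finset.sum_subset (Finset.subset_univ B) fun j _ hj => ?_
    rw [hB.co_supp z j hj, zero_mul]
  rw [h2]
  have h3 := congrArg (fun f : Module.Dual ℝ V => f y) (hB.co_sum z)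
  simp only [LinearMap.sum_apply, LinearMap.smul_apply, smul_eq_mul] at h3
  exact h3

omit [Fintype M] in
lemma aeval_mon (c : M → ℝ) (s : Finset M) :
    aeval c (mon s : MvPolynomial M ℝ) = ∏ j ∈ s, c j := by
  unfold mon
  rw [map_prod]
  exact Finset.prod_congr rfl fun j _ => aeval_X c j

end EX_

/-- Existence of degree functionals. -/
theorem t_EX (hVERT : Stmt_VERT) (hGEN : Stmt_GEN) (hFP1 : Stmt_FP1) : Stmt_EX := by
  classical
  intro V M _ _ _ _ a h N u hS hN hbal hu
  obtain ⟨z, hz⟩ := hGEN V M a h hS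
  rw [hN] at hz
  have hV : ∀ B, IsVert a h N B → VertFacts a h B := fun B hB =>
    hVERT V M a h hS B (by rw [hN]; exact hB)
  have hval : ∀ B, IsVert a h N B → EX_.DD a h N z u (mon B) = u B := by
    intro B hB
    have hm : (mon B : MvPolynomial M ℝ).IsHomogeneous N := by
      have := mon_hom B
      rwa [hB.2] at this
    rw [EX_.DD_apply a h N z u hm, Finset.sum_eq_single B]
    · rw [EX_.aeval_mon]
      exact div_mul_cancel₀ _ (Finset.prod_ne_zero_iff.2 (hz.ne B hB))
    · intro B' hB' hne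
      have hB'v := EX_.mem_verts.1 hB'
      obtain ⟨j, hj, hj'⟩ : ∃ j ∈ B, j ∉ B' := by
        by_contra hcon
        push Not at hcon
        exact hne (Finset.eq_of_subset_of_card_le hcon (by rw [hB.2, hB'v.2])).symm
      rw [EX_.aeval_mon, Finset.prod_eq_zero hj ((hV B' hB'v).co_supp z j hj'), mul_zero]
    · intro hB'
      exact absurd (EX_.mem_verts.2 hB) hB'
  refine ⟨EX_.DD a h N z u, ⟨?_, ?_, ?_⟩, hval, ?_⟩
  · -- Stanley-Reisner relations
    intro m hm hnf
    have hmm : (monomial m (1 : ℝ)).IsHomogeneous N := isHomogeneous_monomial 1 hm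
    rw [EX_.DD_apply a h N z u hmm]
    refine Finset.sum_eq_zero fun B hB => ?_
    have hBv := EX_.mem_verts.1 hB
    obtain ⟨j, hj, hj'⟩ : ∃ j ∈ m.support, j ∉ B := by
      by_contra hcon
      push Not at hcon
      exact hnf (EX_.isFace_mono hcon hBv.1)
    rw [aeval_monomial, map_one, one_mul, Finsupp.prod, Finset.prod_eq_zero hj, mul_zero]
    rw [(hV B hBv).co_supp z j hj', zero_pow (Finsupp.mem_support_iff.1 hj)]
  · -- linear forms
    intro y n q hn hq
    have hmm : (lin a y * q).IsHomogeneous N := by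
      have := (lin_hom a y).mul hq
      rwa [add_comm 1 n, hn] at this
    rw [EX_.DD_apply a h N z u hmm]
    have h1 : ∀ B ∈ verts a h N, (u B / ∏ j ∈ B, co a z B j) * aeval (co a z B) (lin a y * q) =
        z y * ((u B / ∏ j ∈ B, co a z B j) * aeval (co a z B) q) := by
      intro B hB
      rw [map_mul, EX_.aeval_lin (hV B (EX_.mem_verts.1 hB)) z y]
      ring
    rw [Finset.sum_congr rfl h1, ← Finset.mul_sum, ← EX_.phi_empty]
    rw [hFP1 V M a h N z u hS hN hz hbal ∅ n q hq (by simp; omega), mul_zero]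
  · intro B hB
    rw [hval B hB]
    exact hu B hB
  · intro m p hp hm
    unfold EX_.DD
    rw [LinearMap.comp_apply,
      homogeneousComponent_of_mem ((mem_homogeneousSubmodule _ _).2 hp), if_neg (Ne.symm hm),
      map_zero]

end Pool.Agent.KF.S
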