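import Pool.Agent.KF.S.Basic

/-!
# FAC: Hodge-Riemann relations for a facet
-/

namespace Pool.Agent.KF.S

open MvPolynomial

namespace FAC_

lemma HR_zero {J : Type} {D : MvPolynomial J ℝ →ₗ[ℝ] ℝ} {n : ℕ} {w : MvPolynomial J ℝ}
    (hw : w.IsHomogeneous 1) (H : ∀ q : MvPolynomial J ℝ, q.IsHomogeneous n → D q = 0) :
    HR D n w := by
  intro i r hir p hp _
  have h1 : D (p * w ^ r * p) = 0 := by
    refine H _ ?_
    have h2 := (hp.mul (hw.pow r)).mul hp
    rwa [show i + 1 * r + i = n by omega] at h2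
  refine ⟨by rw [h1, mul_zero], fun _ q hq => H _ ?_⟩
  have h2 := hp.mul hq
  rwa [show i + (i + r) = n by omega] at h2

end FAC_

theorem t_FAC (hFACS : Stmt_FACS) (hFACD : Stmt_FACD) (hFACP : Stmt_FACP) (hTR : Stmt_TR) :
    Stmt_FAC := by
  classical
  intro n hS V M _ _ _ _ a h D o hV hb hlin hdeg
  by_cases hf : IsFace a h {o}
  · obtain ⟨x, hx, hxo⟩ := id hf
    have hxo' : a o x = h o := hxo o (Finset.mem_singleton_self o)
    have hind := hdeg.ind x hx hxo'
    have hne : a o ≠ 0 := hind.ne_zero (⟨o, hxo'⟩ : {j : M // a j x = h j})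
    obtain ⟨y₀, hy₀⟩ : ∃ y₀ : V, a o y₀ ≠ 0 := by
      by_contra hc
      push Not at hc
      exact hne (LinearMap.ext hc)
    have hy : a o ((a o y₀)⁻¹ • y₀) = 1 := by
      rw [map_smul, smul_eq_mul, inv_mul_cancel₀ hy₀]
    generalize (a o y₀)⁻¹ • y₀ = y at hy
    have hrk : Module.finrank ℝ (LinearMap.ker (a o)) = n := by
      have h1 := Module.Dual.finrank_ker_add_one_of_ne_zero hne
      omega
    have hsimple := hFACS V M a h o y hb hdeg.ind hy hf
    have hD := hFACD V M a h o y n D hy hlin hdeg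
    obtain ⟨p1, p2, p3, p4⟩ := hFACP V M a h o y n D hy hlin
    have hHR := hS (LinearMap.ker (a o)) {i : M // i ≠ o} (facA a o) (facH a h o y)
      (facD D o) hrk hsimple hD
    have ht := hTR M {i : M // i ≠ o} (facP a o y) (rename (R := ℝ) (fun i : {i : M // i ≠ o} => i.1))
      (act (X o) D) (facD D o) n (om h) p1 (fun k p hp => hp.rename_isHomogeneous) p2 (om_hom h)
      (fun p hp => p3 p hp)
    rw [ht, p4]
    exact hHR
  · refine FAC_.HR_zero (om_hom h) fun q hq => ext_monomial (fun m hm => ?_) q hq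
    rw [act_apply, X, monomial_mul, one_mul]
    refine hdeg.sr _ ?_ ?_ ?_
    · rw [map_add, Finsupp.degree_single, hm, add_comm]
    · rw [Finsupp.mem_support_iff, Finsupp.add_apply, Finsupp.single_eq_same]
      omega
    · rintro ⟨x, hx, hx'⟩
      refine hf ⟨x, hx, fun j hj => ?_⟩
      rw [Finset.mem_singleton] at hj
      rw [hj]
      refine hx' o ?_
      rw [Finsupp.mem_support_iff, Finsupp.add_apply, Finsupp.single_eq_same]
      omega

end Pool.Agent.KF.S
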