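import Pool.Agent.KF.S.Basic

/-!
# Simplicial Hodge-Riemann relations: the facet functional (module FACD)
-/

namespace Pool.Agent.KF.S

open MvPolynomial

namespace FACD_

variable {V : Type} [AddCommGroup V] [Module ℝ V] {M : Type}

lemma ren_mon [DecidableEq M] (o : M) (s : Finset {i : M // i ≠ o}) :
    X o * rename (R := ℝ) (fun i : {i : M // i ≠ o} => i.1) (mon s) =
      mon (insert o (s.map (Function.Embedding.subtype _))) := by
  have h1 : o ∉ s.map (Function.Embedding.subtype (fun i : M => i ≠ o)) := by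
    intro h2
    obtain ⟨j, -, hj⟩ := Finset.mem_map.1 h2
    exact j.2 hj
  rw [mon, mon, Finset.prod_insert h1, Finset.prod_map, map_prod]
  congr 1
  exact Finset.prod_congr rfl fun j _ => by rw [rename_X]; rfl

lemma ren_lin [Fintype M] [DecidableEq M] (a : M → Module.Dual ℝ V) (o : M)
    (y : LinearMap.ker (a o)) :
    rename (R := ℝ) (fun i : {i : M // i ≠ o} => i.1) (lin (facA a o) y) = lin a y.1 := by
  have h0 : a o y.1 = 0 := y.2
  rw [lin, lin, map_sum]
  have h1 : ∀ i : {i : M // i ≠ o}, rename (R := ℝ) (fun i : {i : M // i ≠ o} => i.1)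
      (C (facA a o i y) * X i) = C (a i.1 y.1) * X i.1 := by
    intro i
    rw [map_mul, rename_C, rename_X]
    rfl
  rw [Finset.sum_congr rfl fun i _ => h1 i]
  have h2 : ∑ j : M, C (a j y.1) * (X j : MvPolynomial M ℝ) =
      ∑ j ∈ Finset.univ.filter (fun j => j ≠ o), C (a j y.1) * (X j : MvPolynomial M ℝ) := by
    rw [Finset.sum_filter_of_ne]
    intro j _ hj hjo
    apply hj
    rw [hjo, h0, C_0, zero_mul]
  rw [h2]
  exact (Finset.sum_subtype (Finset.univ.filter (fun j => j ≠ o)) (fun j => by simp)
    (fun j => C (a j y.1) * (X j : MvPolynomial M ℝ))).symm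

lemma ren_monomial [DecidableEq M] (o : M) (m : {i : M // i ≠ o} →₀ ℕ) :
    X o * rename (R := ℝ) (fun i : {i : M // i ≠ o} => i.1) (monomial m 1) =
      monomial (Finsupp.single o 1 + m.mapDomain (fun i : {i : M // i ≠ o} => i.1)) 1 := by
  rw [rename_monomial, X, monomial_mul, one_mul]

lemma supp_map [DecidableEq M] (o : M) (m : {i : M // i ≠ o} →₀ ℕ) (j : M) :
    j ∈ (Finsupp.single o 1 + m.mapDomain (fun i : {i : M // i ≠ o} => i.1)).support ↔
      j = o ∨ ∃ i ∈ m.support, i.1 = j := by
  have hin : Function.Injective (fun i : {i : M // i ≠ o} => i.1) := Subtype.val_injective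
  rw [Finsupp.mem_support_iff, Finsupp.add_apply]
  constructor
  · intro h
    by_cases hj : j = o
    · exact Or.inl hj
    · right
      rw [Finsupp.single_apply, if_neg (Ne.symm hj), zero_add] at h
      refine ⟨⟨j, hj⟩, ?_, rfl⟩
      rw [Finsupp.mem_support_iff]
      have h1 := Finsupp.mapDomain_apply hin m ⟨j, hj⟩
      rw [← h1]
      exact h
  · rintro (rfl | ⟨i, hi, rfl⟩)
    · rw [Finsupp.single_eq_same]
      omega
    · rw [Finsupp.mapDomain_apply hin]
      have := Finsupp.mem_support_iff.1 hi
      omega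

end FACD_

open FACD_ in
theorem t_FACD (hFACF : Stmt_FACF) : Stmt_FACD := by
  intro V M _ _ _ _ _ a h o y n D hy hL hD
  refine ⟨?_, ?_, ?_⟩
  · intro m hm hf
    have e : facD D o (monomial m 1) =
        D (monomial (Finsupp.single o 1 + m.mapDomain (fun i : {i : M // i ≠ o} => i.1)) 1) := by
      rw [← ren_monomial]
      rfl
    rw [e]
    apply hD.sr
    · rw [map_add, Finsupp.degree_single, Finsupp.degree_mapDomain, hm]
      omega
    · rw [supp_map]
      exact Or.inl rfl
    · rintro ⟨x, hx, hx2⟩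
      apply hf
      rw [hFACF V M a h o y hy]
      refine ⟨x, hx, hx2 o ((supp_map o m o).2 (Or.inl rfl)), fun j hj => ?_⟩
      exact hx2 j.1 ((supp_map o m j.1).2 (Or.inr ⟨j, hj, rfl⟩))
  · intro v k q hk hq
    have e : facD D o (lin (facA a o) v * q) =
        D (lin a v.1 * (X o * rename (R := ℝ) (fun i : {i : M // i ≠ o} => i.1) q)) := by
      rw [← ren_lin]
      change D (X o * rename (R := ℝ) (fun i : {i : M // i ≠ o} => i.1)
        (lin (facA a o) v * q)) = _
      rw [map_mul (rename (R := ℝ) (fun i : {i : M // i ≠ o} => i.1))]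
      congr 1
      ring
    rw [e]
    apply hL v.1 n
    · rfl
    · have h1 := (isHomogeneous_X ℝ o).mul (hq.rename_isHomogeneous
        (f := fun i : {i : M // i ≠ o} => i.1))
      rwa [show 1 + k = n by omega] at h1
  · intro s hs
    have e : facD D o (mon s) = D (mon (insert o (s.map (Function.Embedding.subtype _)))) := by
      rw [← ren_mon]
      rfl
    rw [e]
    apply hD.pos
    · exact Finset.mem_insert_self _ _
    · refine ⟨?_, ?_⟩
      · obtain ⟨x, hx, hxo, hxs⟩ := (hFACF V M a h o y hy s).1 hs.1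
        refine ⟨x, hx, fun j hj => ?_⟩
        rcases Finset.mem_insert.1 hj with rfl | hj
        · exact hxo
        · obtain ⟨i, hi, rfl⟩ := Finset.mem_map.1 hj
          exact hxs i hi
      · rw [Finset.card_insert_of_notMem, Finset.card_map, hs.2]
        intro h2
        obtain ⟨j, -, hj⟩ := Finset.mem_map.1 h2
        exact j.2 hj

end Pool.Agent.KF.S
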