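import Pool.Agent.KF.S.Basic

/-!
# SHR module FACE: Hodge-Riemann relations for all faces
-/

namespace Pool.Agent.KF.S

open MvPolynomial

namespace FACE_

variable {V M : Type} [AddCommGroup V] [Module ℝ V]

lemma IsFace.mono {a : M → Module.Dual ℝ V} {h : M → ℝ} {s t : Finset M} (H : IsFace a h t)
    (hst : s ⊆ t) : IsFace a h s := by
  obtain ⟨x, hx, ht⟩ := H
  exact ⟨x, hx, fun j hj => ht j (hst hj)⟩

/-- The Hodge-Riemann relations are trivial for a functional vanishing in the degree. -/
lemma hr_of_zero {J : Type} {D : MvPolynomial J ℝ →ₗ[ℝ] ℝ} {n : ℕ} {w : MvPolynomial J ℝ}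
    (hw : w.IsHomogeneous 1) (H : ∀ q : MvPolynomial J ℝ, q.IsHomogeneous n → D q = 0) :
    HR D n w := by
  intro i r hir p hp _
  have h1 : D (p * w ^ r * p) = 0 := by
    apply H
    have := (hp.mul (hw.pow r)).mul hp
    rwa [show i + 1 * r + i = n by omega] at this
  refine ⟨by rw [h1]; simp, fun _ q hq => ?_⟩
  apply H
  have := hp.mul hq
  rwa [show i + (i + r) = n by omega] at this

lemma kill [Fintype M] {a : M → Module.Dual ℝ V} {h : M → ℝ} {N : ℕ}
    {D : MvPolynomial M ℝ →ₗ[ℝ] ℝ} (hD : IsDeg a h N D) {o : M} (ho : ¬ IsFace a h {o})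
    {s : Finset M} (hos : o ∈ s) {n : ℕ} (hn : n + s.card = N) (q : MvPolynomial M ℝ)
    (hq : q.IsHomogeneous n) : D (mon s * q) = 0 := by
  classical
  have key : ∀ q : MvPolynomial M ℝ, q.IsHomogeneous n →
      (D ∘ₗ LinearMap.mulLeft ℝ (mon s)) q = 0 := by
    intro q hq
    refine ext_monomial (n := n) (fun m hm => ?_) q hq
    show D (mon s * monomial m 1) = 0
    rw [mon_eq_monomial, monomial_mul, one_mul]
    refine hD.sr _ ?_ ?_
    · rw [map_add, hm, map_sum]
      simp only [Finsupp.degree_single, Finset.sum_const, smul_eq_mul, mul_one]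
      omega
    · intro hF
      refine ho (IsFace.mono hF ?_)
      intro i hi
      rw [Finset.mem_singleton] at hi
      subst hi
      rw [Finsupp.mem_support_iff, Finsupp.add_apply, Finsupp.finsetSum_apply]
      have : (1 : ℕ) ≤ ∑ j ∈ s, (Finsupp.single j 1 : M →₀ ℕ) i := by
        calc (1 : ℕ) = (Finsupp.single i 1 : M →₀ ℕ) i := by simp
          _ ≤ _ := Finset.single_le_sum (f := fun j => (Finsupp.single j 1 : M →₀ ℕ) i)
            (fun _ _ => Nat.zero_le _) hos
      omega
  exact key q hq

end FACE_

open FACE_ in
theorem t_FACE (hFACS : Stmt_FACS) (hFACD : Stmt_FACD) (hFACP : Stmt_FACP) (hTR : Stmt_TR) :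
    Stmt_FACE := by
  intro hS
  have main : ∀ k : ℕ, ∀ (V M : Type) [AddCommGroup V] [Module ℝ V] [FiniteDimensional ℝ V]
      [Fintype M] (a : M → Module.Dual ℝ V) (h : M → ℝ) (N : ℕ)
      (D : MvPolynomial M ℝ →ₗ[ℝ] ℝ), Simple a h → Module.finrank ℝ V = N → IsDeg a h N D →
      ∀ (s : Finset M) (n : ℕ), s.card = k → n + s.card = N → HR (act (mon s) D) n (om h) := by
    intro k
    induction k with
    | zero =>
      intro V M _ _ _ _ a h N D hSi hN hD s n hs hn
      have hs0 : s = ∅ := Finset.card_eq_zero.mp hs
      subst hs0
      have hn' : n = N := by simpa using hn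
      subst hn'
      have e : act (mon (∅ : Finset M)) D = D := by
        apply LinearMap.ext
        intro q
        simp [act, mon]
      rw [e]
      exact hS _ V M a h D hN hSi hD
    | succ k ih =>
      intro V M _ _ _ _ a h N D hSi hN hD s n hs hn
      classical
      obtain ⟨o, ho⟩ : s.Nonempty := by
        rw [← Finset.card_pos]; omega
      by_cases hF : IsFace a h {o}
      · -- the facet
        obtain ⟨x, hx, hxo⟩ := hF
        have hxo' : a o x = h o := hxo o (Finset.mem_singleton_self o)
        have hne : a o ≠ 0 := by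
          have := (hSi.ind x hx).ne_zero ⟨o, hxo'⟩
          simpa using this
        obtain ⟨y, hy⟩ : ∃ y : V, a o y = 1 := by
          obtain ⟨v, hv⟩ : ∃ v : V, a o v ≠ 0 := by
            by_contra hcon
            push Not at hcon
            exact hne (LinearMap.ext hcon)
          refine ⟨(a o v)⁻¹ • v, ?_⟩
          rw [map_smul, smul_eq_mul, inv_mul_cancel₀ hv]
        have hdeg : DegAt a h N D o :=
          ⟨fun x hx _ => hSi.ind x hx, fun m hm _ hf => hD.sr m hm hf,
            fun t _ ht => hD.pos t ht⟩
        obtain ⟨N', rfl⟩ : ∃ N', N = N' + 1 := ⟨N - 1, by omega⟩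
        have hSi' := hFACS V M a h o y hSi.bdd (fun x hx _ => hSi.ind x hx) hy ⟨x, hx, hxo⟩
        have hD' := hFACD V M a h o y N' D hy hD.lin hdeg
        have hfr : Module.finrank ℝ (LinearMap.ker (a o)) = N' := by
          have h1 := LinearMap.finrank_range_add_finrank_ker (a o)
          have h2 : Module.finrank ℝ (LinearMap.range (a o)) = 1 := by
            have : LinearMap.range (a o) = ⊤ := by
              rw [LinearMap.range_eq_top]
              intro c
              exact ⟨c • y, by rw [map_smul, hy, smul_eq_mul, mul_one]⟩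
            rw [this, finrank_top, Module.finrank_self]
          omega
        obtain ⟨p1, p2, p3, p4⟩ := hFACP V M a h o y N' D hy hD.lin
        -- the rest of the face
        set s' : Finset {i : M // i ≠ o} := s.subtype (fun i => i ≠ o) with hs'
        have hmap : s'.map (Function.Embedding.subtype _) = s.erase o := by
          ext i
          simp only [hs', Finset.subtype_map, Finset.mem_filter, Finset.mem_erase]
          tauto
        have hcard : s'.card = k := by
          rw [← Finset.card_map (Function.Embedding.subtype _), hmap, Finset.card_erase_of_mem ho]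
          omega
        have hIH := ih (LinearMap.ker (a o)) {i : M // i ≠ o} (facA a o) (facH a h o y) N'
          (facD D o) hSi' hfr hD' s' n hcard (by omega)
        rw [← p4] at hIH
        refine (hTR M {i : M // i ≠ o} (facP a o y)
          (rename (fun i : {i : M // i ≠ o} => i.1)) (act (mon s) D)
          (act (mon s') (facD D o)) n (om h) p1 ?_ p2 (om_hom h) ?_).mpr hIH
        · intro k p hp
          exact hp.rename_isHomogeneous
        · intro p hp
          have e1 : (mon s : MvPolynomial M ℝ) = X o * mon (s.erase o) := by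
            unfold mon
            rw [Finset.mul_prod_erase s (fun j => (X j : MvPolynomial M ℝ)) ho]
          have e2 : facP a o y (mon (s.erase o)) = mon s' := by
            unfold mon
            rw [map_prod, ← hmap, Finset.prod_map]
            refine Finset.prod_congr rfl fun i _ => ?_
            show facP a o y (X i.1) = X i
            unfold facP
            rw [aeval_X, dif_neg i.2]
          show D (mon s * p) = facD D o (mon s' * facP a o y p)
          rw [e1, mul_assoc, p3 (mon (s.erase o) * p), map_mul, e2]
          have h1 := (mon_hom (s.erase o)).mul hp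
          rwa [Finset.card_erase_of_mem ho, show s.card - 1 + n = N' by omega] at h1
      · exact hr_of_zero (om_hom h) (fun q hq => kill hD hF ho hn q hq)
  intro V M _ _ _ _ a h N D hSi hN hD s n hn
  exact main s.card V M a h N D hSi hN hD s n rfl hn

end Pool.Agent.KF.S
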