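import Pool.Agent.KF.S.Basic

/-!
# FACF: faces of the facet system
-/

namespace Pool.Agent.KF.S

/-- Faces of the facet system. -/
theorem t_FACF : Stmt_FACF := by
  intro V M _ _ a h o y hy s
  constructor
  · rintro ⟨x, hx, hs⟩
    have hox : a o (x : V) = 0 := LinearMap.mem_ker.1 x.2
    have key : ∀ i : M, a i ((x : V) + h o • y) = a i (x : V) + h o * a i y := by
      intro i
      rw [map_add, map_smul, smul_eq_mul]
    refine ⟨(x : V) + h o • y, ?_, ?_, ?_⟩
    · intro i
      rw [key]
      by_cases hi : i = o
      · subst hi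
        rw [hox, hy]
        linarith
      · have h1 : a i (x : V) ≤ h i - h o * a i y := hx ⟨i, hi⟩
        linarith
    · rw [key, hox, hy]
      ring
    · intro j hj
      rw [key]
      have h1 : a j.1 (x : V) = h j.1 - h o * a j.1 y := hs j hj
      linarith
  · rintro ⟨x, hx, hox, hs⟩
    have hk : x - h o • y ∈ LinearMap.ker (a o) := by
      rw [LinearMap.mem_ker, map_sub, map_smul, smul_eq_mul, hox, hy]
      ring
    have key : ∀ i : M, a i (x - h o • y) = a i x - h o * a i y := by
      intro i
      rw [map_sub, map_smul, smul_eq_mul]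
    refine ⟨⟨x - h o • y, hk⟩, ?_, ?_⟩
    · intro i
      change a i.1 (x - h o • y) ≤ h i.1 - h o * a i.1 y
      rw [key]
      have := hx i.1
      linarith
    · intro j hj
      change a j.1 (x - h o • y) = h j.1 - h o * a j.1 y
      rw [key, hs j hj]

end Pool.Agent.KF.S
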