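import Pool.Agent.KF.S.Basic

/-!
# The facet substitution (FACP)
-/

namespace Pool.Agent.KF.S

open MvPolynomial

namespace FACP_

section

variable {V M : Type} [AddCommGroup V] [Module ℝ V] [Fintype M] [DecidableEq M]
  (a : M → Module.Dual ℝ V) (h : M → ℝ) (o : M) (y : V)

lemma facP_X_ne {i : M} (H : i ≠ o) : facP a o y (X i) = X ⟨i, H⟩ := by
  unfold facP
  rw [aeval_X, dif_neg H]

lemma facP_X_self : facP a o y (X o) = - ∑ k : {i : M // i ≠ o}, C (a k.1 y) * X k := by
  unfold facP
  rw [aeval_X, dif_pos rfl]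

lemma facP_hom (k : ℕ) (p : MvPolynomial M ℝ) (hp : p.IsHomogeneous k) :
    (facP a o y p).IsHomogeneous k := by
  have h1 : ∀ i : M, ((fun i : M => if H : i = o then
      - ∑ k : {i : M // i ≠ o}, C (a k.1 y) * X k else X ⟨i, H⟩) i :
        MvPolynomial {i : M // i ≠ o} ℝ).IsHomogeneous 1 := by
    intro i
    by_cases H : i = o
    · simp only [dif_pos H]
      exact (om_hom (fun k : {i : M // i ≠ o} => a k.1 y)).neg
    · simp only [dif_neg H]
      exact isHomogeneous_X ℝ _
  have h2 := hp.aeval _ h1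
  rw [one_mul] at h2
  exact h2

lemma facP_rename (p : MvPolynomial {i : M // i ≠ o} ℝ) :
    facP a o y (rename (fun i : {i : M // i ≠ o} => i.1) p) = p := by
  unfold facP
  rw [aeval_rename]
  have e : ((fun i : M => if H : i = o then
      - ∑ k : {i : M // i ≠ o}, C (a k.1 y) * X k else X ⟨i, H⟩) ∘
        fun i : {i : M // i ≠ o} => i.1) = (X : {i : M // i ≠ o} → _) := by
    funext i
    simp only [Function.comp_apply, dif_neg i.2]
  rw [e, aeval_X_left, AlgHom.id_apply]

/-- The projection `rename ∘ facP`. -/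
noncomputable def psi : MvPolynomial M ℝ →ₐ[ℝ] MvPolynomial M ℝ :=
  (rename (R := ℝ) (fun i : {i : M // i ≠ o} => i.1)).comp (facP a o y)

lemma psi_apply (p : MvPolynomial M ℝ) :
    psi a o y p = rename (R := ℝ) (fun i : {i : M // i ≠ o} => i.1) (facP a o y p) := rfl

lemma psi_hom (k : ℕ) (p : MvPolynomial M ℝ) (hp : p.IsHomogeneous k) :
    (psi a o y p).IsHomogeneous k := by
  rw [psi_apply]
  exact (facP_hom a o y k p hp).rename_isHomogeneous

lemma lin_split : (lin a y : MvPolynomial M ℝ) = C (a o y) * X o +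
    ∑ k : {i : M // i ≠ o}, C (a k.1 y) * X k.1 := by
  unfold lin
  exact Fintype.sum_eq_add_sum_subtype_ne (fun j => C (a j y) * X j) o

lemma psi_X (ho : a o y = 1) (i : M) :
    X i - psi a o y (X i) = (if i = o then lin a y else 0 : MvPolynomial M ℝ) := by
  by_cases H : i = o
  · subst H
    rw [if_pos rfl, psi_apply, facP_X_self, map_neg, map_sum, lin_split a i y, ho, C_1, one_mul,
      sub_neg_eq_add]
    congr 1
    refine Finset.sum_congr rfl fun k _ => ?_
    rw [map_mul, rename_C, rename_X]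
  · rw [if_neg H, psi_apply, facP_X_ne a o y H, rename_X, sub_self]

lemma key (n : ℕ) (D : MvPolynomial M ℝ →ₗ[ℝ] ℝ) (ho : a o y = 1) (hD : LinK a (n + 1) D)
    (k : ℕ) : ∀ (m : M →₀ ℕ), m.degree = k → ∀ (r : ℕ) (f : MvPolynomial M ℝ),
      f.IsHomogeneous r → r + k = n →
      D (X o * f * (monomial m 1 - psi a o y (monomial m 1))) = 0 := by
  induction k with
  | zero =>
    intro m hm r f _ _
    have h0 : m = 0 := (Finsupp.degree_eq_zero_iff m).mp hm
    rw [h0]
    have e : (monomial (0 : M →₀ ℕ) (1 : ℝ)) = 1 := rfl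
    rw [e, map_one, sub_self, mul_zero, map_zero]
  | succ k ih =>
    intro m hm r f hf hr
    have hne : m ≠ 0 := by
      rintro rfl
      simp at hm
    obtain ⟨i, hi⟩ : ∃ i, m i ≠ 0 := by
      by_contra hc
      push Not at hc
      exact hne (Finsupp.ext hc)
    obtain ⟨m', hm'⟩ : ∃ m' : M →₀ ℕ, m = Finsupp.single i 1 + m' := by
      refine ⟨m - Finsupp.single i 1, ?_⟩
      rw [add_tsub_cancel_of_le]
      rw [Finsupp.single_le_iff]
      omega
    have hdeg : m'.degree = k := by
      rw [hm', map_add, Finsupp.degree_single] at hm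
      omega
    have em : (monomial m (1 : ℝ)) = X i * monomial m' 1 := by
      rw [hm', X, monomial_mul, one_mul]
    have hmh : (monomial m' (1 : ℝ)).IsHomogeneous k :=
      isHomogeneous_monomial _ hdeg
    have hXi : (psi a o y (X i)).IsHomogeneous 1 := psi_hom a o y 1 _ (isHomogeneous_X ℝ i)
    have e : X o * f * (monomial m 1 - psi a o y (monomial m 1)) =
        (X i - psi a o y (X i)) * (X o * f * monomial m' 1) +
          X o * (f * psi a o y (X i)) * (monomial m' 1 - psi a o y (monomial m' 1)) := by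
      rw [em, map_mul]
      ring
    rw [e, map_add, ih m' hdeg (r + 1) _ (hf.mul hXi) (by omega), add_zero, psi_X a o y ho i]
    by_cases H : i = o
    · rw [if_pos H]
      refine hD y n _ rfl ?_
      have h1 := ((isHomogeneous_X ℝ o).mul hf).mul hmh
      rwa [show 1 + r + k = n by omega] at h1
    · rw [if_neg H, zero_mul, map_zero]

lemma om_eq : facP a o y (om h) = om (facH a h o y) := by
  unfold om
  rw [map_sum, Fintype.sum_eq_add_sum_subtype_ne _ o, map_mul, facP_X_self]
  have e1 : facP a o y (C (h o)) = C (h o) := by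
    unfold facP
    exact aeval_C _ _
  rw [e1]
  have e2 : ∀ k : {i : M // i ≠ o}, facP a o y (C (h k.1) * X k.1) = C (h k.1) * X k := by
    intro k
    rw [map_mul, facP_X_ne a o y k.2]
    congr 1
    unfold facP
    exact aeval_C _ _
  rw [Finset.sum_congr rfl fun k _ => e2 k, mul_neg, Finset.mul_sum, ← Finset.sum_neg_distrib,
    ← Finset.sum_add_distrib]
  refine Finset.sum_congr rfl fun k _ => ?_
  rw [facH, map_sub, map_mul]
  ring

end

end FACP_

theorem t_FACP : Stmt_FACP := by
  intro V M _ _ _ _ a h o y n D ho hD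
  refine ⟨FACP_.facP_hom a o y, FACP_.facP_rename a o y, fun p hp => ?_, FACP_.om_eq a h o y⟩
  have h1 : D (X o * (p - FACP_.psi a o y p)) = 0 := by
    let D' : MvPolynomial M ℝ →ₗ[ℝ] ℝ :=
      (act (X o) D) ∘ₗ (LinearMap.id - (FACP_.psi a o y).toLinearMap)
    have h2 : D' p = 0 := by
      refine ext_monomial (fun m hm => ?_) p hp
      have h3 := FACP_.key a o y n D ho hD n m hm 0 1 (isHomogeneous_one M ℝ) (by omega)
      rw [mul_one] at h3
      exact h3
    exact h2
  rw [mul_sub, map_sub, sub_eq_zero] at h1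
  exact h1

end Pool.Agent.KF.S
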