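import Pool.Agent.KF.S.Basic

/-!
# FACS: the facet system is simple
-/

namespace Pool.Agent.KF.S

open MvPolynomial

namespace FACS_

lemma li_iff {W M : Type} [AddCommGroup W] [Module ℝ W] [Fintype M] (a : M → W) (p : M → Prop) :
    LinearIndependent ℝ (fun j : {j : M // p j} => a j.1) ↔
      ∀ c : M → ℝ, (∀ j, ¬ p j → c j = 0) → ∑ j, c j • a j = 0 → ∀ j, c j = 0 := by
  classical
  rw [Fintype.linearIndependent_iff]
  constructor
  · intro H c hc hs j
    by_cases hj : p j
    · refine H (fun k => c k.1) ?_ ⟨j, hj⟩
      rw [← hs]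
      have h1 : ∑ j ∈ Finset.univ.filter (fun j => p j), c j • a j = ∑ j, c j • a j := by
        refine Finset.sum_subset (Finset.filter_subset _ _) ?_
        intro k _ hk
        have : ¬ p k := fun h => hk (Finset.mem_filter.2 ⟨Finset.mem_univ k, h⟩)
        rw [hc k this, zero_smul]
      rw [← h1]
      exact (Finset.sum_subtype (Finset.univ.filter (fun j => p j)) (by simp)
        (fun j => c j • a j)).symm
    · exact hc j hj
  · intro H g hg i
    have h1 := H (fun j => if hj : p j then g ⟨j, hj⟩ else 0) (by intro j hj; simp [hj]) ?_ i.1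
    · simpa [i.2] using h1
    · rw [← hg]
      have h1 : ∑ j ∈ Finset.univ.filter (fun j => p j),
          (if hj : p j then g ⟨j, hj⟩ else 0) • a j =
          ∑ j, (if hj : p j then g ⟨j, hj⟩ else 0) • a j := by
        refine Finset.sum_subset (Finset.filter_subset _ _) ?_
        intro k _ hk
        have : ¬ p k := fun h => hk (Finset.mem_filter.2 ⟨Finset.mem_univ k, h⟩)
        simp [this]
      rw [← h1, Finset.sum_subtype (p := p) (Finset.univ.filter (fun j => p j)) (by simp)
        (fun j => (if hj : p j then g ⟨j, hj⟩ else 0) • a j)]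
      refine Finset.sum_congr rfl ?_
      intro k _
      simp [k.2]

/-- independent functionals take arbitrary values -/
lemma exists_vec {V M : Type} [AddCommGroup V] [Module ℝ V] [FiniteDimensional ℝ V] [Fintype M]
    (a : M → Module.Dual ℝ V) (p : M → Prop)
    (H : LinearIndependent ℝ (fun j : {j : M // p j} => a j.1)) (c : M → ℝ) :
    ∃ y : V, ∀ j, p j → a j y = c j := by
  classical
  let f : V →ₗ[ℝ] ({j : M // p j} → ℝ) := LinearMap.pi (fun j => a j.1)
  have hf : LinearMap.range f = ⊤ := by
    by_contra hne
    obtain ⟨φ, hφ, hle⟩ := Submodule.exists_le_ker_of_lt_top _ (lt_top_iff_ne_top.2 hne)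
    apply hφ
    have h0 : ∀ v : V, φ (f v) = 0 := fun v => hle ⟨v, rfl⟩
    rw [Fintype.linearIndependent_iff] at H
    have h1 := H (fun j => φ (Pi.single j 1)) (by
      ext v
      have h2 := h0 v
      have h3 : f v = ∑ j, (a j.1 v) • (Pi.single j (1 : ℝ) : {j : M // p j} → ℝ) := by
        ext k
        simp [f, Finset.sum_apply, Pi.single_apply]
      rw [h3, map_sum] at h2
      simp only [map_smul, smul_eq_mul] at h2
      simp only [LinearMap.coe_sum, Finset.sum_apply, LinearMap.smul_apply, smul_eq_mul,
        LinearMap.zero_apply]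
      rw [← h2]
      exact Finset.sum_congr rfl fun j _ => mul_comm _ _)
    refine LinearMap.pi_ext' fun j => ?_
    ext
    simpa using h1 j
  have h2 : (fun j : {j : M // p j} => c j.1) ∈ LinearMap.range f := by rw [hf]; trivial
  obtain ⟨y, hy⟩ := h2
  exact ⟨y, fun j hj => congrFun hy ⟨j, hj⟩⟩

end FACS_

open FACS_ in
theorem t_FACS : Stmt_FACS := by
  classical
  intro V M _ _ _ _ a h o y hb hi hy hF
  refine ⟨?_, ?_, ?_⟩
  · intro v hv
    have h1 : (v : V) = 0 := by
      apply hb
      intro j
      by_cases hj : j = o
      · rw [hj]; exact le_of_eq (LinearMap.mem_ker.1 v.2)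
      · exact hv ⟨j, hj⟩
    exact Subtype.ext h1
  · obtain ⟨x, hx, hxo⟩ := hF
    have hxo' : a o x = h o := hxo o (Finset.mem_singleton_self o)
    obtain ⟨v, hv⟩ := exists_vec a (fun j => a j x = h j) (hi x hx hxo')
      (fun j => if j = o then 0 else -1)
    have hvo : a o v = 0 := by simpa using hv o hxo'
    have hmem : ∀ e : ℝ, x + e • v - h o • y ∈ LinearMap.ker (a o) := by
      intro e
      rw [LinearMap.mem_ker]
      simp only [map_sub, map_add, map_smul, smul_eq_mul, hvo, hy, hxo']
      ring
    -- small e
    have hex : ∃ e : ℝ, 0 < e ∧ ∀ j, j ≠ o → a j x + e * a j v < h j := by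
      have hall : ∀ j : M, ∀ᶠ e in nhdsWithin (0 : ℝ) (Set.Ioi 0), j ≠ o → a j x + e * a j v < h j := by
        intro j
        by_cases hj : a j x = h j
        · filter_upwards [self_mem_nhdsWithin] with e he hjo
          have h3 := hv j hj
          rw [if_neg hjo] at h3
          have he' : (0 : ℝ) < e := he
          rw [h3, hj]; linarith
        · have hlt : a j x < h j := lt_of_le_of_ne (hx j) hj
          have hc : Filter.Tendsto (fun e : ℝ => a j x + e * a j v) (nhdsWithin 0 (Set.Ioi 0))
              (nhds (a j x + 0 * a j v)) := by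
            have hcont : Continuous (fun e : ℝ => a j x + e * a j v) := by fun_prop
            exact (hcont.tendsto 0).mono_left nhdsWithin_le_nhds
          rw [zero_mul, add_zero] at hc
          filter_upwards [hc.eventually (gt_mem_nhds hlt)] with e he _
          exact he
      have h4 := (Filter.eventually_all.2 hall).and
        (self_mem_nhdsWithin : ∀ᶠ e in nhdsWithin (0 : ℝ) (Set.Ioi 0), e ∈ Set.Ioi (0 : ℝ))
      obtain ⟨e, he1, he2⟩ := h4.exists
      exact ⟨e, he2, he1⟩
    obtain ⟨e, he, hlt⟩ := hex
    refine ⟨⟨x + e • v - h o • y, hmem e⟩, ?_⟩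
    intro j
    have h5 := hlt j.1 j.2
    show a j.1 (x + e • v - h o • y) < h j.1 - h o * a j.1 y
    simp only [map_sub, map_add, map_smul, smul_eq_mul]
    linarith
  · intro x' hx'
    rw [li_iff (facA a o) (fun j => facA a o j x' = facH a h o y j)]
    intro c hc hs
    have key : ∀ j : M, a j ((x' : V) + h o • y) = a j x' + h o * a j y := by
      intro j; simp only [map_add, map_smul, smul_eq_mul]
    have hker : a o (x' : V) = 0 := LinearMap.mem_ker.1 x'.2
    have hxo : a o ((x' : V) + h o • y) = h o := by rw [key, hker, hy]; ring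
    have hfeas : Feas a h ((x' : V) + h o • y) := by
      intro j
      by_cases hj : j = o
      · rw [hj, hxo]
      · have h6 : a j (x' : V) ≤ h j - h o * a j y := hx' ⟨j, hj⟩
        rw [key]; linarith
    have H := hi _ hfeas hxo
    rw [li_iff a (fun j => a j ((x' : V) + h o • y) = h j)] at H
    let lam : ℝ := ∑ j : {i : M // i ≠ o}, c j * a j.1 y
    have h7 := H (fun j => if hj : j = o then - lam else c ⟨j, hj⟩) (by
        intro j hj
        by_cases hjo : j = o
        · exact absurd (by rw [hjo]; exact hxo) hj
        · simp only [hjo, dite_false]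
          apply hc
          intro h8
          apply hj
          have h9 : a j (x' : V) = h j - h o * a j y := h8
          rw [key, h9]; ring) (by
        ext v
        have hvk : v - (a o v) • y ∈ LinearMap.ker (a o) := by
          rw [LinearMap.mem_ker]; simp only [map_sub, map_smul, smul_eq_mul, hy]; ring
        have h10 := congrArg (fun φ => φ ⟨v - (a o v) • y, hvk⟩) hs
        simp only [LinearMap.coe_sum, Finset.sum_apply, LinearMap.smul_apply, smul_eq_mul,
          LinearMap.zero_apply] at h10 ⊢
        have h11 : ∀ j : {i : M // i ≠ o}, facA a o j ⟨v - (a o v) • y, hvk⟩ =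
            a j.1 v - a o v * a j.1 y := by
          intro j
          show a j.1 (v - (a o v) • y) = _
          simp only [map_sub, map_smul, smul_eq_mul]
        simp only [h11] at h10
        rw [← Finset.sum_erase_add (Finset.univ) _ (Finset.mem_univ o)]
        have h12 : ∑ j ∈ Finset.univ.erase o, (if hj : j = o then - lam else c ⟨j, hj⟩) * a j v =
            ∑ j : {i : M // i ≠ o}, c j * a j.1 v := by
          rw [Finset.sum_subtype (p := fun j => j ≠ o) (Finset.univ.erase o) (by simp)
            (fun j => (if hj : j = o then - lam else c ⟨j, hj⟩) * a j v)]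
          refine Finset.sum_congr rfl fun k _ => ?_
          simp [k.2]
        rw [h12]
        simp only [dite_true]
        have h13 : ∑ j : {i : M // i ≠ o}, c j * (a j.1 v - a o v * a j.1 y) =
            ∑ j : {i : M // i ≠ o}, c j * a j.1 v - lam * a o v := by
          simp only [mul_sub, Finset.sum_sub_distrib, lam, Finset.sum_mul]
          congr 1
          refine Finset.sum_congr rfl fun k _ => ?_
          ring
        rw [h13] at h10
        linarith)
    intro j
    have h14 := h7 j.1
    simpa [j.2] using h14

end Pool.Agent.KF.S
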