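import Pool.Agent.KF.S.Basic

/-!
# FANN: annihilators at a flip, below the two sizes
-/

namespace Pool.Agent.KF.S

open MvPolynomial

namespace FANN_

variable {J : Type}

lemma aeval_mon (g : J → ℝ) (s : Finset J) : aeval g (mon s : MvPolynomial J ℝ) = ∏ j ∈ s, g j := by
  unfold mon
  rw [map_prod]
  exact Finset.prod_congr rfl fun j _ => aeval_X g j

/-- The value of `mon s * X_o ^ k`. -/
lemma val_ne {g : J → ℝ} {s : Finset J} {o : J} (h : ∀ j ∈ s, g j ≠ 0) (ho : g o = 1) (k : ℕ) :
    aeval g (mon s * X o ^ k : MvPolynomial J ℝ) ≠ 0 := by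
  rw [map_mul, aeval_mon, map_pow, aeval_X, ho, one_pow, mul_one]
  exact Finset.prod_ne_zero_iff.2 h

end FANN_

theorem t_FANN : Stmt_FANN := by
  intro J _ N D0 D1 g s o w Ip Im F i j hij
  have hs : s ≠ 0 := by
    intro h
    have := F.sgn
    rw [h, zero_mul] at this
    exact lt_irrefl _ this
  have hIp : ∀ l ∈ Ip, g l ≠ 0 := fun l hl => ne_of_gt ((F.mp l).1 hl)
  have hIm : ∀ l ∈ Im, g l ≠ 0 := fun l hl => ne_of_lt ((F.mm l).1 hl)
  have hc := F.card
  refine ⟨fun hi p hp h => ?_, fun hi p hp h => ?_⟩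
  · have hm : (mon Ip * X o ^ (j - Ip.card) : MvPolynomial J ℝ).IsHomogeneous j := by
      have h1 := (mon_hom Ip).mul (isHomogeneous_X_pow (R := ℝ) o (j - Ip.card))
      have h2 : Ip.card + (j - Ip.card) = j := by omega
      rwa [h2] at h1
    have h1 := F.k1 (i + (j - Ip.card)) (p * X o ^ (j - Ip.card)) (by omega)
      (hp.mul (isHomogeneous_X_pow (R := ℝ) o (j - Ip.card)))
    have e : mon Ip * (p * X o ^ (j - Ip.card)) = p * (mon Ip * X o ^ (j - Ip.card)) := by ring
    rw [e, F.eq, h _ hm, zero_add, map_mul] at h1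
    rcases mul_eq_zero.1 h1 with h2 | h2
    · exact absurd h2 hs
    · rcases mul_eq_zero.1 h2 with h3 | h3
      · exact h3
      · exact absurd h3 (FANN_.val_ne hIp F.go _)
  · have hm : (mon Im * X o ^ (j - Im.card) : MvPolynomial J ℝ).IsHomogeneous j := by
      have h1 := (mon_hom Im).mul (isHomogeneous_X_pow (R := ℝ) o (j - Im.card))
      have h2 : Im.card + (j - Im.card) = j := by omega
      rwa [h2] at h1
    have h1 := F.k0 (i + (j - Im.card)) (p * X o ^ (j - Im.card)) (by omega)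
      (hp.mul (isHomogeneous_X_pow (R := ℝ) o (j - Im.card)))
    have e : mon Im * (p * X o ^ (j - Im.card)) = p * (mon Im * X o ^ (j - Im.card)) := by ring
    have h0 := h _ hm
    rw [F.eq, ← e, h1, zero_add, e, map_mul] at h0
    rcases mul_eq_zero.1 h0 with h2 | h2
    · exact absurd h2 hs
    · rcases mul_eq_zero.1 h2 with h3 | h3
      · exact h3
      · exact absurd h3 (FANN_.val_ne hIm F.go _)

end Pool.Agent.KF.S
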