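import Pool.Agent.KF.S.Basic

/-!
# FB: flip, negative side at most the positive side, degree at least the negative size
-/

namespace Pool.Agent.KF.S

open MvPolynomial

namespace FB_

variable {J : Type}

lemma hom_wt {w : MvPolynomial J ℝ} (hw : w.IsHomogeneous 1) (o : J) (t : ℝ) :
    (w + C t * X o).IsHomogeneous 1 := by
  refine hw.add ?_
  have h := (isHomogeneous_C J t).mul (isHomogeneous_X ℝ o)
  simpa using h

lemma ev_wt {w : MvPolynomial J ℝ} {g : J → ℝ} {o : J} (hw : aeval g w = (0 : ℝ)) (ho : g o = 1)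
    (t : ℝ) : aeval g (w + C t * X o) = t := by
  rw [map_add, map_mul, hw, aeval_X, ho, algHom_C, zero_add, mul_one]
  rfl

end FB_

theorem t_FB (hFNU : Stmt_FNU) (hFW : Stmt_FW) (hOPEN : Stmt_OPEN) (hHRC : Stmt_HRC)
    (hFEQ : Stmt_FEQ) (hFGT : Stmt_FGT) (hREP : Stmt_REP) (hBD : Stmt_BD) (hFANN : Stmt_FANN) :
    Stmt_FB := by
  intro J _ N D0 D1 g s o w Ip Im H d hd hneg _ i r hir hcard hi
  have hs : s ≠ 0 := by
    rintro rfl
    have := H.sgn
    rw [zero_mul] at this
    exact lt_irrefl _ this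
  obtain ⟨k, rfl⟩ : ∃ k, i = k + 1 := ⟨i - 1, by have := H.im_pos; omega⟩
  have hw := FB_.hom_wt H.w1 o
  have hev := FB_.ev_wt H.wg H.go
  have hXo : (X o : MvPolynomial J ℝ).IsHomogeneous 1 := isHomogeneous_X ℝ o
  -- hard Lefschetz of `D0` near the wall
  have hL1 := (hFW J N D0 D1 g s o w Ip Im H (k + 1) r hir).1 (by omega)
  have hL2 := (hFW J N D0 D1 g s o w Ip Im H k (r + 2) (by omega)).1 (by omega)
  obtain ⟨e1, he1, hO1⟩ := hOPEN J D0 (k + 1) r w (X o) H.w1 hXo hL1
  obtain ⟨e2, he2, hO2⟩ := hOPEN J D0 k (r + 2) w (X o) H.w1 hXo hL2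
  set e : ℝ := min d (min e1 e2) with he
  have he0 : 0 < e := lt_min hd (lt_min he1 he2)
  have hed : e ≤ d := min_le_left _ _
  have hee1 : e ≤ e1 := (min_le_right _ _).trans (min_le_left _ _)
  have hee2 : e ≤ e2 := (min_le_right _ _).trans (min_le_right _ _)
  have hT : ∀ t ∈ Set.Ioo (-e) e, |t| < e := fun t ht => abs_lt.2 ⟨ht.1, ht.2⟩
  -- Hodge-Riemann of `D0` near the wall
  have hHR0 : ∀ t ∈ Set.Ioo (-e) e, HRi D0 (k + 1) r (w + C t * X o) := by
    refine hHRC J (Set.Ioo (-e) e) (fun _ => D0) (fun t => w + C t * X o) (k + 1) r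
      Set.ordConnected_Ioo hw ?_ ?_ ?_ ?_ ?_ (-e / 2) ⟨by linarith, by linarith⟩ ?_
    · intro m _ p q
      exact (cont_pow D0 w (X o) m p q).continuousOn
    · intro t ht
      exact hO1 t ((hT t ht).trans_le hee1)
    · intro t ht k' hk'
      obtain rfl : k' = k := by omega
      exact hO2 t ((hT t ht).trans_le hee2)
    · intro t _ t' _ p _ h
      exact h
    · intro k' _ t _ t' _ p _ h
      exact h
    · exact hneg (-e / 2) (by linarith) (by linarith) (k + 1) r hir
  rcases Nat.lt_or_ge Im.card (k + 1) with hlt | hge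
  · -- above the size
    obtain ⟨v, hv1, hv2, hv3⟩ := (hFNU J N D0 D1 g s o w Ip Im H k (k + r + 2) (by omega)).1
      (by omega)
    refine ⟨e, he0, fun t ht0 hte => ?_⟩
    refine hFGT J D0 D1 g s (w + C t * X o) v k r H.eq (hw t) ?_ hs hv1 hv2 hv3
      (hHR0 t ⟨by linarith, hte⟩)
    rw [hev]
    exact ht0.ne'
  · -- equal to the size
    have hq : Im.card = k + 1 := by omega
    have hf : ∀ p : MvPolynomial J ℝ, p.IsHomogeneous k →
        (∀ q : MvPolynomial J ℝ, q.IsHomogeneous (k + (r + 2)) → D0 (p * q) = 0) →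
        (aeval g : MvPolynomial J ℝ →ₐ[ℝ] ℝ).toLinearMap p = 0 := by
      intro p hp h
      exact (hFANN J N D0 D1 g s o w Ip Im H k (k + (r + 2)) (by omega)).1 (by omega) p hp h
    obtain ⟨e3, b, he3, hb⟩ := hBD J D0 k (r + 2) w (X o) H.w1 hXo hL2
      (aeval g : MvPolynomial J ℝ →ₐ[ℝ] ℝ).toLinearMap hf
    set M : ℝ := |s| * |b| + 1 with hM
    have hM0 : 0 < M := by positivity
    refine ⟨min e (min e3 (min 1 (1 / M))), lt_min he0 (lt_min he3 (lt_min one_pos
      (one_div_pos.2 hM0))), fun t ht0 hte => ?_⟩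
    have ht1 : t < e := hte.trans_le (min_le_left _ _)
    have ht2 : t < e3 := hte.trans_le ((min_le_right _ _).trans (min_le_left _ _))
    have ht3 : t < 1 := hte.trans_le ((min_le_right _ _).trans
      ((min_le_right _ _).trans (min_le_left _ _)))
    have ht4 : t < 1 / M := hte.trans_le ((min_le_right _ _).trans
      ((min_le_right _ _).trans (min_le_right _ _)))
    have hLt := hO2 t (by rw [abs_of_pos ht0]; exact ht1.trans_le hee2)
    obtain ⟨z, hz1, hz2⟩ := hREP J D0 k (r + 2) (w + C t * X o) (hw t) hLt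
      (aeval g : MvPolynomial J ℝ →ₐ[ℝ] ℝ).toLinearMap hf
    have hzb : |aeval g z| ≤ b := hb t (by rw [abs_of_pos ht0]; exact ht2) z hz1 hz2
    refine hFEQ J D0 D1 g s (w + C t * X o) z k r H.eq (hw t) ?_ hz1 hz2 ?_ ?_
      (hHR0 t ⟨by linarith, ht1⟩)
    · rw [hev]
      exact ht0
    · rw [← hq]
      exact H.sgn
    · rw [hev]
      have h1 : t ^ (r + 2) ≤ t := by
        rw [pow_succ]
        have h2 : t ^ (r + 1) ≤ 1 := pow_le_one₀ ht0.le ht3.le
        calc t ^ (r + 1) * t ≤ 1 * t := mul_le_mul_of_nonneg_right h2 ht0.le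
          _ = t := one_mul t
      have h2 : |s * t ^ (r + 2) * aeval g z| ≤ |s| * |b| * t := by
        rw [abs_mul, abs_mul, abs_of_nonneg (pow_nonneg ht0.le _)]
        have h3 : |aeval g z| ≤ |b| := hzb.trans (le_abs_self b)
        calc |s| * t ^ (r + 2) * |aeval g z| ≤ |s| * t * |b| := by
              gcongr
          _ = |s| * |b| * t := by ring
      have h3 : M * t < 1 := by
        rw [lt_div_iff₀ hM0] at ht4
        linarith
      have h4 : |s| * |b| * t < 1 := by
        have : M * t = |s| * |b| * t + t := by rw [hM]; ring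
        linarith
      have h5 := neg_abs_le (s * t ^ (r + 2) * aeval g z)
      linarith

end Pool.Agent.KF.S
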