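import Pool.Agent.KF.S.Basic

/-!
# Module FC: flip, positive side smaller, degree at least the positive size
-/

namespace Pool.Agent.KF.S

open MvPolynomial

lemma FC_hom {J : Type} {w : MvPolynomial J ℝ} (hw : w.IsHomogeneous 1) (o : J) (t : ℝ) :
    (w + C t * X o).IsHomogeneous 1 := by
  refine hw.add ?_
  have := (isHomogeneous_C J t).mul (isHomogeneous_X ℝ o)
  simpa using this

theorem t_FC (hFNU : Stmt_FNU) (hFW : Stmt_FW) (hOPEN : Stmt_OPEN) (hHRC : Stmt_HRC)
    (hFDN : Stmt_FDN) : Stmt_FC := by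
  intro J _ N D0 D1 g s o w Ip Im F d hd h0 _ i r hN hlt hi
  have hw : w.IsHomogeneous 1 := F.w1
  have hX : (X o : MvPolynomial J ℝ).IsHomogeneous 1 := isHomogeneous_X ℝ o
  -- the element v
  obtain ⟨v, hv, hv1, hvk⟩ := (hFNU J N D0 D1 g s o w Ip Im F i (i + r) (by omega)).2 hi
  -- hard Lefschetz at the wall
  have hL1 : HLi D1 i r w :=
    (hFW J N D0 D1 g s o w Ip Im F i r hN).2 (by omega)
  obtain ⟨e1, he1, H1⟩ := hOPEN J D1 i r w (X o) hw hX hL1
  obtain ⟨e2, he2, H2⟩ : ∃ e : ℝ, 0 < e ∧ ∀ t : ℝ, |t| < e → ∀ k : ℕ, k + 1 = i →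
      HLi D1 k (r + 2) (w + C t * X o) := by
    rcases Nat.eq_zero_or_pos i with h | h
    · exact ⟨1, one_pos, fun t _ k hk => by omega⟩
    · obtain ⟨k, rfl⟩ : ∃ k, i = k + 1 := ⟨i - 1, by omega⟩
      have hL2 : HLi D1 k (r + 2) w :=
        (hFW J N D0 D1 g s o w Ip Im F k (r + 2) (by omega)).2 (by omega)
      obtain ⟨e, he, H⟩ := hOPEN J D1 k (r + 2) w (X o) hw hX hL2
      refine ⟨e, he, fun t ht k' hk' => ?_⟩
      obtain rfl : k' = k := by omega
      exact H t ht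
  have hemin : 0 < min e1 e2 := lt_min he1 he2
  refine ⟨min e1 e2, hemin, fun t ht0 ht => ?_⟩
  -- the starting point
  have hdm : 0 < min d (min e1 e2) := lt_min hd hemin
  have hs1 : min d (min e1 e2) ≤ d := min_le_left _ _
  have hs2 : min d (min e1 e2) ≤ min e1 e2 := min_le_right _ _
  have hstart : HRi D1 i r (w + C (-(min d (min e1 e2) / 2)) * X o) := by
    refine hFDN J D0 D1 g s (w + C (-(min d (min e1 e2) / 2)) * X o) v i r F.eq
      (FC_hom hw o _) hv hv1 hvk ?_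
    exact h0 (-(min d (min e1 e2) / 2)) (by linarith) (by linarith) i r hN
  refine hHRC J (Set.Ioo (-(min e1 e2)) (min e1 e2)) (fun _ => D1) (fun t => w + C t * X o) i r
    Set.ordConnected_Ioo (fun t => FC_hom hw o t) ?_ ?_ ?_ ?_ ?_
    (-(min d (min e1 e2) / 2)) ?_ hstart t ?_
  · intro m _ p q
    exact (cont_pow D1 w (X o) m p q).continuousOn
  · intro t ht
    exact H1 t (lt_of_lt_of_le (abs_lt.mpr ⟨ht.1, ht.2⟩) (min_le_left _ _))
  · intro t ht k hk
    exact H2 t (lt_of_lt_of_le (abs_lt.mpr ⟨ht.1, ht.2⟩) (min_le_right _ _)) k hk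
  · intro t _ t' _ p _ hp q hq
    exact hp q hq
  · intro k _ t _ t' _ p _ hp q hq
    exact hp q hq
  · constructor <;> linarith
  · constructor <;> linarith

end Pool.Agent.KF.S
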