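import Pool.Agent.KF.S.Basic

/-!
# FDN: degree at least the size, big to small
-/

namespace Pool.Agent.KF.S

open MvPolynomial

theorem t_FDN : Stmt_FDN := by
  intro J D0 D1 g s w v i r hD hw hv hgv hk H p hp hprim
  set a : ℝ := aeval g p with ha
  set p' : MvPolynomial J ℝ := p - C a * v with hp'
  have hCv : (C a * v : MvPolynomial J ℝ).IsHomogeneous i := by
    have h1 := (isHomogeneous_C J a).mul hv
    rwa [zero_add] at h1
  have hhom : p'.IsHomogeneous i := hp.sub hCv
  have hg : (aeval g p' : ℝ) = 0 := by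
    rw [hp', map_sub, map_mul, hgv, aeval_C, ← ha, mul_one]
    exact sub_self a
  have h01 : ∀ y : MvPolynomial J ℝ, D0 (p' * y) = D1 (p' * y) := by
    intro y
    have e : (aeval g (p' * y) : ℝ) = 0 := by rw [map_mul, hg, zero_mul]
    rw [hD, e, mul_zero, add_zero]
  have h11 : ∀ q : MvPolynomial J ℝ, q.IsHomogeneous (i + r) → D1 (p' * q) = D1 (p * q) := by
    intro q hq
    have e : p' * q = p * q - a • (v * q) := by
      rw [hp', smul_eq_C_mul]
      ring
    rw [e, map_sub, map_smul, hk q hq, smul_zero, sub_zero]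
  have hwr : ∀ (m k : ℕ) (q : MvPolynomial J ℝ), q.IsHomogeneous k →
      (w ^ m * q).IsHomogeneous (m + k) := by
    intro m k q hq
    have h1 := (hw.pow m).mul hq
    rwa [one_mul] at h1
  have hprim' : Prim D0 i r w p' := by
    intro k q hki hq
    have h1 : (w ^ (r + 1) * q).IsHomogeneous (i + r) := by
      have h2 := hwr (r + 1) k q hq
      rwa [show r + 1 + k = i + r by omega] at h2
    rw [mul_assoc, h01, h11 _ h1, ← mul_assoc]
    exact hprim k q hki hq
  have e1 : D0 (p' * w ^ r * p') = D1 (p * w ^ r * p) := by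
    have h1 : (w ^ r * p').IsHomogeneous (i + r) := by
      have h2 := hwr r i p' hhom
      rwa [add_comm] at h2
    have h3 : (w ^ r * p).IsHomogeneous (i + r) := by
      have h2 := hwr r i p hp
      rwa [add_comm] at h2
    have e2 : p * (w ^ r * p') = p' * (w ^ r * p) := by ring
    rw [mul_assoc, h01, h11 _ h1, e2, h11 _ h3, ← mul_assoc]
  obtain ⟨h2, h3⟩ := H p' hhom hprim'
  rw [e1] at h2 h3
  refine ⟨h2, fun h0 q hq => ?_⟩
  rw [← h11 q hq, ← h01]
  exact h3 h0 q hq

end Pool.Agent.KF.S
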