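import Pool.Agent.KF.S.Basic

/-!
# FEQ: the degree equal to the size
-/

namespace Pool.Agent.KF.S

open MvPolynomial

theorem t_FEQ : Stmt_FEQ := by
  intro J D0 D1 g s w z k r hD hw hL hz hzy hs hpos H p hp hprim
  have hP : ∀ f : MvPolynomial J ℝ, D1 f = D0 f + s * aeval g f := hD
  obtain ⟨L, hLe⟩ : ∃ L : ℝ, L = aeval g w := ⟨_, rfl⟩
  obtain ⟨P, hPe⟩ : ∃ P : ℝ, P = aeval g p := ⟨_, rfl⟩
  obtain ⟨Z, hZe⟩ : ∃ Z : ℝ, Z = aeval g z := ⟨_, rfl⟩
  obtain ⟨kap, hk⟩ : ∃ kap : ℝ, kap = s * P * L ^ (r + 1) := ⟨_, rfl⟩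
  rw [← hLe] at hL hpos
  rw [← hZe] at hpos
  -- the form of `p` for `D0`
  have h0 : ∀ y : MvPolynomial J ℝ, y.IsHomogeneous k →
      D0 (p * w ^ (r + 1) * y) = -kap * aeval g y := by
    intro y hy
    have h1 := hprim k y rfl hy
    have h2 : aeval g (p * w ^ (r + 1) * y) = P * L ^ (r + 1) * aeval g y := by
      rw [map_mul, map_mul, map_pow, ← hLe, ← hPe]
    rw [hP, h2] at h1
    rw [hk]
    linarith
  -- the corrected element
  have hwz : (w * z).IsHomogeneous (k + 1) := by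
    have := hw.mul hz
    rwa [add_comm] at this
  have hp' : (p + kap • (w * z)).IsHomogeneous (k + 1) := by
    refine hp.add ?_
    rw [smul_eq_C_mul]
    have := (isHomogeneous_C J kap).mul hwz
    rwa [zero_add] at this
  have hprim' : Prim D0 (k + 1) r w (p + kap • (w * z)) := by
    intro k' y hk' hy
    obtain rfl : k' = k := by omega
    have e : (p + kap • (w * z)) * w ^ (r + 1) * y =
        p * w ^ (r + 1) * y + kap • (z * w ^ (r + 2) * y) := by
      rw [smul_eq_C_mul, smul_eq_C_mul]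
      ring
    rw [e, map_add, map_smul, h0 y hy, hzy y hy, smul_eq_mul]
    ring
  obtain ⟨h1, h2⟩ := H _ hp' hprim'
  have e1 : D0 ((p + kap • (w * z)) * w ^ r * (p + kap • (w * z))) =
      D0 (p * w ^ r * p) - kap ^ 2 * Z := by
    have e : (p + kap • (w * z)) * w ^ r * (p + kap • (w * z)) =
        p * w ^ r * p + (2 * kap) • (p * w ^ (r + 1) * z) +
          kap ^ 2 • (z * w ^ (r + 2) * z) := by
      simp only [smul_eq_C_mul, map_mul, map_pow, map_ofNat]
      ring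
    rw [e, map_add, map_add, map_smul, map_smul, h0 z hz, hzy z hz, smul_eq_mul, smul_eq_mul,
      ← hZe]
    ring
  have e2 : D1 (p * w ^ r * p) =
      D0 ((p + kap • (w * z)) * w ^ r * (p + kap • (w * z))) +
        s * (P ^ 2 * L ^ r * (1 + s * L ^ (r + 2) * Z)) := by
    have h2' : aeval g (p * w ^ r * p) = P * L ^ r * P := by
      rw [map_mul, map_mul, map_pow, ← hLe, ← hPe]
    rw [hP, e1, h2', hk]
    ring
  have hA : 0 ≤ s * (-1 : ℝ) ^ (k + 1) * (P ^ 2 * L ^ r * (1 + s * L ^ (r + 2) * Z)) := by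
    have := hs.le
    have := hpos.le
    have := hL.le
    positivity
  have e3 : (-1 : ℝ) ^ (k + 1) * D1 (p * w ^ r * p) =
      (-1 : ℝ) ^ (k + 1) * D0 ((p + kap • (w * z)) * w ^ r * (p + kap • (w * z))) +
        s * (-1 : ℝ) ^ (k + 1) * (P ^ 2 * L ^ r * (1 + s * L ^ (r + 2) * Z)) := by
    rw [e2]
    ring
  refine ⟨by rw [e3]; exact add_nonneg h1 hA, fun h q hq => ?_⟩
  rw [h, mul_zero] at e3
  have h3 : s * (-1 : ℝ) ^ (k + 1) * (P ^ 2 * L ^ r * (1 + s * L ^ (r + 2) * Z)) = 0 := by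
    linarith
  have h4 : P = 0 := by
    have h5 := (mul_eq_zero.1 h3).resolve_left hs.ne'
    have h6 := (mul_eq_zero.1 h5).resolve_right hpos.ne'
    have h7 := (mul_eq_zero.1 h6).resolve_right (pow_pos hL r).ne'
    exact pow_eq_zero_iff (two_ne_zero) |>.1 h7
  have h8 : kap = 0 := by rw [hk, h4, mul_zero, zero_mul]
  have h9 : D0 ((p + kap • (w * z)) * w ^ r * (p + kap • (w * z))) = 0 := by
    have h10 : (-1 : ℝ) ^ (k + 1) *
        D0 ((p + kap • (w * z)) * w ^ r * (p + kap • (w * z))) = 0 := by linarith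
    exact (mul_eq_zero.1 h10).resolve_left (pow_ne_zero _ (by norm_num))
  have h11 := h2 h9 q hq
  rw [h8, zero_smul, add_zero] at h11
  have h12 : aeval g (p * q) = P * aeval g q := by rw [map_mul, ← hPe]
  rw [hP, h11, h12, h4, zero_mul, mul_zero, add_zero]

end Pool.Agent.KF.S
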