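import Pool.Agent.KF.S.Basic

/-!
# FGT: degree above the size, small to big
-/

namespace Pool.Agent.KF.S

open MvPolynomial

theorem t_FGT : Stmt_FGT := by
  intro J D0 D1 g s w v k r hD hw hwg hs hv hgv hv0 hHR p hp hprim
  have hpg : (aeval g p : ℝ) = 0 := by
    have h1 := hprim k v rfl hv
    have h2 : (p * w ^ (r + 1)).IsHomogeneous (k + r + 2) := by
      have h3 := hp.mul (hw.pow (r + 1))
      rwa [show k + 1 + 1 * (r + 1) = k + r + 2 by ring] at h3
    have h4 := hv0 _ h2
    rw [hD, mul_comm (p * w ^ (r + 1)) v, h4, zero_add, map_mul, hgv, map_mul, map_pow,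
      one_mul] at h1
    have h5 := (mul_eq_zero.1 h1).resolve_left hs
    exact (mul_eq_zero.1 h5).resolve_right (pow_ne_zero _ hwg)
  have hag : ∀ q, D1 (p * q) = D0 (p * q) := fun q => by
    rw [hD, map_mul (aeval g) p q, hpg, zero_mul, mul_zero, add_zero]
  have hp0 : Prim D0 (k + 1) r w p := by
    intro k' q hk hq
    have h1 := hprim k' q hk hq
    rw [mul_assoc, hag, ← mul_assoc] at h1
    exact h1
  obtain ⟨h1, h2⟩ := hHR p hp hp0
  have e : D1 (p * w ^ r * p) = D0 (p * w ^ r * p) := by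
    rw [mul_assoc, hag]
  rw [e]
  refine ⟨h1, fun h3 q hq => ?_⟩
  rw [hag]
  exact h2 h3 q hq

end Pool.Agent.KF.S
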