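import Pool.Agent.KF.S.Basic

/-!
# FLIP: the flip theorem from the three cases (PAPER.md, FLIP)
-/

namespace Pool.Agent.KF.S

open MvPolynomial

theorem t_FLIP (hFA : Stmt_FA) (hFB : Stmt_FB) (hFC : Stmt_FC) : Stmt_FLIP := by
  intro J _ N D0 D1 g s o w Ip Im hF d hd h0 h1
  have h2 : ∀ i r : ℕ, 2 * i + r = N →
      ∃ e : ℝ, 0 < e ∧ ∀ t : ℝ, 0 < t → t < e → HRi D1 i r (w + C t * X o) := by
    intro i r hir
    rcases le_or_gt Im.card Ip.card with h | h
    · rcases lt_or_ge i Im.card with hi | hi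
      · exact hFA J N D0 D1 g s o w Ip Im hF d hd h0 h1 i r hir hi (lt_of_lt_of_le hi h)
      · exact hFB J N D0 D1 g s o w Ip Im hF d hd h0 h1 i r hir h hi
    · rcases lt_or_ge i Ip.card with hi | hi
      · exact hFA J N D0 D1 g s o w Ip Im hF d hd h0 h1 i r hir (lt_trans hi h) hi
      · exact hFC J N D0 D1 g s o w Ip Im hF d hd h0 h1 i r hir h hi
  have key : ∀ i : ℕ, ∃ e : ℝ, 0 < e ∧ ∀ r : ℕ, 2 * i + r = N → ∀ t : ℝ, 0 < t → t < e →
      HRi D1 i r (w + C t * X o) := by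
    intro i
    by_cases h : 2 * i ≤ N
    · obtain ⟨e, he, hr⟩ := h2 i (N - 2 * i) (by omega)
      refine ⟨e, he, fun r hr' => ?_⟩
      have : r = N - 2 * i := by omega
      rw [this]
      exact hr
    · exact ⟨1, one_pos, fun r hr => absurd hr (by omega)⟩
  choose e he hr using key
  obtain ⟨x, -, hx⟩ := (Finset.range (N + 1)).exists_min_image e ⟨0, by simp⟩
  refine ⟨e x, he x, fun t ht ht' i r hir => ?_⟩
  exact hr i r hir t ht (lt_of_lt_of_le ht' (hx i (Finset.mem_range.2 (by omega))))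

end Pool.Agent.KF.S
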