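import Pool.Agent.KF.S.Basic

/-!
# Flip: the elements with value 1 which kill the small functional

Module FNU of `Pool/Agent/KF/S/PAPER.md`.
-/

namespace Pool.Agent.KF.S

open MvPolynomial

namespace FNU_

lemma aux {J : Type} (D : MvPolynomial J ℝ →ₗ[ℝ] ℝ) (g : J → ℝ) (o : J) (I : Finset J)
    (N i j : ℕ) (go : g o = 1) (hI : ∀ l ∈ I, g l ≠ 0)
    (k0 : ∀ (n : ℕ) (q : MvPolynomial J ℝ), n + I.card = N → q.IsHomogeneous n →
      D (mon I * q) = 0) (hij : i + j = N) (hi : I.card ≤ i) :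
    ∃ v : MvPolynomial J ℝ, v.IsHomogeneous i ∧ aeval g v = (1 : ℝ) ∧
      ∀ q : MvPolynomial J ℝ, q.IsHomogeneous j → D (v * q) = 0 := by
  refine ⟨C (∏ l ∈ I, g l)⁻¹ * (mon I * X o ^ (i - I.card)), ?_, ?_, ?_⟩
  · have h1 := (mon_hom I).mul (isHomogeneous_X_pow (R := ℝ) o (i - I.card))
    have h2 := (isHomogeneous_C J ((∏ l ∈ I, g l)⁻¹)).mul h1
    rwa [show 0 + (I.card + (i - I.card)) = i by omega] at h2
  · have h1 : aeval g (mon I : MvPolynomial J ℝ) = ∏ l ∈ I, g l := by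
      unfold mon
      rw [map_prod]
      exact Finset.prod_congr rfl fun l _ => aeval_X g l
    rw [map_mul, map_mul, h1, map_pow, aeval_X, go, one_pow, mul_one, aeval_C]
    exact inv_mul_cancel₀ (Finset.prod_ne_zero_iff.2 hI)
  · intro q hq
    have h1 := k0 (i - I.card + j) (X o ^ (i - I.card) * q) (by omega)
      ((isHomogeneous_X_pow (R := ℝ) o (i - I.card)).mul hq)
    have e : C (∏ l ∈ I, g l)⁻¹ * (mon I * X o ^ (i - I.card)) * q =
        (∏ l ∈ I, g l)⁻¹ • (mon I * (X o ^ (i - I.card) * q)) := by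
      rw [smul_eq_C_mul]
      ring
    rw [e, map_smul, h1, smul_zero]

end FNU_

/-- Flip: the elements with value 1 which kill the small functional. -/
theorem t_FNU : Stmt_FNU := by
  intro J _ N D0 D1 g s o w Ip Im F i j hij
  exact ⟨fun hi => FNU_.aux D0 g o Im N i j F.go (fun l hl => ((F.mm l).1 hl).ne) F.k0 hij hi,
    fun hi => FNU_.aux D1 g o Ip N i j F.go (fun l hl => ((F.mp l).1 hl).ne') F.k1 hij hi⟩

end Pool.Agent.KF.S
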