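import Pool.Agent.KF.S.Basic

/-!
# FP1: vanishing of the localization sums (helper98)
-/

namespace Pool.Agent.KF.S

open MvPolynomial

namespace FP1_

variable {V M : Type} [AddCommGroup V] [Module ℝ V] [Fintype M]

lemma mem_verts {a : M → Module.Dual ℝ V} {h : M → ℝ} {N : ℕ} {B : Finset M} :
    B ∈ verts a h N ↔ IsVert a h N B := by
  classical
  simp [verts]

open Classical in
/-- The localization sum as a linear map. -/
noncomputable def phiL (a : M → Module.Dual ℝ V) (h : M → ℝ) (N : ℕ)
    (z : Module.Dual ℝ V) (u : Finset M → ℝ) (s : Finset M) : MvPolynomial M ℝ →ₗ[ℝ] ℝ :=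
  ∑ B ∈ (verts a h N).filter (fun B => s ⊆ B),
    (u B / ∏ j ∈ B.filter (fun j => j ∉ s), co a z B j) • (aeval (co a z B)).toLinearMap

variable {a : M → Module.Dual ℝ V} {h : M → ℝ} {N : ℕ} {z : Module.Dual ℝ V}
  {u : Finset M → ℝ}

lemma phiL_apply (s : Finset M) (q : MvPolynomial M ℝ) :
    phiL a h N z u s q = phi a h N z u s q := by
  classical
  unfold phiL phi
  rw [LinearMap.sum_apply]
  refine Finset.sum_congr rfl fun B _ => ?_
  rw [LinearMap.smul_apply, smul_eq_mul, AlgHom.toLinearMap_apply]
  ring

open Classical in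
/-- Multiplication with a variable outside the face. -/
lemma phi_X_mul (hv : ∀ B, IsVert a h N B → VertFacts a h B) (hg : Gen a h N z)
    {l : M} {s : Finset M} (hl : l ∉ s) (q : MvPolynomial M ℝ) :
    phi a h N z u s (X l * q) = phi a h N z u (insert l s) q := by
  unfold phi
  have hset : (verts a h N).filter (fun B => insert l s ⊆ B) =
      ((verts a h N).filter (fun B => s ⊆ B)).filter (fun B => l ∈ B) := by
    ext B
    simp only [Finset.mem_filter, Finset.insert_subset_iff]
    tauto
  rw [hset, Finset.sum_filter (s := (verts a h N).filter (fun B => s ⊆ B))]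
  refine Finset.sum_congr rfl fun B hB => ?_
  have hBv : IsVert a h N B := mem_verts.1 (Finset.mem_filter.1 hB).1
  by_cases hlB : l ∈ B
  · rw [if_pos hlB, map_mul, aeval_X]
    have hne := hg.ne B hBv l hlB
    have hprod : ∏ j ∈ B.filter (fun j => j ∉ s), co a z B j =
        co a z B l * ∏ j ∈ B.filter (fun j => j ∉ insert l s), co a z B j := by
      rw [← Finset.prod_insert]
      · congr 1
        ext j
        simp only [Finset.mem_filter, Finset.mem_insert]
        constructor
        · rintro ⟨h1, h2⟩
          by_cases hj : j = l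
          · exact Or.inl hj
          · exact Or.inr ⟨h1, by tauto⟩
        · rintro (rfl | ⟨h1, h2⟩)
          · exact ⟨hlB, hl⟩
          · exact ⟨h1, by tauto⟩
      · simp
    rw [hprod, mul_left_comm, mul_div_mul_left _ _ hne]
  · rw [if_neg hlB, map_mul, aeval_X, (hv B hBv).co_supp z l hlB]
    simp

lemma aeval_lin (hv : ∀ B, IsVert a h N B → VertFacts a h B) {B : Finset M}
    (hB : IsVert a h N B) (y : V) : aeval (co a z B) (lin a y) = z y := by
  classical
  unfold lin
  rw [map_sum]
  have h1 : ∀ j, aeval (co a z B) (C (a j y) * X j : MvPolynomial M ℝ) =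
      co a z B j * a j y := by
    intro j
    rw [map_mul, aeval_X, algHom_C]
    exact mul_comm _ _
  rw [Finset.sum_congr rfl fun j _ => h1 j]
  have h2 : ∑ j, co a z B j * a j y = ∑ j ∈ B, co a z B j * a j y := by
    refine (Finset.sum_subset (Finset.subset_univ B) fun j _ hj => ?_).symm
    rw [(hv B hB).co_supp z j hj, zero_mul]
  rw [h2]
  have h3 := congrArg (fun f => f y) ((hv B hB).co_sum z)
  simp only [LinearMap.sum_apply, LinearMap.smul_apply, smul_eq_mul] at h3
  exact h3

/-- Multiplication with a linear form. -/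
lemma phi_lin_mul (hv : ∀ B, IsVert a h N B → VertFacts a h B) (s : Finset M) (y : V)
    (q : MvPolynomial M ℝ) :
    phi a h N z u s (lin a y * q) = z y * phi a h N z u s q := by
  classical
  unfold phi
  rw [Finset.mul_sum]
  refine Finset.sum_congr rfl fun B hB => ?_
  have hBv : IsVert a h N B := mem_verts.1 (Finset.mem_filter.1 hB).1
  rw [map_mul, aeval_lin hv hBv]
  ring

open Classical in
/-- The relation of a vector. -/
lemma phi_rel (hv : ∀ B, IsVert a h N B → VertFacts a h B) (hg : Gen a h N z)
    (s : Finset M) (y : V) (q : MvPolynomial M ℝ) :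
    z y * phi a h N z u s q = ∑ j ∈ s, a j y * phi a h N z u s (X j * q) +
      ∑ j ∈ Finset.univ.filter (fun j => j ∉ s), a j y * phi a h N z u (insert j s) q := by
  rw [← phi_lin_mul hv s y q]
  have h1 : (lin a y * q : MvPolynomial M ℝ) = ∑ j, a j y • (X j * q) := by
    unfold lin
    rw [Finset.sum_mul]
    refine Finset.sum_congr rfl fun j _ => ?_
    rw [smul_eq_C_mul]
    ring
  have h2 : phi a h N z u s (lin a y * q) = ∑ j, a j y * phi a h N z u s (X j * q) := by
    rw [← phiL_apply, h1, map_sum]
    refine Finset.sum_congr rfl fun j _ => ?_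
    rw [map_smul, phiL_apply, smul_eq_mul]
  rw [h2, ← Finset.sum_filter_add_sum_filter_not Finset.univ (fun j => j ∈ s)]
  congr 1
  · refine Finset.sum_congr ?_ fun _ _ => rfl
    ext j
    simp
  · refine Finset.sum_congr rfl fun j hj => ?_
    rw [phi_X_mul hv hg (Finset.mem_filter.1 hj).2]

open Classical in
/-- The sums of faces of full size. -/
lemma phi_top (s : Finset M) (hs : s.card = N) :
    phi a h N z u s 1 = if IsFace a h s then u s else 0 := by
  unfold phi
  have hset : (verts a h N).filter (fun B => s ⊆ B) = if IsFace a h s then {s} else ∅ := by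
    ext B
    rw [Finset.mem_filter, mem_verts]
    constructor
    · rintro ⟨⟨h1, h2⟩, h3⟩
      have h4 : s = B := Finset.eq_of_subset_of_card_le h3 (by omega)
      subst h4
      rw [if_pos h1]
      exact Finset.mem_singleton_self _
    · intro hB
      split_ifs at hB with h1
      · rw [Finset.mem_singleton] at hB
        subst hB
        exact ⟨⟨h1, hs⟩, Finset.Subset.refl _⟩
      · exact absurd hB (Finset.notMem_empty _)
  rw [hset]
  split_ifs with h1
  · rw [Finset.sum_singleton]
    have h2 : s.filter (fun j => j ∉ s) = ∅ := by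
      ext j
      simp
    rw [h2, Finset.prod_empty, map_one]
    ring
  · rw [Finset.sum_empty]

/-- No vertex contains `s`. -/
lemma phi_none (s : Finset M) (hs : ¬ ∃ B, IsVert a h N B ∧ s ⊆ B) (q : MvPolynomial M ℝ) :
    phi a h N z u s q = 0 := by
  classical
  unfold phi
  refine Finset.sum_eq_zero fun B hB => ?_
  exact absurd ⟨B, mem_verts.1 (Finset.mem_filter.1 hB).1, (Finset.mem_filter.1 hB).2⟩ hs

/-- Degree zero. -/
lemma phi_one (hv : ∀ B, IsVert a h N B → VertFacts a h B) (hg : Gen a h N z)
    (hu : Bal a h N u) : ∀ (k : ℕ) (s : Finset M), s.card + (k + 1) = N →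
    phi a h N z u s 1 = 0 := by
  classical
  intro k
  induction k with
  | zero =>
    intro s hs
    by_cases hB : ∃ B, IsVert a h N B ∧ s ⊆ B
    swap
    · exact phi_none s hB 1
    obtain ⟨B, hB, hsB⟩ := hB
    obtain ⟨l, hlB, hls⟩ : ∃ l ∈ B, l ∉ s := by
      by_contra hcon
      push Not at hcon
      have h1 := Finset.card_le_card (show B ⊆ s from hcon)
      have h2 := hB.2
      omega
    obtain ⟨y, hy⟩ := (hv B hB).surj (fun j => if j = l then 1 else 0)
    have hyl : a l y = 1 := by
      rw [hy l hlB, if_pos rfl]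
    have hys : ∀ j ∈ s, a j y = 0 := by
      intro j hj
      rw [hy j (hsB hj), if_neg]
      rintro rfl
      exact hls hj
    have hzy : z y = co a z B l := by
      have h3 := congrArg (fun f => f y) ((hv B hB).co_sum z)
      simp only [LinearMap.sum_apply, LinearMap.smul_apply, smul_eq_mul] at h3
      rw [← h3, Finset.sum_eq_single l]
      · rw [hyl, mul_one]
      · intro j hj hjl
        rw [hy j hj, if_neg hjl, mul_zero]
      · intro h4
        exact absurd hlB h4
    have hrel := phi_rel (u := u) hv hg s y 1
    have h0 : ∑ j ∈ s, a j y * phi a h N z u s (X j * 1) = 0 :=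
      Finset.sum_eq_zero fun j hj => by rw [hys j hj, zero_mul]
    have h5 : ∑ j ∈ Finset.univ.filter (fun j => j ∉ s),
        a j y * phi a h N z u (insert j s) 1 = 0 := by
      have h6 := hu s hs y hys
      rw [← h6, ← Finset.filter_filter, Finset.sum_filter (s := Finset.univ.filter
        (fun j => j ∉ s))]
      refine Finset.sum_congr rfl fun j hj => ?_
      have hjs := (Finset.mem_filter.1 hj).2
      rw [phi_top (insert j s) (by rw [Finset.card_insert_of_notMem hjs]; omega)]
      split_ifs
      · ring
      · ring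
    rw [h0, h5, add_zero, hzy] at hrel
    exact (mul_eq_zero.1 hrel).resolve_left (hg.ne B hB l hlB)
  | succ k ih =>
    intro s hs
    by_cases hB : ∃ B, IsVert a h N B ∧ s ⊆ B
    swap
    · exact phi_none s hB 1
    obtain ⟨B, hB, hsB⟩ := hB
    obtain ⟨l, hlB, hls⟩ : ∃ l ∈ B, l ∉ s := by
      by_contra hcon
      push Not at hcon
      have h1 := Finset.card_le_card (show B ⊆ s from hcon)
      have h2 := hB.2
      omega
    obtain ⟨y, hy⟩ := (hv B hB).surj (fun j => if j = l then 1 else 0)
    have hyl : a l y = 1 := by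
      rw [hy l hlB, if_pos rfl]
    have hys : ∀ j ∈ s, a j y = 0 := by
      intro j hj
      rw [hy j (hsB hj), if_neg]
      rintro rfl
      exact hls hj
    have hzy : z y = co a z B l := by
      have h3 := congrArg (fun f => f y) ((hv B hB).co_sum z)
      simp only [LinearMap.sum_apply, LinearMap.smul_apply, smul_eq_mul] at h3
      rw [← h3, Finset.sum_eq_single l]
      · rw [hyl, mul_one]
      · intro j hj hjl
        rw [hy j hj, if_neg hjl, mul_zero]
      · intro h4
        exact absurd hlB h4
    have hrel := phi_rel (u := u) hv hg s y 1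
    have h0 : ∑ j ∈ s, a j y * phi a h N z u s (X j * 1) = 0 :=
      Finset.sum_eq_zero fun j hj => by rw [hys j hj, zero_mul]
    have h5 : ∑ j ∈ Finset.univ.filter (fun j => j ∉ s),
        a j y * phi a h N z u (insert j s) 1 = 0 := by
      refine Finset.sum_eq_zero fun j hj => ?_
      have hjs := (Finset.mem_filter.1 hj).2
      rw [ih (insert j s) (by rw [Finset.card_insert_of_notMem hjs]; omega), mul_zero]
    rw [h0, h5, add_zero, hzy] at hrel
    exact (mul_eq_zero.1 hrel).resolve_left (hg.ne B hB l hlB)

/-- All degrees. -/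
lemma phi_zero (hv : ∀ B, IsVert a h N B → VertFacts a h B) (hg : Gen a h N z)
    (hu : Bal a h N u) : ∀ (m : ℕ) (s : Finset M), m + s.card < N →
    ∀ q : MvPolynomial M ℝ, q.IsHomogeneous m → phi a h N z u s q = 0 := by
  classical
  intro m
  induction m with
  | zero =>
    intro s hs q hq
    rw [← phiL_apply]
    refine ext_monomial (fun e he => ?_) q hq
    have h1 : e = 0 := (Finsupp.degree_eq_zero_iff e).1 he
    rw [h1, phiL_apply]
    have h2 : (monomial 0 1 : MvPolynomial M ℝ) = 1 := rfl
    rw [h2]
    exact phi_one hv hg hu (N - s.card - 1) s (by omega)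
  | succ m ih =>
    intro s hs q hq
    rw [← phiL_apply]
    refine ext_monomial (fun e he => ?_) q hq
    rw [phiL_apply]
    -- a variable of the monomial
    have hne : e ≠ 0 := by
      rintro rfl
      simp at he
    obtain ⟨l, hl⟩ := Finsupp.support_nonempty_iff.2 hne
    have hl1 : Finsupp.single l 1 ≤ e := by
      rw [Finsupp.single_le_iff]
      exact Nat.one_le_iff_ne_zero.2 (Finsupp.mem_support_iff.1 hl)
    have he1 : e = Finsupp.single l 1 + (e - Finsupp.single l 1) :=
      (add_tsub_cancel_of_le hl1).symm
    have hdeg : (e - Finsupp.single l 1).degree = m := by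
      have h1 := congrArg Finsupp.degree he1
      rw [map_add, Finsupp.degree_single, he] at h1
      omega
    have hmon : (monomial e 1 : MvPolynomial M ℝ) =
        X l * monomial (e - Finsupp.single l 1) 1 := by
      rw [X, monomial_mul, one_mul, ← he1]
    have hq' : (monomial (e - Finsupp.single l 1) 1 : MvPolynomial M ℝ).IsHomogeneous m :=
      isHomogeneous_monomial _ hdeg
    rw [hmon]
    by_cases hls : l ∈ s
    swap
    · rw [phi_X_mul hv hg hls]
      exact ih (insert l s) (by rw [Finset.card_insert_of_notMem hls]; omega) _ hq'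
    by_cases hB : ∃ B, IsVert a h N B ∧ s ⊆ B
    swap
    · exact phi_none s hB _
    obtain ⟨B, hB, hsB⟩ := hB
    obtain ⟨y, hy⟩ := (hv B hB).surj (fun j => if j = l then 1 else 0)
    have hrel := phi_rel (u := u) hv hg s y (monomial (e - Finsupp.single l 1) 1)
    have h0 : ∑ j ∈ s, a j y * phi a h N z u s
        (X j * monomial (e - Finsupp.single l 1) 1) =
        phi a h N z u s (X l * monomial (e - Finsupp.single l 1) 1) := by
      rw [Finset.sum_eq_single l]
      · rw [hy l (hsB hls), if_pos rfl, one_mul]
      · intro j hj hjl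
        rw [hy j (hsB hj), if_neg hjl, zero_mul]
      · intro h4
        exact absurd hls h4
    have h5 : ∑ j ∈ Finset.univ.filter (fun j => j ∉ s),
        a j y * phi a h N z u (insert j s) (monomial (e - Finsupp.single l 1) 1) = 0 := by
      refine Finset.sum_eq_zero fun j hj => ?_
      have hjs := (Finset.mem_filter.1 hj).2
      rw [ih (insert j s) (by rw [Finset.card_insert_of_notMem hjs]; omega) _ hq', mul_zero]
    rw [h0, h5, add_zero, ih s (by omega) _ hq', mul_zero] at hrel
    exact hrel.symm

end FP1_

open FP1_ in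
/-- FP1 -/
theorem t_FP1 (hVERT : Stmt_VERT) (_hMINV : Stmt_MINV) : Stmt_FP1 := by
  intro V M _ _ _ _ a h N z u hs hN hg hu s m q hq hm
  have hv : ∀ B, IsVert a h N B → VertFacts a h B := by
    intro B hB
    rw [← hN] at hB
    exact hVERT V M a h hs B hB
  exact phi_zero hv hg hu m s hm q hq

end Pool.Agent.KF.S
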