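import Pool.Agent.KF.S.Basic

/-!
# Simplicial Hodge-Riemann relations: the localization formula (module FP2)
-/

namespace Pool.Agent.KF.S

open MvPolynomial

namespace FP2_

variable {V M : Type} [AddCommGroup V] [Module ℝ V] [Fintype M]
  {a : M → Module.Dual ℝ V} {h : M → ℝ} {N : ℕ} {z : Module.Dual ℝ V} {u : Finset M → ℝ}

/-- `phi` as a linear map. -/
noncomputable def phiL (a : M → Module.Dual ℝ V) (h : M → ℝ) (N : ℕ) (z : Module.Dual ℝ V)
    (u : Finset M → ℝ) (s : Finset M) : MvPolynomial M ℝ →ₗ[ℝ] ℝ where
  toFun q := phi a h N z u s q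
  map_add' p q := by
    unfold phi
    rw [← Finset.sum_add_distrib]
    refine Finset.sum_congr rfl fun B _ => ?_
    rw [map_add, mul_add, add_div]
  map_smul' c q := by
    unfold phi
    rw [RingHom.id_apply, smul_eq_mul, Finset.mul_sum]
    refine Finset.sum_congr rfl fun B _ => ?_
    rw [map_smul, smul_eq_mul, mul_left_comm, mul_div_assoc]

@[simp] lemma phiL_apply (s : Finset M) (q : MvPolynomial M ℝ) :
    phiL a h N z u s q = phi a h N z u s q := rfl

omit [Fintype M] in
lemma mem_verts [Fintype M] {B : Finset M} : B ∈ verts a h N ↔ IsVert a h N B := by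
  classical
  unfold verts
  rw [Finset.mem_filter]
  simp

open Classical in
/-- Rule 1. -/
lemma phi_X (hvf : ∀ B, IsVert a h N B → VertFacts a h B) (hg : Gen a h N z)
    (s : Finset M) (l : M) (hl : l ∉ s) (q : MvPolynomial M ℝ) :
    phi a h N z u s (X l * q) = phi a h N z u (insert l s) q := by
  unfold phi
  have hsub : (verts a h N).filter (fun B => insert l s ⊆ B) ⊆
      (verts a h N).filter (fun B => s ⊆ B) := by
    intro B hB
    rw [Finset.mem_filter] at hB ⊢
    exact ⟨hB.1, (Finset.subset_insert l s).trans hB.2⟩
  rw [← Finset.sum_subset hsub]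
  · refine Finset.sum_congr rfl fun B hB => ?_
    rw [Finset.mem_filter, mem_verts] at hB
    have hlB : l ∈ B := hB.2 (Finset.mem_insert_self l s)
    have hne := hg.ne B hB.1 l hlB
    have hprod : ∏ j ∈ B.filter (fun j => j ∉ s), co a z B j =
        co a z B l * ∏ j ∈ B.filter (fun j => j ∉ insert l s), co a z B j := by
      have he : B.filter (fun j => j ∉ s) = insert l (B.filter (fun j => j ∉ insert l s)) := by
        ext j
        simp only [Finset.mem_filter, Finset.mem_insert]
        constructor
        · rintro ⟨h1, h2⟩
          by_cases hj : j = l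
          · exact Or.inl hj
          · exact Or.inr ⟨h1, by tauto⟩
        · rintro (h1 | h1)
          · subst h1
            exact ⟨hlB, hl⟩
          · exact ⟨h1.1, by tauto⟩
      rw [he, Finset.prod_insert]
      simp
    rw [hprod, map_mul, aeval_X]
    rw [show u B * (co a z B l * aeval (co a z B) q) =
      co a z B l * (u B * aeval (co a z B) q) by ring]
    rw [mul_div_mul_left _ _ hne]
  · intro B hB hB'
    rw [Finset.mem_filter, mem_verts] at hB
    have hlB : l ∉ B := by
      intro hlB
      apply hB'
      rw [Finset.mem_filter, mem_verts]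
      exact ⟨hB.1, Finset.insert_subset hlB hB.2⟩
    rw [map_mul, aeval_X, (hvf B hB.1).co_supp z l hlB]
    simp

/-- Rule 2. -/
lemma phi_lin (hvf : ∀ B, IsVert a h N B → VertFacts a h B)
    (s : Finset M) (y : V) (q : MvPolynomial M ℝ) :
    phi a h N z u s (lin a y * q) = z y * phi a h N z u s q := by
  classical
  unfold phi
  rw [Finset.mul_sum]
  refine Finset.sum_congr rfl fun B hB => ?_
  rw [Finset.mem_filter, mem_verts] at hB
  have hv := hvf B hB.1
  have e : aeval (co a z B) (lin a y) = z y := by
    unfold lin
    rw [map_sum]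
    have h1 := congrArg (fun f : Module.Dual ℝ V => f y) (hv.co_sum z)
    simp only [LinearMap.coe_sum, Finset.sum_apply, LinearMap.smul_apply, smul_eq_mul] at h1
    rw [← h1, ← Finset.sum_subset (Finset.subset_univ B)]
    · refine Finset.sum_congr rfl fun j _ => ?_
      rw [map_mul, aeval_C, aeval_X, Algebra.algebraMap_self_apply, mul_comm]
    · intro j _ hj
      rw [map_mul, aeval_X, hv.co_supp z j hj, mul_zero]
  rw [map_mul, e]
  ring

end FP2_

open FP2_ in
theorem t_FP2 (hVERT : Stmt_VERT) (hMINV : Stmt_MINV) (hBALD : Stmt_BALD) (hFP1 : Stmt_FP1) :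
    Stmt_FP2 := by
  classical
  intro V M _ _ _ _ a h N z D hS hN hg hD s m
  have hvf : ∀ B, IsVert a h N B → VertFacts a h B := by
    intro B hB
    exact hVERT V M a h hS B (by rw [hN]; exact hB)
  -- faces lie in vertices
  have hface : ∀ s : Finset M, IsFace a h s → ∃ B, IsVert a h N B ∧ s ⊆ B := by
    rintro s ⟨x, hx, hxs⟩
    obtain ⟨B, hB, hBx, -⟩ := hMINV V M a h hS 0 x hx
    rw [hN] at hB
    exact ⟨B, hB, fun j hj => hBx j (hxs j hj)⟩
  -- monomials without a face
  have hsr : ∀ (s : Finset M) (n : M →₀ ℕ), n.degree + s.card = N →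
      (¬ ∃ B, IsVert a h N B ∧ s ⊆ B) → D (mon s * monomial n 1) = 0 := by
    intro s n hn hs
    rw [mon_eq_monomial, monomial_mul, one_mul]
    refine hD.sr _ ?_ ?_
    · rw [map_add, map_sum]
      simp only [Finsupp.degree_single, Finset.sum_const, smul_eq_mul, mul_one]
      omega
    · intro hf
      obtain ⟨B, hB, hsB⟩ := hface _ hf
      refine hs ⟨B, hB, fun j hj => hsB ?_⟩
      rw [Finsupp.mem_support_iff, Finsupp.add_apply, Finsupp.finsetSum_apply]
      have : (1 : ℕ) ≤ ∑ i ∈ s, (Finsupp.single i (1 : ℕ)) j := by
        have h1 := Finset.single_le_sum (f := fun i => (Finsupp.single i (1 : ℕ)) j)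
          (fun i _ => Nat.zero_le _) hj
        simpa using h1
      omega
  have hphi0 : ∀ (s : Finset M) (q : MvPolynomial M ℝ), (¬ ∃ B, IsVert a h N B ∧ s ⊆ B) →
      phi a h N z (fun t => D (mon t)) s q = 0 := by
    intro s q hs
    unfold phi
    refine Finset.sum_eq_zero fun B hB => ?_
    rw [Finset.mem_filter, mem_verts] at hB
    exact absurd ⟨B, hB.1, hB.2⟩ hs
  induction m generalizing s with
  | zero =>
    intro q hq hms
    have key : ∀ n : M →₀ ℕ, n.degree = 0 →
        (phiL a h N z (fun t => D (mon t)) s - act (mon s) D) (monomial n 1) = 0 := by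
      intro n hn
      rw [LinearMap.sub_apply, sub_eq_zero, act_apply, phiL_apply]
      by_cases hs : ∃ B, IsVert a h N B ∧ s ⊆ B
      · obtain ⟨B, hB, hsB⟩ := hs
        have hsB' : s = B := Finset.eq_of_subset_of_card_le hsB (by rw [hB.2]; omega)
        subst hsB'
        have hn0 : n = 0 := by
          rwa [Finsupp.degree_eq_zero_iff] at hn
        subst hn0
        unfold phi
        rw [Finset.sum_eq_single s]
        · rw [Finset.filter_eq_empty_iff.mpr (by intro j hj; simpa using hj), Finset.prod_empty,
            div_one]
          simp [monomial_zero']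
        · intro B' hB' hne
          rw [Finset.mem_filter, mem_verts] at hB'
          exact absurd (Finset.eq_of_subset_of_card_le hB'.2 (by rw [hB'.1.2, hB.2])).symm hne
        · intro h'
          exact absurd (Finset.mem_filter.mpr ⟨mem_verts.mpr hB, Finset.Subset.refl _⟩) h'
      · rw [hphi0 s _ hs, hsr s n (by omega) hs]
    have := ext_monomial key q hq
    rw [LinearMap.sub_apply, sub_eq_zero] at this
    simpa using this
  | succ m ih =>
    intro q hq hms
    have key : ∀ n : M →₀ ℕ, n.degree = m + 1 →
        (phiL a h N z (fun t => D (mon t)) s - act (mon s) D) (monomial n 1) = 0 := by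
      intro n hn
      rw [LinearMap.sub_apply, sub_eq_zero, act_apply, phiL_apply]
      by_cases hs : ∃ B, IsVert a h N B ∧ s ⊆ B
      swap
      · rw [hphi0 s _ hs, hsr s n (by omega) hs]
      obtain ⟨l, hl⟩ : ∃ l, n l ≠ 0 := by
        by_contra hcon
        push Not at hcon
        have : n = 0 := Finsupp.ext hcon
        rw [this, map_zero] at hn
        omega
      -- split a variable
      obtain ⟨n', hn'⟩ : ∃ n' : M →₀ ℕ, n = Finsupp.single l 1 + n' := by
        refine ⟨n - Finsupp.single l 1, ?_⟩
        rw [add_tsub_cancel_of_le]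
        rw [Finsupp.single_le_iff]
        omega
      have hdeg : n'.degree = m := by
        rw [hn', map_add, Finsupp.degree_single] at hn
        omega
      have hmon : (monomial n (1 : ℝ)) = X l * monomial n' 1 := by
        rw [X, monomial_mul, one_mul, ← hn']
      have hq' : (monomial n' (1 : ℝ)).IsHomogeneous m := isHomogeneous_monomial 1 hdeg
      rw [hmon]
      by_cases hls : l ∈ s
      · obtain ⟨B, hB, hsB⟩ := hs
        obtain ⟨y, hy⟩ := (hvf B hB).surj (fun j => if j = l then 1 else 0)
        have hyl : a l y = 1 := by rw [hy l (hsB hls), if_pos rfl]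
        have hyo : ∀ j ∈ s, j ≠ l → a j y = 0 := fun j hj hjl => by
          rw [hy j (hsB hj), if_neg hjl]
        have hlin : (lin a y : MvPolynomial M ℝ) =
            X l + ∑ j ∈ Finset.univ.filter (fun j => j ∉ s), C (a j y) * X j := by
          unfold lin
          rw [← Finset.sum_filter_add_sum_filter_not Finset.univ (fun j => j ∈ s)]
          congr 1
          rw [Finset.sum_eq_single l]
          · rw [hyl, C_1, one_mul]
          · intro j hj hjl
            rw [hyo j (Finset.mem_filter.mp hj).2 hjl, C_0, zero_mul]
          · intro h'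
            exact absurd (Finset.mem_filter.mpr ⟨Finset.mem_univ _, hls⟩) h'
        have hX : (X l : MvPolynomial M ℝ) * monomial n' 1 = lin a y * monomial n' 1 -
            ∑ j ∈ Finset.univ.filter (fun j => j ∉ s), (a j y) • (X j * monomial n' 1) := by
          rw [hlin, add_mul, Finset.sum_mul, add_sub_assoc]
          rw [show (X l : MvPolynomial M ℝ) * monomial n' 1 = X l * monomial n' 1 + 0 by
            rw [add_zero]]
          congr 1
          · rw [add_zero]
          · symm
            rw [sub_eq_zero]
            refine Finset.sum_congr rfl fun j _ => ?_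
            rw [smul_eq_C_mul, mul_assoc]
        rw [hX, mul_sub, map_sub, Finset.mul_sum, map_sum]
        have e1 : D (mon s * (lin a y * monomial n' 1)) = 0 := by
          rw [show mon s * (lin a y * monomial n' 1) = lin a y * (mon s * monomial n' 1) by ring]
          refine hD.lin y (s.card + m) _ (by omega) ?_
          exact (mon_hom s).mul hq'
        rw [e1, ← phiL_apply, map_sub, map_sum, phiL_apply, phi_lin hvf,
          hFP1 V M a h N z _ hS hN hg (hBALD V M a h N D hS hN hD) s m _ hq' (by omega), mul_zero]
        congr 1
        refine Finset.sum_congr rfl fun j hj => ?_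
        have hj' : j ∉ s := (Finset.mem_filter.mp hj).2
        rw [map_smul, phiL_apply, phi_X hvf hg s j hj', mul_smul_comm, map_smul]
        congr 1
        have h3 := ih (insert j s) (monomial n' 1) hq'
          (by rw [Finset.card_insert_of_notMem hj']; omega)
        rw [show mon s * (X j * monomial n' (1 : ℝ)) = mon (insert j s) * monomial n' 1 by
          unfold mon
          rw [Finset.prod_insert hj']
          ring]
        convert h3
      · rw [phi_X hvf hg s l hls]
        have h3 := ih (insert l s) (monomial n' 1) hq'
          (by rw [Finset.card_insert_of_notMem hls]; omega)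
        rw [show mon s * (X l * monomial n' (1 : ℝ)) = mon (insert l s) * monomial n' 1 by
          unfold mon
          rw [Finset.prod_insert hls]
          ring]
        convert h3
    have := ext_monomial key q hq
    rw [LinearMap.sub_apply, sub_eq_zero] at this
    simpa using this

end Pool.Agent.KF.S
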