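import Pool.Agent.KF.S.Basic

/-!
# Simplicial Hodge-Riemann relations: flip, hard Lefschetz at the wall
-/

namespace Pool.Agent.KF.S

open MvPolynomial

namespace FW_

variable {J : Type} [Fintype J]

lemma om_eval (g c : J → ℝ) (hc : ∀ l, g l ≠ 0 → c l = 0) :
    aeval g (om c) = (0 : ℝ) := by
  unfold om
  rw [map_sum]
  refine Finset.sum_eq_zero fun l _ => ?_
  rw [map_mul, aeval_C, aeval_X]
  by_cases h : g l = 0
  · rw [h, mul_zero]
  · rw [hc l h, map_zero, zero_mul]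

lemma rel_eval (g c : J → ℝ) (o j : J) (ho : g o = 1) (hc : ∀ l, g l ≠ 0 → c l = 0) :
    aeval g (X j - C (g j) * X o - om c : MvPolynomial J ℝ) = (0 : ℝ) := by
  rw [map_sub, map_sub, map_mul, aeval_X, aeval_C, aeval_X, om_eval g c hc, ho]
  simp

omit [Fintype J] in
lemma D1_mul {D0 D1 : MvPolynomial J ℝ →ₗ[ℝ] ℝ} {g : J → ℝ} {s : ℝ}
    (heq : ∀ p, D1 p = D0 p + s * aeval g p) (f q : MvPolynomial J ℝ)
    (hf : aeval g f = (0 : ℝ)) : D1 (f * q) = D0 (f * q) := by
  rw [heq, map_mul (aeval g), hf, zero_mul, mul_zero, add_zero]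

end FW_

theorem t_FW (hWALL : Stmt_WALL) : Stmt_FW := by
  intro J _ N D0 D1 g s o w Ip Im F i r hir
  have hoIp : o ∈ Ip := by
    rw [F.mp, F.go]; exact one_pos
  have hIp : 1 ≤ Ip.card := Finset.card_pos.mpr ⟨o, hoIp⟩
  have hcard := F.card
  have him := F.im_pos
  obtain ⟨n, rfl⟩ : ∃ n, N = n + 1 := ⟨N - 1, by omega⟩
  constructor
  · intro hI
    refine hWALL J D0 n g o w Im i r hir hI F.go ?_ F.w1 ?_ ?_ ?_ ?_
    · intro j hj
      exact ne_of_lt ((F.mm j).1 hj)
    · intro m q hm hq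
      exact F.k0 m q hm hq
    · intro j
      obtain ⟨c, hc, h⟩ := F.rel j
      exact ⟨c, hc, fun q hq => h n q rfl hq⟩
    · obtain ⟨c, hc, hc', h⟩ := F.wrel
      exact ⟨c, hc, hc', fun q hq => h n q rfl hq⟩
    · intro l hl
      exact F.whr l n rfl hl
  · intro hI
    refine hWALL J D1 n g o w Ip i r hir hI F.go ?_ F.w1 ?_ ?_ ?_ ?_
    · intro j hj
      exact ne_of_gt ((F.mp j).1 hj)
    · intro m q hm hq
      exact F.k1 m q hm hq
    · intro j
      obtain ⟨c, hc, h⟩ := F.rel j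
      refine ⟨c, hc, fun q hq => ?_⟩
      rw [FW_.D1_mul F.eq _ q (FW_.rel_eval g c o j F.go hc)]
      exact h n q rfl hq
    · obtain ⟨c, hc, hc', h⟩ := F.wrel
      refine ⟨c, hc, hc', fun q hq => ?_⟩
      rw [FW_.D1_mul F.eq _ q (by rw [map_sub, F.wg, FW_.om_eval g c hc, sub_zero])]
      exact h n q rfl hq
    · intro l hl
      have e : act (X l) D1 = act (X l) D0 := by
        refine LinearMap.ext fun p => ?_
        rw [act_apply, act_apply]
        exact FW_.D1_mul F.eq _ p (by rw [aeval_X, hl])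
      rw [e]
      exact F.whr l n rfl hl

end Pool.Agent.KF.S
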