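import Pool.Agent.KF.S.Basic

/-!
# GEN: existence of generic functionals
-/

namespace Pool.Agent.KF.S

open MvPolynomial

namespace GEN_

variable {V M : Type} [AddCommGroup V] [Module ℝ V]

/-- The coordinate is the value at a dual vector. -/
lemma co_eq {a : M → Module.Dual ℝ V} {h : M → ℝ} {B : Finset M} (hB : VertFacts a h B)
    (z : Module.Dual ℝ V) {j : M} (hj : j ∈ B) {y : V} (h1 : a j y = 1)
    (h0 : ∀ i ∈ B, i ≠ j → a i y = 0) : co a z B j = z y := by
  have h := congrArg (fun f : Module.Dual ℝ V => f y) (hB.co_sum z)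
  simp only [LinearMap.sum_apply, LinearMap.smul_apply, smul_eq_mul] at h
  rw [← h, Finset.sum_eq_single j]
  · rw [h1, mul_one]
  · intro i hi hij
    rw [h0 i hi hij, mul_zero]
  · intro hn
    exact absurd hj hn

lemma exists_y {a : M → Module.Dual ℝ V} {h : M → ℝ} {B : Finset M} (hB : VertFacts a h B)
    (j : M) (hj : j ∈ B) : ∃ y : V, y ≠ 0 ∧ ∀ z : Module.Dual ℝ V, co a z B j = z y := by
  classical
  obtain ⟨y, hy⟩ := hB.surj (fun i => if i = j then 1 else 0)
  have h1 : a j y = 1 := by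
    have := hy j hj
    rwa [if_pos rfl] at this
  have h0 : ∀ i ∈ B, i ≠ j → a i y = 0 := by
    intro i hi hij
    have := hy i hi
    rwa [if_neg hij] at this
  refine ⟨y, ?_, fun z => co_eq hB z hj h1 h0⟩
  rintro rfl
  rw [map_zero] at h1
  exact zero_ne_one h1

lemma sub_of_eq {a : M → Module.Dual ℝ V} {h : M → ℝ} {B B' : Finset M}
    (hB : VertFacts a h B) (hB' : VertFacts a h B') (e : pt a h B = pt a h B') : B ⊆ B' := by
  intro j hj
  by_contra hn
  have h1 := hB.tight j hj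
  have h2 := hB'.slack j hn
  rw [← e, h1] at h2
  exact lt_irrefl _ h2

end GEN_

open GEN_ in
/-- Existence of generic functionals. -/
theorem t_GEN (hVERT : Stmt_VERT) : Stmt_GEN := by
  classical
  intro V M _ _ _ _ a h hS
  have hV : ∀ B : Finset M, IsVert a h (Module.finrank ℝ V) B → VertFacts a h B :=
    fun B hB => hVERT V M a h hS B hB
  have hy : ∀ p : {p : Finset M × M // IsVert a h (Module.finrank ℝ V) p.1 ∧ p.2 ∈ p.1},
      ∃ y : V, y ≠ 0 ∧ ∀ z : Module.Dual ℝ V, co a z p.1.1 p.1.2 = z y :=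
    fun p => exists_y (hV _ p.2.1) _ p.2.2
  choose y hy0 hyz using hy
  obtain ⟨z, hz⟩ := Module.exists_dual_forall_apply_ne_zero (K := ℝ)
    (Sum.elim y (fun p : {p : Finset M × Finset M // IsVert a h (Module.finrank ℝ V) p.1 ∧
      IsVert a h (Module.finrank ℝ V) p.2 ∧ p.1 ≠ p.2} => pt a h p.1.1 - pt a h p.1.2)) (by
      rintro (p | p)
      · exact hy0 p
      · change pt a h p.1.1 - pt a h p.1.2 ≠ 0
        intro e
        rw [sub_eq_zero] at e
        exact p.2.2.2 (Finset.Subset.antisymm (sub_of_eq (hV _ p.2.1) (hV _ p.2.2.1) e)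
          (sub_of_eq (hV _ p.2.2.1) (hV _ p.2.1) e.symm)))
  refine ⟨z, ⟨?_, ?_⟩⟩
  · intro B hB j hj
    have h1 := hz (Sum.inl ⟨(B, j), hB, hj⟩)
    rw [Sum.elim_inl] at h1
    rw [hyz ⟨(B, j), hB, hj⟩ z]
    exact h1
  · intro B B' hB hB' e
    by_contra hn
    have h1 := hz (Sum.inr ⟨(B, B'), hB, hB', hn⟩)
    rw [Sum.elim_inr, map_sub, sub_ne_zero] at h1
    exact h1 e

end Pool.Agent.KF.S
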