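import Pool.Agent.KF.S.Basic

/-!
# Simplicial Hodge-Riemann relations: module GNEG (the reversed functional is generic)
-/

namespace Pool.Agent.KF.S

namespace GNEG_

variable {V M : Type} [AddCommGroup V] [Module ℝ V]

/-- Coordinates of the opposite functional at a vertex. -/
lemma co_neg {a : M → Module.Dual ℝ V} {h : M → ℝ} {B : Finset M} (H : VertFacts a h B)
    (z : Module.Dual ℝ V) (j : M) : co a (-z) B j = - co a z B j := by
  have h1 : (fun j => - co a z B j) = co a (-z) B := by
    refine H.co_uniq (-z) (fun j => - co a z B j) ?_ ?_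
    · intro j hj
      show - co a z B j = 0
      rw [H.co_supp z j hj, neg_zero]
    · have hz := H.co_sum z
      refine LinearMap.ext fun v => ?_
      have hv := congrArg (fun f : Module.Dual ℝ V => f v) hz
      simp only [LinearMap.sum_apply, LinearMap.smul_apply, smul_eq_mul] at hv
      rw [LinearMap.neg_apply, ← hv]
      simp only [LinearMap.sum_apply, LinearMap.smul_apply, smul_eq_mul, neg_mul,
        Finset.sum_neg_distrib]
  exact (congrFun h1 j).symm

end GNEG_

theorem t_GNEG (hVERT : Stmt_VERT) : Stmt_GNEG := by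
  intro V M _ _ _ _ a h N z hS hN hG
  have hV : ∀ B : Finset M, IsVert a h N B → VertFacts a h B := by
    intro B hB
    exact hVERT V M a h hS B (by rw [hN]; exact hB)
  refine ⟨⟨?_, ?_⟩, ?_⟩
  · intro B hB j hj
    rw [GNEG_.co_neg (hV B hB) z j]
    exact neg_ne_zero.mpr (hG.ne B hB j hj)
  · intro B B' hB hB' hz
    refine hG.inj B B' hB hB' ?_
    rw [LinearMap.neg_apply, LinearMap.neg_apply] at hz
    exact neg_injective hz
  · intro B hB j
    exact GNEG_.co_neg (hV B hB) z j

end Pool.Agent.KF.S
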