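import Pool.Agent.KF.S.Basic

/-!
# GRAM: Gram matrices of the forms `D (p * w ^ r * q)` (PAPER.md, GRAM)
-/

namespace Pool.Agent.KF.S

open MvPolynomial

namespace GRAM_

/-- A basis of a complement of `K`. -/
theorem exists_compl (U : Type) [AddCommGroup U] [Module ℝ U] [FiniteDimensional ℝ U]
    (K : Submodule ℝ U) : ∃ (n : ℕ) (e : Fin n → U),
      (∀ p : U, ∃ (c : Fin n → ℝ), ∃ k ∈ K, p = ∑ b, c b • e b + k) ∧
      ∀ c : Fin n → ℝ, ∑ b, c b • e b ∈ K → c = 0 := by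
  obtain ⟨W, hW⟩ := Submodule.exists_isCompl K
  let bs := Module.finBasis ℝ W
  have hsum : ∀ c : Fin (Module.finrank ℝ W) → ℝ, ∑ b, c b • (bs b : U) =
      ((∑ b, c b • bs b : W) : U) := by
    intro c
    rw [AddSubmonoidClass.coe_finsetSum]
    rfl
  refine ⟨Module.finrank ℝ W, fun b => (bs b : U), fun p => ?_, fun c hc => ?_⟩
  · have h1 : p ∈ K ⊔ W := by
      rw [hW.sup_eq_top]
      trivial
    obtain ⟨k, hk, y, hy, hky⟩ := Submodule.mem_sup.1 h1
    refine ⟨bs.repr ⟨y, hy⟩, k, hk, ?_⟩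
    rw [hsum, bs.sum_repr, ← hky, add_comm]
  · rw [hsum] at hc
    have h5 := Submodule.disjoint_def.1 hW.disjoint _ hc (∑ b, c b • bs b : W).2
    have h6 : (∑ b, c b • bs b : W) = 0 := Subtype.ext h5
    exact funext fun b => Fintype.linearIndependent_iff.1 bs.linearIndependent c h6 b

variable {J : Type}

/-- The annihilator in degree `i`. -/
noncomputable def Ann (D : MvPolynomial J ℝ →ₗ[ℝ] ℝ) (i r : ℕ) :
    Submodule ℝ (homogeneousSubmodule J ℝ i) where
  carrier := {p | ∀ q : MvPolynomial J ℝ, q.IsHomogeneous (i + r) →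
    D ((p : MvPolynomial J ℝ) * q) = 0}
  add_mem' {a b} ha hb q hq := by
    rw [Submodule.coe_add, add_mul, map_add, ha q hq, hb q hq, add_zero]
  zero_mem' q _ := by
    rw [Submodule.coe_zero, zero_mul, map_zero]
  smul_mem' c a ha q hq := by
    rw [Submodule.coe_smul, smul_mul_assoc, map_smul, ha q hq, smul_zero]

theorem mem_Ann {D : MvPolynomial J ℝ →ₗ[ℝ] ℝ} {i r : ℕ} {p : homogeneousSubmodule J ℝ i} :
    p ∈ Ann D i r ↔ ∀ q : MvPolynomial J ℝ, q.IsHomogeneous (i + r) →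
      D ((p : MvPolynomial J ℝ) * q) = 0 := Iff.rfl

/-- A basis of a complement of the annihilator. -/
theorem exists_e (D : MvPolynomial J ℝ →ₗ[ℝ] ℝ) (i r : ℕ)
    [FiniteDimensional ℝ (homogeneousSubmodule J ℝ i)] :
    ∃ (n : ℕ) (e : Fin n → MvPolynomial J ℝ), (∀ b, (e b).IsHomogeneous i) ∧
      (∀ p : MvPolynomial J ℝ, p.IsHomogeneous i → ∃ (c : Fin n → ℝ) (k : MvPolynomial J ℝ),
        k.IsHomogeneous i ∧ (∀ q : MvPolynomial J ℝ, q.IsHomogeneous (i + r) → D (k * q) = 0) ∧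
        p = ∑ b, C (c b) * e b + k) ∧
      ∀ c : Fin n → ℝ, (∀ q : MvPolynomial J ℝ, q.IsHomogeneous (i + r) →
        D ((∑ b, C (c b) * e b) * q) = 0) → c = 0 := by
  obtain ⟨n, e, h1, h2⟩ := exists_compl (homogeneousSubmodule J ℝ i) (Ann D i r)
  have hsum : ∀ c : Fin n → ℝ, ∑ b, C (c b) * (e b : MvPolynomial J ℝ) =
      ((∑ b, c b • e b : homogeneousSubmodule J ℝ i) : MvPolynomial J ℝ) := by
    intro c
    rw [AddSubmonoidClass.coe_finsetSum]
    refine Finset.sum_congr rfl fun b _ => ?_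
    rw [← smul_eq_C_mul]
    rfl
  refine ⟨n, fun b => (e b : MvPolynomial J ℝ), fun b => (e b).2, fun p hp => ?_, fun c hc => ?_⟩
  · obtain ⟨c, k, hk, hpk⟩ := h1 ⟨p, hp⟩
    refine ⟨c, k, k.2, hk, ?_⟩
    rw [hsum]
    exact congrArg Subtype.val hpk
  · apply h2 c
    intro q hq
    rw [← hsum]
    exact hc q hq

/-- Elements of the annihilator are in the radical. -/
theorem rad {D : MvPolynomial J ℝ →ₗ[ℝ] ℝ} {i r : ℕ} {v k q : MvPolynomial J ℝ}
    (hv : v.IsHomogeneous 1) (hk : ∀ q : MvPolynomial J ℝ, q.IsHomogeneous (i + r) → D (k * q) = 0)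
    (hq : q.IsHomogeneous i) : D (k * v ^ r * q) = 0 := by
  have h1 : (v ^ r).IsHomogeneous r := by
    have := hv.pow r
    rwa [one_mul] at this
  have h2 := hk (v ^ r * q) (by
    have := h1.mul hq
    rwa [add_comm r i] at this)
  rwa [mul_assoc]

theorem hom_sum {i n : ℕ} {e : Fin n → MvPolynomial J ℝ} (he : ∀ b, (e b).IsHomogeneous i)
    (c : Fin n → ℝ) : (∑ b, C (c b) * e b).IsHomogeneous i := by
  refine IsHomogeneous.sum _ _ _ fun b _ => ?_
  have := (isHomogeneous_C J (c b)).mul (he b)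
  rwa [zero_add] at this

theorem D_sum_left (D : MvPolynomial J ℝ →ₗ[ℝ] ℝ) {n : ℕ} (e : Fin n → MvPolynomial J ℝ)
    (c : Fin n → ℝ) (u : MvPolynomial J ℝ) :
    D ((∑ b, C (c b) * e b) * u) = ∑ b, c b * D (e b * u) := by
  rw [Finset.sum_mul, map_sum]
  refine Finset.sum_congr rfl fun b _ => ?_
  rw [← smul_eq_C_mul, smul_mul_assoc, map_smul, smul_eq_mul]

theorem iff_det {D : MvPolynomial J ℝ →ₗ[ℝ] ℝ} {i r n : ℕ} {e : Fin n → MvPolynomial J ℝ}
    (he : ∀ b, (e b).IsHomogeneous i)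
    (hdec : ∀ p : MvPolynomial J ℝ, p.IsHomogeneous i →
      ∃ (c : Fin n → ℝ) (k : MvPolynomial J ℝ), k.IsHomogeneous i ∧
        (∀ q : MvPolynomial J ℝ, q.IsHomogeneous (i + r) → D (k * q) = 0) ∧
        p = ∑ b, C (c b) * e b + k)
    (hind : ∀ c : Fin n → ℝ, (∀ q : MvPolynomial J ℝ, q.IsHomogeneous (i + r) →
        D ((∑ b, C (c b) * e b) * q) = 0) → c = 0)
    {v : MvPolynomial J ℝ} (hv : v.IsHomogeneous 1) : HLi D i r v ↔
      (Matrix.of fun b b' : Fin n => D (e b * v ^ r * e b')).det ≠ 0 := by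
  have hvec : ∀ (c : Fin n → ℝ) (b' : Fin n),
      Matrix.vecMul c (Matrix.of fun b b' : Fin n => D (e b * v ^ r * e b')) b' =
        D ((∑ b, C (c b) * e b) * (v ^ r * e b')) := by
    intro c b'
    rw [D_sum_left, Matrix.vecMul, dotProduct]
    refine Finset.sum_congr rfl fun b _ => ?_
    rw [Matrix.of_apply, mul_assoc]
  constructor
  · intro hHL hdet
    obtain ⟨c, hc0, hc⟩ := Matrix.exists_vecMul_eq_zero_iff.2 hdet
    apply hc0
    apply hind
    refine hHL _ (hom_sum he c) fun q hq => ?_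
    obtain ⟨c', k, hk1, hk2, rfl⟩ := hdec q hq
    rw [mul_add, map_add]
    have h3 : D ((∑ b, C (c b) * e b) * v ^ r * k) = 0 := by
      have h := rad hv hk2 (hom_sum he c)
      rw [← h]
      congr 1
      ring
    rw [h3, add_zero]
    have h4 : (∑ b, C (c b) * e b) * v ^ r * ∑ b, C (c' b) * e b =
        (∑ b, C (c' b) * e b) * ((∑ b, C (c b) * e b) * v ^ r) := by ring
    rw [h4, D_sum_left]
    refine Finset.sum_eq_zero fun b' _ => ?_
    have h5 : D (e b' * ((∑ b, C (c b) * e b) * v ^ r)) = 0 := by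
      have h := hvec c b'
      rw [hc, Pi.zero_apply] at h
      rw [h]
      congr 1
      ring
    rw [h5, mul_zero]
  · intro hdet p hp h0 q hq
    obtain ⟨c, k, hk1, hk2, rfl⟩ := hdec p hp
    have h1 : Matrix.vecMul c
        (Matrix.of fun b b' : Fin n => D (e b * v ^ r * e b')) = 0 := by
      funext b'
      rw [hvec]
      have h2 := h0 (e b') (he b')
      rw [add_mul, add_mul, map_add, rad hv hk2 (he b'), add_zero, mul_assoc] at h2
      exact h2
    have hc : c = 0 := Matrix.eq_zero_of_vecMul_eq_zero hdet h1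
    rw [add_mul, map_add, D_sum_left, hk2 q hq, add_zero, hc]
    exact Finset.sum_eq_zero fun b _ => by rw [Pi.zero_apply, zero_mul]

end GRAM_

theorem t_GRAM (hFD : Stmt_FD) : Stmt_GRAM := by
  intro J _ D i r w x hw hx
  have := hFD J i
  obtain ⟨n, e, h1, h2, h3⟩ := GRAM_.exists_e D i r
  refine ⟨n, e, h1, h2, fun t => GRAM_.iff_det h1 h2 h3 ?_⟩
  refine hw.add ?_
  have := (isHomogeneous_C J t).mul hx
  rwa [zero_add] at this

end Pool.Agent.KF.S
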