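import Pool.Agent.KF.S.Basic

/-!
# HLT: hard Lefschetz from the Hodge-Riemann relations of the facets
-/

namespace Pool.Agent.KF.S

open MvPolynomial

namespace HLT_

/-- A functional which kills all multiples of the variables kills the forms of positive degree. -/
lemma kill {J : Type} {D : MvPolynomial J ℝ →ₗ[ℝ] ℝ} {m : ℕ}
    (H : ∀ (l : J) (q : MvPolynomial J ℝ), q.IsHomogeneous m → D (X l * q) = 0)
    (q : MvPolynomial J ℝ) (hq : q.IsHomogeneous (m + 1)) : D q = 0 := by
  classical
  refine ext_monomial (n := m + 1) (fun e he => ?_) q hq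
  have hne : e ≠ 0 := by
    rintro rfl
    simp at he
  obtain ⟨l, hl⟩ := Finsupp.ne_iff.1 hne
  have hl' : e l ≠ 0 := by simpa using hl
  have hle : Finsupp.single l 1 ≤ e := by
    rw [Finsupp.single_le_iff]
    omega
  obtain ⟨e', rfl⟩ := exists_add_of_le hle
  have hd : e'.degree = m := by
    rw [map_add, Finsupp.degree_single] at he
    omega
  have h1 : (monomial (Finsupp.single l 1 + e') (1 : ℝ) : MvPolynomial J ℝ) =
      X l * monomial e' 1 := by
    rw [X, monomial_mul, one_mul]
  rw [h1]
  exact H l _ (isHomogeneous_monomial 1 hd)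

end HLT_

open HLT_ in
/-- Hard Lefschetz from the Hodge-Riemann relations of the facets. -/
theorem t_HLT : Stmt_HLT := by
  intro J _ D n w c hw hc hrel hHR i r hir p hp h0 q hq
  rcases r with _ | r
  · have := h0 q (by simpa using hq)
    simpa using this
  · have hn : 2 * i + r = n := by omega
    have hprim : ∀ l, Prim (act (X l) D) i r w p := by
      intro l k y hk hy
      have h1 := h0 (X l * y) (by
        have := (isHomogeneous_X ℝ l).mul hy
        rwa [show 1 + k = i by omega] at this)
      rw [act_apply, show X l * (p * w ^ (r + 1) * y) = p * w ^ (r + 1) * (X l * y) by ring]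
      exact h1
    have hpos : ∀ l, 0 ≤ (-1 : ℝ) ^ i * D (X l * (p * w ^ r * p)) := fun l =>
      (hHR l i r hn p hp (hprim l)).1
    have hhom : (p * w ^ r * p).IsHomogeneous n := by
      have := (hp.mul (hw.pow r)).mul hp
      rwa [show i + 1 * r + i = n by omega] at this
    have hsum : ∑ l, c l * ((-1 : ℝ) ^ i * D (X l * (p * w ^ r * p))) = 0 := by
      have h1 := hrel _ hhom
      have h2 : D (om c * (p * w ^ r * p)) = ∑ l, c l * D (X l * (p * w ^ r * p)) := by
        rw [om, Finset.sum_mul, map_sum]
        refine Finset.sum_congr rfl fun l _ => ?_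
        rw [mul_assoc, ← smul_eq_C_mul, map_smul, smul_eq_mul]
      have h3 : D (w * (p * w ^ r * p)) = 0 := by
        rw [show w * (p * w ^ r * p) = p * w ^ (r + 1) * p by ring]
        exact h0 p hp
      rw [sub_mul, map_sub, h3, h2, zero_sub, neg_eq_zero] at h1
      have h4 : ∑ l, c l * ((-1 : ℝ) ^ i * D (X l * (p * w ^ r * p))) =
          (-1 : ℝ) ^ i * ∑ l, c l * D (X l * (p * w ^ r * p)) := by
        rw [Finset.mul_sum]
        exact Finset.sum_congr rfl fun l _ => by ring
      rw [h4, h1, mul_zero]
    have hz := (Finset.sum_eq_zero_iff_of_nonneg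
      (fun l _ => mul_nonneg (hc l).le (hpos l))).1 hsum
    have hzero : ∀ l, D (X l * (p * w ^ r * p)) = 0 := by
      intro l
      have h1 := hz l (Finset.mem_univ l)
      rcases mul_eq_zero.1 h1 with h2 | h2
      · exact absurd h2 (hc l).ne'
      · rcases mul_eq_zero.1 h2 with h3 | h3
        · exact absurd h3 (pow_ne_zero _ (by norm_num))
        · exact h3
    have hk : act p D q = 0 := by
      refine kill (m := i + r) (fun l y hy => ?_) q (by rwa [show i + r + 1 = i + (r + 1) by ring])
      have h1 := (hHR l i r hn p hp (hprim l)).2 (hzero l) y hy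
      rw [act_apply, show p * (X l * y) = X l * (p * y) by ring]
      exact h1
    exact hk

end Pool.Agent.KF.S
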