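import Pool.Agent.KF.S.Basic

/-!
# HRC: continuity of the Hodge-Riemann relation along a path
-/

namespace Pool.Agent.KF.S

open MvPolynomial

namespace HRC_

variable {J : Type}

/-- The form `E (p f q)` on the homogeneous polynomials of degree `n`. -/
noncomputable def bil (E : MvPolynomial J ℝ →ₗ[ℝ] ℝ) (n : ℕ) (f : MvPolynomial J ℝ) :
    homogeneousSubmodule J ℝ n →ₗ[ℝ] homogeneousSubmodule J ℝ n →ₗ[ℝ] ℝ :=
  LinearMap.mk₂ ℝ (fun p q => E ((p : MvPolynomial J ℝ) * f * q))
    (fun p p' q => by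
      rw [← map_add]
      congr 1
      push_cast
      ring)
    (fun c p q => by
      rw [Submodule.coe_smul, smul_mul_assoc, smul_mul_assoc, map_smul])
    (fun p q q' => by
      rw [← map_add]
      congr 1
      push_cast
      ring)
    (fun c p q => by
      rw [Submodule.coe_smul, mul_smul_comm, map_smul])

theorem bil_apply (E : MvPolynomial J ℝ →ₗ[ℝ] ℝ) (n : ℕ) (f : MvPolynomial J ℝ)
    (p q : homogeneousSubmodule J ℝ n) :
    bil E n f p q = E ((p : MvPolynomial J ℝ) * f * q) := rfl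

/-- The homogeneous polynomials of degree `n` which `E` annihilates in degree `m`. -/
def ann (E : MvPolynomial J ℝ →ₗ[ℝ] ℝ) (n m : ℕ) : Submodule ℝ (homogeneousSubmodule J ℝ n) where
  carrier := {p | ∀ q : MvPolynomial J ℝ, q.IsHomogeneous m → E ((p : MvPolynomial J ℝ) * q) = 0}
  add_mem' {p p'} hp hp' q hq := by
    rw [Submodule.coe_add, add_mul, map_add, hp q hq, hp' q hq, add_zero]
  zero_mem' q _ := by
    rw [Submodule.coe_zero, zero_mul, map_zero]
  smul_mem' c p hp q hq := by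
    rw [Submodule.coe_smul, smul_mul_assoc, map_smul, hp q hq, smul_zero]

theorem mem_ann {E : MvPolynomial J ℝ →ₗ[ℝ] ℝ} {n m : ℕ} {p : homogeneousSubmodule J ℝ n} :
    p ∈ ann E n m ↔ ∀ q : MvPolynomial J ℝ, q.IsHomogeneous m →
      E ((p : MvPolynomial J ℝ) * q) = 0 := Iff.rfl

/-- The multiplication by a form of degree one. -/
noncomputable def mulw {w : MvPolynomial J ℝ} (hw : w.IsHomogeneous 1) (k : ℕ) :
    homogeneousSubmodule J ℝ k →ₗ[ℝ] homogeneousSubmodule J ℝ (k + 1) where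
  toFun p := ⟨w * p, by
    have h := hw.mul ((mem_homogeneousSubmodule k _).1 p.2)
    rw [add_comm] at h
    exact h⟩
  map_add' p q := Subtype.ext (mul_add w p q)
  map_smul' c p := Subtype.ext (mul_smul_comm c w (p : MvPolynomial J ℝ))

theorem mulw_val {w : MvPolynomial J ℝ} (hw : w.IsHomogeneous 1) (k : ℕ)
    (p : homogeneousSubmodule J ℝ k) :
    (mulw hw k p : MvPolynomial J ℝ) = w * p := rfl

theorem hl_iff {E : MvPolynomial J ℝ →ₗ[ℝ] ℝ} {c : ℝ} (hc : c ≠ 0) {w : MvPolynomial J ℝ}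
    (hw : w.IsHomogeneous 1) {i r : ℕ} (h : HLi E i r w) (p : homogeneousSubmodule J ℝ i) :
    (∀ q, bil (c • E) i (w ^ r) p q = 0) ↔ p ∈ ann E i (i + r) := by
  have key : ∀ q, bil (c • E) i (w ^ r) p q = c * E ((p : MvPolynomial J ℝ) * w ^ r * q) :=
    fun q => rfl
  constructor
  · intro h1 q hq
    refine h _ ((mem_homogeneousSubmodule i _).1 p.2) (fun q' hq' => ?_) q hq
    have h2 := h1 ⟨q', (mem_homogeneousSubmodule i _).2 hq'⟩
    rw [key] at h2
    exact (mul_eq_zero.1 h2).resolve_left hc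
  · intro h1 q
    rw [key, mul_assoc (p : MvPolynomial J ℝ)]
    have h2 := (hw.pow r).mul ((mem_homogeneousSubmodule i _).1 q.2)
    rw [one_mul, add_comm] at h2
    rw [h1 _ h2, mul_zero]

end HRC_

open HRC_ in
/-- HRC. -/
theorem t_HRC (hAL : Stmt_AL) (hFD : Stmt_FD) : Stmt_HRC := by
  intro J _ T D w i r hT hw hcont hHL hHL' hAnn hAnn' t₀ ht₀ h₀
  have hfd := hFD J i
  have hc : ((-1 : ℝ) ^ i) ≠ 0 := pow_ne_zero _ (by norm_num)
  have hval : ∀ t (p q : homogeneousSubmodule J ℝ i), bil ((-1 : ℝ) ^ i • D t) i (w t ^ r) p q =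
      (-1 : ℝ) ^ i * D t ((p : MvPolynomial J ℝ) * w t ^ r * q) := fun t p q => rfl
  have hrad : ∀ t ∈ T, ∀ p : homogeneousSubmodule J ℝ i,
      (∀ q, bil ((-1 : ℝ) ^ i • D t) i (w t ^ r) p q = 0) ↔ p ∈ ann (D t₀) i (i + r) := by
    intro t ht p
    rw [hl_iff hc (hw t) (hHL t ht) p]
    exact ⟨fun h q hq => hAnn t ht t₀ ht₀ p ((mem_homogeneousSubmodule i _).1 p.2) h q hq,
      fun h q hq => hAnn t₀ ht₀ t ht p ((mem_homogeneousSubmodule i _).1 p.2) h q hq⟩
  rcases Nat.eq_zero_or_pos i with hi | hi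
  · -- degree zero
    have key := hAL (homogeneousSubmodule J ℝ i) (Fin 0 → ℝ) (ann (D t₀) i (i + r)) ⊤ T
      (fun t => bil ((-1 : ℝ) ^ i • D t) i (w t ^ r)) (fun _ => 0) (fun _ => 0) hT
      (fun p q => (hcont r le_rfl p q).const_mul _ |>.congr fun t _ => hval t p q)
      (fun p q => by simpa using continuousOn_const)
      (fun p q => by simpa using continuousOn_const)
      (fun t _ p q => by
        rw [hval, hval]
        congr 2
        ring)
      (fun t _ p q => by simp)
      hrad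
      (fun t _ p => by simp)
      (fun t _ p _ => by simp)
      t₀ ht₀
      (fun p _ => by
        have h1 := h₀ p ((mem_homogeneousSubmodule i _).1 p.2) (fun k q hk _ => by omega)
        refine ⟨by rw [hval]; exact h1.1, fun h2 q hq => ?_⟩
        rw [hval] at h2
        exact h1.2 ((mul_eq_zero.1 h2).resolve_left hc) q hq)
    intro t ht p hp _
    have h1 := key t ht ⟨p, (mem_homogeneousSubmodule i _).2 hp⟩ (fun q => by simp)
    rw [hval] at h1
    refine ⟨h1.1, fun h2 q hq => ?_⟩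
    have h3 := h1.2 (by rw [h2, mul_zero])
    exact hAnn t₀ ht₀ t ht p hp (fun q' hq' => h3 q' hq') q hq
  · obtain ⟨k, rfl⟩ : ∃ k, i = k + 1 := ⟨i - 1, by omega⟩
    have hfd' := hFD J k
    have hval' : ∀ t (p q : homogeneousSubmodule J ℝ k),
        bil ((-1 : ℝ) ^ (k + 1) • D t) k (w t ^ (r + 2)) p q =
        (-1 : ℝ) ^ (k + 1) * D t ((p : MvPolynomial J ℝ) * w t ^ (r + 2) * q) := fun t p q => rfl
    have hkr : k + (r + 2) = k + 1 + r + 1 := by ring
    have hrad' : ∀ t ∈ T, ∀ p : homogeneousSubmodule J ℝ k,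
        (∀ q, bil ((-1 : ℝ) ^ (k + 1) • D t) k (w t ^ (r + 2)) p q = 0) ↔
          p ∈ ann (D t₀) k (k + (r + 2)) := by
      intro t ht p
      rw [hl_iff hc (hw t) (hHL' t ht k rfl) p, hkr]
      exact ⟨fun h q hq => hAnn' k rfl t ht t₀ ht₀ p ((mem_homogeneousSubmodule k _).1 p.2) h q hq,
        fun h q hq => hAnn' k rfl t₀ ht₀ t ht p ((mem_homogeneousSubmodule k _).1 p.2) h q hq⟩
    have hvL : ∀ t (p : homogeneousSubmodule J ℝ (k + 1)) (q : homogeneousSubmodule J ℝ k),
        bil ((-1 : ℝ) ^ (k + 1) • D t) (k + 1) (w t ^ r) p (mulw (hw t) k q) =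
        (-1 : ℝ) ^ (k + 1) * D t ((p : MvPolynomial J ℝ) * w t ^ (r + 1) * q) := by
      intro t p q
      rw [hval, mulw_val]
      congr 2
      ring
    have key := hAL (homogeneousSubmodule J ℝ (k + 1)) (homogeneousSubmodule J ℝ k)
      (ann (D t₀) (k + 1) (k + 1 + r)) (ann (D t₀) k (k + (r + 2))) T
      (fun t => bil ((-1 : ℝ) ^ (k + 1) • D t) (k + 1) (w t ^ r))
      (fun t => bil ((-1 : ℝ) ^ (k + 1) • D t) k (w t ^ (r + 2)))
      (fun t => mulw (hw t) k) hT
      (fun p q => (hcont r le_rfl p q).const_mul _ |>.congr fun t _ => hval t p q)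
      (fun p q => (hcont (r + 1) (by omega) p q).const_mul _ |>.congr fun t _ => hvL t p q)
      (fun p q => (hcont (r + 2) (by omega) p q).const_mul _ |>.congr fun t _ => hval' t p q)
      (fun t _ p q => by
        rw [hval, hval]
        congr 2
        ring)
      (fun t _ p q => by
        rw [hval', hval, mulw_val, mulw_val]
        congr 2
        ring)
      hrad hrad'
      (fun t _ p hp q hq => by
        rw [mulw_val, mul_comm (w t), mul_assoc]
        have h1 := (hw t).mul hq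
        have h2 : 1 + (k + 1 + r) = k + (r + 2) := by ring
        rw [h2] at h1
        exact hp _ h1)
      t₀ ht₀
      (fun p hp => by
        have h1 := h₀ p ((mem_homogeneousSubmodule _ _).1 p.2) (fun k' q hk hq => by
          have hk' : k' = k := by omega
          subst hk'
          have h3 := hp ⟨q, (mem_homogeneousSubmodule _ _).2 hq⟩
          rw [hvL] at h3
          exact (mul_eq_zero.1 h3).resolve_left hc)
        refine ⟨by rw [hval]; exact h1.1, fun h2 q hq => ?_⟩
        rw [hval] at h2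
        exact h1.2 ((mul_eq_zero.1 h2).resolve_left hc) q hq)
    intro t ht p hp hprim
    have h1 := key t ht ⟨p, (mem_homogeneousSubmodule _ _).2 hp⟩ (fun q => by
      rw [hvL]
      rw [hprim k q rfl ((mem_homogeneousSubmodule _ _).1 q.2), mul_zero])
    rw [hval] at h1
    refine ⟨h1.1, fun h2 q hq => ?_⟩
    have h3 := h1.2 (by rw [h2, mul_zero])
    exact hAnn t₀ ht₀ t ht p hp (fun q' hq' => h3 q' hq') q hq

end Pool.Agent.KF.S
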