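import Pool.Agent.KF.S.Basic

set_option autoImplicit false

namespace Pool.Agent.KF.S

theorem t_IND : Stmt_IND := by
  intro V M _ _ _ _ a h hS s hs
  obtain ⟨x, hx, hxs⟩ := hs
  have h1 := hS.ind x hx
  have h2 : LinearIndependent ℝ (fun j : {j : M // j ∈ s} => a j.1) :=
    h1.comp (fun j : {j : M // j ∈ s} => (⟨j.1, hxs j.1 j.2⟩ : {j : M // a j x = h j})) (by
      intro i j hij
      apply Subtype.ext
      exact congrArg (fun k : {j : M // a j x = h j} => k.1) hij)
  refine ⟨h2, ?_, ?_⟩
  · have h3 := h2.fintype_card_le_finrank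
    rw [Fintype.card_coe, Subspace.dual_finrank_eq] at h3
    exact h3
  · intro c
    have h4 : ∃ g : Module.Dual ℝ (Module.Dual ℝ V), ∀ j : {j : M // j ∈ s}, g (a j.1) = c j.1 := by
      obtain ⟨g, hg⟩ := LinearMap.exists_extend
        ((Module.Basis.span h2).constr ℝ (fun j : {j : M // j ∈ s} => c j.1))
      refine ⟨g, fun j => ?_⟩
      have h5 : ((Module.Basis.span h2 j : Submodule.span ℝ
          (Set.range (fun j : {j : M // j ∈ s} => a j.1))) : Module.Dual ℝ V) = a j.1 :=
        congrArg Subtype.val (Module.Basis.span_apply h2 j)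
      rw [← h5]
      have h6 := LinearMap.congr_fun hg (Module.Basis.span h2 j)
      rw [Module.Basis.constr_basis] at h6
      exact h6
    obtain ⟨g, hg⟩ := h4
    refine ⟨(Module.evalEquiv ℝ V).symm g, fun j hj => ?_⟩
    rw [Module.apply_evalEquiv_symm_apply]
    exact hg ⟨j, hj⟩

end Pool.Agent.KF.S
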