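import Pool.Agent.KF.S.Basic

/-!
# A vertex that is the lowest one of a face
-/

namespace Pool.Agent.KF.S

theorem t_LOW (hVERT : Stmt_VERT) : Stmt_LOW := by
  classical
  intro V M _ _ _ _ a h hS z B s hB hsB hco B' hB' hsB'
  have F := hVERT V M a h hS B hB
  have F' := hVERT V M a h hS B' hB'
  by_contra hcon
  rw [not_or, not_lt] at hcon
  obtain ⟨hne, hle⟩ := hcon
  have hz : ∀ x : V, z x = ∑ j ∈ B, co a z B j * a j x := by
    intro x
    have h1 := congrArg (fun f : Module.Dual ℝ V => f x) (F.co_sum z)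
    simp only [LinearMap.sum_apply, LinearMap.smul_apply, smul_eq_mul] at h1
    exact h1.symm
  have hdiff : z (pt a h B') - z (pt a h B) =
      ∑ j ∈ B, co a z B j * (a j (pt a h B') - h j) := by
    rw [hz, hz, ← Finset.sum_sub_distrib]
    refine Finset.sum_congr rfl fun j hj => ?_
    rw [F.tight j hj]
    ring
  have hnn : ∀ j ∈ B, 0 ≤ co a z B j * (a j (pt a h B') - h j) := by
    intro j hj
    by_cases hjs : j ∈ s
    · rw [F'.tight j (hsB' hjs), sub_self, mul_zero]
    · exact mul_nonneg_of_nonpos_of_nonpos (hco j hj hjs).le (sub_nonpos.2 (F'.feas j))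
  have hsum : ∑ j ∈ B, co a z B j * (a j (pt a h B') - h j) = 0 :=
    le_antisymm (by rw [← hdiff]; exact sub_nonpos.2 hle) (Finset.sum_nonneg hnn)
  have hzero := (Finset.sum_eq_zero_iff_of_nonneg hnn).1 hsum
  have hsub : B ⊆ B' := by
    intro j hj
    by_cases hjs : j ∈ s
    · exact hsB' hjs
    · by_contra hj'
      have h1 := F'.slack j hj'
      have h2 := hzero j hj
      rcases mul_eq_zero.1 h2 with h3 | h3
      · exact (hco j hj hjs).ne h3
      · exact h1.ne (sub_eq_zero.1 h3)
  exact hne (Finset.eq_of_subset_of_card_le hsub (by rw [hB.2, hB'.2])).symm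

end Pool.Agent.KF.S
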