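import Pool.Agent.KF.S.Basic

/-!
# MINV: the minimum on a face is attained at a vertex
-/

namespace Pool.Agent.KF.S

namespace MINV_

section

variable {V M : Type} [AddCommGroup V] [Module ℝ V] [Fintype M]

/-- The tight inequalities. -/
noncomputable def tight (a : M → Module.Dual ℝ V) (h : M → ℝ) (x : V) : Finset M :=
  open Classical in
  Finset.univ.filter (fun j => a j x = h j)

lemma mem_tight {a : M → Module.Dual ℝ V} {h : M → ℝ} {x : V} {j : M} :
    j ∈ tight a h x ↔ a j x = h j := by
  classical
  simp [tight]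

/-- If the tight functionals do not separate the points, a further inequality can be made
tight. -/
lemma step {a : M → Module.Dual ℝ V} {h : M → ℝ} (hb : Bdd a) (z : Module.Dual ℝ V) {x y : V}
    (hx : Feas a h x) (hy : y ≠ 0) (h0 : ∀ j ∈ tight a h x, a j y = 0) (hz : z y ≤ 0) :
    ∃ x' : V, Feas a h x' ∧ tight a h x ⊂ tight a h x' ∧ z x' ≤ z x := by
  classical
  have h1 : ∃ j, 0 < a j y := by
    by_contra hn
    push Not at hn
    exact hy (hb y hn)
  obtain ⟨j0, hj0⟩ := h1
  obtain ⟨l, hl, hmin⟩ := Finset.exists_min_image (Finset.univ.filter (fun j => 0 < a j y))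
    (fun j => (h j - a j x) / a j y) ⟨j0, by simp [hj0]⟩
  rw [Finset.mem_filter] at hl
  have hly : 0 < a l y := hl.2
  have hlt : a l x < h l := by
    refine lt_of_le_of_ne (hx l) fun e => ?_
    have := h0 l (mem_tight.2 e)
    linarith
  have hs : 0 < (h l - a l x) / a l y := div_pos (by linarith) hly
  set s : ℝ := (h l - a l x) / a l y with hsdef
  have hval : ∀ j, a j (x + s • y) = a j x + s * a j y := fun j => by
    rw [map_add, map_smul, smul_eq_mul]
  refine ⟨x + s • y, fun j => ?_, ?_, ?_⟩
  · rw [hval]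
    rcases lt_or_ge 0 (a j y) with hj | hj
    · have h2 : s ≤ (h j - a j x) / a j y := hmin j (by simp [hj])
      rw [le_div_iff₀ hj] at h2
      linarith
    · have h2 := hx j
      nlinarith
  · refine Finset.ssubset_iff_subset_ne.2 ⟨fun j hj => ?_, fun e => ?_⟩
    · rw [mem_tight, hval, h0 j hj, mul_zero, add_zero]
      exact mem_tight.1 hj
    · have h3 : l ∈ tight a h (x + s • y) := by
        rw [mem_tight, hval, hsdef]
        field_simp
        ring
      rw [← e, mem_tight] at h3
      linarith
  · rw [map_add, map_smul, smul_eq_mul]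
    nlinarith

end

/-- The case in which the tight functionals separate the points. -/
lemma sep (hIND : Stmt_IND) (hVERT : Stmt_VERT) {V M : Type} [AddCommGroup V] [Module ℝ V]
    [FiniteDimensional ℝ V] [Fintype M] {a : M → Module.Dual ℝ V} {h : M → ℝ}
    (hS : Simple a h) {x : V} (hx : Feas a h x)
    (hsep : ∀ y : V, (∀ j ∈ tight a h x, a j y = 0) → y = 0) :
    IsVert a h (Module.finrank ℝ V) (tight a h x) ∧ pt a h (tight a h x) = x := by
  have hF : IsFace a h (tight a h x) := ⟨x, hx, fun j hj => mem_tight.1 hj⟩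
  obtain ⟨-, hle, -⟩ := hIND V M a h hS _ hF
  have hge : Module.finrank ℝ V ≤ (tight a h x).card := by
    let f : V →ₗ[ℝ] ({j // j ∈ tight a h x} → ℝ) := LinearMap.pi fun j => a j.1
    have hf : Function.Injective f := by
      rw [← LinearMap.ker_eq_bot, LinearMap.ker_eq_bot']
      intro y hy
      exact hsep y fun j hj => congrFun hy ⟨j, hj⟩
    have h1 := LinearMap.finrank_le_finrank_of_injective hf
    rw [Module.finrank_fintype_fun_eq_card, Fintype.card_coe] at h1
    exact h1
  have hV : IsVert a h (Module.finrank ℝ V) (tight a h x) := ⟨hF, le_antisymm hle hge⟩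
  refine ⟨hV, ?_⟩
  have hvf := hVERT V M a h hS _ hV
  rw [← sub_eq_zero]
  refine hvf.inj _ fun j hj => ?_
  rw [map_sub, hvf.tight j hj, mem_tight.1 hj, sub_self]

theorem main (hIND : Stmt_IND) (hVERT : Stmt_VERT) {V M : Type} [AddCommGroup V] [Module ℝ V]
    [FiniteDimensional ℝ V] [Fintype M] {a : M → Module.Dual ℝ V} {h : M → ℝ}
    (hS : Simple a h) (z : Module.Dual ℝ V) (n : ℕ) : ∀ x : V, Feas a h x →
    Fintype.card M < (tight a h x).card + n → ∃ B : Finset M,
      IsVert a h (Module.finrank ℝ V) B ∧ (∀ j, a j x = h j → j ∈ B) ∧ z (pt a h B) ≤ z x := by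
  induction n with
  | zero =>
    intro x hx hn
    have h1 := Finset.card_le_univ (tight a h x)
    omega
  | succ n ih =>
    intro x hx hn
    by_cases hsep : ∀ y : V, (∀ j ∈ tight a h x, a j y = 0) → y = 0
    · obtain ⟨hV, hp⟩ := sep hIND hVERT hS hx hsep
      refine ⟨tight a h x, hV, fun j hj => mem_tight.2 hj, ?_⟩
      rw [hp]
    · push Not at hsep
      obtain ⟨y, hy, hy0⟩ := hsep
      have h2 : ∃ x' : V, Feas a h x' ∧ tight a h x ⊂ tight a h x' ∧ z x' ≤ z x := by
        rcases le_or_gt (z y) 0 with hz | hz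
        · exact step hS.bdd z hx hy0 hy hz
        · refine step hS.bdd z hx (y := -y) (neg_ne_zero.2 hy0) (fun j hj => ?_) ?_
          · rw [map_neg, hy j hj, neg_zero]
          · rw [map_neg]
            linarith
      obtain ⟨x', hx', hss, hz'⟩ := h2
      have h3 := Finset.card_lt_card hss
      obtain ⟨B, hB, hB1, hB2⟩ := ih x' hx' (by omega)
      exact ⟨B, hB, fun j hj => hB1 j (mem_tight.1 (hss.1 (mem_tight.2 hj))), hB2.trans hz'⟩

end MINV_

/-- MINV: the minimum on a face is attained at a vertex. -/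
theorem t_MINV (hIND : Stmt_IND) (hVERT : Stmt_VERT) : Stmt_MINV := by
  intro V M _ _ _ _ a h hS z x hx
  exact MINV_.main hIND hVERT hS z (Fintype.card M + 1) x hx (by omega)

end Pool.Agent.KF.S
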