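import Pool.Agent.KF.S.Basic

/-!
# OPEN: openness of hard Lefschetz
-/

namespace Pool.Agent.KF.S

open MvPolynomial

/-- OPEN: openness of hard Lefschetz. -/
theorem t_OPEN (hGRAM : Stmt_GRAM) : Stmt_OPEN := by
  intro J _ D i r w x hw hx h0
  obtain ⟨n, e, -, -, h⟩ := hGRAM J D i r w x hw hx
  have hc : Continuous fun t : ℝ =>
      (Matrix.of fun b b' : Fin n => D (e b * (w + C t * x) ^ r * e b')).det := by
    refine Continuous.matrix_det ?_
    refine continuous_pi fun b => continuous_pi fun b' => ?_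
    exact cont_pow D w x r (e b) (e b')
  have h1 : (Matrix.of fun b b' : Fin n => D (e b * (w + C (0 : ℝ) * x) ^ r * e b')).det ≠ 0 := by
    refine (h 0).1 ?_
    rw [C_0, zero_mul, add_zero]
    exact h0
  obtain ⟨ε, hε, hb⟩ := Metric.eventually_nhds_iff.1 (hc.continuousAt.eventually_ne h1)
  refine ⟨ε, hε, fun t ht => (h t).2 (hb ?_)⟩
  rwa [Real.dist_eq, sub_zero]

end Pool.Agent.KF.S
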