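import Pool.Agent.KF.S.START

/-!
# SHR module PD1: spanning by the monomials of the upper parts of the vertices
-/

namespace Pool.Agent.KF.S

open MvPolynomial

namespace PD1_

section

variable {V M : Type} [AddCommGroup V] [Module ℝ V] {a : M → Module.Dual ℝ V}
  {h : M → ℝ} {B : Finset M} {z : Module.Dual ℝ V}

/-- The span in question. -/
noncomputable def T [Fintype M] (a : M → Module.Dual ℝ V) (h : M → ℝ) (N : ℕ)
    (z : Module.Dual ℝ V) (k : ℕ) : Submodule ℝ (MvPolynomial M ℝ) :=
  Submodule.span ℝ {f | ∃ B : Finset M, IsVert a h N B ∧ (Rset a z B).card = k ∧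
    f = mon (Rset a z B)} ⊔ Rel a h k

lemma mem_Rset {j : M} : j ∈ Rset a z B ↔ j ∈ B ∧ 0 < co a z B j := by
  unfold Rset
  exact Finset.mem_filter

lemma co_neg_of_low [Fintype M] [FiniteDimensional ℝ V] (hMINV : Stmt_MINV) (hS : Simple a h)
    (hB : IsVert a h (Module.finrank ℝ V) B) (F : VertFacts a h B)
    (hg : Gen a h (Module.finrank ℝ V) z) {s : Finset M} (hsB : s ⊆ B)
    (hlow : ∀ B', IsVert a h (Module.finrank ℝ V) B' → s ⊆ B' →
      z (pt a h B) ≤ z (pt a h B')) :
    ∀ l ∈ B, l ∉ s → co a z B l < 0 := by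
  classical
  intro l hl hls
  by_contra hcon
  have hne : co a z B l ≠ 0 := hg.ne B hB l hl
  have hlt : 0 < co a z B l := lt_of_le_of_ne (not_lt.1 hcon) hne.symm
  obtain ⟨y, hy⟩ := F.surj (fun i => if i = l then -1 else 0)
  have hzy : z y = - co a z B l := by
    rw [← START_.sum_at F z y, Finset.sum_eq_single l]
    · rw [hy l hl, if_pos rfl]
      ring
    · intro i hi hij
      rw [hy i hi, if_neg hij, mul_zero]
    · intro h
      exact (h hl).elim
  obtain ⟨ε, hε, hf⟩ := START_.exists_eps F y (fun i hi => by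
    rw [hy i hi]
    split_ifs <;> norm_num)
  obtain ⟨B', hB', ht, hle⟩ := hMINV V M a h hS z _ hf
  have hsB' : s ⊆ B' := by
    intro i hi
    refine ht i ?_
    have hil : i ≠ l := fun h => hls (h ▸ hi)
    rw [map_add, map_smul, smul_eq_mul, hy i (hsB hi), if_neg hil, mul_zero, add_zero,
      F.tight i (hsB hi)]
  rw [map_add, map_smul, smul_eq_mul, hzy] at hle
  have h1 := hlow B' hB' hsB'
  nlinarith

/-- The vertices higher than `B`. -/
noncomputable def up [Fintype M] (a : M → Module.Dual ℝ V) (h : M → ℝ) (N : ℕ)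
    (z : Module.Dual ℝ V) (B : Finset M) : Finset (Finset M) :=
  open Classical in
  (verts a h N).filter (fun B' => z (pt a h B) < z (pt a h B'))

lemma mem_up [Fintype M] {N : ℕ} {B' : Finset M} :
    B' ∈ up a h N z B ↔ IsVert a h N B' ∧ z (pt a h B) < z (pt a h B') := by
  classical
  unfold up verts
  rw [Finset.mem_filter, Finset.mem_filter]
  simp

lemma exists_low [Fintype M] [FiniteDimensional ℝ V] (hMINV : Stmt_MINV) (hS : Simple a h)
    {s : Finset M} (hs : IsFace a h s) (z : Module.Dual ℝ V) :
    ∃ B, IsVert a h (Module.finrank ℝ V) B ∧ s ⊆ B ∧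
      ∀ B', IsVert a h (Module.finrank ℝ V) B' → s ⊆ B' → z (pt a h B) ≤ z (pt a h B') := by
  classical
  obtain ⟨x, hx, hxs⟩ := hs
  obtain ⟨B0, hB0, ht, -⟩ := hMINV V M a h hS z x hx
  obtain ⟨B, hB, hmin⟩ := Finset.exists_min_image
    ((Finset.univ : Finset (Finset M)).filter
      (fun B => IsVert a h (Module.finrank ℝ V) B ∧ s ⊆ B)) (fun B => z (pt a h B))
    ⟨B0, Finset.mem_filter.2 ⟨Finset.mem_univ _, hB0, fun j hj => ht j (hxs j hj)⟩⟩
  rw [Finset.mem_filter] at hB
  exact ⟨B, hB.2.1, hB.2.2, fun B' h1 h2 =>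
    hmin B' (Finset.mem_filter.2 ⟨Finset.mem_univ _, h1, h2⟩)⟩

lemma mono_mem [Fintype M] [FiniteDimensional ℝ V] (hVERT : Stmt_VERT) (hMINV : Stmt_MINV)
    (hLOW : Stmt_LOW) (hS : Simple a h) (hg : Gen a h (Module.finrank ℝ V) z) (k : ℕ) :
    ∀ (n : ℕ) (m : M →₀ ℕ) (B : Finset M), m.degree = k →
      IsVert a h (Module.finrank ℝ V) B → m.support ⊆ B →
      (∀ B', IsVert a h (Module.finrank ℝ V) B' → m.support ⊆ B' →
        z (pt a h B) ≤ z (pt a h B')) →
      (up a h (Module.finrank ℝ V) z B).card = n →
      (monomial m (1 : ℝ) : MvPolynomial M ℝ) ∈ T a h (Module.finrank ℝ V) z k := by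
  classical
  intro n
  induction n using Nat.strong_induction_on with
  | _ n ih =>
  intro m B hm hB hsB hlow hn
  have F := hVERT V M a h hS B hB
  have hneg := co_neg_of_low hMINV hS hB F hg hsB hlow
  have hRs : Rset a z B ⊆ m.support := by
    intro j hj
    rw [mem_Rset] at hj
    by_contra hcon
    exact lt_asymm hj.2 (hneg j hj.1 hcon)
  by_cases hall : ∀ j ∈ m.support, j ∈ Rset a z B ∧ m j < 2
  · -- the monomial of the upper part
    have hm1 : ∀ j ∈ m.support, m j = 1 := by
      intro j hj
      have h1 := (hall j hj).2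
      have h2 := Finsupp.mem_support_iff.1 hj
      omega
    have hsupp : m.support = Rset a z B := Finset.Subset.antisymm (fun j hj => (hall j hj).1) hRs
    have hmeq : m = ∑ j ∈ Rset a z B, Finsupp.single j 1 := by
      conv_lhs => rw [← Finsupp.sum_single m]
      rw [Finsupp.sum, hsupp]
      refine Finset.sum_congr rfl fun j hj => ?_
      rw [hm1 j (hsupp ▸ hj)]
    have hcard : (Rset a z B).card = k := by
      rw [← hm, hmeq, map_sum]
      simp
    refine Submodule.mem_sup_left (Submodule.subset_span ⟨B, hB, hcard, ?_⟩)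
    rw [mon_eq_monomial, ← hmeq]
  · -- replace a variable
    have hex : ∃ j ∈ m.support, j ∈ Rset a z B → 2 ≤ m j := by
      by_contra hcon
      apply hall
      intro j hj
      constructor
      · by_contra h1
        exact hcon ⟨j, hj, fun h2 => (h1 h2).elim⟩
      · by_contra h1
        exact hcon ⟨j, hj, fun _ => not_lt.1 h1⟩
    obtain ⟨j, hj, hj2⟩ := hex
    have hjB : j ∈ B := hsB hj
    have hmj : 1 ≤ m j := Nat.one_le_iff_ne_zero.2 (Finsupp.mem_support_iff.1 hj)
    set m' : M →₀ ℕ := m - Finsupp.single j 1 with hm'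
    have hmm : m' + Finsupp.single j 1 = m := by
      rw [hm', tsub_add_cancel_of_le]
      rwa [Finsupp.single_le_iff]
    have hdeg : m'.degree + 1 = k := by
      rw [← hm, ← hmm, map_add, Finsupp.degree_single]
    have hs' : m'.support ⊆ m.support := by
      intro i hi
      rw [Finsupp.mem_support_iff] at hi ⊢
      intro h0
      apply hi
      rw [hm', Finsupp.tsub_apply, h0, Nat.zero_sub]
    have hneg' : ∀ l ∈ B, l ∉ m'.support → co a z B l < 0 := by
      intro l hl hl'
      by_cases hlm : l ∈ m.support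
      · have h1 : m' l = 0 := by
          by_contra h0
          exact hl' (Finsupp.mem_support_iff.2 h0)
        have h2 := Finsupp.mem_support_iff.1 hlm
        have hlj : l = j := by
          by_contra hne
          apply h2
          rw [← hmm, Finsupp.add_apply, h1, Finsupp.single_eq_of_ne hne, add_zero]
        subst hlj
        have h3 : m l = 1 := by
          rw [← hmm, Finsupp.add_apply, h1, Finsupp.single_eq_same]
        have h4 : l ∉ Rset a z B := by
          intro h5
          have := hj2 h5
          omega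
        rw [mem_Rset] at h4
        have h5 : ¬ 0 < co a z B l := fun h6 => h4 ⟨hl, h6⟩
        exact lt_of_le_of_ne (not_lt.1 h5) (hg.ne B hB l hl)
      · exact hneg l hl hlm
    obtain ⟨y, hy⟩ := F.surj (fun i => if i = j then 1 else 0)
    -- the linear form
    have hlin : (lin a y : MvPolynomial M ℝ) = X j + ∑ i ∈ Finset.univ.filter (fun i => i ∉ B),
        C (a i y) * X i := by
      unfold lin
      rw [← Finset.sum_filter_add_sum_filter_not Finset.univ (fun i => i ∈ B)]
      congr 1
      rw [Finset.sum_eq_single j]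
      · rw [hy j hjB, if_pos rfl, C_1, one_mul]
      · intro i hi hij
        rw [Finset.mem_filter] at hi
        rw [hy i hi.2, if_neg hij, C_0, zero_mul]
      · intro h0
        exact (h0 (Finset.mem_filter.2 ⟨Finset.mem_univ _, hjB⟩)).elim
    have hexp : (monomial m (1 : ℝ) : MvPolynomial M ℝ) = lin a y * monomial m' 1 -
        ∑ i ∈ Finset.univ.filter (fun i => i ∉ B),
          (a i y) • (monomial (m' + Finsupp.single i 1) (1 : ℝ) : MvPolynomial M ℝ) := by
      rw [hlin, add_mul, Finset.sum_mul]
      have e1 : (X j : MvPolynomial M ℝ) * monomial m' 1 = monomial m 1 := by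
        rw [X, monomial_mul, one_mul, add_comm, hmm]
      have e2 : ∑ i ∈ Finset.univ.filter (fun i => i ∉ B),
          C (a i y) * X i * (monomial m' (1 : ℝ) : MvPolynomial M ℝ) =
          ∑ i ∈ Finset.univ.filter (fun i => i ∉ B),
          (a i y) • (monomial (m' + Finsupp.single i 1) (1 : ℝ) : MvPolynomial M ℝ) := by
        refine Finset.sum_congr rfl fun i _ => ?_
        rw [mul_assoc, X, monomial_mul, one_mul, add_comm (Finsupp.single i 1) m',
          ← smul_eq_C_mul]
      rw [e1, e2, add_sub_cancel_right]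
    rw [hexp]
    refine Submodule.sub_mem _ ?_ (Submodule.sum_mem _ fun i hi => ?_)
    · refine Submodule.mem_sup_right (Submodule.subset_span (Or.inr
        ⟨y, m'.degree, monomial m' 1, hdeg, ?_, rfl⟩))
      exact isHomogeneous_monomial _ rfl
    · rw [Finset.mem_filter] at hi
      refine Submodule.smul_mem _ _ ?_
      have hdi : (m' + Finsupp.single i 1).degree = k := by
        rw [map_add, Finsupp.degree_single, hdeg]
      by_cases hf : IsFace a h (m' + Finsupp.single i 1).support
      · obtain ⟨B', hB', hsB', hlow'⟩ := exists_low hMINV hS hf z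
        have hiB' : i ∈ B' := by
          apply hsB'
          rw [Finsupp.mem_support_iff, Finsupp.add_apply, Finsupp.single_eq_same]
          omega
        have hm'B' : m'.support ⊆ B' := by
          intro l hl
          apply hsB'
          rw [Finsupp.mem_support_iff] at hl ⊢
          rw [Finsupp.add_apply]
          omega
        have hlt : z (pt a h B) < z (pt a h B') := by
          rcases hLOW V M a h hS z B m'.support hB (hs'.trans hsB) hneg' B' hB' hm'B' with h1 | h1
          · exact (hi.2 (h1 ▸ hiB')).elim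
          · exact h1
        have hcard : (up a h (Module.finrank ℝ V) z B').card < n := by
          rw [← hn]
          apply Finset.card_lt_card
          rw [Finset.ssubset_iff_of_subset]
          · exact ⟨B', mem_up.2 ⟨hB', hlt⟩, fun h1 => lt_irrefl _ (mem_up.1 h1).2⟩
          · intro B'' h1
            rw [mem_up] at h1 ⊢
            exact ⟨h1.1, hlt.trans h1.2⟩
        exact ih _ hcard _ B' hdi hB' hsB' hlow' rfl
      · exact Submodule.mem_sup_right (Submodule.subset_span (Or.inl ⟨_, hdi, hf, rfl⟩))

end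

end PD1_

open PD1_ in
theorem t_PD1 (hVERT : Stmt_VERT) (hMINV : Stmt_MINV) (hLOW : Stmt_LOW) : Stmt_PD1 := by
  intro V M _ _ _ _ a h N z hS hN hg k p hp
  subst hN
  show p ∈ T a h (Module.finrank ℝ V) z k
  rw [p.as_sum]
  refine Submodule.sum_mem _ fun m hm => ?_
  have hd : m.degree = k := by
    have h1 := hp (mem_support_iff.mp hm)
    rw [Finsupp.degree_eq_weight_one]
    exact h1
  have e : (monomial m (coeff m p) : MvPolynomial M ℝ) =
      (coeff m p) • (monomial m (1 : ℝ)) := by
    rw [smul_monomial, smul_eq_mul, mul_one]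
  rw [e]
  refine Submodule.smul_mem _ _ ?_
  by_cases hf : IsFace a h m.support
  · obtain ⟨B, hB, hsB, hlow⟩ := exists_low hMINV hS hf z
    exact mono_mem hVERT hMINV hLOW hS hg k _ m B hd hB hsB hlow rfl
  · exact Submodule.mem_sup_right (Submodule.subset_span (Or.inl ⟨_, hd, hf, rfl⟩))

end Pool.Agent.KF.S
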