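import Pool.Agent.KF.S.Basic

/-!
# Simplicial Hodge-Riemann relations: module PDS (Poincare duality)
-/

namespace Pool.Agent.KF.S

open MvPolynomial

namespace PDS_

variable {V M : Type} [AddCommGroup V] [Module ℝ V]

lemma mem_Rset {a : M → Module.Dual ℝ V} {z : Module.Dual ℝ V} {B : Finset M} {j : M} :
    j ∈ Rset a z B ↔ j ∈ B ∧ 0 < co a z B j := by
  simp [Rset]

lemma face_mono {a : M → Module.Dual ℝ V} {h : M → ℝ} {s t : Finset M} (hst : s ⊆ t)
    (H : IsFace a h t) : IsFace a h s := by
  obtain ⟨x, hx, hj⟩ := H
  exact ⟨x, hx, fun j hjs => hj j (hst hjs)⟩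

/-- The functional kills multiples of non-faces. -/
lemma kill [Fintype M] {a : M → Module.Dual ℝ V} {h : M → ℝ} {N : ℕ}
    {D : MvPolynomial M ℝ →ₗ[ℝ] ℝ} (hD : IsDeg a h N D) {n m : ℕ} (hnm : m + n = N)
    {p : MvPolynomial M ℝ} (hp : p.IsHomogeneous n) {e : M →₀ ℕ} (he : e.degree = m)
    (hf : ¬ IsFace a h e.support) : D (p * monomial e 1) = 0 := by
  have h1 : act (monomial e (1 : ℝ)) D p = 0 := by
    refine ext_monomial (D := act (monomial e (1 : ℝ)) D) (n := n) ?_ p hp
    intro m' hm'
    rw [act_apply, monomial_mul, one_mul]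
    refine hD.sr _ ?_ ?_
    · rw [map_add, he, hm', hnm]
    · intro H
      apply hf
      refine face_mono ?_ H
      intro j hj
      rw [Finsupp.mem_support_iff] at hj ⊢
      rw [Finsupp.add_apply]
      omega
  rw [act_apply] at h1
  rw [mul_comm]
  exact h1

lemma ind_apply [DecidableEq M] (s : Finset M) (i : M) :
    (∑ j ∈ s, Finsupp.single j (1 : ℕ)) i = if i ∈ s then 1 else 0 := by
  rw [Finsupp.finsetSum_apply]
  simp [Finsupp.single_apply]

lemma ind_degree (s : Finset M) : (∑ j ∈ s, Finsupp.single j (1 : ℕ)).degree = s.card := by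
  rw [map_sum]
  simp

end PDS_

open PDS_ in
theorem t_PDS (hMINV : Stmt_MINV) (hLOW : Stmt_LOW) (hGEN : Stmt_GEN)
    (hGNEG : Stmt_GNEG) (hPD1 : Stmt_PD1) : Stmt_PDS := by
  classical
  intro V M _ _ _ _ a h N D hS hN hD m L hLs hLl
  obtain ⟨z, hz⟩ := hGEN V M a h hS
  rw [hN] at hz
  obtain ⟨hz', hco⟩ := hGNEG V M a h N z hS hN hz
  -- `L` kills the relations
  have hLR : ∀ p ∈ Rel a h m, L p = 0 := by
    intro p hp
    unfold Rel at hp
    refine Submodule.span_induction (p := fun x _ => L x = 0) ?_ (map_zero L) ?_ ?_ hp
    · rintro x (⟨e, he, hf, rfl⟩ | ⟨y, n, q, hn, hq, rfl⟩)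
      · exact hLs e he hf
      · exact hLl y n q hn hq
    · intro x y _ _ hx hy
      rw [map_add, hx, hy, add_zero]
    · intro c x _ hx
      rw [map_smul, hx, smul_zero]
  constructor
  · intro hNm q hq
    have h1 := hPD1 V M a h N z hS hN hz m q hq
    have h2 : {f : MvPolynomial M ℝ | ∃ B : Finset M, IsVert a h N B ∧ (Rset a z B).card = m ∧
        f = mon (Rset a z B)} = ∅ := by
      ext f
      simp only [Set.mem_ofPred_eq, Set.mem_empty_iff_false, iff_false, not_exists]
      rintro B ⟨hB, hc, _⟩
      have h3 : (Rset a z B).card ≤ B.card :=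
        Finset.card_le_card fun j hj => (mem_Rset.mp hj).1
      rw [hB.2] at h3
      omega
    rw [h2, Submodule.span_empty, bot_sup_eq] at h1
    exact hLR q h1
  · intro n hmn
    -- the lower part
    have hC : ∀ B, IsVert a h N B → ∀ j, j ∈ Rset a (-z) B ↔ j ∈ B ∧ co a z B j < 0 := by
      intro B hB j
      rw [mem_Rset, hco B hB j]
      constructor
      · rintro ⟨h1, h2⟩
        exact ⟨h1, by linarith⟩
      · rintro ⟨h1, h2⟩
        exact ⟨h1, by linarith⟩
    have hdisj : ∀ B, IsVert a h N B → Disjoint (Rset a z B) (Rset a (-z) B) := by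
      intro B hB
      rw [Finset.disjoint_left]
      intro j h1 h2
      have h3 := (mem_Rset.mp h1).2
      have h4 := ((hC B hB j).mp h2).2
      linarith
    have hunion : ∀ B, IsVert a h N B → Rset a z B ∪ Rset a (-z) B = B := by
      intro B hB
      ext j
      rw [Finset.mem_union, mem_Rset, hC B hB j]
      constructor
      · rintro (h1 | h1)
        · exact h1.1
        · exact h1.1
      · intro hj
        rcases lt_or_gt_of_ne (hz.ne B hB j hj) with h1 | h1
        · exact Or.inr ⟨hj, h1⟩
        · exact Or.inl ⟨hj, h1⟩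
    have hcard : ∀ B, IsVert a h N B → (Rset a z B).card + (Rset a (-z) B).card = N := by
      intro B hB
      rw [← Finset.card_union_of_disjoint (hdisj B hB), hunion B hB, hB.2]
    have hlow : ∀ B B', IsVert a h N B → IsVert a h N B' → Rset a z B ⊆ B' →
        z (pt a h B) ≤ z (pt a h B') := by
      intro B B' hB hB' hsub
      have h1 := hLOW V M a h hS z B (Rset a z B) (by rw [hN]; exact hB)
        (fun j hj => (mem_Rset.mp hj).1)
        (fun l hl hl' => by
          rcases lt_or_gt_of_ne (hz.ne B hB l hl) with h2 | h2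
          · exact h2
          · exact absurd (mem_Rset.mpr ⟨hl, h2⟩) hl') B' (by rw [hN]; exact hB') hsub
      rcases h1 with h1 | h1
      · rw [h1]
      · exact h1.le
    have hhigh : ∀ B B', IsVert a h N B → IsVert a h N B' → Rset a (-z) B ⊆ B' →
        z (pt a h B') ≤ z (pt a h B) := by
      intro B B' hB hB' hsub
      have h1 := hLOW V M a h hS (-z) B (Rset a (-z) B) (by rw [hN]; exact hB)
        (fun j hj => (mem_Rset.mp hj).1)
        (fun l hl hl' => by
          rcases lt_or_gt_of_ne (hz'.ne B hB l hl) with h2 | h2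
          · exact h2
          · exact absurd (mem_Rset.mpr ⟨hl, h2⟩) hl') B' (by rw [hN]; exact hB') hsub
      rcases h1 with h1 | h1
      · rw [h1]
      · rw [LinearMap.neg_apply, LinearMap.neg_apply] at h1
        linarith
    -- triangularity
    have htri : ∀ B B', IsVert a h N B → IsVert a h N B' → (Rset a z B).card = n →
        (Rset a (-z) B').card = m → z (pt a h B') < z (pt a h B) →
        D (mon (Rset a z B) * mon (Rset a (-z) B')) = 0 := by
      intro B B' hB hB' hRn hCm hlt
      have hnf : ¬ IsFace a h (Rset a z B ∪ Rset a (-z) B') := by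
        rintro ⟨x, hx, hxj⟩
        obtain ⟨B'', hB'', hsub, -⟩ := hMINV V M a h hS z x hx
        rw [hN] at hB''
        have h1 := hlow B B'' hB hB'' fun j hj =>
          hsub j (hxj j (Finset.mem_union_left _ hj))
        have h2 := hhigh B' B'' hB' hB'' fun j hj =>
          hsub j (hxj j (Finset.mem_union_right _ hj))
        linarith
      rw [mon_eq_monomial, mon_eq_monomial, monomial_mul, one_mul]
      refine hD.sr _ ?_ ?_
      · rw [map_add, ind_degree, ind_degree, hRn, hCm]
        omega
      · intro H
        apply hnf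
        refine face_mono ?_ H
        intro j hj
        rw [Finsupp.mem_support_iff, Finsupp.add_apply, ind_apply, ind_apply]
        rcases Finset.mem_union.mp hj with h1 | h1
        · rw [if_pos h1]
          omega
        · rw [if_pos h1]
          omega
    have hdiag : ∀ B, IsVert a h N B →
        0 < D (mon (Rset a z B) * mon (Rset a (-z) B)) := by
      intro B hB
      have h1 : (mon (Rset a z B) * mon (Rset a (-z) B) : MvPolynomial M ℝ) = mon B := by
        unfold mon
        rw [← Finset.prod_union (hdisj B hB), hunion B hB]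
      rw [h1]
      exact hD.pos B hB
    -- solution of the triangular system
    have hsolve : ∀ S : Finset (Finset M), (∀ B ∈ S, IsVert a h N B ∧ (Rset a z B).card = n) →
        ∃ p : MvPolynomial M ℝ, p.IsHomogeneous n ∧
          ∀ B ∈ S, D (p * mon (Rset a (-z) B)) = L (mon (Rset a (-z) B)) := by
      intro S
      induction S using Finset.induction_on_max_value (fun B => z (pt a h B)) with
      | empty =>
        intro _
        exact ⟨0, isHomogeneous_zero _ _ _, fun B hB => absurd hB (Finset.notMem_empty B)⟩
      | insert B S hBS hmax ih =>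
        intro hall
        obtain ⟨p, hp, hpS⟩ := ih fun B' hB' => hall B' (Finset.mem_insert_of_mem hB')
        obtain ⟨hB, hBn⟩ := hall B (Finset.mem_insert_self B S)
        have hd := hdiag B hB
        refine ⟨p + C ((L (mon (Rset a (-z) B)) - D (p * mon (Rset a (-z) B))) /
          D (mon (Rset a z B) * mon (Rset a (-z) B))) * mon (Rset a z B), ?_, ?_⟩
        · refine hp.add ?_
          have h1 := (isHomogeneous_C M ((L (mon (Rset a (-z) B)) -
            D (p * mon (Rset a (-z) B))) /
            D (mon (Rset a z B) * mon (Rset a (-z) B)))).mul (mon_hom (Rset a z B))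
          rwa [zero_add, hBn] at h1
        · intro B' hB'
          have key : ∀ c : ℝ, D ((p + C c * mon (Rset a z B)) * mon (Rset a (-z) B')) =
              D (p * mon (Rset a (-z) B')) +
                c * D (mon (Rset a z B) * mon (Rset a (-z) B')) := by
            intro c
            rw [add_mul, map_add, mul_assoc, ← smul_eq_C_mul, map_smul, smul_eq_mul]
          rw [key]
          rcases Finset.mem_insert.mp hB' with rfl | hB'S
          · field_simp
            ring
          · obtain ⟨hB'v, hB'n⟩ := hall B' hB'
            have hne : B' ≠ B := fun h0 => hBS (h0 ▸ hB'S)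
            have hlt : z (pt a h B') < z (pt a h B) :=
              lt_of_le_of_ne (hmax B' hB'S) fun h0 => hne (hz.inj B' B hB'v hB h0)
            have hm : (Rset a (-z) B').card = m := by
              have := hcard B' hB'v
              omega
            rw [htri B B' hB hB'v hBn hm hlt, mul_zero, add_zero]
            exact hpS B' hB'S
    obtain ⟨p, hp, hpS⟩ := hsolve
      (Finset.univ.filter fun B => IsVert a h N B ∧ (Rset a z B).card = n)
      (fun B hB => (Finset.mem_filter.mp hB).2)
    refine ⟨p, hp, fun q hq => ?_⟩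
    have h1 := hPD1 V M a h N (-z) hS hN hz' m q hq
    have h2 : ∀ x ∈ Submodule.span ℝ {f : MvPolynomial M ℝ | ∃ B : Finset M, IsVert a h N B ∧
        (Rset a (-z) B).card = m ∧ f = mon (Rset a (-z) B)} ⊔ Rel a h m, L x = D (p * x) := by
      intro x hx
      obtain ⟨u, hu, v, hv, rfl⟩ := Submodule.mem_sup.mp hx
      have hu' : L u = D (p * u) := by
        refine Submodule.span_induction (p := fun x _ => L x = D (p * x)) ?_ ?_ ?_ ?_ hu
        · rintro x ⟨B, hB, hc, rfl⟩
          have hn : (Rset a z B).card = n := by
            have := hcard B hB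
            omega
          exact (hpS B (Finset.mem_filter.mpr ⟨Finset.mem_univ B, hB, hn⟩)).symm
        · rw [mul_zero, map_zero, map_zero]
        · intro x y _ _ hx hy
          rw [mul_add, map_add, map_add, hx, hy]
        · intro c x _ hx
          rw [mul_smul_comm, map_smul, map_smul, hx]
      have hv' : D (p * v) = 0 := by
        unfold Rel at hv
        refine Submodule.span_induction (p := fun x _ => D (p * x) = 0) ?_ ?_ ?_ ?_ hv
        · rintro x (⟨e, he, hf, rfl⟩ | ⟨y, k, q, hk, hq, rfl⟩)
          · exact kill hD hmn hp he hf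
          · rw [show p * (lin a y * q) = lin a y * (p * q) by ring]
            exact hD.lin y (n + k) (p * q) (by omega) (hp.mul hq)
        · rw [mul_zero, map_zero]
        · intro x y _ _ hx hy
          rw [mul_add, map_add, hx, hy, add_zero]
        · intro c x _ hx
          rw [mul_smul_comm, map_smul, hx, smul_zero]
      rw [map_add, mul_add, map_add, hu', hv', hLR v hv]
    exact h2 q h1

end Pool.Agent.KF.S
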