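import Pool.Agent.KF.S.Basic

/-!
# REP: representation of a functional
-/

namespace Pool.Agent.KF.S

open MvPolynomial Matrix

theorem t_REP (hGRAM : Stmt_GRAM) : Stmt_REP := by
  intro J _ D i r w hw hHL f hf
  obtain ⟨n, e, he, hsp, hdet⟩ := hGRAM J D i r w 0 hw (isHomogeneous_zero J ℝ 1)
  let G : Matrix (Fin n) (Fin n) ℝ :=
    Matrix.of fun b b' : Fin n => D (e b * w ^ r * e b')
  have h0 : G.det ≠ 0 := by
    have h := (hdet 0).1 (by
      rw [mul_zero, add_zero]
      exact hHL)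
    rw [mul_zero, add_zero] at h
    exact h
  let φ : Fin n → ℝ := fun b => f (e b)
  let c : Fin n → ℝ := φ ᵥ* G⁻¹
  have hcG : c ᵥ* G = φ := by
    change (φ ᵥ* G⁻¹) ᵥ* G = φ
    rw [Matrix.vecMul_vecMul, Matrix.nonsing_inv_mul G (isUnit_iff_ne_zero.2 h0),
      Matrix.vecMul_one]
  have hwt : (w ^ r).IsHomogeneous r := by
    have h4 := hw.pow r
    rwa [one_mul] at h4
  have hCh : ∀ (a : ℝ) (p : MvPolynomial J ℝ), p.IsHomogeneous i → (C a * p).IsHomogeneous i := by
    intro a p hp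
    have := (isHomogeneous_C J a).mul hp
    rwa [zero_add] at this
  have hzh : (∑ b, C (c b) * e b : MvPolynomial J ℝ).IsHomogeneous i :=
    IsHomogeneous.sum _ _ _ fun b _ => hCh _ _ (he b)
  have hCf : ∀ (a : ℝ) (p : MvPolynomial J ℝ), f (C a * p) = a * f p := fun a p => by
    rw [← smul_eq_C_mul, map_smul, smul_eq_mul]
  refine ⟨∑ b, C (c b) * e b, hzh, fun q hq => ?_⟩
  obtain ⟨c', k, hk, hkD, hqc⟩ := hsp q hq
  have hfk : f k = 0 := hf k hk hkD
  have hfq : f q = ∑ b', c' b' * φ b' := by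
    rw [hqc, map_add, hfk, add_zero, map_sum]
    exact Finset.sum_congr rfl fun b _ => hCf _ _
  have he' : ∀ b', D ((∑ b, C (c b) * e b) * w ^ r * e b') = φ b' := by
    intro b'
    have h3 : φ b' = (c ᵥ* G) b' := by rw [hcG]
    rw [h3]
    change _ = ∑ b, c b * G b b'
    rw [Finset.sum_mul, Finset.sum_mul, map_sum]
    refine Finset.sum_congr rfl fun b _ => ?_
    have h4 : C (c b) * e b * w ^ r * e b' = c b • (e b * w ^ r * e b') := by
      rw [smul_eq_C_mul]
      ring
    rw [h4, map_smul, smul_eq_mul]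
    rfl
  have h5 : (∑ b, C (c b) * e b) * w ^ r * q =
      ∑ b', c' b' • ((∑ b, C (c b) * e b) * w ^ r * e b') +
        k * ((∑ b, C (c b) * e b) * w ^ r) := by
    conv_lhs => rw [hqc]
    rw [mul_add, Finset.mul_sum]
    congr 1
    · refine Finset.sum_congr rfl fun b' _ => ?_
      rw [smul_eq_C_mul]
      ring
    · ring
  rw [h5, map_add, map_sum, hkD _ (hzh.mul hwt), add_zero, hfq]
  refine Finset.sum_congr rfl fun b' _ => ?_
  rw [map_smul, smul_eq_mul, he' b']

end Pool.Agent.KF.S
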