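import Pool.Agent.KF.S.Basic

/-!
# Simplicial Hodge-Riemann relations: a vertex of the sweep is a flip
-/

namespace Pool.Agent.KF.S

open MvPolynomial

namespace SFLIP_

lemma sign_prod {M : Type} [DecidableEq M] (B : Finset M) (f : M → ℝ) (hf : ∀ j ∈ B, f j ≠ 0) :
    0 < (∏ j ∈ B, f j) * (-1 : ℝ) ^ (B.filter (fun j => f j < 0)).card := by
  classical
  induction B using Finset.induction_on with
  | empty => simp
  | insert j B hj ih =>
    have h1 := ih (fun i hi => hf i (Finset.mem_insert_of_mem hi))
    have h2 := hf j (Finset.mem_insert_self j B)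
    rw [Finset.prod_insert hj, Finset.filter_insert]
    by_cases h : f j < 0
    · rw [if_pos h, Finset.card_insert_of_notMem (by simp [hj]), pow_succ]
      have e : f j * ∏ x ∈ B, f x = (∏ x ∈ B, f x) * f j := mul_comm _ _
      rw [e]
      have : (∏ x ∈ B, f x) * f j * ((-1 : ℝ) ^ (B.filter (fun j => f j < 0)).card * -1) =
        ((∏ x ∈ B, f x) * (-1 : ℝ) ^ (B.filter (fun j => f j < 0)).card) * (- f j) := by ring
      rw [this]
      exact mul_pos h1 (by linarith)
    · rw [if_neg h]
      have h3 : 0 < f j := lt_of_le_of_ne (not_lt.mp h) (Ne.symm h2)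
      rw [mul_assoc]
      exact mul_pos h3 h1

lemma om_option {M : Type} [Fintype M] (f : Option M → ℝ) :
    (om f : MvPolynomial (Option M) ℝ) =
      C (f none) * X none + ∑ j, C (f (some j)) * X (some j) := by
  unfold om
  rw [Fintype.sum_option]

lemma om_sub {M : Type} [Fintype M] (f g : M → ℝ) :
    (om f - om g : MvPolynomial M ℝ) = om (fun j => f j - g j) := by
  unfold om
  rw [← Finset.sum_sub_distrib]
  refine Finset.sum_congr rfl fun j _ => ?_
  rw [map_sub, sub_mul]

end SFLIP_

open SFLIP_ in
theorem t_SFLIP (hVERT : Stmt_VERT) (hLOW : Stmt_LOW) (hGNEG : Stmt_GNEG) (hSR0 : Stmt_SR0)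
    (hSR1 : Stmt_SR1) (hDLIN : Stmt_DLIN) (hCFAC : Stmt_CFAC) : Stmt_SFLIP := by
  classical
  intro n hn V M _ _ _ _ a h z D hS hd hG hD B c hB hlow hc
  have hVF : VertFacts a h B := hVERT V M a h hS B (by rw [hd]; exact hB)
  obtain ⟨hG', hco⟩ := hGNEG V M a h (n + 1) z hS hd hG
  obtain ⟨k, hk⟩ : ∃ k : M → ℝ, k = co a (-z) B := ⟨_, rfl⟩
  have hkz : ∀ j, k j = - co a z B j := by
    intro j; rw [hk]; exact hco B hB j
  have hkne : ∀ j ∈ B, k j ≠ 0 := by
    intro j hj; rw [hk]; exact hG'.ne B hB j hj
  have hk0 : ∀ j, j ∉ B → k j = 0 := by
    intro j hj; rw [hk]; exact hVF.co_supp (-z) j hj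
  have hkB : ∀ j, k j ≠ 0 → j ∈ B := by
    intro j hj
    by_contra h0
    exact hj (hk0 j h0)
  have hlam : ∀ j, lam a z B (some j) = k j := by
    intro j; rw [hk]; rfl
  have hlamn : lam a z B none = 1 := rfl
  -- the linear forms
  have hlinD : ∀ (y : V) (q : MvPolynomial (Option M) ℝ),
      Dc a h (n + 1) z D (z (pt a h B)) (lin (cutA a z) y * q) = 0 :=
    fun y q => hDLIN V M a h (n + 1) z D _ hS hd y q
  have hcardP : (B.filter (fun j => 0 < k j)).card + (B.filter (fun j => k j < 0)).card
      = n + 1 := by
    rw [← hB.2, ← Finset.card_filter_add_card_filter_not (s := B) (fun j => 0 < k j)]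
    congr 2
    refine Finset.filter_congr fun j hj => ?_
    constructor
    · intro h1; exact not_lt.mpr h1.le
    · intro h1
      exact lt_of_le_of_ne (not_lt.mp h1) (hkne j hj)
  refine ⟨Finset.insertNone (B.filter (fun j => 0 < k j)),
    (B.filter (fun j => k j < 0)).map Function.Embedding.some, ?_⟩
  constructor
  · -- eq
    intro p
    have hset : (verts a h (n + 1)).filter (fun B' => z (pt a h B') < c) =
        insert B ((verts a h (n + 1)).filter (fun B' => z (pt a h B') < z (pt a h B))) := by
      ext B'
      rw [Finset.mem_insert, Finset.mem_filter, Finset.mem_filter]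
      constructor
      · rintro ⟨h1, h2⟩
        have hv : IsVert a h (n + 1) B' := by
          unfold verts at h1
          exact (Finset.mem_filter.mp h1).2
        rw [hc B' hv] at h2
        rcases lt_or_eq_of_le h2 with h3 | h3
        · exact Or.inr ⟨h1, h3⟩
        · exact Or.inl (hG.inj B' B hv hB h3)
      · rintro (h1 | ⟨h1, h2⟩)
        · subst h1
          refine ⟨?_, (hc B' hB).2 le_rfl⟩
          unfold verts
          exact Finset.mem_filter.mpr ⟨Finset.mem_univ _, hB⟩
        · have hv : IsVert a h (n + 1) B' := by
            unfold verts at h1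
            exact (Finset.mem_filter.mp h1).2
          exact ⟨h1, (hc B' hv).2 h2.le⟩
    have hnot : B ∉ (verts a h (n + 1)).filter (fun B' => z (pt a h B') < z (pt a h B)) := by
      rw [Finset.mem_filter]
      rintro ⟨_, h2⟩
      exact lt_irrefl _ h2
    have e1 : Dc a h (n + 1) z D c =
        (D (mon B) / ∏ j ∈ B, co a (-z) B j) • (aeval (lam a z B)).toLinearMap
          + Dc a h (n + 1) z D (z (pt a h B)) := by
      unfold Dc
      rw [hset]
      exact Finset.sum_insert (f := fun B : Finset M =>
        (D (mon B) / ∏ j ∈ B, co a (-z) B j) •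
          (aeval (R := ℝ) (S₁ := ℝ) (lam a z B)).toLinearMap) hnot
    rw [e1, LinearMap.add_apply, LinearMap.smul_apply, smul_eq_mul, AlgHom.toLinearMap_apply,
      add_comm]
  · -- mp
    intro j
    cases j with
    | none => rw [hlamn]; simp
    | some j =>
      rw [hlam, Finset.some_mem_insertNone, Finset.mem_filter]
      exact ⟨fun h1 => h1.2, fun h1 => ⟨hkB j h1.ne', h1⟩⟩
  · -- mm
    intro j
    cases j with
    | none => rw [hlamn]; simp
    | some j =>
      rw [hlam]
      have : (some j ∈ (B.filter (fun j => k j < 0)).map Function.Embedding.some) ↔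
          j ∈ B.filter (fun j => k j < 0) := by simp
      rw [this, Finset.mem_filter]
      exact ⟨fun h1 => h1.2, fun h1 => ⟨hkB j h1.ne, h1⟩⟩
  · -- card
    rw [Finset.card_insertNone, Finset.card_map]
    omega
  · -- im_pos
    rw [Finset.card_map]
    by_contra hcon
    have h0 : B.filter (fun j => k j < 0) = ∅ := by
      rw [← Finset.card_eq_zero]; omega
    obtain ⟨B', hB', hlt⟩ := hlow
    have := hLOW V M a h hS z B ∅ (by rw [hd]; exact hB) (Finset.empty_subset _) (by
      intro l hl _
      have h1 : ¬ k l < 0 := by
        intro h2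
        have : l ∈ B.filter (fun j => k j < 0) := Finset.mem_filter.mpr ⟨hl, h2⟩
        rw [h0] at this
        simp at this
      have h2 := hkne l hl
      have h3 : 0 < k l := lt_of_le_of_ne (not_lt.mp h1) (Ne.symm h2)
      have h4 := hkz l
      linarith) B' (by rw [hd]; exact hB') (Finset.empty_subset _)
    rcases this with h1 | h1
    · rw [h1] at hlt; exact lt_irrefl _ hlt
    · exact lt_asymm hlt h1
  · -- go
    rfl
  · -- sgn
    rw [Finset.card_map]
    have h1 := sign_prod B k hkne
    rw [← hk]
    have h2 : 0 < D (mon B) := hD.pos B hB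
    have h3 : ∏ j ∈ B, k j ≠ 0 := Finset.prod_ne_zero_iff.mpr hkne
    have e : D (mon B) / (∏ j ∈ B, k j) * (-1 : ℝ) ^ (B.filter (fun j => k j < 0)).card =
        D (mon B) * ((∏ j ∈ B, k j) * (-1 : ℝ) ^ (B.filter (fun j => k j < 0)).card) /
          (∏ j ∈ B, k j) ^ 2 := by
      field_simp
    rw [e]
    exact div_pos (mul_pos h2 h1) (by positivity)
  · -- k0
    intro m q _ _
    refine hSR0 V M a h (n + 1) z D hS hd hG hD _ _ ?_ q
    intro B' hB' hsub
    have := hLOW V M a h hS z B (B.filter (fun j => k j < 0)) (by rw [hd]; exact hB)
      (Finset.filter_subset _ _) (by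
      intro l hl hl'
      have h1 : ¬ k l < 0 := fun h2 => hl' (Finset.mem_filter.mpr ⟨hl, h2⟩)
      have h3 : 0 < k l := lt_of_le_of_ne (not_lt.mp h1) (Ne.symm (hkne l hl))
      have h4 := hkz l
      linarith) B' (by rw [hd]; exact hB') hsub
    rcases this with h1 | h1
    · rw [h1]
    · exact h1.le
  · -- k1
    intro m q hm hq
    rw [Finset.card_insertNone] at hm
    refine hSR1 V M a h (n + 1) z D hS hd hG hD c (B.filter (fun j => 0 < k j)) ?_ m q
      (by omega) hq
    intro B' hB' hsub
    have := hLOW V M a h hS (-z) B (B.filter (fun j => 0 < k j)) (by rw [hd]; exact hB)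
      (Finset.filter_subset _ _) (by
      intro l hl hl'
      have h1 : ¬ 0 < k l := fun h2 => hl' (Finset.mem_filter.mpr ⟨hl, h2⟩)
      rw [← hk]
      exact lt_of_le_of_ne (not_lt.mp h1) (hkne l hl)) B' (by rw [hd]; exact hB') hsub
    rw [hc B' hB']
    rcases this with h1 | h1
    · rw [h1]
    · rw [LinearMap.neg_apply, LinearMap.neg_apply] at h1
      linarith
  · -- w1
    exact om_hom _
  · -- wg
    rw [om_option, map_add, map_mul, aeval_C, aeval_X, map_sum, hlamn]
    have e1 : ∀ j : M, aeval (lam a z B) (C (cutH h (z (pt a h B)) (some j)) * X (some j)) =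
        h j * k j := by
      intro j
      rw [map_mul, aeval_C, aeval_X, hlam]
      rfl
    have e2 : ∑ j : M, h j * k j = ∑ j ∈ B, h j * k j := by
      symm
      refine Finset.sum_subset (Finset.subset_univ B) fun j _ hj => ?_
      rw [hk0 j hj, mul_zero]
    have e3 : ∑ j ∈ B, h j * k j = - z (pt a h B) := by
      have h1 := hVF.co_sum (-z)
      rw [← hk] at h1
      have h2 := congrArg (fun f : Module.Dual ℝ V => f (pt a h B)) h1
      simp only [LinearMap.neg_apply] at h2
      rw [← h2]
      simp only [LinearMap.coe_sum, Finset.sum_apply, LinearMap.smul_apply, smul_eq_mul]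
      refine Finset.sum_congr rfl fun j hj => ?_
      rw [hVF.tight j hj, mul_comm]
    simp only [e1]
    rw [e2, e3]
    simp [cutH]
  · -- rel
    intro j
    cases j with
    | none =>
      refine ⟨fun _ => 0, fun _ _ => rfl, fun m q _ _ => ?_⟩
      have e : (X none - C (lam a z B none) * X none - om (fun _ => 0) :
          MvPolynomial (Option M) ℝ) = 0 := by
        rw [hlamn]; simp [om]
      rw [e, zero_mul, map_zero]
    | some j =>
      by_cases hj : j ∈ B
      · obtain ⟨y, hy⟩ := hVF.surj (fun l => if l = j then 1 else 0)
        have hzy : z y = - k j := by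
          have h1 := hVF.co_sum z
          have h2 := congrArg (fun f : Module.Dual ℝ V => f y) h1
          simp only [LinearMap.coe_sum, Finset.sum_apply, LinearMap.smul_apply,
            smul_eq_mul] at h2
          rw [← h2, Finset.sum_congr rfl (fun l hl => by rw [hy l hl])]
          simp [hj, hkz]
        refine ⟨fun l => Option.elim l 0 (fun l => if l ∈ B then 0 else - a l y), ?_, ?_⟩
        · intro l hl
          cases l with
          | none => rfl
          | some l =>
            rw [hlam] at hl
            exact if_pos (hkB l hl)
        · intro m q _ _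
          have e : (X (some j) - C (lam a z B (some j)) * X none -
              om (fun l => Option.elim l 0 (fun l => if l ∈ B then 0 else - a l y)) :
              MvPolynomial (Option M) ℝ) = lin (cutA a z) y := by
            rw [om_option, hlam]
            simp only [Option.elim]
            have e2 : (lin (cutA a z) y : MvPolynomial (Option M) ℝ) =
                om (fun l => cutA a z l y) := rfl
            rw [e2, om_option]
            have e3 : ∀ l : M, (C (cutA a z (some l) y) * X (some l) :
                MvPolynomial (Option M) ℝ) =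
                (if l = j then X (some l) else 0) -
                  C (if l ∈ B then 0 else - a l y) * X (some l) := by
              intro l
              change C (a l y) * X (some l) = _
              by_cases hl : l ∈ B
              · rw [hy l hl, if_pos hl]
                by_cases hlj : l = j
                · simp [hlj]
                · simp [hlj]
              · rw [if_neg hl]
                have hlj : l ≠ j := fun h1 => hl (h1 ▸ hj)
                rw [if_neg hlj]
                simp
            have e4 : (cutA a z none) y = - k j := hzy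
            simp only [e3, e4, Finset.sum_sub_distrib, Finset.sum_ite_eq', Finset.mem_univ,
              if_true, map_neg, map_zero]
            ring
          rw [e]
          exact hlinD y q
      · refine ⟨fun l => if l = some j then 1 else 0, ?_, ?_⟩
        · intro l hl
          refine if_neg ?_
          rintro rfl
          rw [hlam] at hl
          exact hl (hk0 j hj)
        · intro m q _ _
          have e : (X (some j) - C (lam a z B (some j)) * X none -
              om (fun l => if l = some j then 1 else 0) : MvPolynomial (Option M) ℝ) = 0 := by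
            rw [hlam, hk0 j hj]
            unfold om
            rw [Finset.sum_eq_single (some j)]
            · simp
            · intro l _ hl
              simp only [if_neg hl, map_zero, zero_mul]
            · intro hl
              exact absurd (Finset.mem_univ _) hl
          rw [e, zero_mul, map_zero]
  · -- wrel
    refine ⟨fun l => cutH h (z (pt a h B)) l - cutA a z l (pt a h B), ?_, ?_, ?_⟩
    · intro l hl
      cases l with
      | none => exact sub_self _
      | some l =>
        rw [hlam] at hl
        change h l - a l (pt a h B) = 0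
        rw [hVF.tight l (hkB l hl), sub_self]
    · intro l hl
      cases l with
      | none =>
        rw [hlamn] at hl
        exact absurd hl one_ne_zero
      | some l =>
        rw [hlam] at hl
        have hlB : l ∉ B := fun h1 => hkne l h1 hl
        change 0 < h l - a l (pt a h B)
        have := hVF.slack l hlB
        linarith
    · intro m q _ _
      rw [om_sub]
      have e : (om (fun j => cutH h (z (pt a h B)) j -
          (cutH h (z (pt a h B)) j - cutA a z j (pt a h B))) : MvPolynomial (Option M) ℝ) =
          lin (cutA a z) (pt a h B) := by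
        unfold om lin
        refine Finset.sum_congr rfl fun j _ => ?_
        simp only [sub_sub_cancel]
      rw [e]
      exact hlinD _ q
  · -- whr
    intro l m hm hl
    obtain rfl : m = n := by omega
    refine hCFAC m hn V M a h z D hS hd hG hD (z (pt a h B)) l ?_
    intro B' hB' hmem heq
    have hBB : B' = B := hG.inj B' B hB' hB heq
    cases l with
    | none =>
      rw [hlamn] at hl
      exact absurd hl one_ne_zero
    | some l =>
      rw [hlam] at hl
      have hlB : l ∉ B := fun h1 => hkne l h1 hl
      exact hlB (hBB ▸ hmem l rfl)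

end Pool.Agent.KF.S
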