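import Pool.Agent.KF.S.Basic

/-!
# SR0: the cut functional kills faces above the level
-/

namespace Pool.Agent.KF.S

open MvPolynomial

namespace SR0_

variable {V : Type} [AddCommGroup V] [Module ℝ V] {M : Type}

lemma co_supp (a : M → Module.Dual ℝ V) (z : Module.Dual ℝ V) (B : Finset M) (j : M)
    (hj : j ∉ B) : co a z B j = 0 := by
  unfold co
  split_ifs with H
  · exact H.choose_spec.1 j hj
  · rfl

lemma aeval_mon (g : Option M → ℝ) (s : Finset M) :
    aeval g (mon (s.map Function.Embedding.some) : MvPolynomial (Option M) ℝ) =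
      ∏ j ∈ s, g (some j) := by
  unfold mon
  rw [Finset.prod_map, map_prod]
  refine Finset.prod_congr rfl fun j _ => ?_
  rw [aeval_X]
  rfl

end SR0_

theorem t_SR0 : Stmt_SR0 := by
  classical
  intro V M _ _ _ _ a h N z D _ _ _ _ c s hs q
  unfold Dc
  rw [LinearMap.sum_apply]
  refine Finset.sum_eq_zero fun B hB => ?_
  rw [Finset.mem_filter] at hB
  have hB1 : IsVert a h N B := by
    have := hB.1
    unfold verts at this
    rw [Finset.mem_filter] at this
    exact this.2
  rw [LinearMap.smul_apply, AlgHom.toLinearMap_apply, map_mul, SR0_.aeval_mon]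
  have h0 : ∏ j ∈ s, lam a z B (some j) = 0 := by
    by_cases hsB : s ⊆ B
    · exact absurd (hs B hB1 hsB) (not_le.2 hB.2)
    · obtain ⟨j, hj, hjB⟩ := Finset.not_subset.1 hsB
      exact Finset.prod_eq_zero hj (SR0_.co_supp a (-z) B j hjB)
  rw [h0, zero_mul, smul_zero]

end Pool.Agent.KF.S
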