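import Pool.Agent.KF.S.Basic

/-!
# SR1: the cut functional kills faces below the level times the new variable
-/

namespace Pool.Agent.KF.S

open MvPolynomial

namespace SR1_

variable {M : Type}

/-- The substitution sending the new variable to `1`. -/
noncomputable def psi (M : Type) : MvPolynomial (Option M) ℝ →ₐ[ℝ] MvPolynomial M ℝ :=
  aeval (fun o : Option M => o.elim (1 : MvPolynomial M ℝ) X)

lemma psi_hom (m : Option M →₀ ℕ) :
    ∃ k : ℕ, k ≤ m.degree ∧ (psi M (monomial m 1)).IsHomogeneous k := by
  classical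
  refine ⟨∑ i ∈ m.support, (if i = none then 0 else m i), ?_, ?_⟩
  · rw [Finsupp.degree_apply]
    refine Finset.sum_le_sum fun i _ => ?_
    split
    · exact Nat.zero_le _
    · exact le_rfl
  · have e : psi M (monomial m 1) =
        ∏ i ∈ m.support, (i.elim (1 : MvPolynomial M ℝ) X) ^ (m i) := by
      rw [psi, aeval_monomial, map_one, one_mul]
      rfl
    rw [e]
    refine IsHomogeneous.prod _ _ _ fun i _ => ?_
    cases i with
    | none =>
      simpa using isHomogeneous_one M ℝ
    | some j =>
      have h := (isHomogeneous_X ℝ j : (X j : MvPolynomial M ℝ).IsHomogeneous 1).pow (m (some j))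
      simpa using h

variable {V : Type} [AddCommGroup V] [Module ℝ V]

lemma aeval_lam (a : M → Module.Dual ℝ V) (z : Module.Dual ℝ V) (B : Finset M)
    (q : MvPolynomial (Option M) ℝ) :
    aeval (lam a z B) q = aeval (co a (-z) B) (psi M q) := by
  have h : aeval (lam a z B) = (aeval (co a (-z) B)).comp (psi M) := by
    apply MvPolynomial.algHom_ext
    intro i
    cases i with
    | none => simp [psi, lam]
    | some j => simp [psi, lam]
  rw [h]
  rfl

lemma aeval_mon (a : M → Module.Dual ℝ V) (z : Module.Dual ℝ V) (B s : Finset M) :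
    aeval (lam a z B) (mon (Finset.insertNone s) : MvPolynomial (Option M) ℝ) =
      ∏ j ∈ s, co a (-z) B j := by
  unfold mon
  rw [map_prod, Finset.prod_insertNone]
  simp [lam]

end SR1_

open SR1_ in
theorem t_SR1 (hVERT : Stmt_VERT) (hGNEG : Stmt_GNEG) (hBALD : Stmt_BALD) (hFP1 : Stmt_FP1) :
    Stmt_SR1 := by
  classical
  intro V M _ _ _ _ a h N z D hs hN hgen hD c s hlow n q hn hq
  have hG' := (hGNEG V M a h N z hs hN hgen).1
  have hB' := hBALD V M a h N D hs hN hD
  have hF := hFP1 V M a h N (-z) (fun t => D (mon t)) hs hN hG' hB'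
  have hV : ∀ B, IsVert a h N B → VertFacts a h B := by
    intro B hB
    refine hVERT V M a h hs B ?_
    rw [hN]
    exact hB
  have key : act (mon (Finset.insertNone s)) (Dc a h N z D c) q = 0 := by
    refine ext_monomial (n := n) ?_ q hq
    intro m hm
    obtain ⟨k, hk, hk'⟩ := psi_hom (M := M) m
    have h0 := hF s k (psi M (monomial m 1)) hk' (by omega)
    rw [act_apply]
    rw [← h0]
    unfold Dc phi
    rw [LinearMap.sum_apply]
    symm
    have hsub : (verts a h N).filter (fun B => s ⊆ B) ⊆
        (verts a h N).filter (fun B => z (pt a h B) < c) := by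
      intro B hB
      rw [Finset.mem_filter] at hB ⊢
      refine ⟨hB.1, hlow B ?_ hB.2⟩
      have := hB.1
      unfold verts at this
      simpa using this
    have hmem : ∀ B ∈ verts a h N, IsVert a h N B := by
      intro B hB
      unfold verts at hB
      simpa using hB
    trans ∑ B ∈ (verts a h N).filter (fun B => s ⊆ B),
      ((D (mon B) / ∏ j ∈ B, co a (-z) B j) • (aeval (lam a z B)).toLinearMap)
        (mon (Finset.insertNone s) * monomial m 1)
    · refine Finset.sum_congr rfl fun B hB => ?_
      rw [Finset.mem_filter] at hB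
      have hBv := hmem B hB.1
      rw [LinearMap.smul_apply, AlgHom.toLinearMap_apply, map_mul, aeval_mon, aeval_lam,
        smul_eq_mul]
      have hne : ∀ j ∈ B, co a (-z) B j ≠ 0 := hG'.ne B hBv
      have hsplit : ∏ j ∈ B, co a (-z) B j =
          (∏ j ∈ s, co a (-z) B j) * ∏ j ∈ B.filter (fun j => j ∉ s), co a (-z) B j := by
        rw [← Finset.prod_filter_mul_prod_filter_not B (fun j => j ∈ s)]
        congr 1
        refine Finset.prod_congr ?_ fun _ _ => rfl
        ext j
        rw [Finset.mem_filter]
        exact ⟨fun hj => hj.2, fun hj => ⟨hB.2 hj, hj⟩⟩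
      have h1 : (∏ j ∈ s, co a (-z) B j) ≠ 0 :=
        Finset.prod_ne_zero_iff.mpr fun j hj => hne j (hB.2 hj)
      have h2 : (∏ j ∈ B.filter (fun j => j ∉ s), co a (-z) B j) ≠ 0 :=
        Finset.prod_ne_zero_iff.mpr fun j hj => hne j (Finset.mem_filter.mp hj).1
      rw [hsplit]
      field_simp
    · refine Finset.sum_subset hsub fun B hB hB2 => ?_
      rw [Finset.mem_filter] at hB
      have hBv := hmem B hB.1
      have hns : ¬ s ⊆ B := fun h' => hB2 (Finset.mem_filter.mpr ⟨hB.1, h'⟩)
      obtain ⟨j, hj, hjB⟩ := Finset.not_subset.mp hns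
      rw [LinearMap.smul_apply, AlgHom.toLinearMap_apply, map_mul, aeval_mon]
      rw [Finset.prod_eq_zero hj ((hV B hBv).co_supp (-z) j hjB), zero_mul, smul_zero]
  exact key

end Pool.Agent.KF.S
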