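import Pool.Agent.KF.S.Basic

/-!
# START: the start of the sweep
-/

namespace Pool.Agent.KF.S

open MvPolynomial

namespace START_

section

variable {V M : Type} [AddCommGroup V] [Module ℝ V] {a : M → Module.Dual ℝ V}
  {h : M → ℝ} {B : Finset M} {z : Module.Dual ℝ V}

lemma sum_at (F : VertFacts a h B) (z : Module.Dual ℝ V) (y : V) :
    ∑ j ∈ B, co a z B j * a j y = z y := by
  have h1 := congrArg (fun f : Module.Dual ℝ V => f y) (F.co_sum z)
  simp only [LinearMap.sum_apply, LinearMap.smul_apply, smul_eq_mul] at h1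
  exact h1

lemma co_neg (F : VertFacts a h B) (z : Module.Dual ℝ V) (j : M) :
    co a (-z) B j = - co a z B j := by
  have h1 := F.co_uniq (-z) (fun j => - co a z B j)
    (fun j hj => by rw [F.co_supp z j hj, neg_zero])
    (by
      refine LinearMap.ext fun y => ?_
      rw [LinearMap.sum_apply, LinearMap.neg_apply, ← sum_at F z y, ← Finset.sum_neg_distrib]
      refine Finset.sum_congr rfl fun j _ => ?_
      rw [LinearMap.smul_apply, smul_eq_mul, neg_mul])
  rw [← h1]

lemma exists_eps [Fintype M] (F : VertFacts a h B) (y : V) (hy : ∀ j ∈ B, a j y ≤ 0) :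
    ∃ ε : ℝ, 0 < ε ∧ Feas a h (pt a h B + ε • y) := by
  classical
  have h1 : ∀ j : M, ∃ ε : ℝ, 0 < ε ∧ ∀ t : ℝ, 0 ≤ t → t ≤ ε → a j (pt a h B) + t * a j y ≤ h j := by
    intro j
    by_cases hj : j ∈ B
    · refine ⟨1, one_pos, fun t ht _ => ?_⟩
      rw [F.tight j hj]
      nlinarith [hy j hj]
    · have h2 := F.slack j hj
      refine ⟨(h j - a j (pt a h B)) / (|a j y| + 1), div_pos (by linarith) (by positivity),
        fun t ht ht2 => ?_⟩
      rw [le_div_iff₀ (by positivity)] at ht2
      have h3 : t * a j y ≤ t * (|a j y| + 1) :=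
        mul_le_mul_of_nonneg_left (by linarith [le_abs_self (a j y)]) ht
      linarith
  choose e he1 he2 using h1
  rcases isEmpty_or_nonempty M with hM | hM
  · exact ⟨1, one_pos, fun j => (hM.false j).elim⟩
  · obtain ⟨j0, hj0⟩ := Finite.exists_min e
    refine ⟨e j0, he1 j0, fun j => ?_⟩
    rw [map_add, map_smul, smul_eq_mul]
    exact he2 j _ (he1 j0).le (hj0 j)

lemma pos_co [Fintype M] [FiniteDimensional ℝ V] (hMINV : Stmt_MINV) (hS : Simple a h)
    (hB : IsVert a h (Module.finrank ℝ V) B) (F : VertFacts a h B)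
    (hg : Gen a h (Module.finrank ℝ V) z) {c : ℝ} (hc : z (pt a h B) < c)
    (hu : ∀ B', IsVert a h (Module.finrank ℝ V) B' → z (pt a h B') < c → B' = B) :
    ∀ j ∈ B, 0 < co a (-z) B j := by
  classical
  intro j hj
  by_contra hcon
  have hne : co a (-z) B j ≠ 0 := by
    rw [co_neg F]
    exact neg_ne_zero.2 (hg.ne B hB j hj)
  have hlt : co a (-z) B j < 0 := lt_of_le_of_ne (not_lt.1 hcon) hne
  obtain ⟨y, hy⟩ := F.surj (fun i => if i = j then -1 else 0)
  have hzy : (-z) y = - co a (-z) B j := by
    rw [← sum_at F (-z) y, Finset.sum_eq_single j]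
    · rw [hy j hj, if_pos rfl]
      ring
    · intro i hi hij
      rw [hy i hi, if_neg hij, mul_zero]
    · intro h
      exact (h hj).elim
  have hzy2 : z y < 0 := by
    rw [LinearMap.neg_apply] at hzy
    linarith
  obtain ⟨ε, hε, hf⟩ := exists_eps F y (fun i hi => by
    rw [hy i hi]
    split_ifs <;> norm_num)
  obtain ⟨B', hB', -, hle⟩ := hMINV V M a h hS z _ hf
  rw [map_add, map_smul, smul_eq_mul] at hle
  have h1 : z (pt a h B') < z (pt a h B) := by nlinarith
  have h2 := hu B' hB' (h1.trans hc)
  rw [h2] at h1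
  exact lt_irrefl _ h1

end

end START_

open START_ in
theorem t_START (hVERT : Stmt_VERT) (hMINV : Stmt_MINV) : Stmt_START := by
  intro V M _ _ _ _ a h N z D hS hN hg hD c B hB hc hu
  classical
  subst hN
  have F := hVERT V M a h hS B hB
  have hpos := pos_co hMINV hS hB F hg hc hu
  set s : ℝ := D (mon B) / ∏ j ∈ B, co a (-z) B j with hs
  have hs0 : 0 < s := div_pos (hD.pos B hB) (Finset.prod_pos hpos)
  have hDc : ∀ q, Dc a h (Module.finrank ℝ V) z D c q = s * aeval (lam a z B) q := by
    intro q
    unfold Dc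
    have e : ((verts a h (Module.finrank ℝ V)).filter (fun B => z (pt a h B) < c)) = {B} := by
      ext B'
      rw [Finset.mem_filter, Finset.mem_singleton]
      constructor
      · rintro ⟨h1, h2⟩
        refine hu B' ?_ h2
        unfold verts at h1
        exact (Finset.mem_filter.1 h1).2
      · rintro rfl
        refine ⟨?_, hc⟩
        unfold verts
        exact Finset.mem_filter.2 ⟨Finset.mem_univ _, hB⟩
    rw [e, Finset.sum_singleton, LinearMap.smul_apply, smul_eq_mul]
    rfl
  set L : ℝ := aeval (lam a z B) (om (cutH h c)) with hL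
  have hL0 : 0 < L := by
    have e : L = c + ∑ j, h j * co a (-z) B j := by
      rw [hL, om, map_sum, Fintype.sum_option]
      simp only [map_mul, aeval_C, aeval_X, cutH, lam]
      simp
    have e2 : ∑ j, h j * co a (-z) B j = (-z) (pt a h B) := by
      rw [← sum_at F (-z), ← Finset.sum_subset (Finset.subset_univ B)]
      · refine Finset.sum_congr rfl fun j hj => ?_
        rw [F.tight j hj, mul_comm]
      · intro j _ hj
        rw [F.co_supp _ j hj, mul_zero]
    rw [e, e2, LinearMap.neg_apply]
    linarith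
  intro i r hir p hp hprim
  have hval : Dc a h (Module.finrank ℝ V) z D c (p * om (cutH h c) ^ r * p) =
      s * (aeval (lam a z B) p) ^ 2 * L ^ r := by
    rw [hDc, map_mul, map_mul, map_pow]
    ring
  rcases Nat.eq_zero_or_pos i with hi | hi
  · subst hi
    rw [hval]
    refine ⟨by positivity, fun h0 q _ => ?_⟩
    have h1 : aeval (lam a z B) p = 0 := by
      by_contra hne
      have : 0 < s * (aeval (lam a z B) p) ^ 2 * L ^ r := by positivity
      linarith
    rw [hDc, map_mul, h1, zero_mul, mul_zero]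
  · have h1 := hprim (i - 1) (X none ^ (i - 1)) (by omega) (by
      have := (isHomogeneous_X ℝ (none : Option M)).pow (i - 1)
      simpa using this)
    rw [hDc, map_mul, map_mul, map_pow, map_pow, aeval_X] at h1
    have h2 : aeval (lam a z B) p = 0 := by
      have h3 : (lam a z B) none = 1 := rfl
      rw [h3, one_pow, mul_one] at h1
      rcases mul_eq_zero.1 h1 with h4 | h4
      · exact absurd h4 hs0.ne'
      · rcases mul_eq_zero.1 h4 with h5 | h5
        · exact h5
        · exact absurd h5 (pow_pos hL0 _).ne'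
    rw [hval, h2]
    refine ⟨by simp, fun _ q _ => ?_⟩
    rw [hDc, map_mul, h2, zero_mul, mul_zero]

end Pool.Agent.KF.S
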