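import Pool.Agent.KF.S.Basic

/-!
# The induction step (block SHR, paragraph STEP of PAPER.md)
-/

namespace Pool.Agent.KF.S

open MvPolynomial

theorem t_STEP (hGEN : Stmt_GEN) (hMINV : Stmt_MINV) (hSWEEP : Stmt_SWEEP) (hEND : Stmt_END) :
    Stmt_STEP := by
  classical
  intro n hn V M _ _ _ _ a h D hfin hS hD
  obtain ⟨z, hz⟩ := hGEN V M a h hS
  rw [hfin] at hz
  -- a level above all vertices
  obtain ⟨c, hc⟩ : ∃ c : ℝ, ∀ B : Finset M, z (pt a h B) < c := by
    refine ⟨1 + ∑ B : Finset M, |z (pt a h B)|, fun B => ?_⟩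
    have h1 : |z (pt a h B)| ≤ ∑ B : Finset M, |z (pt a h B)| :=
      Finset.single_le_sum (f := fun B : Finset M => |z (pt a h B)|)
        (fun _ _ => abs_nonneg _) (Finset.mem_univ B)
    have h2 := le_abs_self (z (pt a h B))
    linarith
  obtain ⟨x, hx⟩ := hS.int
  obtain ⟨B, hB, -, -⟩ := hMINV V M a h hS z x (fun j => (hx j).le)
  rw [hfin] at hB
  have hsw := hSWEEP n hn V M a h z D hS hfin hz hD c (fun B _ => (hc B).ne) ⟨B, hB, hc B⟩
  exact hEND V M a h (n + 1) z D hS hfin hz hD c (fun B _ => hc B) hsw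

end Pool.Agent.KF.S
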