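import Pool.Agent.KF.S.Basic

/-!
# Simplicial Hodge-Riemann relations: the sweep (module SWEEP)
-/

namespace Pool.Agent.KF.S

open MvPolynomial

namespace SWEEP_

lemma om_cut {M : Type} [Fintype M] (h : M → ℝ) (c t : ℝ) :
    om (cutH h (c + t)) = om (cutH h c) + C t * X none := by
  unfold om
  rw [Fintype.sum_option, Fintype.sum_option]
  simp only [cutH, C_add]
  ring

lemma mem_verts {V M : Type} [AddCommGroup V] [Module ℝ V] [Fintype M]
    {a : M → Module.Dual ℝ V} {h : M → ℝ} {N : ℕ} {B : Finset M} :
    B ∈ verts a h N ↔ IsVert a h N B := by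
  classical
  unfold verts
  simp

lemma Dc_eq {V M : Type} [AddCommGroup V] [Module ℝ V] [Fintype M]
    (a : M → Module.Dual ℝ V) (h : M → ℝ) (N : ℕ) (z : Module.Dual ℝ V)
    (D : MvPolynomial M ℝ →ₗ[ℝ] ℝ) (c c' : ℝ)
    (H : ∀ B, IsVert a h N B → (z (pt a h B) < c ↔ z (pt a h B) < c')) :
    Dc a h N z D c = Dc a h N z D c' := by
  classical
  unfold Dc
  rw [Finset.filter_congr (fun B hB => H B (mem_verts.1 hB))]

end SWEEP_

open SWEEP_ in
theorem t_SWEEP (hSTART : Stmt_START) (hFLIP : Stmt_FLIP) (hSFLIP : Stmt_SFLIP)
    (hCHL : Stmt_CHL) (hHRC : Stmt_HRC) : Stmt_SWEEP := by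
  classical
  intro n hn V M _ _ _ _ a h z D hS hN hG hD
  -- induction on the number of vertices below the level
  have key : ∀ (k : ℕ) (c : ℝ),
      ((verts a h (n + 1)).filter (fun B => z (pt a h B) < c)).card = k →
      (∀ B, IsVert a h (n + 1) B → z (pt a h B) ≠ c) →
      (∃ B, IsVert a h (n + 1) B ∧ z (pt a h B) < c) →
      HR (Dc a h (n + 1) z D c) (n + 1) (om (cutH h c)) := by
    intro k
    induction k using Nat.strong_induction_on with
    | _ k ih =>
      intro c hk hc hex
      -- the highest vertex below c
      obtain ⟨B, hBm, hBmax⟩ := Finset.exists_max_image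
        ((verts a h (n + 1)).filter (fun B => z (pt a h B) < c)) (fun B => z (pt a h B)) (by
          obtain ⟨B, hB, hBc⟩ := hex
          exact ⟨B, Finset.mem_filter.2 ⟨mem_verts.2 hB, hBc⟩⟩)
      have hBV : IsVert a h (n + 1) B := mem_verts.1 (Finset.mem_filter.1 hBm).1
      have hBc : z (pt a h B) < c := (Finset.mem_filter.1 hBm).2
      have hBtop : ∀ B', IsVert a h (n + 1) B' → z (pt a h B') < c →
          z (pt a h B') ≤ z (pt a h B) := fun B' h1 h2 =>
        hBmax B' (Finset.mem_filter.2 ⟨mem_verts.2 h1, h2⟩)
      by_cases hone : ∀ B', IsVert a h (n + 1) B' → z (pt a h B') < c → B' = B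
      · exact hSTART V M a h (n + 1) z D hS hN hG hD c B hBV hBc hone
      · push Not at hone
        obtain ⟨B1, hB1, hB1c, hB1B⟩ := hone
        have hB1lt : z (pt a h B1) < z (pt a h B) :=
          lt_of_le_of_ne (hBtop B1 hB1 hB1c) fun he => hB1B (hG.inj B1 B hB1 hBV he)
        -- the second highest vertex
        obtain ⟨B2, hB2m, hB2max⟩ := Finset.exists_max_image
          ((verts a h (n + 1)).filter (fun B' => z (pt a h B') < z (pt a h B)))
          (fun B => z (pt a h B)) ⟨B1, Finset.mem_filter.2 ⟨mem_verts.2 hB1, hB1lt⟩⟩
        have hB2V : IsVert a h (n + 1) B2 := mem_verts.1 (Finset.mem_filter.1 hB2m).1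
        have hB2lt : z (pt a h B2) < z (pt a h B) := (Finset.mem_filter.1 hB2m).2
        have hB2top : ∀ B', IsVert a h (n + 1) B' → z (pt a h B') < z (pt a h B) →
            z (pt a h B') ≤ z (pt a h B2) := fun B' h1 h2 =>
          hB2max B' (Finset.mem_filter.2 ⟨mem_verts.2 h1, h2⟩)
        have hset : ∀ B', IsVert a h (n + 1) B' →
            (z (pt a h B') < c ↔ z (pt a h B') ≤ z (pt a h B)) := fun B' h1 =>
          ⟨hBtop B' h1, fun h2 => lt_of_le_of_lt h2 hBc⟩
        obtain ⟨Ip, Im, hF⟩ := hSFLIP n hn V M a h z D hS hN hG hD B c hBV
          ⟨B1, hB1, hB1lt⟩ hset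
        -- levels slightly below the vertex
        have hlow : ∀ t : ℝ, -(z (pt a h B) - z (pt a h B2)) < t → t < 0 →
            HR (Dc a h (n + 1) z D (z (pt a h B))) (n + 1)
              (om (cutH h (z (pt a h B))) + C t * X none) := by
          intro t ht1 ht2
          rw [← om_cut]
          have hDeq : Dc a h (n + 1) z D (z (pt a h B)) =
              Dc a h (n + 1) z D (z (pt a h B) + t) := by
            apply Dc_eq
            intro B' hB'
            constructor
            · intro h1
              have := hB2top B' hB' h1
              linarith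
            · intro h1
              linarith
          rw [hDeq]
          refine ih _ ?_ _ rfl ?_ ⟨B2, hB2V, by linarith⟩
          · rw [← hk]
            apply Finset.card_lt_card
            refine ⟨?_, ?_⟩
            · intro B' hB'
              rw [Finset.mem_filter] at hB' ⊢
              exact ⟨hB'.1, by linarith [hB'.2]⟩
            · intro hsub
              have h1 := hsub hBm
              rw [Finset.mem_filter] at h1
              linarith [h1.2]
          · intro B' hB' he
            have h1 := hB2top B' hB' (by linarith)
            linarith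
        -- levels above the vertex, up to c
        have hup : ∀ t : ℝ, 0 < t → z (pt a h B) + t ≤ c →
            HL (Dc a h (n + 1) z D c) (n + 1)
              (om (cutH h (z (pt a h B))) + C t * X none) := by
          intro t ht1 ht2
          rw [← om_cut]
          have hDeq : Dc a h (n + 1) z D c =
              Dc a h (n + 1) z D (z (pt a h B) + t) := by
            apply Dc_eq
            intro B' hB'
            constructor
            · intro h1
              have := hBtop B' hB' h1
              linarith
            · intro h1
              linarith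
          rw [hDeq]
          refine hCHL n hn V M a h z D hS hN hG hD _ ?_ ⟨B, hBV, by linarith⟩
          intro B' hB' he
          rcases lt_or_eq_of_le ht2 with h2 | h2
          · have h1 := hBtop B' hB' (by linarith)
            linarith
          · exact hc B' hB' (by rw [he, h2])
        obtain ⟨e, he0, heHR⟩ := hFLIP (Option M) (n + 1) _ _ _ _ none _ Ip Im hF
          (min (z (pt a h B) - z (pt a h B2)) (c - z (pt a h B)))
          (lt_min (by linarith) (by linarith))
          (fun t ht1 ht2 => hlow t (by
            have := min_le_left (z (pt a h B) - z (pt a h B2)) (c - z (pt a h B))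
            linarith) ht2)
          (fun t ht1 ht2 => hup t ht1 (by
            have := min_le_right (z (pt a h B) - z (pt a h B2)) (c - z (pt a h B))
            linarith))
        -- a level slightly above the vertex
        have hd : 0 < c - z (pt a h B) := by linarith
        set t0 : ℝ := min e (c - z (pt a h B)) / 2 with ht0
        have hm0 : 0 < min e (c - z (pt a h B)) := lt_min he0 hd
        have ht0pos : 0 < t0 := by linarith
        have ht0e : t0 < e := by
          have := min_le_left e (c - z (pt a h B))
          linarith
        have ht0d : t0 ≤ c - z (pt a h B) := by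
          have := min_le_right e (c - z (pt a h B))
          linarith
        have hHR0 := heHR t0 ht0pos ht0e
        intro i r hir
        have hres := hHRC (Option M) (Set.Ioc 0 (c - z (pt a h B)))
          (fun _ => Dc a h (n + 1) z D c)
          (fun t => om (cutH h (z (pt a h B))) + C t * X none) i r
          Set.ordConnected_Ioc
          (fun t => by
            rw [← om_cut]
            exact om_hom _)
          (fun m _ p q => (cont_pow _ _ _ m p q).continuousOn)
          (fun t ht => hup t ht.1 (by linarith [ht.2]) i r hir)
          (fun t ht k hk => hup t ht.1 (by linarith [ht.2]) k (r + 2) (by omega))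
          (fun _ _ _ _ _ _ h1 => h1)
          (fun _ _ _ _ _ _ _ _ h1 => h1)
          t0 ⟨ht0pos, ht0d⟩ (hHR0 i r hir) (c - z (pt a h B)) ⟨hd, le_refl _⟩
        have hfin : om (cutH h (z (pt a h B))) + C (c - z (pt a h B)) * X none =
            om (cutH h c) := by
          rw [← om_cut, add_sub_cancel]
        rw [← hfin]
        exact hres
  intro c hc hex
  exact key _ c rfl hc hex

end Pool.Agent.KF.S
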