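import Pool.Agent.KF.S.Basic

/-!
# TR: transfer along a graded surjection (PAPER.md, paragraph TR)
-/

namespace Pool.Agent.KF.S

open MvPolynomial

namespace TR_

variable {J J' : Type}

/-- One direction, for an abstract pair of maps. -/
theorem half {J₁ J₂ : Type} (D₁ : MvPolynomial J₁ ℝ →ₗ[ℝ] ℝ) (D₂ : MvPolynomial J₂ ℝ →ₗ[ℝ] ℝ)
    (i r : ℕ) (w₁ : MvPolynomial J₁ ℝ) (w₂ : MvPolynomial J₂ ℝ)
    (u : MvPolynomial J₂ ℝ → MvPolynomial J₁ ℝ)
    (hu : ∀ (k : ℕ) (p : MvPolynomial J₂ ℝ), p.IsHomogeneous k → (u p).IsHomogeneous k)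
    (h0 : ∀ p : MvPolynomial J₂ ℝ, p.IsHomogeneous i →
      D₁ (u p * w₁ ^ r * u p) = D₂ (p * w₂ ^ r * p))
    (h1 : ∀ p : MvPolynomial J₂ ℝ, p.IsHomogeneous i → ∀ q : MvPolynomial J₂ ℝ,
      q.IsHomogeneous (i + r) → D₁ (u p * u q) = D₂ (p * q))
    (h2 : ∀ p : MvPolynomial J₂ ℝ, p.IsHomogeneous i → Prim D₂ i r w₂ p → Prim D₁ i r w₁ (u p))
    (h : HRi D₁ i r w₁) : HRi D₂ i r w₂ := by
  intro p hp hprim
  obtain ⟨h3, h4⟩ := h (u p) (hu i p hp) (h2 p hp hprim)
  rw [h0 p hp] at h3 h4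
  refine ⟨h3, fun h5 q hq => ?_⟩
  rw [← h1 p hp q hq]
  exact h4 h5 _ (hu _ q hq)

end TR_

open TR_ in
theorem t_TR : Stmt_TR := by
  intro J J' f g D D' N w hf hg hfg hw hD
  have hwf : (f w).IsHomogeneous 1 := hf 1 w hw
  constructor
  · intro h i r hir
    refine half D D' i r w (f w) g hg ?_ ?_ ?_ (h i r hir)
    · intro p hp
      rw [hD, map_mul f, map_mul f, map_pow f, hfg]
      have h1 := ((hg i p hp).mul (hw.pow r)).mul (hg i p hp)
      have h2 : i + 1 * r + i = N := by omega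
      rwa [h2] at h1
    · intro p hp q hq
      rw [hD, map_mul f, hfg, hfg]
      have h1 := (hg i p hp).mul (hg _ q hq)
      have h2 : i + (i + r) = N := by omega
      rwa [h2] at h1
    · intro p hp hprim k q hk hq
      rw [hD, map_mul f, map_mul f, map_pow f, hfg]
      · exact hprim k (f q) hk (hf k q hq)
      · have h1 := ((hg i p hp).mul (hw.pow (r + 1))).mul hq
        have h2 : i + 1 * (r + 1) + k = N := by omega
        rwa [h2] at h1
  · intro h i r hir
    refine half D' D i r (f w) w f hf ?_ ?_ ?_ (h i r hir)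
    · intro p hp
      rw [hD, map_mul f, map_mul f, map_pow f]
      have h1 := (hp.mul (hw.pow r)).mul hp
      have h2 : i + 1 * r + i = N := by omega
      rwa [h2] at h1
    · intro p hp q hq
      rw [hD, map_mul f]
      have h1 := hp.mul hq
      have h2 : i + (i + r) = N := by omega
      rwa [h2] at h1
    · intro p hp hprim k q hk hq
      have h3 := hprim k (g q) hk (hg k q hq)
      rw [hD, map_mul f, map_mul f, map_pow f, hfg] at h3
      · exact h3
      · have h1 := (hp.mul (hw.pow (r + 1))).mul (hg k q hq)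
        have h2 : i + 1 * (r + 1) + k = N := by omega
        rwa [h2] at h1

end Pool.Agent.KF.S
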