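import Pool.Agent.KF.S.Basic

/-!
# VERT: facts on a vertex

At a vertex `B` the functionals `a j`, `j ∈ B`, are a basis of the dual space.
-/

namespace Pool.Agent.KF.S

open MvPolynomial

namespace VERT_

section

variable {V : Type} [AddCommGroup V] [Module ℝ V] {M : Type} {a : M → Module.Dual ℝ V} {B : Finset M}

/-- Functions on `B` with the same combination agree. -/
lemma uniq (hli : LinearIndependent ℝ (fun j : {j : M // j ∈ B} => a j.1)) {c d : M → ℝ}
    (hc : ∀ j, j ∉ B → c j = 0) (hd : ∀ j, j ∉ B → d j = 0)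
    (h : ∑ j ∈ B, c j • a j = ∑ j ∈ B, d j • a j) : c = d := by
  funext j
  by_cases hj : j ∈ B
  · have h1 : ∑ i : {j : M // j ∈ B}, (c i.1 - d i.1) • a i.1 = 0 := by
      have h2 : ∑ j ∈ B, (c j - d j) • a j = 0 := by
        have h3 : ∀ j, (c j - d j) • a j = c j • a j - d j • a j := by
          intro j
          refine LinearMap.ext fun x => ?_
          rw [LinearMap.smul_apply, LinearMap.sub_apply, LinearMap.smul_apply,
            LinearMap.smul_apply, sub_smul]
        rw [Finset.sum_congr rfl fun j _ => h3 j, Finset.sum_sub_distrib, h, sub_self]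
      rw [← h2]
      exact Finset.sum_coe_sort B (fun j => (c j - d j) • a j)
    exact sub_eq_zero.1 (Fintype.linearIndependent_iff.1 hli (fun i => c i.1 - d i.1) h1 ⟨j, hj⟩)
  · rw [hc j hj, hd j hj]

variable [FiniteDimensional ℝ V]

lemma span_top (hli : LinearIndependent ℝ (fun j : {j : M // j ∈ B} => a j.1))
    (hcard : B.card = Module.finrank ℝ V) :
    Submodule.span ℝ (Set.range (fun j : {j : M // j ∈ B} => a j.1)) = ⊤ := by
  refine hli.span_eq_top_of_card_eq_finrank' ?_
  rw [Fintype.card_coe, hcard, Subspace.dual_finrank_eq]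

lemma exists_co (hli : LinearIndependent ℝ (fun j : {j : M // j ∈ B} => a j.1))
    (hcard : B.card = Module.finrank ℝ V) (z : Module.Dual ℝ V) :
    ∃ c : M → ℝ, (∀ j, j ∉ B → c j = 0) ∧ ∑ j ∈ B, c j • a j = z := by
  classical
  have hz : z ∈ Submodule.span ℝ (Set.range (fun j : {j : M // j ∈ B} => a j.1)) := by
    rw [span_top hli hcard]
    trivial
  obtain ⟨c, hc⟩ := (Submodule.mem_span_range_iff_exists_fun ℝ).1 hz
  refine ⟨fun j => if H : j ∈ B then c ⟨j, H⟩ else 0, fun j hj => dif_neg hj, ?_⟩
  rw [← hc, ← Finset.sum_coe_sort B]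
  refine Finset.sum_congr rfl fun i _ => ?_
  change (if H : i.1 ∈ B then c ⟨i.1, H⟩ else 0) • a i.1 = c i • a i.1
  rw [dif_pos i.2]

end

end VERT_

open VERT_ in
theorem t_VERT (hIND : Stmt_IND) : Stmt_VERT := by
  classical
  intro V M _ _ _ _ a h hS B hB
  obtain ⟨hli, -, hsurj⟩ := hIND V M a h hS B hB.1
  have hcard := hB.2
  have hpt : pt a h B = hB.1.choose := dif_pos hB.1
  have hspec := hB.1.choose_spec
  rw [← hpt] at hspec
  have hco : ∀ z : Module.Dual ℝ V, (∀ j, j ∉ B → co a z B j = 0) ∧
      ∑ j ∈ B, co a z B j • a j = z := by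
    intro z
    have H := exists_co hli hcard z
    have e : co a z B = H.choose := dif_pos H
    rw [e]
    exact H.choose_spec
  refine ⟨hsurj, ?_, hspec.1, hspec.2, ?_, fun z => (hco z).1, fun z => (hco z).2, ?_⟩
  · intro y hy
    refine (Module.forall_dual_apply_eq_zero_iff ℝ y).1 fun z => ?_
    rw [← (hco z).2, LinearMap.sum_apply]
    refine Finset.sum_eq_zero fun j hj => ?_
    rw [LinearMap.smul_apply, hy j hj, smul_zero]
  · intro j hj
    refine lt_of_le_of_ne (hspec.1 j) fun he => ?_
    have hF : IsFace a h (insert j B) := by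
      refine ⟨pt a h B, hspec.1, fun i hi => ?_⟩
      rcases Finset.mem_insert.1 hi with rfl | hi
      · exact he
      · exact hspec.2 i hi
    have h1 := (hIND V M a h hS (insert j B) hF).2.1
    rw [Finset.card_insert_of_notMem hj, hcard] at h1
    omega
  · intro z c hc hsum
    exact uniq hli hc (hco z).1 (hsum.trans (hco z).2.symm)

end Pool.Agent.KF.S
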