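import Pool.Agent.KF.S.Basic

namespace Pool.Agent.KF.S

open MvPolynomial

namespace WALL_

variable {J : Type} [Fintype J]

lemma om_mul_apply (D : MvPolynomial J ℝ →ₗ[ℝ] ℝ) (c : J → ℝ) (q : MvPolynomial J ℝ) :
    D (om c * q) = ∑ l, c l * D (X l * q) := by
  unfold om
  rw [Finset.sum_mul, map_sum]
  refine Finset.sum_congr rfl fun l _ => ?_
  have e : C (c l) * X l * q = (c l) • (X l * q) := by rw [smul_eq_C_mul]; ring
  rw [e, map_smul, smul_eq_mul]

/-- The substitution of the values, on monomials. -/
lemma subst (D : MvPolynomial J ℝ →ₗ[ℝ] ℝ) (n : ℕ) (g : J → ℝ) (o : J) (i r : ℕ)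
    (hir : 2 * i + r = n + 1) (p : MvPolynomial J ℝ) (hp : p.IsHomogeneous i)
    (hrel : ∀ j : J, ∃ c : J → ℝ, (∀ l, g l ≠ 0 → c l = 0) ∧
      ∀ q : MvPolynomial J ℝ, q.IsHomogeneous n → D ((X j - C (g j) * X o - om c) * q) = 0)
    (hkill : ∀ l, g l = 0 → ∀ q : MvPolynomial J ℝ, q.IsHomogeneous (i + r - 1) →
      D (X l * p * q) = 0) :
    ∀ m k : ℕ, m + k = i + r → ∀ q : MvPolynomial J ℝ, q.IsHomogeneous m →
      D (p * q * X o ^ k) = aeval g q * D (p * X o ^ (i + r)) := by
  intro m
  induction m with
  | zero =>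
    intro k hk q hq
    obtain ⟨a, rfl⟩ : ∃ a : ℝ, q = C a := by
      exact ⟨coeff 0 q, totalDegree_eq_zero_iff_eq_C.1 (Nat.le_zero.1 hq.totalDegree_le)⟩
    have hk' : k = i + r := by omega
    subst hk'
    have e : p * C a * X o ^ (i + r) = a • (p * X o ^ (i + r)) := by
      rw [smul_eq_C_mul]; ring
    rw [e, map_smul, smul_eq_mul]
    simp
  | succ m ih =>
    intro k hk q hq
    -- reduce to monomials
    have hlin : ∀ d : J →₀ ℕ, d.degree = m + 1 →
        D (p * monomial d (1 : ℝ) * X o ^ k) =
          aeval g (monomial d (1 : ℝ)) * D (p * X o ^ (i + r)) := by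
      intro d hd
      obtain ⟨j, hj⟩ : ∃ j, d j ≠ 0 := by
        by_contra hcon
        push Not at hcon
        have : d = 0 := Finsupp.ext hcon
        rw [this] at hd
        simp at hd
      have hle : Finsupp.single j 1 ≤ d := by
        rw [Finsupp.single_le_iff]; omega
      have hd2 : d = Finsupp.single j 1 + (d - Finsupp.single j 1) := by
        rw [add_tsub_cancel_of_le hle]
      set d' := d - Finsupp.single j 1 with hd'
      have hdeg : d'.degree = m := by
        have h1 : d.degree = (Finsupp.single j 1).degree + d'.degree := by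
          conv_lhs => rw [hd2]
          rw [map_add]
        rw [hd, Finsupp.degree_single] at h1
        omega
      have hm : (monomial d (1 : ℝ) : MvPolynomial J ℝ) = X j * monomial d' 1 := by
        rw [hd2, X, monomial_mul, one_mul]
      have hq' : (monomial d' (1 : ℝ) : MvPolynomial J ℝ).IsHomogeneous m :=
        isHomogeneous_monomial _ hdeg
      obtain ⟨c, hc1, hc2⟩ := hrel j
      have h2 := hc2 (p * monomial d' 1 * X o ^ k) (by
        have := (hp.mul hq').mul ((isHomogeneous_X_pow (R := ℝ) o k))
        rwa [show i + m + k = n by omega] at this)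
      have h3 : D (om c * (p * monomial d' 1 * X o ^ k)) = 0 := by
        rw [om_mul_apply]
        refine Finset.sum_eq_zero fun l _ => ?_
        by_cases hl : g l = 0
        · have h4 := hkill l hl (monomial d' 1 * X o ^ k) (by
            have := hq'.mul ((isHomogeneous_X_pow (R := ℝ) o k))
            rwa [show m + k = i + r - 1 by omega] at this)
          have e : X l * (p * monomial d' 1 * X o ^ k) =
            X l * p * (monomial d' (1 : ℝ) * X o ^ k) := by ring
          rw [e, h4, mul_zero]
        · rw [hc1 l hl, zero_mul]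
      have h5 := ih (k + 1) (by omega) _ hq'
      have e1 : (X j - C (g j) * X o - om c) * (p * monomial d' 1 * X o ^ k) =
          p * (X j * monomial d' (1 : ℝ)) * X o ^ k
            - (g j) • (p * monomial d' 1 * X o ^ (k + 1))
            - om c * (p * monomial d' 1 * X o ^ k) := by
        rw [smul_eq_C_mul]; ring
      rw [e1, map_sub, map_sub, h3, sub_zero, map_smul, smul_eq_mul, sub_eq_zero] at h2
      rw [hm, h2, h5, map_mul (aeval g), aeval_X]
      ring
    -- the difference functional
    let E : MvPolynomial J ℝ →ₗ[ℝ] ℝ :=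
      { toFun := fun q => D (p * q * X o ^ k) - aeval g q * D (p * X o ^ (i + r))
        map_add' := fun a b => by
          have e : p * (a + b) * X o ^ k = p * a * X o ^ k + p * b * X o ^ k := by ring
          rw [e, map_add, map_add]; ring
        map_smul' := fun t a => by
          have e : p * (t • a) * X o ^ k = t • (p * a * X o ^ k) := by
            rw [smul_eq_C_mul, smul_eq_C_mul]; ring
          rw [e, map_smul, map_smul]
          simp only [smul_eq_mul, RingHom.id_apply]; ring }
    have hE := ext_monomial (D := E) (n := m + 1) (fun d hd => by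
      show D (p * monomial d 1 * X o ^ k) - aeval g (monomial d (1 : ℝ)) *
        D (p * X o ^ (i + r)) = 0
      rw [hlin d hd, sub_self]) q hq
    exact sub_eq_zero.1 hE

end WALL_

theorem t_WALL : Stmt_WALL := by
  intro J _ D n g o w I i r hir hI ho hgI hw hmon hrel hwrel hHR
  rcases r with _ | r
  · intro p hp h0 q hq
    have := h0 q (by simpa using hq)
    simpa using this
  intro p hp h0
  -- the facet relations
  obtain ⟨c, hc1, hc2, hc3⟩ := hwrel
  have hprim : ∀ l, g l = 0 → Prim (act (X l) D) i r w p := by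
    intro l hl k q hk hq
    rw [act_apply]
    have h1 := h0 (X l * q) (by
      have := (isHomogeneous_X ℝ l).mul hq
      rwa [show 1 + k = i by omega] at this)
    rw [show X l * (p * w ^ (r + 1) * q) = p * w ^ (r + 1) * (X l * q) by ring]
    exact h1
  have hHRl : ∀ l, g l = 0 → 0 ≤ (-1 : ℝ) ^ i * D (X l * (p * w ^ r * p)) ∧
      (D (X l * (p * w ^ r * p)) = 0 →
        ∀ q : MvPolynomial J ℝ, q.IsHomogeneous (i + r) → D (X l * (p * q)) = 0) :=
    fun l hl => hHR l hl i r (by omega) p hp (hprim l hl)
  have hsum : ∑ l, c l * D (X l * (p * w ^ r * p)) = 0 := by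
    rw [← WALL_.om_mul_apply]
    have h1 := hc3 (p * w ^ r * p) (by
      have := (hp.mul (hw.pow r)).mul hp
      rwa [show i + 1 * r + i = n by omega] at this)
    have h2 := h0 p hp
    rw [sub_mul, map_sub] at h1
    have e : w * (p * w ^ r * p) = p * w ^ (r + 1) * p := by ring
    rw [e, h2, zero_sub, neg_eq_zero] at h1
    exact h1
  have hz : ∀ l, g l = 0 → D (X l * (p * w ^ r * p)) = 0 := by
    intro l hl
    have h1 : ∑ l, (-1 : ℝ) ^ i * (c l * D (X l * (p * w ^ r * p))) = 0 := by
      rw [← Finset.mul_sum, hsum, mul_zero]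
    have h2 : ∀ l ∈ Finset.univ, 0 ≤ (-1 : ℝ) ^ i * (c l * D (X l * (p * w ^ r * p))) := by
      intro l _
      by_cases hg : g l = 0
      · have := mul_nonneg (hc2 l hg).le (hHRl l hg).1
        linarith [this, mul_left_comm (c l) ((-1 : ℝ) ^ i) (D (X l * (p * w ^ r * p)))]
      · rw [hc1 l hg]; simp
    have h3 := (Finset.sum_eq_zero_iff_of_nonneg h2).1 h1 l (Finset.mem_univ l)
    rcases mul_eq_zero.1 h3 with h4 | h4
    · exact absurd h4 (pow_ne_zero _ (by norm_num))
    · rcases mul_eq_zero.1 h4 with h5 | h5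
      · exact absurd h5 (hc2 l hl).ne'
      · exact h5
  have hkill : ∀ l, g l = 0 → ∀ q : MvPolynomial J ℝ, q.IsHomogeneous (i + (r + 1) - 1) →
      D (X l * p * q) = 0 := by
    intro l hl q hq
    rw [mul_assoc]
    exact (hHRl l hl).2 (hz l hl) q hq
  have hsub := WALL_.subst D n g o i (r + 1) hir p hp hrel hkill
  -- the value at the power of `X o`
  have h0' : D (p * X o ^ (i + (r + 1))) = 0 := by
    have h1 := hsub I.card (i + (r + 1) - I.card) (by omega) (mon I) (mon_hom I)
    have h2 := hmon (i + (i + (r + 1) - I.card)) (p * X o ^ (i + (r + 1) - I.card)) (by omega)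
      (hp.mul (isHomogeneous_X_pow (R := ℝ) o _))
    have e : p * mon I * X o ^ (i + (r + 1) - I.card) =
      mon I * (p * X o ^ (i + (r + 1) - I.card)) := by ring
    rw [e, h2] at h1
    have h3 : (aeval g (mon I) : ℝ) ≠ 0 := by
      unfold mon
      rw [map_prod]
      refine Finset.prod_ne_zero_iff.2 fun j hj => ?_
      rw [aeval_X]
      exact hgI j hj
    rcases mul_eq_zero.1 h1.symm with h4 | h4
    · exact absurd h4 h3
    · exact h4
  intro q hq
  have h1 := hsub (i + (r + 1)) 0 rfl q hq
  rw [pow_zero, mul_one, h0', mul_zero] at h1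
  exact h1

end Pool.Agent.KF.S
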