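import Pool.Agent.KF.S.Basic

/-!
# Simplicial Hodge-Riemann relations: dimension zero
-/

namespace Pool.Agent.KF.S

open MvPolynomial

/-- Dimension zero. -/
theorem t_ZERO : Stmt_ZERO := by
  intro V M _ _ _ _ a h D hN hS hD i r hir p hp _
  have hi : i = 0 := by omega
  have hr : r = 0 := by omega
  subst hi hr
  have hv : IsVert a h 0 (∅ : Finset M) := by
    obtain ⟨x, hx⟩ := hS.int
    exact ⟨⟨x, fun j => (hx j).le, fun j hj => absurd hj (Finset.notMem_empty j)⟩, rfl⟩
  have h1 : 0 < D (1 : MvPolynomial M ℝ) := by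
    have := hD.pos ∅ hv
    simpa [mon] using this
  have hpc : p = C (coeff 0 p) := by
    have h0 : p.totalDegree = 0 := Nat.le_zero.mp (hp.totalDegree_le)
    exact totalDegree_eq_zero_iff_eq_C.mp h0
  set c := coeff 0 p with hc
  have hval : D (p * om h ^ 0 * p) = c ^ 2 * D 1 := by
    rw [hpc, pow_zero, mul_one]
    have e : (C c * C c : MvPolynomial M ℝ) = (c ^ 2) • (1 : MvPolynomial M ℝ) := by
      rw [smul_eq_C_mul, mul_one, ← C_mul, sq]
    rw [e, map_smul, smul_eq_mul]
  rw [hval, pow_zero, one_mul]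
  refine ⟨mul_nonneg (sq_nonneg c) h1.le, fun h0 => ?_⟩
  have hc0 : c = 0 := by
    rcases mul_eq_zero.mp h0 with h2 | h2
    · exact pow_eq_zero_iff (two_ne_zero) |>.mp h2
    · exact absurd h2 h1.ne'
  intro q _
  rw [hpc, hc0, C_0, zero_mul, map_zero]

end Pool.Agent.KF.S
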