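import Pool.Agent.KF.S.FD
import Pool.Agent.KF.S.AL
import Pool.Agent.KF.S.GRAM
import Pool.Agent.KF.S.OPEN
import Pool.Agent.KF.S.REP
import Pool.Agent.KF.S.BD
import Pool.Agent.KF.S.HRC
import Pool.Agent.KF.S.TR
import Pool.Agent.KF.S.HLT
import Pool.Agent.KF.S.WALL
import Pool.Agent.KF.S.FANN
import Pool.Agent.KF.S.FNU
import Pool.Agent.KF.S.FW
import Pool.Agent.KF.S.FEQ
import Pool.Agent.KF.S.FGT
import Pool.Agent.KF.S.FDN
import Pool.Agent.KF.S.FA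
import Pool.Agent.KF.S.FB
import Pool.Agent.KF.S.FC
import Pool.Agent.KF.S.FLIP
import Pool.Agent.KF.S.IND
import Pool.Agent.KF.S.VERT
import Pool.Agent.KF.S.MINV
import Pool.Agent.KF.S.EDGE
import Pool.Agent.KF.S.GEN
import Pool.Agent.KF.S.LOW
import Pool.Agent.KF.S.CUTF
import Pool.Agent.KF.S.FACS
import Pool.Agent.KF.S.FACF
import Pool.Agent.KF.S.FACD
import Pool.Agent.KF.S.FACP
import Pool.Agent.KF.S.FAC
import Pool.Agent.KF.S.BALD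
import Pool.Agent.KF.S.FP1
import Pool.Agent.KF.S.FP2
import Pool.Agent.KF.S.EX
import Pool.Agent.KF.S.DETW
import Pool.Agent.KF.S.GNEG
import Pool.Agent.KF.S.SR0
import Pool.Agent.KF.S.SR1
import Pool.Agent.KF.S.DTOP
import Pool.Agent.KF.S.DLIN
import Pool.Agent.KF.S.DPOS
import Pool.Agent.KF.S.DEGAT
import Pool.Agent.KF.S.CFAC
import Pool.Agent.KF.S.CHL
import Pool.Agent.KF.S.START
import Pool.Agent.KF.S.SFLIP
import Pool.Agent.KF.S.END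
import Pool.Agent.KF.S.SWEEP
import Pool.Agent.KF.S.ZERO
import Pool.Agent.KF.S.STEP
import Pool.Agent.KF.S.PD1
import Pool.Agent.KF.S.PDS
import Pool.Agent.KF.S.FACE

/-!
# Part S: Hodge-Riemann relations for simple real polytopes, final statements
-/

namespace Pool.Agent.KF.S

theorem s_FD : Stmt_FD := t_FD
theorem s_AL : Stmt_AL := t_AL
theorem s_GRAM : Stmt_GRAM := t_GRAM s_FD
theorem s_OPEN : Stmt_OPEN := t_OPEN s_GRAM
theorem s_REP : Stmt_REP := t_REP s_GRAM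
theorem s_BD : Stmt_BD := t_BD s_GRAM
theorem s_HRC : Stmt_HRC := t_HRC s_AL s_FD
theorem s_TR : Stmt_TR := t_TR
theorem s_HLT : Stmt_HLT := t_HLT
theorem s_WALL : Stmt_WALL := t_WALL
theorem s_FANN : Stmt_FANN := t_FANN
theorem s_FNU : Stmt_FNU := t_FNU
theorem s_FW : Stmt_FW := t_FW s_WALL
theorem s_FEQ : Stmt_FEQ := t_FEQ
theorem s_FGT : Stmt_FGT := t_FGT
theorem s_FDN : Stmt_FDN := t_FDN
theorem s_FA : Stmt_FA := t_FA s_FANN s_FW s_HRC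
theorem s_FB : Stmt_FB := t_FB s_FNU s_FW s_OPEN s_HRC s_FEQ s_FGT s_REP s_BD s_FANN
theorem s_FC : Stmt_FC := t_FC s_FNU s_FW s_OPEN s_HRC s_FDN
theorem s_FLIP : Stmt_FLIP := t_FLIP s_FA s_FB s_FC
theorem s_IND : Stmt_IND := t_IND
theorem s_VERT : Stmt_VERT := t_VERT s_IND
theorem s_MINV : Stmt_MINV := t_MINV s_IND s_VERT
theorem s_EDGE : Stmt_EDGE := t_EDGE s_IND s_VERT s_MINV
theorem s_GEN : Stmt_GEN := t_GEN s_VERT
theorem s_LOW : Stmt_LOW := t_LOW s_VERT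
theorem s_CUTF : Stmt_CUTF := t_CUTF s_VERT s_MINV
theorem s_FACS : Stmt_FACS := t_FACS
theorem s_FACF : Stmt_FACF := t_FACF
theorem s_FACD : Stmt_FACD := t_FACD s_FACF
theorem s_FACP : Stmt_FACP := t_FACP
theorem s_FAC : Stmt_FAC := t_FAC s_FACS s_FACD s_FACP s_TR
theorem s_BALD : Stmt_BALD := t_BALD
theorem s_FP1 : Stmt_FP1 := t_FP1 s_VERT s_MINV
theorem s_FP2 : Stmt_FP2 := t_FP2 s_VERT s_MINV s_BALD s_FP1
theorem s_EX : Stmt_EX := t_EX s_VERT s_GEN s_FP1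
theorem s_DETW : Stmt_DETW := t_DETW s_VERT s_EDGE
theorem s_GNEG : Stmt_GNEG := t_GNEG s_VERT
theorem s_SR0 : Stmt_SR0 := t_SR0
theorem s_SR1 : Stmt_SR1 := t_SR1 s_VERT s_GNEG s_BALD s_FP1
theorem s_DTOP : Stmt_DTOP := t_DTOP s_GNEG s_FP2
theorem s_DLIN : Stmt_DLIN := t_DLIN s_VERT
theorem s_DPOS : Stmt_DPOS := t_DPOS s_VERT s_EDGE
theorem s_DEGAT : Stmt_DEGAT := t_DEGAT s_VERT s_MINV s_CUTF s_SR0 s_SR1 s_DPOS
theorem s_CFAC : Stmt_CFAC := t_CFAC s_FAC s_DEGAT s_DLIN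
theorem s_CHL : Stmt_CHL := t_CHL s_HLT s_CFAC s_DLIN s_VERT
theorem s_START : Stmt_START := t_START s_VERT s_MINV
theorem s_SFLIP : Stmt_SFLIP := t_SFLIP s_VERT s_LOW s_GNEG s_SR0 s_SR1 s_DLIN s_CFAC
theorem s_END : Stmt_END := t_END s_TR s_SR1 s_DTOP
theorem s_SWEEP : Stmt_SWEEP := t_SWEEP s_START s_FLIP s_SFLIP s_CHL s_HRC
theorem s_ZERO : Stmt_ZERO := t_ZERO
theorem s_STEP : Stmt_STEP := t_STEP s_GEN s_MINV s_SWEEP s_END
theorem s_PD1 : Stmt_PD1 := t_PD1 s_VERT s_MINV s_LOW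
theorem s_PDS : Stmt_PDS := t_PDS s_MINV s_LOW s_GEN s_GNEG s_PD1
theorem s_FACE : Stmt_FACE := t_FACE s_FACS s_FACD s_FACP s_TR

/-- Hodge-Riemann relations for simple real polytopes. -/
theorem shr : ∀ N : ℕ, SHRat N := by
  intro N
  induction N with
  | zero => exact s_ZERO
  | succ n ih => exact s_STEP n ih

end Pool.Agent.KF.S
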