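import Pool.Agent.KF.S.Basic

/-!
# BALD: the weights of a degree functional are balanced
-/

namespace Pool.Agent.KF.S

open MvPolynomial

namespace BALD_

variable {M : Type}

lemma exp_apply [DecidableEq M] (s : Finset M) (i : M) :
    (∑ j ∈ s, Finsupp.single j 1 : M →₀ ℕ) i = if i ∈ s then 1 else 0 := by
  rw [Finsupp.finsetSum_apply]
  simp only [Finsupp.single_apply]
  rw [Finset.sum_ite_eq' s i fun _ => 1]

lemma exp_support (s : Finset M) : (∑ j ∈ s, Finsupp.single j 1 : M →₀ ℕ).support = s := by
  classical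
  ext i
  rw [Finsupp.mem_support_iff, exp_apply]
  split_ifs with h <;> simp [h]

lemma exp_degree (s : Finset M) : (∑ j ∈ s, Finsupp.single j 1 : M →₀ ℕ).degree = s.card := by
  classical
  induction s using Finset.induction_on with
  | empty => simp
  | insert j s hj ih =>
    rw [Finset.sum_insert hj, Finset.card_insert_of_notMem hj, map_add, ih,
      Finsupp.degree_single, add_comm]

lemma D_mon {V : Type} [AddCommGroup V] [Module ℝ V] [Fintype M]
    {a : M → Module.Dual ℝ V} {h : M → ℝ} {N : ℕ} {D : MvPolynomial M ℝ →ₗ[ℝ] ℝ}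
    (hD : IsDeg a h N D) {s : Finset M} (hs : s.card = N) (hf : ¬ IsFace a h s) :
    D (mon s) = 0 := by
  rw [mon_eq_monomial]
  exact hD.sr _ ((exp_degree s).trans hs) (by rwa [exp_support])

end BALD_

theorem t_BALD : Stmt_BALD := by
  intro V M _ _ _ _ a h N D _ _ hD
  classical
  intro g hg y hy
  have h1 : D (lin a y * mon g) = 0 := hD.lin y g.card (mon g) hg (mon_hom g)
  have h2 : lin a y * mon g = ∑ l, (a l y) • (X l * mon g : MvPolynomial M ℝ) := by
    rw [lin, Finset.sum_mul]
    refine Finset.sum_congr rfl fun l _ => ?_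
    rw [smul_eq_C_mul, mul_assoc]
  rw [h2, map_sum] at h1
  rw [← h1, Finset.sum_filter]
  refine Finset.sum_congr rfl fun l _ => ?_
  rw [map_smul, smul_eq_mul]
  by_cases hl : l ∈ g
  · rw [if_neg fun h => h.1 hl, hy l hl, zero_mul]
  · have e : X l * mon g = mon (insert l g) := by
      unfold mon
      rw [Finset.prod_insert hl]
    rw [e]
    split_ifs with hf
    · rw [mul_comm]
    · rw [BALD_.D_mon hD (by rw [Finset.card_insert_of_notMem hl, hg]) fun h => hf ⟨hl, h⟩,
        mul_zero]

end Pool.Agent.KF.S
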