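import Pool.Agent.KF.S.Stmts

/-!
# Simplicial Hodge-Riemann relations: basic lemmas (usable in all modules)
-/

namespace Pool.Agent.KF.S

open MvPolynomial

section Fun

variable {J : Type}

lemma mon_hom (s : Finset J) : (mon s : MvPolynomial J ℝ).IsHomogeneous s.card := by
  unfold mon
  have h := IsHomogeneous.prod s (fun j => (X j : MvPolynomial J ℝ)) (fun _ => 1)
    (fun j _ => isHomogeneous_X ℝ j)
  simpa using h

lemma om_hom [Fintype J] (h : J → ℝ) : (om h : MvPolynomial J ℝ).IsHomogeneous 1 := by
  unfold om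
  refine IsHomogeneous.sum _ _ _ fun j _ => ?_
  have := (isHomogeneous_C J (h j)).mul (isHomogeneous_X ℝ j)
  simpa using this

lemma lin_hom {V : Type} [AddCommGroup V] [Module ℝ V] [Fintype J]
    (a : J → Module.Dual ℝ V) (y : V) : (lin a y : MvPolynomial J ℝ).IsHomogeneous 1 :=
  om_hom (fun j => a j y)

/-- Hodge-Riemann in a degree implies hard Lefschetz in this degree. -/
lemma HRi.hl {D : MvPolynomial J ℝ →ₗ[ℝ] ℝ} {i r : ℕ} {w : MvPolynomial J ℝ}
    (hw : w.IsHomogeneous 1) (H : HRi D i r w) : HLi D i r w := by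
  intro p hp h0
  have hprim : Prim D i r w p := by
    intro k q hk hq
    have h1 := h0 (w * q) (by
      have := hw.mul hq
      rwa [show 1 + k = i by omega] at this)
    rw [pow_succ]
    rw [show p * (w ^ r * w) * q = p * w ^ r * (w * q) by ring]
    exact h1
  exact (H p hp hprim).2 (h0 p hp)

lemma HR.hl {D : MvPolynomial J ℝ →ₗ[ℝ] ℝ} {N : ℕ} {w : MvPolynomial J ℝ}
    (hw : w.IsHomogeneous 1) (H : HR D N w) : HL D N w :=
  fun i r h => (H i r h).hl hw

/-- Continuity of the basic expression. -/
lemma cont_pow (D : MvPolynomial J ℝ →ₗ[ℝ] ℝ) (w x : MvPolynomial J ℝ) (r : ℕ) :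
    ∀ p q : MvPolynomial J ℝ, Continuous (fun t : ℝ => D (p * (w + C t * x) ^ r * q)) := by
  induction r with
  | zero => intro p q; simpa using continuous_const
  | succ r ih =>
    intro p q
    have h : ∀ t : ℝ, D (p * (w + C t * x) ^ (r + 1) * q) =
        D ((p * w) * (w + C t * x) ^ r * q) + t * D ((p * x) * (w + C t * x) ^ r * q) := by
      intro t
      have e : p * (w + C t * x) ^ (r + 1) * q =
          (p * w) * (w + C t * x) ^ r * q + t • ((p * x) * (w + C t * x) ^ r * q) := by
        rw [smul_eq_C_mul]; ring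
      rw [e, map_add, map_smul, smul_eq_mul]
    simp only [h]
    exact (ih (p * w) q).add (continuous_id.mul (ih (p * x) q))

/-- The functional vanishes on homogeneous polynomials if it vanishes on monomials. -/
lemma ext_monomial {D : MvPolynomial J ℝ →ₗ[ℝ] ℝ} {n : ℕ}
    (H : ∀ m : J →₀ ℕ, m.degree = n → D (monomial m 1) = 0) (q : MvPolynomial J ℝ)
    (hq : q.IsHomogeneous n) : D q = 0 := by
  rw [q.as_sum, map_sum]
  refine Finset.sum_eq_zero fun m hm => ?_
  have hd : m.degree = n := by
    have h1 := hq (mem_support_iff.mp hm)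
    rw [Finsupp.degree_eq_weight_one]
    exact h1
  have e : monomial m (coeff m q) = (coeff m q) • (monomial m (1 : ℝ)) := by
    rw [smul_monomial, smul_eq_mul, mul_one]
  rw [e, map_smul, H m hd, smul_zero]

lemma mon_eq_monomial (s : Finset J) :
    (mon s : MvPolynomial J ℝ) = monomial (∑ j ∈ s, Finsupp.single j 1) 1 := by
  classical
  unfold mon
  induction s using Finset.induction_on with
  | empty => simp
  | insert j s hj ih =>
    rw [Finset.prod_insert hj, Finset.sum_insert hj, ih, X, monomial_mul, one_mul]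

end Fun

end Pool.Agent.KF.S
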