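import Mathlib

/-!
# Simplicial Hodge-Riemann relations for simple real polytopes: definitions

Block SHR of the project MP_716236_co (architect helper73); paper: `Pool/Agent/KF/S/PAPER.md`.
A polytope is given by functionals `a j` and numbers `h j`: the points `x` with `a j x ≤ h j`.
The ring is `MvPolynomial M ℝ`; a functional `D` on it is only used in one degree `N`.
-/

namespace Pool.Agent.KF.S

open MvPolynomial

/-! ## Functionals on polynomials -/

section Fun

variable {J : Type}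

/-- The functional `q ↦ D (f * q)`. -/
noncomputable def act (f : MvPolynomial J ℝ) (D : MvPolynomial J ℝ →ₗ[ℝ] ℝ) :
    MvPolynomial J ℝ →ₗ[ℝ] ℝ := D ∘ₗ LinearMap.mulLeft ℝ f

@[simp] lemma act_apply (f : MvPolynomial J ℝ) (D : MvPolynomial J ℝ →ₗ[ℝ] ℝ)
    (q : MvPolynomial J ℝ) : act f D q = D (f * q) := rfl

/-- Squarefree monomial of a finite set. -/
noncomputable def mon (s : Finset J) : MvPolynomial J ℝ := ∏ j ∈ s, X j

/-- Hard Lefschetz in degree `i` (total degree `2 * i + r`). -/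
def HLi (D : MvPolynomial J ℝ →ₗ[ℝ] ℝ) (i r : ℕ) (w : MvPolynomial J ℝ) : Prop :=
  ∀ p : MvPolynomial J ℝ, p.IsHomogeneous i →
    (∀ q : MvPolynomial J ℝ, q.IsHomogeneous i → D (p * w ^ r * q) = 0) →
    ∀ q : MvPolynomial J ℝ, q.IsHomogeneous (i + r) → D (p * q) = 0

/-- Primitivity in degree `i`; no condition for `i = 0`. -/
def Prim (D : MvPolynomial J ℝ →ₗ[ℝ] ℝ) (i r : ℕ) (w p : MvPolynomial J ℝ) : Prop :=
  ∀ (k : ℕ) (q : MvPolynomial J ℝ), k + 1 = i → q.IsHomogeneous k →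
    D (p * w ^ (r + 1) * q) = 0

/-- Hodge-Riemann relation in degree `i` (total degree `2 * i + r`). -/
def HRi (D : MvPolynomial J ℝ →ₗ[ℝ] ℝ) (i r : ℕ) (w : MvPolynomial J ℝ) : Prop :=
  ∀ p : MvPolynomial J ℝ, p.IsHomogeneous i → Prim D i r w p →
    0 ≤ (-1 : ℝ) ^ i * D (p * w ^ r * p) ∧
    (D (p * w ^ r * p) = 0 →
      ∀ q : MvPolynomial J ℝ, q.IsHomogeneous (i + r) → D (p * q) = 0)

/-- Hard Lefschetz in all degrees. -/
def HL (D : MvPolynomial J ℝ →ₗ[ℝ] ℝ) (N : ℕ) (w : MvPolynomial J ℝ) : Prop :=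
  ∀ i r : ℕ, 2 * i + r = N → HLi D i r w

/-- Hodge-Riemann relations in all degrees. -/
def HR (D : MvPolynomial J ℝ →ₗ[ℝ] ℝ) (N : ℕ) (w : MvPolynomial J ℝ) : Prop :=
  ∀ i r : ℕ, 2 * i + r = N → HRi D i r w

end Fun

/-! ## Systems -/

section Sys

variable {V : Type} [AddCommGroup V] [Module ℝ V] {M : Type}

/-- Feasible points. -/
def Feas (a : M → Module.Dual ℝ V) (h : M → ℝ) (x : V) : Prop := ∀ j, a j x ≤ h j

/-- Boundedness of the polytope. -/
def Bdd (a : M → Module.Dual ℝ V) : Prop := ∀ y : V, (∀ j, a j y ≤ 0) → y = 0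

/-- A full dimensional simple polytope (inequalities that are never tight are allowed). -/
structure Simple (a : M → Module.Dual ℝ V) (h : M → ℝ) : Prop where
  bdd : Bdd a
  int : ∃ x : V, ∀ j, a j x < h j
  ind : ∀ x : V, Feas a h x → LinearIndependent ℝ (fun j : {j : M // a j x = h j} => a j.1)

/-- `s` is a set of simultaneously tight inequalities. -/
def IsFace (a : M → Module.Dual ℝ V) (h : M → ℝ) (s : Finset M) : Prop :=
  ∃ x : V, Feas a h x ∧ ∀ j ∈ s, a j x = h j

/-- Vertices: tight sets of size `N` (`N` is the dimension). -/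
def IsVert (a : M → Module.Dual ℝ V) (h : M → ℝ) (N : ℕ) (B : Finset M) : Prop :=
  IsFace a h B ∧ B.card = N

/-- The linear form of a vector. -/
noncomputable def lin [Fintype M] (a : M → Module.Dual ℝ V) (y : V) : MvPolynomial M ℝ :=
  ∑ j, C (a j y) * X j

/-- The form `Σ h_j X_j`. -/
noncomputable def om {M : Type} [Fintype M] (h : M → ℝ) : MvPolynomial M ℝ :=
  ∑ j, C (h j) * X j

/-- `D` kills the linear forms (total degree `N`). -/
def LinK [Fintype M] (a : M → Module.Dual ℝ V) (N : ℕ) (D : MvPolynomial M ℝ →ₗ[ℝ] ℝ) : Prop :=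
  ∀ (y : V) (n : ℕ) (q : MvPolynomial M ℝ), n + 1 = N → q.IsHomogeneous n →
    D (lin a y * q) = 0

/-- Degree functionals of a system. -/
structure IsDeg [Fintype M] (a : M → Module.Dual ℝ V) (h : M → ℝ) (N : ℕ)
    (D : MvPolynomial M ℝ →ₗ[ℝ] ℝ) : Prop where
  sr : ∀ m : M →₀ ℕ, m.degree = N → ¬ IsFace a h m.support → D (monomial m 1) = 0
  lin : LinK a N D
  pos : ∀ s : Finset M, IsVert a h N s → 0 < D (mon s)

/-- Local version along the facet `o`. -/
structure DegAt (a : M → Module.Dual ℝ V) (h : M → ℝ) (N : ℕ)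
    (D : MvPolynomial M ℝ →ₗ[ℝ] ℝ) (o : M) : Prop where
  ind : ∀ x : V, Feas a h x → a o x = h o →
    LinearIndependent ℝ (fun j : {j : M // a j x = h j} => a j.1)
  sr : ∀ m : M →₀ ℕ, m.degree = N → o ∈ m.support → ¬ IsFace a h m.support →
    D (monomial m 1) = 0
  pos : ∀ s : Finset M, o ∈ s → IsVert a h N s → 0 < D (mon s)

/-- The vertex point (chosen). -/
noncomputable def pt (a : M → Module.Dual ℝ V) (h : M → ℝ) (B : Finset M) : V :=
  open Classical in
  if H : IsFace a h B then H.choose else 0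

/-- Coordinates of a functional with respect to `(a j)`, `j ∈ B` (chosen). -/
noncomputable def co (a : M → Module.Dual ℝ V) (z : Module.Dual ℝ V) (B : Finset M) : M → ℝ :=
  open Classical in
  if H : ∃ c : M → ℝ, (∀ j, j ∉ B → c j = 0) ∧ ∑ j ∈ B, c j • a j = z then H.choose else 0

/-- Facts on a vertex. -/
structure VertFacts (a : M → Module.Dual ℝ V) (h : M → ℝ) (B : Finset M) : Prop where
  surj : ∀ c : M → ℝ, ∃ y : V, ∀ j ∈ B, a j y = c j
  inj : ∀ y : V, (∀ j ∈ B, a j y = 0) → y = 0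
  feas : Feas a h (pt a h B)
  tight : ∀ j ∈ B, a j (pt a h B) = h j
  slack : ∀ j, j ∉ B → a j (pt a h B) < h j
  co_supp : ∀ (z : Module.Dual ℝ V) (j : M), j ∉ B → co a z B j = 0
  co_sum : ∀ z : Module.Dual ℝ V, ∑ j ∈ B, co a z B j • a j = z
  co_uniq : ∀ (z : Module.Dual ℝ V) (c : M → ℝ), (∀ j, j ∉ B → c j = 0) →
    ∑ j ∈ B, c j • a j = z → c = co a z B

/-- The finite set of vertices. -/
noncomputable def verts [Fintype M] (a : M → Module.Dual ℝ V) (h : M → ℝ) (N : ℕ) :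
    Finset (Finset M) :=
  open Classical in
  Finset.univ.filter (fun B => IsVert a h N B)

/-- Generic functional: nonzero coordinates at the vertices, distinct values at the vertices. -/
structure Gen (a : M → Module.Dual ℝ V) (h : M → ℝ) (N : ℕ) (z : Module.Dual ℝ V) : Prop where
  ne : ∀ B : Finset M, IsVert a h N B → ∀ j ∈ B, co a z B j ≠ 0
  inj : ∀ B B' : Finset M, IsVert a h N B → IsVert a h N B' →
    z (pt a h B) = z (pt a h B') → B = B'

/-- Balanced weights on the faces of size `m`. -/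
def Bal [Fintype M] (a : M → Module.Dual ℝ V) (h : M → ℝ) (m : ℕ) (u : Finset M → ℝ) : Prop :=
  open Classical in
  ∀ g : Finset M, g.card + 1 = m → ∀ y : V, (∀ j ∈ g, a j y = 0) →
    ∑ l ∈ Finset.univ.filter (fun l => l ∉ g ∧ IsFace a h (insert l g)),
      u (insert l g) * a l y = 0

/-- The relations (Stanley-Reisner and linear) in degree `k`. -/
noncomputable def Rel [Fintype M] (a : M → Module.Dual ℝ V) (h : M → ℝ) (k : ℕ) :
    Submodule ℝ (MvPolynomial M ℝ) :=
  Submodule.span ℝ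
    ({p | ∃ m : M →₀ ℕ, m.degree = k ∧ ¬ IsFace a h m.support ∧ p = monomial m 1} ∪
     {p | ∃ (y : V) (n : ℕ) (q : MvPolynomial M ℝ), n + 1 = k ∧ q.IsHomogeneous n ∧
        p = lin a y * q})

/-- The upper part of a vertex. -/
noncomputable def Rset (a : M → Module.Dual ℝ V) (z : Module.Dual ℝ V) (B : Finset M) :
    Finset M :=
  open Classical in
  B.filter (fun j => 0 < co a z B j)

/-- Volume of a set of `N` functionals with respect to a basis. -/
noncomputable def vol {N : ℕ} (b : Module.Basis (Fin N) ℝ V) (a : M → Module.Dual ℝ V)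
    (s : Finset M) : ℝ :=
  open Classical in
  if H : s.card = N then
    |Matrix.det (Matrix.of fun i k : Fin N =>
      a (s.equivFin.symm (Fin.cast H.symm i)).1 (b k))|
  else 0

/-- The localization sum at the face `s`. -/
noncomputable def phi [Fintype M] (a : M → Module.Dual ℝ V) (h : M → ℝ) (N : ℕ)
    (z : Module.Dual ℝ V) (u : Finset M → ℝ) (s : Finset M) (q : MvPolynomial M ℝ) : ℝ :=
  open Classical in
  ∑ B ∈ (verts a h N).filter (fun B => s ⊆ B),
    u B * aeval (co a z B) q / ∏ j ∈ B.filter (fun j => j ∉ s), co a z B j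

/-! ## Cuts -/

/-- The cut system, functionals. -/
def cutA (a : M → Module.Dual ℝ V) (z : Module.Dual ℝ V) : Option M → Module.Dual ℝ V
  | none => z
  | some j => a j

/-- The cut system, numbers. -/
def cutH {M : Type} (h : M → ℝ) (c : ℝ) : Option M → ℝ
  | none => c
  | some j => h j

/-- The relation `z - Σ z_j a_j = 0` at the vertex `B`. -/
noncomputable def lam (a : M → Module.Dual ℝ V) (z : Module.Dual ℝ V) (B : Finset M) :
    Option M → ℝ
  | none => 1
  | some j => co a (-z) B j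

/-- The functional of the part `z ≤ c`. -/
noncomputable def Dc [Fintype M] (a : M → Module.Dual ℝ V) (h : M → ℝ) (N : ℕ)
    (z : Module.Dual ℝ V) (D : MvPolynomial M ℝ →ₗ[ℝ] ℝ) (c : ℝ) :
    MvPolynomial (Option M) ℝ →ₗ[ℝ] ℝ :=
  open Classical in
  ∑ B ∈ (verts a h N).filter (fun B => z (pt a h B) < c),
    (D (mon B) / ∏ j ∈ B, co a (-z) B j) • (aeval (lam a z B)).toLinearMap

/-! ## Facets -/

/-- The facet system, functionals. -/
noncomputable def facA (a : M → Module.Dual ℝ V) (o : M) :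
    {i : M // i ≠ o} → Module.Dual ℝ (LinearMap.ker (a o)) :=
  fun i => (a i.1) ∘ₗ (LinearMap.ker (a o)).subtype

/-- The facet system, numbers (`y` with `a o y = 1`). -/
noncomputable def facH (a : M → Module.Dual ℝ V) (h : M → ℝ) (o : M) (y : V) :
    {i : M // i ≠ o} → ℝ :=
  fun i => h i.1 - h o * a i.1 y

/-- The facet functional. -/
noncomputable def facD (D : MvPolynomial M ℝ →ₗ[ℝ] ℝ) (o : M) :
    MvPolynomial {i : M // i ≠ o} ℝ →ₗ[ℝ] ℝ :=
  (act (X o) D) ∘ₗ (rename (R := ℝ) (fun i : {i : M // i ≠ o} => i.1)).toLinearMap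

/-- The substitution `X_o = - Σ a_i(y) X_i`. -/
noncomputable def facP [Fintype M] [DecidableEq M] (a : M → Module.Dual ℝ V) (o : M) (y : V) :
    MvPolynomial M ℝ →ₐ[ℝ] MvPolynomial {i : M // i ≠ o} ℝ :=
  aeval (fun i : M => if H : i = o then
    - ∑ k : {i : M // i ≠ o}, C (a k.1 y) * X k else X ⟨i, H⟩)

end Sys

/-! ## The theorem -/

/-- The theorem in dimension `N`. -/
def SHRat (N : ℕ) : Prop :=
  ∀ (V M : Type) [AddCommGroup V] [Module ℝ V] [FiniteDimensional ℝ V] [Fintype M]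
    (a : M → Module.Dual ℝ V) (h : M → ℝ) (D : MvPolynomial M ℝ →ₗ[ℝ] ℝ),
    Module.finrank ℝ V = N → Simple a h → IsDeg a h N D → HR D N (om h)

/-! ## Flips -/

/-- The data of a flip, abstractly. -/
structure Flip {J : Type} [Fintype J] (N : ℕ) (D0 D1 : MvPolynomial J ℝ →ₗ[ℝ] ℝ)
    (g : J → ℝ) (s : ℝ) (o : J) (w : MvPolynomial J ℝ) (Ip Im : Finset J) : Prop where
  eq : ∀ p, D1 p = D0 p + s * aeval g p
  mp : ∀ j, j ∈ Ip ↔ 0 < g j
  mm : ∀ j, j ∈ Im ↔ g j < 0
  card : Ip.card + Im.card = N + 1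
  im_pos : 1 ≤ Im.card
  go : g o = 1
  sgn : 0 < s * (-1 : ℝ) ^ Im.card
  k0 : ∀ (n : ℕ) (q : MvPolynomial J ℝ), n + Im.card = N → q.IsHomogeneous n →
    D0 (mon Im * q) = 0
  k1 : ∀ (n : ℕ) (q : MvPolynomial J ℝ), n + Ip.card = N → q.IsHomogeneous n →
    D1 (mon Ip * q) = 0
  w1 : w.IsHomogeneous 1
  wg : aeval g w = 0
  rel : ∀ j : J, ∃ c : J → ℝ, (∀ l, g l ≠ 0 → c l = 0) ∧
    ∀ (n : ℕ) (q : MvPolynomial J ℝ), n + 1 = N → q.IsHomogeneous n →
      D0 ((X j - C (g j) * X o - om c) * q) = 0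
  wrel : ∃ c : J → ℝ, (∀ l, g l ≠ 0 → c l = 0) ∧ (∀ l, g l = 0 → 0 < c l) ∧
    ∀ (n : ℕ) (q : MvPolynomial J ℝ), n + 1 = N → q.IsHomogeneous n →
      D0 ((w - om c) * q) = 0
  whr : ∀ (l : J) (n : ℕ), n + 1 = N → g l = 0 → HR (act (X l) D0) n w

end Pool.Agent.KF.S
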