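import Pool.Agent.KF.S.Basic

/-!
# END: the end of the sweep
-/

namespace Pool.Agent.KF.S

open MvPolynomial

namespace END_

variable {M : Type}

/-- The substitution that kills the new variable. -/
noncomputable def fEnd (M : Type) : MvPolynomial (Option M) ℝ →ₐ[ℝ] MvPolynomial M ℝ :=
  aeval fun o : Option M => o.elim 0 X

lemma fEnd_none : fEnd M (X none) = 0 := by
  unfold fEnd
  rw [aeval_X]
  rfl

lemma fEnd_some (j : M) : fEnd M (X (some j)) = X j := by
  unfold fEnd
  rw [aeval_X]
  rfl

lemma fEnd_hom (k : ℕ) (p : MvPolynomial (Option M) ℝ) (hp : p.IsHomogeneous k) :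
    (fEnd M p).IsHomogeneous k := by
  have h := hp.aeval (fun o : Option M => (o.elim 0 X : MvPolynomial M ℝ)) (n := 1) (by
    intro o
    cases o with
    | none => exact isHomogeneous_zero _ _ _
    | some j => exact isHomogeneous_X ℝ j)
  rw [one_mul] at h
  exact h

lemma fEnd_rename (p : MvPolynomial M ℝ) : fEnd M (rename some p) = p := by
  have h : (fEnd M).comp (rename (R := ℝ) (some : M → Option M)) = AlgHom.id ℝ _ := by
    refine algHom_ext fun j => ?_
    rw [AlgHom.comp_apply, rename_X, fEnd_some]
    rfl
  exact AlgHom.congr_fun h p

lemma fEnd_om [Fintype M] (h : M → ℝ) (c : ℝ) : fEnd M (om (cutH h c)) = om h := by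
  unfold om
  rw [Fintype.sum_option, map_add, map_sum, map_mul, fEnd_none, mul_zero, zero_add]
  refine Finset.sum_congr rfl fun j _ => ?_
  rw [map_mul, fEnd_some]
  congr 1
  exact (fEnd M).commutes (h j)

lemma mapDomain_some (m : Option M →₀ ℕ) (h : m none = 0) :
    (Finsupp.some m).mapDomain Option.some = m := by
  ext o
  cases o with
  | none =>
    rw [Finsupp.mapDomain_notin_range, h]
    rintro ⟨j, hj⟩
    exact Option.some_ne_none j hj
  | some j => rw [Finsupp.mapDomain_apply (Option.some_injective M), Finsupp.some_apply]

end END_

open END_ in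
theorem t_END (hTR : Stmt_TR) (hSR1 : Stmt_SR1) (hDTOP : Stmt_DTOP) : Stmt_END := by
  intro V M _ _ _ _ a h N z D hS hN hz hD c hc hHR
  have hD1 : ∀ p : MvPolynomial (Option M) ℝ, p.IsHomogeneous N →
      Dc a h N z D c p = D (fEnd M p) := by
    intro p hp
    have key : (Dc a h N z D c - D ∘ₗ (fEnd M).toLinearMap) p = 0 := by
      refine ext_monomial (n := N) ?_ p hp
      intro m hm
      rw [LinearMap.sub_apply, LinearMap.comp_apply, sub_eq_zero]
      change _ = D (fEnd M (monomial m 1))
      by_cases h0 : m none = 0
      · have e : (monomial m (1 : ℝ)) = rename some (monomial (Finsupp.some m) (1 : ℝ)) := by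
          rw [rename_monomial, mapDomain_some m h0]
        have h1 : (monomial m (1 : ℝ)).IsHomogeneous N := isHomogeneous_monomial 1 hm
        have h2 : (monomial (Finsupp.some m) (1 : ℝ)).IsHomogeneous N := by
          have h3 := fEnd_hom N _ h1
          rw [e, fEnd_rename] at h3
          exact h3
        rw [e, fEnd_rename]
        exact hDTOP V M a h N z D hS hN hz hD c hc _ h2
      · have hle : Finsupp.single (none : Option M) 1 ≤ m := by
          rw [Finsupp.single_le_iff]
          omega
        have e : (monomial m (1 : ℝ)) =
            X none * monomial (m - Finsupp.single (none : Option M) 1) (1 : ℝ) := by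
          rw [X, monomial_mul, one_mul, add_tsub_cancel_of_le hle]
        have hdeg : (m - Finsupp.single (none : Option M) 1).degree + 1 = N := by
          have h3 : (Finsupp.single (none : Option M) 1 +
              (m - Finsupp.single (none : Option M) 1)).degree = N := by
            rw [add_tsub_cancel_of_le hle]
            exact hm
          rw [map_add, Finsupp.degree_single] at h3
          omega
        rw [e, map_mul (fEnd M), fEnd_none, zero_mul, map_zero]
        have h4 := hSR1 V M a h N z D hS hN hz hD c ∅ (fun B hB _ => hc B hB)
          (m - Finsupp.single (none : Option M) 1).degree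
          (monomial (m - Finsupp.single (none : Option M) 1) (1 : ℝ))
          (by rw [Finset.card_empty]; omega) (isHomogeneous_monomial 1 rfl)
        have h5 : (mon (Finset.insertNone (∅ : Finset M)) : MvPolynomial (Option M) ℝ) =
            X none := by
          have h6 : Finset.insertNone (∅ : Finset M) = {none} := by
            ext o
            cases o with
            | none => simp
            | some j => simp
          unfold mon
          rw [h6, Finset.prod_singleton]
        rw [h5] at h4
        exact h4
    rw [LinearMap.sub_apply, sub_eq_zero] at key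
    exact key
  have h1 := (hTR (Option M) M (fEnd M) (rename some) (Dc a h N z D c) D N (om (cutH h c))
    fEnd_hom (fun k p hp => hp.rename_isHomogeneous) fEnd_rename (om_hom _) hD1).1 hHR
  rw [fEnd_om] at h1
  exact h1

end Pool.Agent.KF.S
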