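import Pool.Agent.KF.S.Basic

/-!
# FA: a flip, degrees below both sizes
-/

namespace Pool.Agent.KF.S

open MvPolynomial

namespace FA_

/-- The path of functionals. -/
noncomputable def Dt {J : Type} (D0 D1 : MvPolynomial J ℝ →ₗ[ℝ] ℝ) (t : ℝ) :
    MvPolynomial J ℝ →ₗ[ℝ] ℝ := if t ≤ 0 then D0 else D1

theorem Dt_neg {J : Type} {D0 D1 : MvPolynomial J ℝ →ₗ[ℝ] ℝ} {t : ℝ} (h : t ≤ 0) :
    Dt D0 D1 t = D0 := if_pos h

theorem Dt_pos {J : Type} {D0 D1 : MvPolynomial J ℝ →ₗ[ℝ] ℝ} {t : ℝ} (h : 0 < t) :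
    Dt D0 D1 t = D1 := if_neg (not_le.2 h)

theorem wt_hom {J : Type} {w : MvPolynomial J ℝ} (hw : w.IsHomogeneous 1) (o : J) (t : ℝ) :
    (w + C t * X o).IsHomogeneous 1 := by
  refine hw.add ?_
  have := (isHomogeneous_C J t).mul (isHomogeneous_X ℝ o)
  simpa using this

theorem cont {J : Type} {D0 D1 : MvPolynomial J ℝ →ₗ[ℝ] ℝ} {g : J → ℝ} {s : ℝ} {o : J}
    {w : MvPolynomial J ℝ} (eq : ∀ p, D1 p = D0 p + s * aeval g p) (go : g o = 1)
    (wg : aeval g w = (0 : ℝ)) (m : ℕ) (hm : 1 ≤ m) (p q : MvPolynomial J ℝ) :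
    Continuous (fun t => Dt D0 D1 t (p * (w + C t * X o) ^ m * q)) := by
  have e : (fun t => Dt D0 D1 t (p * (w + C t * X o) ^ m * q)) = fun t =>
      D0 (p * (w + C t * X o) ^ m * q) +
        (if t ≤ 0 then 0 else s * (aeval g p * t ^ m * aeval g q)) := by
    funext t
    rcases le_or_gt t 0 with h | h
    · rw [Dt_neg h, if_pos h, add_zero]
    · rw [Dt_pos h, if_neg (not_le.2 h), eq]
      congr 2
      rw [map_mul, map_mul, map_pow, map_add, map_mul, aeval_X, wg, go, aeval_C, zero_add, mul_one]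
      rfl
  rw [e]
  refine (cont_pow D0 w (X o) m p q).add ?_
  refine Continuous.if_le continuous_const ?_ continuous_id continuous_const ?_
  · fun_prop
  · intro x hx
    have hx' : x = 0 := hx
    rw [hx', zero_pow (by omega), mul_zero, zero_mul, mul_zero]

end FA_

open FA_ in
theorem t_FA (hFANN : Stmt_FANN) (hFW : Stmt_FW) (hHRC : Stmt_HRC) : Stmt_FA := by
  intro J _ N D0 D1 g s o w Ip Im F d hd H0 H1 i r hN hi hi'
  have hc := F.card
  have hw : ∀ t : ℝ, (w + C t * X o).IsHomogeneous 1 := wt_hom F.w1 o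
  -- annihilators
  have ann0 : ∀ k j : ℕ, k + j = N → k ≤ i → ∀ p : MvPolynomial J ℝ, p.IsHomogeneous k →
      (∀ t : ℝ, (∀ q : MvPolynomial J ℝ, q.IsHomogeneous j → Dt D0 D1 t (p * q) = 0) →
        aeval g p = (0 : ℝ)) := by
    intro k j hkj hk p hp t h
    rcases le_or_gt t 0 with ht | ht
    · rw [Dt_neg ht] at h
      exact (hFANN J N D0 D1 g s o w Ip Im F k j hkj).1 (by omega) p hp h
    · rw [Dt_pos ht] at h
      exact (hFANN J N D0 D1 g s o w Ip Im F k j hkj).2 (by omega) p hp h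
  have same : ∀ p : MvPolynomial J ℝ, aeval g p = (0 : ℝ) → ∀ (t t' : ℝ) (q : MvPolynomial J ℝ),
      Dt D0 D1 t (p * q) = Dt D0 D1 t' (p * q) := by
    intro p hp t t' q
    have h1 : ∀ t, Dt D0 D1 t (p * q) = D0 (p * q) := by
      intro t
      rcases le_or_gt t 0 with ht | ht
      · rw [Dt_neg ht]
      · have hz : aeval g (p * q) = (0 : ℝ) := by rw [map_mul, hp, zero_mul]
        rw [Dt_pos ht, F.eq, hz, mul_zero, add_zero]
    rw [h1, h1]
  have ann : ∀ k j : ℕ, k + j = N → k ≤ i → ∀ (t t' : ℝ) (p : MvPolynomial J ℝ),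
      p.IsHomogeneous k →
      (∀ q : MvPolynomial J ℝ, q.IsHomogeneous j → Dt D0 D1 t (p * q) = 0) →
      ∀ q : MvPolynomial J ℝ, q.IsHomogeneous j → Dt D0 D1 t' (p * q) = 0 := by
    intro k j hkj hk t t' p hp h q hq
    rw [same p (ann0 k j hkj hk p hp t h) t' t]
    exact h q hq
  -- hard Lefschetz
  have hl : ∀ k r' : ℕ, 2 * k + r' = N → k ≤ i → ∀ t ∈ Set.Ioo (-d) d,
      HLi (Dt D0 D1 t) k r' (w + C t * X o) := by
    intro k r' hk hki t ht
    rcases lt_trichotomy t 0 with h | h | h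
    · rw [Dt_neg h.le]
      exact (H0 t ht.1 h).hl (hw t) k r' hk
    · rw [Dt_neg h.le, h, C_0, zero_mul, add_zero]
      exact (hFW J N D0 D1 g s o w Ip Im F k r' hk).1 (by omega)
    · rw [Dt_pos h]
      exact H1 t h ht.2 k r' hk
  have fin := hHRC J (Set.Ioo (-d) d) (Dt D0 D1) (fun t => w + C t * X o) i r
    Set.ordConnected_Ioo hw
    (fun m hm p q => (cont F.eq F.go F.wg m (by omega) p q).continuousOn)
    (fun t ht => hl i r hN le_rfl t ht)
    (fun t ht k hk => hl k (r + 2) (by omega) (by omega) t ht)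
    (fun t _ t' _ p hp h => ann i (i + r) (by omega) le_rfl t t' p hp h)
    (fun k hk t _ t' _ p hp h => ann k (i + r + 1) (by omega) (by omega) t t' p hp h)
    (-(d / 2)) ⟨by linarith, by linarith⟩ (by
      rw [Dt_neg (by linarith)]
      exact H0 (-(d / 2)) (by linarith) (by linarith) i r hN)
  refine ⟨d, hd, fun t ht htd => ?_⟩
  have h := fin t ⟨by linarith, htd⟩
  rw [Dt_pos ht] at h
  exact h

end Pool.Agent.KF.S
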