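import Pool.Agent.KF.S.Basic

/-!
# Part A of SHR: the homogeneous polynomials of a degree are finite dimensional
-/

namespace Pool.Agent.KF.S

open MvPolynomial

/-- The homogeneous polynomials of degree `i` are finite dimensional. -/
theorem t_FD : Stmt_FD := by
  intro J _ i
  exact Module.Finite.iff_fg.2 (homogeneousSubmodule_fg _ _ i)

end Pool.Agent.KF.S
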