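import Pool.Agent.KF.S.Defs

/-!
# Simplicial Hodge-Riemann relations: statements of the modules

Paper proofs: `Pool/Agent/KF/S/PAPER.md`, paragraph with the same name.
-/

namespace Pool.Agent.KF.S

open MvPolynomial

/-! ## Part A: forms and continuity -/

/-- Continuity lemma for definiteness on the orthogonal complement. -/
def Stmt_AL : Prop :=
  ∀ (U U' : Type) [AddCommGroup U] [Module ℝ U] [FiniteDimensional ℝ U]
    [AddCommGroup U'] [Module ℝ U'] [FiniteDimensional ℝ U']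
    (K : Submodule ℝ U) (K' : Submodule ℝ U') (T : Set ℝ)
    (B : ℝ → U →ₗ[ℝ] U →ₗ[ℝ] ℝ) (B' : ℝ → U' →ₗ[ℝ] U' →ₗ[ℝ] ℝ) (L : ℝ → U' →ₗ[ℝ] U),
    T.OrdConnected →
    (∀ p q, ContinuousOn (fun t => B t p q) T) →
    (∀ p q, ContinuousOn (fun t => B t p (L t q)) T) →
    (∀ p q, ContinuousOn (fun t => B' t p q) T) →
    (∀ t ∈ T, ∀ p q, B t p q = B t q p) →
    (∀ t ∈ T, ∀ p q, B' t p q = B t (L t p) (L t q)) →
    (∀ t ∈ T, ∀ p, (∀ q, B t p q = 0) ↔ p ∈ K) →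
    (∀ t ∈ T, ∀ p, (∀ q, B' t p q = 0) ↔ p ∈ K') →
    (∀ t ∈ T, ∀ p ∈ K', L t p ∈ K) →
    ∀ t₀ ∈ T,
      (∀ p, (∀ q, B t₀ p (L t₀ q) = 0) → 0 ≤ B t₀ p p ∧ (B t₀ p p = 0 → p ∈ K)) →
      ∀ t ∈ T, ∀ p, (∀ q, B t p (L t q) = 0) → 0 ≤ B t p p ∧ (B t p p = 0 → p ∈ K)

/-- The homogeneous polynomials of degree `i` are finite dimensional. -/
def Stmt_FD : Prop :=
  ∀ (J : Type) [Fintype J] (i : ℕ), FiniteDimensional ℝ (homogeneousSubmodule J ℝ i)

/-- Gram matrices. -/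
def Stmt_GRAM : Prop :=
  ∀ (J : Type) [Fintype J] (D : MvPolynomial J ℝ →ₗ[ℝ] ℝ) (i r : ℕ) (w x : MvPolynomial J ℝ),
    w.IsHomogeneous 1 → x.IsHomogeneous 1 →
    ∃ (n : ℕ) (e : Fin n → MvPolynomial J ℝ), (∀ b, (e b).IsHomogeneous i) ∧
      (∀ p : MvPolynomial J ℝ, p.IsHomogeneous i → ∃ (c : Fin n → ℝ) (k : MvPolynomial J ℝ),
        k.IsHomogeneous i ∧ (∀ q : MvPolynomial J ℝ, q.IsHomogeneous (i + r) → D (k * q) = 0) ∧
        p = ∑ b, C (c b) * e b + k) ∧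
      ∀ t : ℝ, HLi D i r (w + C t * x) ↔
        (Matrix.of fun b b' : Fin n => D (e b * (w + C t * x) ^ r * e b')).det ≠ 0

/-- Openness of hard Lefschetz. -/
def Stmt_OPEN : Prop :=
  ∀ (J : Type) [Fintype J] (D : MvPolynomial J ℝ →ₗ[ℝ] ℝ) (i r : ℕ) (w x : MvPolynomial J ℝ),
    w.IsHomogeneous 1 → x.IsHomogeneous 1 → HLi D i r w →
    ∃ e : ℝ, 0 < e ∧ ∀ t : ℝ, |t| < e → HLi D i r (w + C t * x)

/-- Representation of a functional. -/
def Stmt_REP : Prop :=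
  ∀ (J : Type) [Fintype J] (D : MvPolynomial J ℝ →ₗ[ℝ] ℝ) (i r : ℕ) (w : MvPolynomial J ℝ),
    w.IsHomogeneous 1 → HLi D i r w → ∀ f : MvPolynomial J ℝ →ₗ[ℝ] ℝ,
    (∀ p : MvPolynomial J ℝ, p.IsHomogeneous i →
      (∀ q : MvPolynomial J ℝ, q.IsHomogeneous (i + r) → D (p * q) = 0) → f p = 0) →
    ∃ z : MvPolynomial J ℝ, z.IsHomogeneous i ∧
      ∀ q : MvPolynomial J ℝ, q.IsHomogeneous i → D (z * w ^ r * q) = f q

/-- Boundedness of the representing element. -/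
def Stmt_BD : Prop :=
  ∀ (J : Type) [Fintype J] (D : MvPolynomial J ℝ →ₗ[ℝ] ℝ) (i r : ℕ) (w x : MvPolynomial J ℝ),
    w.IsHomogeneous 1 → x.IsHomogeneous 1 → HLi D i r w → ∀ f : MvPolynomial J ℝ →ₗ[ℝ] ℝ,
    (∀ p : MvPolynomial J ℝ, p.IsHomogeneous i →
      (∀ q : MvPolynomial J ℝ, q.IsHomogeneous (i + r) → D (p * q) = 0) → f p = 0) →
    ∃ e b : ℝ, 0 < e ∧ ∀ t : ℝ, |t| < e → ∀ z : MvPolynomial J ℝ, z.IsHomogeneous i →
      (∀ q : MvPolynomial J ℝ, q.IsHomogeneous i → D (z * (w + C t * x) ^ r * q) = f q) →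
      |f z| ≤ b

/-- Continuity of the Hodge-Riemann relation along a path. -/
def Stmt_HRC : Prop :=
  ∀ (J : Type) [Fintype J] (T : Set ℝ) (D : ℝ → MvPolynomial J ℝ →ₗ[ℝ] ℝ)
    (w : ℝ → MvPolynomial J ℝ) (i r : ℕ),
    T.OrdConnected → (∀ t, (w t).IsHomogeneous 1) →
    (∀ m : ℕ, r ≤ m → ∀ p q : MvPolynomial J ℝ,
      ContinuousOn (fun t => D t (p * w t ^ m * q)) T) →
    (∀ t ∈ T, HLi (D t) i r (w t)) →
    (∀ t ∈ T, ∀ k : ℕ, k + 1 = i → HLi (D t) k (r + 2) (w t)) →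
    (∀ t ∈ T, ∀ t' ∈ T, ∀ p : MvPolynomial J ℝ, p.IsHomogeneous i →
      (∀ q : MvPolynomial J ℝ, q.IsHomogeneous (i + r) → D t (p * q) = 0) →
      ∀ q : MvPolynomial J ℝ, q.IsHomogeneous (i + r) → D t' (p * q) = 0) →
    (∀ k : ℕ, k + 1 = i → ∀ t ∈ T, ∀ t' ∈ T, ∀ p : MvPolynomial J ℝ, p.IsHomogeneous k →
      (∀ q : MvPolynomial J ℝ, q.IsHomogeneous (i + r + 1) → D t (p * q) = 0) →
      ∀ q : MvPolynomial J ℝ, q.IsHomogeneous (i + r + 1) → D t' (p * q) = 0) →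
    ∀ t₀ ∈ T, HRi (D t₀) i r (w t₀) → ∀ t ∈ T, HRi (D t) i r (w t)

/-! ## Part B: algebra of functionals -/

/-- Transfer along a graded surjection. -/
def Stmt_TR : Prop :=
  ∀ (J J' : Type) (f : MvPolynomial J ℝ →ₐ[ℝ] MvPolynomial J' ℝ)
    (g : MvPolynomial J' ℝ →ₐ[ℝ] MvPolynomial J ℝ)
    (D : MvPolynomial J ℝ →ₗ[ℝ] ℝ) (D' : MvPolynomial J' ℝ →ₗ[ℝ] ℝ) (N : ℕ)
    (w : MvPolynomial J ℝ),
    (∀ (k : ℕ) (p : MvPolynomial J ℝ), p.IsHomogeneous k → (f p).IsHomogeneous k) →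
    (∀ (k : ℕ) (p : MvPolynomial J' ℝ), p.IsHomogeneous k → (g p).IsHomogeneous k) →
    (∀ p, f (g p) = p) → w.IsHomogeneous 1 →
    (∀ p : MvPolynomial J ℝ, p.IsHomogeneous N → D p = D' (f p)) →
    (HR D N w ↔ HR D' N (f w))

/-- Hard Lefschetz from the Hodge-Riemann relations of the facets. -/
def Stmt_HLT : Prop :=
  ∀ (J : Type) [Fintype J] (D : MvPolynomial J ℝ →ₗ[ℝ] ℝ) (n : ℕ) (w : MvPolynomial J ℝ)
    (c : J → ℝ), w.IsHomogeneous 1 → (∀ l, 0 < c l) →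
    (∀ q : MvPolynomial J ℝ, q.IsHomogeneous n → D ((w - om c) * q) = 0) →
    (∀ l, HR (act (X l) D) n w) → HL D (n + 1) w

/-- Hard Lefschetz at a wall. -/
def Stmt_WALL : Prop :=
  ∀ (J : Type) [Fintype J] (D : MvPolynomial J ℝ →ₗ[ℝ] ℝ) (n : ℕ) (g : J → ℝ) (o : J)
    (w : MvPolynomial J ℝ) (I : Finset J) (i r : ℕ),
    2 * i + r = n + 1 → I.card ≤ i + r → g o = 1 → (∀ j ∈ I, g j ≠ 0) → w.IsHomogeneous 1 →
    (∀ (m : ℕ) (q : MvPolynomial J ℝ), m + I.card = n + 1 → q.IsHomogeneous m →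
      D (mon I * q) = 0) →
    (∀ j : J, ∃ c : J → ℝ, (∀ l, g l ≠ 0 → c l = 0) ∧
      ∀ q : MvPolynomial J ℝ, q.IsHomogeneous n → D ((X j - C (g j) * X o - om c) * q) = 0) →
    (∃ c : J → ℝ, (∀ l, g l ≠ 0 → c l = 0) ∧ (∀ l, g l = 0 → 0 < c l) ∧
      ∀ q : MvPolynomial J ℝ, q.IsHomogeneous n → D ((w - om c) * q) = 0) →
    (∀ l, g l = 0 → HR (act (X l) D) n w) → HLi D i r w

/-- Flip: annihilators below the two sizes. -/
def Stmt_FANN : Prop :=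
  ∀ (J : Type) [Fintype J] (N : ℕ) (D0 D1 : MvPolynomial J ℝ →ₗ[ℝ] ℝ) (g : J → ℝ) (s : ℝ)
    (o : J) (w : MvPolynomial J ℝ) (Ip Im : Finset J), Flip N D0 D1 g s o w Ip Im →
    ∀ i j : ℕ, i + j = N →
    (i < Im.card → ∀ p : MvPolynomial J ℝ, p.IsHomogeneous i →
      (∀ q : MvPolynomial J ℝ, q.IsHomogeneous j → D0 (p * q) = 0) → aeval g p = 0) ∧
    (i < Ip.card → ∀ p : MvPolynomial J ℝ, p.IsHomogeneous i →
      (∀ q : MvPolynomial J ℝ, q.IsHomogeneous j → D1 (p * q) = 0) → aeval g p = 0)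

/-- Flip: the elements with value 1 killing the small functional. -/
def Stmt_FNU : Prop :=
  ∀ (J : Type) [Fintype J] (N : ℕ) (D0 D1 : MvPolynomial J ℝ →ₗ[ℝ] ℝ) (g : J → ℝ) (s : ℝ)
    (o : J) (w : MvPolynomial J ℝ) (Ip Im : Finset J), Flip N D0 D1 g s o w Ip Im →
    ∀ i j : ℕ, i + j = N →
    (Im.card ≤ i → ∃ v : MvPolynomial J ℝ, v.IsHomogeneous i ∧ aeval g v = (1 : ℝ) ∧
      ∀ q : MvPolynomial J ℝ, q.IsHomogeneous j → D0 (v * q) = 0) ∧
    (Ip.card ≤ i → ∃ v : MvPolynomial J ℝ, v.IsHomogeneous i ∧ aeval g v = (1 : ℝ) ∧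
      ∀ q : MvPolynomial J ℝ, q.IsHomogeneous j → D1 (v * q) = 0)

/-- Flip: hard Lefschetz at the wall. -/
def Stmt_FW : Prop :=
  ∀ (J : Type) [Fintype J] (N : ℕ) (D0 D1 : MvPolynomial J ℝ →ₗ[ℝ] ℝ) (g : J → ℝ) (s : ℝ)
    (o : J) (w : MvPolynomial J ℝ) (Ip Im : Finset J), Flip N D0 D1 g s o w Ip Im →
    ∀ i r : ℕ, 2 * i + r = N →
    (Im.card ≤ i + r → HLi D0 i r w) ∧ (Ip.card ≤ i + r → HLi D1 i r w)

/-- Degree equal to the size, small to big. -/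
def Stmt_FEQ : Prop :=
  ∀ (J : Type) (D0 D1 : MvPolynomial J ℝ →ₗ[ℝ] ℝ) (g : J → ℝ) (s : ℝ)
    (w z : MvPolynomial J ℝ) (k r : ℕ),
    (∀ p, D1 p = D0 p + s * aeval g p) → w.IsHomogeneous 1 → (0 : ℝ) < aeval g w →
    z.IsHomogeneous k →
    (∀ y : MvPolynomial J ℝ, y.IsHomogeneous k → D0 (z * w ^ (r + 2) * y) = aeval g y) →
    0 < s * (-1 : ℝ) ^ (k + 1) → 0 < 1 + s * (aeval g w) ^ (r + 2) * aeval g z →
    HRi D0 (k + 1) r w → HRi D1 (k + 1) r w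

/-- Degree above the size, small to big. -/
def Stmt_FGT : Prop :=
  ∀ (J : Type) (D0 D1 : MvPolynomial J ℝ →ₗ[ℝ] ℝ) (g : J → ℝ) (s : ℝ)
    (w v : MvPolynomial J ℝ) (k r : ℕ),
    (∀ p, D1 p = D0 p + s * aeval g p) → w.IsHomogeneous 1 → (aeval g w : ℝ) ≠ 0 → s ≠ 0 →
    v.IsHomogeneous k → aeval g v = (1 : ℝ) →
    (∀ q : MvPolynomial J ℝ, q.IsHomogeneous (k + r + 2) → D0 (v * q) = 0) →
    HRi D0 (k + 1) r w → HRi D1 (k + 1) r w

/-- Degree at least the size, big to small. -/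
def Stmt_FDN : Prop :=
  ∀ (J : Type) (D0 D1 : MvPolynomial J ℝ →ₗ[ℝ] ℝ) (g : J → ℝ) (s : ℝ)
    (w v : MvPolynomial J ℝ) (i r : ℕ),
    (∀ p, D1 p = D0 p + s * aeval g p) → w.IsHomogeneous 1 →
    v.IsHomogeneous i → aeval g v = (1 : ℝ) →
    (∀ q : MvPolynomial J ℝ, q.IsHomogeneous (i + r) → D1 (v * q) = 0) →
    HRi D0 i r w → HRi D1 i r w

/-- Flip, degrees below both sizes. -/
def Stmt_FA : Prop :=
  ∀ (J : Type) [Fintype J] (N : ℕ) (D0 D1 : MvPolynomial J ℝ →ₗ[ℝ] ℝ) (g : J → ℝ) (s : ℝ)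
    (o : J) (w : MvPolynomial J ℝ) (Ip Im : Finset J), Flip N D0 D1 g s o w Ip Im →
    ∀ d : ℝ, 0 < d →
    (∀ t : ℝ, -d < t → t < 0 → HR D0 N (w + C t * X o)) →
    (∀ t : ℝ, 0 < t → t < d → HL D1 N (w + C t * X o)) →
    ∀ i r : ℕ, 2 * i + r = N → i < Im.card → i < Ip.card →
    ∃ e : ℝ, 0 < e ∧ ∀ t : ℝ, 0 < t → t < e → HRi D1 i r (w + C t * X o)

/-- Flip, negative side at most the positive side, degree at least the negative size. -/
def Stmt_FB : Prop :=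
  ∀ (J : Type) [Fintype J] (N : ℕ) (D0 D1 : MvPolynomial J ℝ →ₗ[ℝ] ℝ) (g : J → ℝ) (s : ℝ)
    (o : J) (w : MvPolynomial J ℝ) (Ip Im : Finset J), Flip N D0 D1 g s o w Ip Im →
    ∀ d : ℝ, 0 < d →
    (∀ t : ℝ, -d < t → t < 0 → HR D0 N (w + C t * X o)) →
    (∀ t : ℝ, 0 < t → t < d → HL D1 N (w + C t * X o)) →
    ∀ i r : ℕ, 2 * i + r = N → Im.card ≤ Ip.card → Im.card ≤ i →
    ∃ e : ℝ, 0 < e ∧ ∀ t : ℝ, 0 < t → t < e → HRi D1 i r (w + C t * X o)

/-- Flip, positive side smaller, degree at least the positive size. -/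
def Stmt_FC : Prop :=
  ∀ (J : Type) [Fintype J] (N : ℕ) (D0 D1 : MvPolynomial J ℝ →ₗ[ℝ] ℝ) (g : J → ℝ) (s : ℝ)
    (o : J) (w : MvPolynomial J ℝ) (Ip Im : Finset J), Flip N D0 D1 g s o w Ip Im →
    ∀ d : ℝ, 0 < d →
    (∀ t : ℝ, -d < t → t < 0 → HR D0 N (w + C t * X o)) →
    (∀ t : ℝ, 0 < t → t < d → HL D1 N (w + C t * X o)) →
    ∀ i r : ℕ, 2 * i + r = N → Ip.card < Im.card → Ip.card ≤ i →
    ∃ e : ℝ, 0 < e ∧ ∀ t : ℝ, 0 < t → t < e → HRi D1 i r (w + C t * X o)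

/-- The flip theorem. -/
def Stmt_FLIP : Prop :=
  ∀ (J : Type) [Fintype J] (N : ℕ) (D0 D1 : MvPolynomial J ℝ →ₗ[ℝ] ℝ) (g : J → ℝ) (s : ℝ)
    (o : J) (w : MvPolynomial J ℝ) (Ip Im : Finset J), Flip N D0 D1 g s o w Ip Im →
    ∀ d : ℝ, 0 < d →
    (∀ t : ℝ, -d < t → t < 0 → HR D0 N (w + C t * X o)) →
    (∀ t : ℝ, 0 < t → t < d → HL D1 N (w + C t * X o)) →
    ∃ e : ℝ, 0 < e ∧ ∀ t : ℝ, 0 < t → t < e → HR D1 N (w + C t * X o)

/-! ## Part C: geometry of simple systems -/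

/-- Functionals of a face are independent. -/
def Stmt_IND : Prop :=
  ∀ (V M : Type) [AddCommGroup V] [Module ℝ V] [FiniteDimensional ℝ V] [Fintype M]
    (a : M → Module.Dual ℝ V) (h : M → ℝ), Simple a h → ∀ s : Finset M, IsFace a h s →
    LinearIndependent ℝ (fun j : {j : M // j ∈ s} => a j.1) ∧ s.card ≤ Module.finrank ℝ V ∧
    ∀ c : M → ℝ, ∃ y : V, ∀ j ∈ s, a j y = c j

/-- Facts on vertices. -/
def Stmt_VERT : Prop :=
  ∀ (V M : Type) [AddCommGroup V] [Module ℝ V] [FiniteDimensional ℝ V] [Fintype M]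
    (a : M → Module.Dual ℝ V) (h : M → ℝ), Simple a h → ∀ B : Finset M,
    IsVert a h (Module.finrank ℝ V) B → VertFacts a h B

/-- Minimum at a vertex of the face of a point. -/
def Stmt_MINV : Prop :=
  ∀ (V M : Type) [AddCommGroup V] [Module ℝ V] [FiniteDimensional ℝ V] [Fintype M]
    (a : M → Module.Dual ℝ V) (h : M → ℝ), Simple a h → ∀ (z : Module.Dual ℝ V) (x : V),
    Feas a h x → ∃ B : Finset M, IsVert a h (Module.finrank ℝ V) B ∧
      (∀ j, a j x = h j → j ∈ B) ∧ z (pt a h B) ≤ z x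

/-- Edges. -/
def Stmt_EDGE : Prop :=
  ∀ (V M : Type) [AddCommGroup V] [Module ℝ V] [FiniteDimensional ℝ V] [Fintype M]
    [DecidableEq M] (a : M → Module.Dual ℝ V) (h : M → ℝ), Simple a h → ∀ s : Finset M,
    IsFace a h s → s.card + 1 = Module.finrank ℝ V →
    ∃ l l' : M, l ≠ l' ∧ l ∉ s ∧ l' ∉ s ∧
      (∀ k, k ∉ s → (IsFace a h (insert k s) ↔ k = l ∨ k = l')) ∧
      ∃ (m : ℝ) (c : M → ℝ), m < 0 ∧ a l' = m • a l + ∑ j ∈ s, c j • a j

/-- Existence of generic functionals. -/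
def Stmt_GEN : Prop :=
  ∀ (V M : Type) [AddCommGroup V] [Module ℝ V] [FiniteDimensional ℝ V] [Fintype M]
    (a : M → Module.Dual ℝ V) (h : M → ℝ), Simple a h →
    ∃ z : Module.Dual ℝ V, Gen a h (Module.finrank ℝ V) z

/-- A vertex that is the lowest one of a face. -/
def Stmt_LOW : Prop :=
  ∀ (V M : Type) [AddCommGroup V] [Module ℝ V] [FiniteDimensional ℝ V] [Fintype M]
    (a : M → Module.Dual ℝ V) (h : M → ℝ), Simple a h →
    ∀ (z : Module.Dual ℝ V) (B s : Finset M), IsVert a h (Module.finrank ℝ V) B → s ⊆ B →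
    (∀ l ∈ B, l ∉ s → co a z B l < 0) →
    ∀ B' : Finset M, IsVert a h (Module.finrank ℝ V) B' → s ⊆ B' →
      B' = B ∨ z (pt a h B) < z (pt a h B')

/-- Faces of a cut system. -/
def Stmt_CUTF : Prop :=
  ∀ (V M : Type) [AddCommGroup V] [Module ℝ V] [FiniteDimensional ℝ V] [Fintype M]
    (a : M → Module.Dual ℝ V) (h : M → ℝ), Simple a h →
    ∀ (z : Module.Dual ℝ V) (c : ℝ) (s : Finset M),
    (IsFace (cutA a z) (cutH h c) (s.map Function.Embedding.some) ↔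
      ∃ B : Finset M, IsVert a h (Module.finrank ℝ V) B ∧ s ⊆ B ∧ z (pt a h B) ≤ c) ∧
    (IsFace (cutA a z) (cutH h c) (Finset.insertNone s) ↔
      (∃ B : Finset M, IsVert a h (Module.finrank ℝ V) B ∧ s ⊆ B ∧ z (pt a h B) ≤ c) ∧
      (∃ B : Finset M, IsVert a h (Module.finrank ℝ V) B ∧ s ⊆ B ∧ c ≤ z (pt a h B)))

/-- The facet system is simple. -/
def Stmt_FACS : Prop :=
  ∀ (V M : Type) [AddCommGroup V] [Module ℝ V] [FiniteDimensional ℝ V] [Fintype M]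
    (a : M → Module.Dual ℝ V) (h : M → ℝ) (o : M) (y : V), Bdd a →
    (∀ x : V, Feas a h x → a o x = h o →
      LinearIndependent ℝ (fun j : {j : M // a j x = h j} => a j.1)) →
    a o y = 1 → IsFace a h {o} → Simple (facA a o) (facH a h o y)

/-- Faces of the facet system. -/
def Stmt_FACF : Prop :=
  ∀ (V M : Type) [AddCommGroup V] [Module ℝ V] (a : M → Module.Dual ℝ V) (h : M → ℝ) (o : M)
    (y : V), a o y = 1 → ∀ s : Finset {i : M // i ≠ o},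
    (IsFace (facA a o) (facH a h o y) s ↔
      ∃ x : V, Feas a h x ∧ a o x = h o ∧ ∀ j ∈ s, a j.1 x = h j.1)

/-- The facet functional is a degree functional. -/
def Stmt_FACD : Prop :=
  ∀ (V M : Type) [AddCommGroup V] [Module ℝ V] [FiniteDimensional ℝ V] [Fintype M]
    [DecidableEq M]
    (a : M → Module.Dual ℝ V) (h : M → ℝ) (o : M) (y : V) (n : ℕ)
    (D : MvPolynomial M ℝ →ₗ[ℝ] ℝ), a o y = 1 → LinK a (n + 1) D → DegAt a h (n + 1) D o →
    IsDeg (facA a o) (facH a h o y) n (facD D o)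

/-- The facet substitution. -/
def Stmt_FACP : Prop :=
  ∀ (V M : Type) [AddCommGroup V] [Module ℝ V] [Fintype M] [DecidableEq M]
    (a : M → Module.Dual ℝ V) (h : M → ℝ) (o : M) (y : V) (n : ℕ)
    (D : MvPolynomial M ℝ →ₗ[ℝ] ℝ), a o y = 1 → LinK a (n + 1) D →
    (∀ (k : ℕ) (p : MvPolynomial M ℝ), p.IsHomogeneous k → (facP a o y p).IsHomogeneous k) ∧
    (∀ p : MvPolynomial {i : M // i ≠ o} ℝ,
      facP a o y (rename (fun i : {i : M // i ≠ o} => i.1) p) = p) ∧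
    (∀ p : MvPolynomial M ℝ, p.IsHomogeneous n → D (X o * p) = facD D o (facP a o y p)) ∧
    facP a o y (om h) = om (facH a h o y)

/-- Hodge-Riemann relations for a facet. -/
def Stmt_FAC : Prop :=
  ∀ n : ℕ, SHRat n →
  ∀ (V M : Type) [AddCommGroup V] [Module ℝ V] [FiniteDimensional ℝ V] [Fintype M]
    (a : M → Module.Dual ℝ V) (h : M → ℝ) (D : MvPolynomial M ℝ →ₗ[ℝ] ℝ) (o : M),
    Module.finrank ℝ V = n + 1 → Bdd a → LinK a (n + 1) D → DegAt a h (n + 1) D o →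
    HR (act (X o) D) n (om h)

/-! ## Part D: localization -/

/-- The weights of a degree functional are balanced. -/
def Stmt_BALD : Prop :=
  ∀ (V M : Type) [AddCommGroup V] [Module ℝ V] [FiniteDimensional ℝ V] [Fintype M]
    (a : M → Module.Dual ℝ V) (h : M → ℝ) (N : ℕ) (D : MvPolynomial M ℝ →ₗ[ℝ] ℝ),
    Simple a h → Module.finrank ℝ V = N → IsDeg a h N D → Bal a h N (fun s => D (mon s))

/-- Vanishing of the localization sums. -/
def Stmt_FP1 : Prop :=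
  ∀ (V M : Type) [AddCommGroup V] [Module ℝ V] [FiniteDimensional ℝ V] [Fintype M]
    (a : M → Module.Dual ℝ V) (h : M → ℝ) (N : ℕ) (z : Module.Dual ℝ V) (u : Finset M → ℝ),
    Simple a h → Module.finrank ℝ V = N → Gen a h N z → Bal a h N u →
    ∀ (s : Finset M) (m : ℕ) (q : MvPolynomial M ℝ), q.IsHomogeneous m → m + s.card < N →
      phi a h N z u s q = 0

/-- The localization formula. -/
def Stmt_FP2 : Prop :=
  ∀ (V M : Type) [AddCommGroup V] [Module ℝ V] [FiniteDimensional ℝ V] [Fintype M]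
    (a : M → Module.Dual ℝ V) (h : M → ℝ) (N : ℕ) (z : Module.Dual ℝ V)
    (D : MvPolynomial M ℝ →ₗ[ℝ] ℝ),
    Simple a h → Module.finrank ℝ V = N → Gen a h N z → IsDeg a h N D →
    ∀ (s : Finset M) (m : ℕ) (q : MvPolynomial M ℝ), q.IsHomogeneous m → m + s.card = N →
      phi a h N z (fun t => D (mon t)) s q = D (mon s * q)

/-- Existence of degree functionals. -/
def Stmt_EX : Prop :=
  ∀ (V M : Type) [AddCommGroup V] [Module ℝ V] [FiniteDimensional ℝ V] [Fintype M]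
    (a : M → Module.Dual ℝ V) (h : M → ℝ) (N : ℕ) (u : Finset M → ℝ),
    Simple a h → Module.finrank ℝ V = N → Bal a h N u → (∀ B, IsVert a h N B → 0 < u B) →
    ∃ D : MvPolynomial M ℝ →ₗ[ℝ] ℝ, IsDeg a h N D ∧ (∀ B, IsVert a h N B → D (mon B) = u B) ∧
      ∀ (m : ℕ) (p : MvPolynomial M ℝ), p.IsHomogeneous m → m ≠ N → D p = 0

/-- The determinant weights. -/
def Stmt_DETW : Prop :=
  ∀ (V M : Type) [AddCommGroup V] [Module ℝ V] [FiniteDimensional ℝ V] [Fintype M]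
    (a : M → Module.Dual ℝ V) (h : M → ℝ) (N : ℕ) (b : Module.Basis (Fin N) ℝ V),
    Simple a h → (∀ B, IsVert a h N B → 0 < vol b a B) ∧ Bal a h N (fun s => (vol b a s)⁻¹)

/-! ## Part E: the sweep -/

/-- The reversed functional is generic. -/
def Stmt_GNEG : Prop :=
  ∀ (V M : Type) [AddCommGroup V] [Module ℝ V] [FiniteDimensional ℝ V] [Fintype M]
    (a : M → Module.Dual ℝ V) (h : M → ℝ) (N : ℕ) (z : Module.Dual ℝ V),
    Simple a h → Module.finrank ℝ V = N → Gen a h N z →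
    Gen a h N (-z) ∧ ∀ B, IsVert a h N B → ∀ j, co a (-z) B j = - co a z B j

/-- The cut functional kills faces above the level. -/
def Stmt_SR0 : Prop :=
  ∀ (V M : Type) [AddCommGroup V] [Module ℝ V] [FiniteDimensional ℝ V] [Fintype M]
    (a : M → Module.Dual ℝ V) (h : M → ℝ) (N : ℕ) (z : Module.Dual ℝ V)
    (D : MvPolynomial M ℝ →ₗ[ℝ] ℝ),
    Simple a h → Module.finrank ℝ V = N → Gen a h N z → IsDeg a h N D →
    ∀ (c : ℝ) (s : Finset M), (∀ B, IsVert a h N B → s ⊆ B → c ≤ z (pt a h B)) →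
    ∀ q : MvPolynomial (Option M) ℝ,
      Dc a h N z D c (mon (s.map Function.Embedding.some) * q) = 0

/-- The cut functional kills faces below the level times the new variable. -/
def Stmt_SR1 : Prop :=
  ∀ (V M : Type) [AddCommGroup V] [Module ℝ V] [FiniteDimensional ℝ V] [Fintype M]
    (a : M → Module.Dual ℝ V) (h : M → ℝ) (N : ℕ) (z : Module.Dual ℝ V)
    (D : MvPolynomial M ℝ →ₗ[ℝ] ℝ),
    Simple a h → Module.finrank ℝ V = N → Gen a h N z → IsDeg a h N D →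
    ∀ (c : ℝ) (s : Finset M), (∀ B, IsVert a h N B → s ⊆ B → z (pt a h B) < c) →
    ∀ (n : ℕ) (q : MvPolynomial (Option M) ℝ), n + s.card + 1 = N → q.IsHomogeneous n →
      Dc a h N z D c (mon (Finset.insertNone s) * q) = 0

/-- Above all vertices the cut functional is the functional. -/
def Stmt_DTOP : Prop :=
  ∀ (V M : Type) [AddCommGroup V] [Module ℝ V] [FiniteDimensional ℝ V] [Fintype M]
    (a : M → Module.Dual ℝ V) (h : M → ℝ) (N : ℕ) (z : Module.Dual ℝ V)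
    (D : MvPolynomial M ℝ →ₗ[ℝ] ℝ),
    Simple a h → Module.finrank ℝ V = N → Gen a h N z → IsDeg a h N D →
    ∀ c : ℝ, (∀ B, IsVert a h N B → z (pt a h B) < c) →
    ∀ p : MvPolynomial M ℝ, p.IsHomogeneous N → Dc a h N z D c (rename some p) = D p

/-- The cut functional kills the linear forms. -/
def Stmt_DLIN : Prop :=
  ∀ (V M : Type) [AddCommGroup V] [Module ℝ V] [FiniteDimensional ℝ V] [Fintype M]
    (a : M → Module.Dual ℝ V) (h : M → ℝ) (N : ℕ) (z : Module.Dual ℝ V)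
    (D : MvPolynomial M ℝ →ₗ[ℝ] ℝ) (c : ℝ),
    Simple a h → Module.finrank ℝ V = N →
    ∀ (y : V) (q : MvPolynomial (Option M) ℝ), Dc a h N z D c (lin (cutA a z) y * q) = 0

/-- Positivity of the cut functional at the vertices of the cut polytope. -/
def Stmt_DPOS : Prop :=
  ∀ (V M : Type) [AddCommGroup V] [Module ℝ V] [FiniteDimensional ℝ V] [Fintype M]
    (a : M → Module.Dual ℝ V) (h : M → ℝ) (N : ℕ) (z : Module.Dual ℝ V)
    (D : MvPolynomial M ℝ →ₗ[ℝ] ℝ),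
    Simple a h → Module.finrank ℝ V = N → Gen a h N z → IsDeg a h N D → ∀ c : ℝ,
    (∀ B, IsVert a h N B → z (pt a h B) < c →
      0 < Dc a h N z D c (mon (B.map Function.Embedding.some))) ∧
    (∀ s : Finset M, s.card + 1 = N →
      (∃ B, IsVert a h N B ∧ s ⊆ B ∧ z (pt a h B) < c) →
      (∃ B, IsVert a h N B ∧ s ⊆ B ∧ c ≤ z (pt a h B)) →
      0 < Dc a h N z D c (mon (Finset.insertNone s)))

/-- The cut system is good along the facets at which the level is not critical. -/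
def Stmt_DEGAT : Prop :=
  ∀ (V M : Type) [AddCommGroup V] [Module ℝ V] [FiniteDimensional ℝ V] [Fintype M]
    (a : M → Module.Dual ℝ V) (h : M → ℝ) (N : ℕ) (z : Module.Dual ℝ V)
    (D : MvPolynomial M ℝ →ₗ[ℝ] ℝ),
    Simple a h → Module.finrank ℝ V = N → Gen a h N z → IsDeg a h N D →
    ∀ (c : ℝ) (o : Option M),
    (∀ B, IsVert a h N B → (∀ j, o = some j → j ∈ B) → z (pt a h B) ≠ c) →
    DegAt (cutA a z) (cutH h c) N (Dc a h N z D c) o

/-- Facet Hodge-Riemann relations of the cut system. -/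
def Stmt_CFAC : Prop :=
  ∀ n : ℕ, SHRat n →
  ∀ (V M : Type) [AddCommGroup V] [Module ℝ V] [FiniteDimensional ℝ V] [Fintype M]
    (a : M → Module.Dual ℝ V) (h : M → ℝ) (z : Module.Dual ℝ V)
    (D : MvPolynomial M ℝ →ₗ[ℝ] ℝ),
    Simple a h → Module.finrank ℝ V = n + 1 → Gen a h (n + 1) z → IsDeg a h (n + 1) D →
    ∀ (c : ℝ) (o : Option M),
    (∀ B, IsVert a h (n + 1) B → (∀ j, o = some j → j ∈ B) → z (pt a h B) ≠ c) →
    HR (act (X o) (Dc a h (n + 1) z D c)) n (om (cutH h c))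

/-- Hard Lefschetz of the cut system at a noncritical level above the minimum. -/
def Stmt_CHL : Prop :=
  ∀ n : ℕ, SHRat n →
  ∀ (V M : Type) [AddCommGroup V] [Module ℝ V] [FiniteDimensional ℝ V] [Fintype M]
    (a : M → Module.Dual ℝ V) (h : M → ℝ) (z : Module.Dual ℝ V)
    (D : MvPolynomial M ℝ →ₗ[ℝ] ℝ),
    Simple a h → Module.finrank ℝ V = n + 1 → Gen a h (n + 1) z → IsDeg a h (n + 1) D →
    ∀ c : ℝ, (∀ B, IsVert a h (n + 1) B → z (pt a h B) ≠ c) →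
    (∃ B, IsVert a h (n + 1) B ∧ z (pt a h B) < c) →
    HL (Dc a h (n + 1) z D c) (n + 1) (om (cutH h c))

/-- The start of the sweep: exactly one vertex below the level. -/
def Stmt_START : Prop :=
  ∀ (V M : Type) [AddCommGroup V] [Module ℝ V] [FiniteDimensional ℝ V] [Fintype M]
    (a : M → Module.Dual ℝ V) (h : M → ℝ) (N : ℕ) (z : Module.Dual ℝ V)
    (D : MvPolynomial M ℝ →ₗ[ℝ] ℝ),
    Simple a h → Module.finrank ℝ V = N → Gen a h N z → IsDeg a h N D →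
    ∀ (c : ℝ) (B : Finset M), IsVert a h N B → z (pt a h B) < c →
    (∀ B', IsVert a h N B' → z (pt a h B') < c → B' = B) →
    HR (Dc a h N z D c) N (om (cutH h c))

/-- A vertex of the sweep is a flip. -/
def Stmt_SFLIP : Prop :=
  ∀ n : ℕ, SHRat n →
  ∀ (V M : Type) [AddCommGroup V] [Module ℝ V] [FiniteDimensional ℝ V] [Fintype M]
    (a : M → Module.Dual ℝ V) (h : M → ℝ) (z : Module.Dual ℝ V)
    (D : MvPolynomial M ℝ →ₗ[ℝ] ℝ),
    Simple a h → Module.finrank ℝ V = n + 1 → Gen a h (n + 1) z → IsDeg a h (n + 1) D →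
    ∀ (B : Finset M) (c : ℝ), IsVert a h (n + 1) B →
    (∃ B', IsVert a h (n + 1) B' ∧ z (pt a h B') < z (pt a h B)) →
    (∀ B', IsVert a h (n + 1) B' → (z (pt a h B') < c ↔ z (pt a h B') ≤ z (pt a h B))) →
    ∃ Ip Im : Finset (Option M),
    Flip (n + 1) (Dc a h (n + 1) z D (z (pt a h B))) (Dc a h (n + 1) z D c) (lam a z B)
      (D (mon B) / ∏ j ∈ B, co a (-z) B j) none (om (cutH h (z (pt a h B)))) Ip Im

/-- The end of the sweep. -/
def Stmt_END : Prop :=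
  ∀ (V M : Type) [AddCommGroup V] [Module ℝ V] [FiniteDimensional ℝ V] [Fintype M]
    (a : M → Module.Dual ℝ V) (h : M → ℝ) (N : ℕ) (z : Module.Dual ℝ V)
    (D : MvPolynomial M ℝ →ₗ[ℝ] ℝ),
    Simple a h → Module.finrank ℝ V = N → Gen a h N z → IsDeg a h N D →
    ∀ c : ℝ, (∀ B, IsVert a h N B → z (pt a h B) < c) →
    HR (Dc a h N z D c) N (om (cutH h c)) → HR D N (om h)

/-- The sweep. -/
def Stmt_SWEEP : Prop :=
  ∀ n : ℕ, SHRat n →
  ∀ (V M : Type) [AddCommGroup V] [Module ℝ V] [FiniteDimensional ℝ V] [Fintype M]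
    (a : M → Module.Dual ℝ V) (h : M → ℝ) (z : Module.Dual ℝ V)
    (D : MvPolynomial M ℝ →ₗ[ℝ] ℝ),
    Simple a h → Module.finrank ℝ V = n + 1 → Gen a h (n + 1) z → IsDeg a h (n + 1) D →
    ∀ c : ℝ, (∀ B, IsVert a h (n + 1) B → z (pt a h B) ≠ c) →
    (∃ B, IsVert a h (n + 1) B ∧ z (pt a h B) < c) →
    HR (Dc a h (n + 1) z D c) (n + 1) (om (cutH h c))

/-- Dimension zero. -/
def Stmt_ZERO : Prop := SHRat 0

/-- The induction step. -/
def Stmt_STEP : Prop := ∀ n : ℕ, SHRat n → SHRat (n + 1)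

/-! ## Part F: Poincare duality and consequences -/

/-- Spanning by the monomials of the upper parts. -/
def Stmt_PD1 : Prop :=
  ∀ (V M : Type) [AddCommGroup V] [Module ℝ V] [FiniteDimensional ℝ V] [Fintype M]
    (a : M → Module.Dual ℝ V) (h : M → ℝ) (N : ℕ) (z : Module.Dual ℝ V),
    Simple a h → Module.finrank ℝ V = N → Gen a h N z →
    ∀ (k : ℕ) (p : MvPolynomial M ℝ), p.IsHomogeneous k →
      p ∈ Submodule.span ℝ {f | ∃ B : Finset M, IsVert a h N B ∧ (Rset a z B).card = k ∧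
        f = mon (Rset a z B)} ⊔ Rel a h k

/-- Poincare duality: functionals killing the relations are represented. -/
def Stmt_PDS : Prop :=
  ∀ (V M : Type) [AddCommGroup V] [Module ℝ V] [FiniteDimensional ℝ V] [Fintype M]
    (a : M → Module.Dual ℝ V) (h : M → ℝ) (N : ℕ) (D : MvPolynomial M ℝ →ₗ[ℝ] ℝ),
    Simple a h → Module.finrank ℝ V = N → IsDeg a h N D →
    ∀ (m : ℕ) (L : MvPolynomial M ℝ →ₗ[ℝ] ℝ),
    (∀ e : M →₀ ℕ, e.degree = m → ¬ IsFace a h e.support → L (monomial e 1) = 0) →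
    LinK a m L →
    (N < m → ∀ q : MvPolynomial M ℝ, q.IsHomogeneous m → L q = 0) ∧
    (∀ n : ℕ, m + n = N → ∃ p : MvPolynomial M ℝ, p.IsHomogeneous n ∧
      ∀ q : MvPolynomial M ℝ, q.IsHomogeneous m → L q = D (p * q))

/-- Hodge-Riemann relations for all faces. -/
def Stmt_FACE : Prop :=
  (∀ N, SHRat N) →
  ∀ (V M : Type) [AddCommGroup V] [Module ℝ V] [FiniteDimensional ℝ V] [Fintype M]
    (a : M → Module.Dual ℝ V) (h : M → ℝ) (N : ℕ) (D : MvPolynomial M ℝ →ₗ[ℝ] ℝ),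
    Simple a h → Module.finrank ℝ V = N → IsDeg a h N D →
    ∀ (s : Finset M) (n : ℕ), n + s.card = N → HR (act (mon s) D) n (om h)

end Pool.Agent.KF.S
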